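import Mathlib

/-!
The combinatorial model of the 2-Selmer group.
A state is `none` (good prime), `some none` (no variable, no condition) or
`some (some (i, b))` (type `i`; `b` is true when the reduction is non-split).
-/

namespace Pool.Agent.Lib.MP_788af2_nt

open scoped NumberTheorySymbols

/-- States of a prime. -/
abbrev St : Type := Option (Option (Fin 3 × Bool))

/-- The type of a state. -/
def St.ty : St → Option (Fin 3)
  | some (some (i, _)) => some i
  | _ => none

variable {ι : Type} [Fintype ι] [DecidableEq ι]

/-- The product of the primes of `S` of type different from `i`. -/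
def dd (q : ι → ℕ) (σ : ι → St) (S : Finset ι) (i : Fin 3) : ℕ :=
  ∏ p ∈ S with St.ty (σ p) ≠ some i, q p

/-- The local condition at `p`. -/
def okAt (q : ι → ℕ) (σ : ι → St) (S : Finset ι) (p : ι) : Prop :=
  match σ p with
  | some (some (i, b)) => J((dd q σ S i : ℤ) | q p) = if b = true ∧ p ∈ S then -1 else 1
  | _ => p ∉ S

open Classical in
/-- The number of solutions of all local conditions. -/
noncomputable def NN (q : ι → ℕ) (σ : ι → St) : ℕ :=
  (Finset.univ.filter fun S : Finset ι => ∀ p, okAt q σ S p).card

/-- What a state means for the curve `y^2 = (x - e 0) (x - e 1) (x - e 2)` at the prime `l`. -/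
def Valid (e : Fin 3 → ℤ) (l : ℕ) : St → Prop
  | none => True
  | some none => ∃ i, (l : ℤ) ∣ e (i + 1) - e (i + 2) ∧ J(e (i + 1) - e i | l) = -1 ∧
      Even (padicValInt l (e (i + 1) - e (i + 2)))
  | some (some (i, false)) => (l : ℤ) ∣ e (i + 1) - e (i + 2) ∧ J(e (i + 1) - e i | l) = 1
  | some (some (i, true)) => (l : ℤ) ∣ e (i + 1) - e (i + 2) ∧ J(e (i + 1) - e i | l) = -1 ∧
      Odd (padicValInt l (e (i + 1) - e (i + 2)))

/-- The product of the differences of the roots. -/
def dsc (e : Fin 3 → ℤ) : ℤ := (e 0 - e 1) * (e 1 - e 2) * (e 2 - e 0)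

end Pool.Agent.Lib.MP_788af2_nt
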