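import Mathlib

/-!
Valuations, unit parts and the local conditions of a full 2-descent, over the integers.
-/

namespace Pool.Agent.Lib.MP_788af2_nt

open scoped NumberTheorySymbols

/-- The part of `n` prime to `p`. -/
def upart (p : ℕ) (n : ℤ) : ℤ := n / (p : ℤ) ^ padicValInt p n

/-- The Legendre symbol of the unit part. -/
def lg (p : ℕ) (n : ℤ) : ℤ := J(upart p n | p)

section

variable {p : ℕ} [hp : Fact p.Prime]

lemma pow_mul_upart (n : ℤ) : (p : ℤ) ^ padicValInt p n * upart p n = n :=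
  Int.mul_ediv_cancel' (padicValInt_dvd n)

lemma not_dvd_upart {n : ℤ} (hn : n ≠ 0) : ¬(p : ℤ) ∣ upart p n := by
  intro h
  have : (p : ℤ) ^ (padicValInt p n + 1) ∣ n := by
    conv_rhs => rw [← pow_mul_upart (p := p) n]
    rw [pow_succ]
    exact mul_dvd_mul_left _ h
  rcases (padicValInt_dvd_iff _ _).1 this with h | h
  · exact hn h
  · omega

lemma val_pow_mul {s : ℕ} {u : ℤ} (hu : ¬(p : ℤ) ∣ u) :
    padicValInt p ((p : ℤ) ^ s * u) = s := by
  have hu0 : u ≠ 0 := by rintro rfl; exact hu (dvd_zero _)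
  have hp0 : (p : ℤ) ≠ 0 := Int.natCast_ne_zero.2 hp.out.ne_zero
  rw [padicValInt.mul (pow_ne_zero _ hp0) hu0, padicValInt.eq_zero_of_not_dvd hu, add_zero,
    ← Nat.cast_pow, padicValInt.of_nat, padicValNat.prime_pow]

lemma upart_pow_mul {s : ℕ} {u : ℤ} (hu : ¬(p : ℤ) ∣ u) : upart p ((p : ℤ) ^ s * u) = u := by
  have hp0 : (p : ℤ) ≠ 0 := Int.natCast_ne_zero.2 hp.out.ne_zero
  rw [upart, val_pow_mul hu, Int.mul_ediv_cancel_left _ (pow_ne_zero _ hp0)]

lemma upart_of_not_dvd {u : ℤ} (hu : ¬(p : ℤ) ∣ u) : upart p u = u := by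
  simpa using upart_pow_mul (s := 0) hu

lemma upart_mul {m n : ℤ} (hm : m ≠ 0) (hn : n ≠ 0) : upart p (m * n) = upart p m * upart p n := by
  have hpr : Prime (p : ℤ) := Nat.prime_iff_prime_int.1 hp.out
  have : m * n = (p : ℤ) ^ (padicValInt p m + padicValInt p n) * (upart p m * upart p n) := by
    conv_lhs => rw [← pow_mul_upart (p := p) m, ← pow_mul_upart (p := p) n]
    ring
  rw [this, upart_pow_mul]
  intro h
  rcases hpr.dvd_or_dvd h with h | h
  · exact not_dvd_upart hm h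
  · exact not_dvd_upart hn h

lemma lg_mul {m n : ℤ} (hm : m ≠ 0) (hn : n ≠ 0) : lg p (m * n) = lg p m * lg p n := by
  rw [lg, upart_mul hm hn, jacobiSym.mul_left]; rfl

lemma jac_unit {u : ℤ} (hu : ¬(p : ℤ) ∣ u) : J(u | p) = 1 ∨ J(u | p) = -1 := by
  apply jacobiSym.eq_one_or_neg_one
  rw [Int.gcd_comm]
  exact Int.isCoprime_iff_gcd_eq_one.1
    ((Nat.prime_iff_prime_int.1 hp.out).irreducible.coprime_iff_not_dvd.2 hu)

lemma lg_cases {n : ℤ} (hn : n ≠ 0) : lg p n = 1 ∨ lg p n = -1 := jac_unit (not_dvd_upart hn)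

lemma lg_mul_self {n : ℤ} (hn : n ≠ 0) : lg p n * lg p n = 1 := by
  rcases lg_cases (p := p) hn with h | h <;> simp [h]

lemma lg_sq {n : ℤ} (hn : n ≠ 0) : lg p (n ^ 2) = 1 := by
  rw [sq, lg_mul hn hn, lg_mul_self hn]

lemma lg_of_not_dvd {u : ℤ} (hu : ¬(p : ℤ) ∣ u) : lg p u = J(u | p) := by
  rw [lg, upart_of_not_dvd hu]

lemma val_sq {n : ℤ} (hn : n ≠ 0) : padicValInt p (n ^ 2) = 2 * padicValInt p n := by
  rw [sq, padicValInt.mul hn hn]; ring

lemma jac_add_dvd {u z : ℤ} (hz : (p : ℤ) ∣ z) : J(u + z | p) = J(u | p) := by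
  apply jacobiSym.mod_left'
  obtain ⟨k, rfl⟩ := hz
  simp

/-- The local analysis at a prime of multiplicative reduction. -/
lemma local_mult {αi αj αk u w c b : ℤ} (hi : αi ≠ 0) (hj : αj ≠ 0) (hk : αk ≠ 0)
    (hb : αi * αj * αk = b ^ 2) (ei : αi = αj + u * c ^ 2) (ek : αk = αj + w * c ^ 2)
    (hw : (p : ℤ) ∣ w) (hw0 : w ≠ 0) (hu : ¬(p : ℤ) ∣ u) (hc : (p : ℤ) ∣ c → ¬(p : ℤ) ∣ αj) :
    Even (padicValInt p αi) ∧
      ((padicValInt p αj = 0 ∧ lg p αi = 1) ∨
        (lg p αi = J(u | p) ∧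
          (J(u | p) = -1 → padicValInt p αj % 2 = padicValInt p w % 2))) := by
  have hpr : Prime (p : ℤ) := Nat.prime_iff_prime_int.1 hp.out
  have hb0 : b ≠ 0 := by
    rintro rfl
    exact mul_ne_zero (mul_ne_zero hi hj) hk (by simpa using hb)
  have hv : padicValInt p αi + padicValInt p αj + padicValInt p αk = 2 * padicValInt p b := by
    rw [← val_sq hb0, ← hb, padicValInt.mul (mul_ne_zero hi hj) hk, padicValInt.mul hi hj]
  have hl : lg p αi * (lg p αj * lg p αk) = 1 := by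
    rw [← lg_sq (p := p) hb0, ← hb, lg_mul (mul_ne_zero hi hj) hk, lg_mul hi hj]; ring
  by_cases hpj : (p : ℤ) ∣ αj
  · have hpc : ¬(p : ℤ) ∣ c := fun h => hc h hpj
    have hc0 : c ≠ 0 := by rintro rfl; exact hpc (dvd_zero _)
    have huc : ¬(p : ℤ) ∣ u * c ^ 2 := by
      intro h
      rcases hpr.dvd_or_dvd h with h | h
      · exact hu h
      · exact hpc (hpr.dvd_of_dvd_pow h)
    have hpi : ¬(p : ℤ) ∣ αi := by
      rw [ei]; intro h; exact huc ((dvd_add_right hpj).1 h)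
    have hvi : padicValInt p αi = 0 := padicValInt.eq_zero_of_not_dvd hpi
    have hli : lg p αi = J(u | p) := by
      rw [lg_of_not_dvd hpi, ei, add_comm, jac_add_dvd hpj, jacobiSym.mul_left,
        jacobiSym.pow_left]
      rcases jac_unit hpc with h | h <;> simp [h]
    refine ⟨by simp [hvi], Or.inr ⟨hli, fun hu1 => ?_⟩⟩
    have hvw : padicValInt p (w * c ^ 2) = padicValInt p w := by
      rw [padicValInt.mul hw0 (pow_ne_zero _ hc0), val_sq hc0,
        padicValInt.eq_zero_of_not_dvd hpc]; simp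
    have hwc0 : w * c ^ 2 ≠ 0 := mul_ne_zero hw0 (pow_ne_zero _ hc0)
    have e1 := pow_mul_upart (p := p) αj
    have e2 := pow_mul_upart (p := p) (w * c ^ 2)
    rw [hvw] at e2
    have n1 := not_dvd_upart (p := p) hj
    have n2 := not_dvd_upart (p := p) hwc0
    rcases lt_trichotomy (padicValInt p αj) (padicValInt p w) with h | h | h
    · exfalso
      obtain ⟨t, ht⟩ := Nat.exists_eq_add_of_lt h
      have e3 : αk = (p : ℤ) ^ padicValInt p αj *
          (upart p αj + p * (p ^ t * upart p (w * c ^ 2))) := by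
        rw [ek, mul_add, e1]
        conv_lhs => rw [← e2, ht]
        ring
      have n3 : ¬(p : ℤ) ∣ upart p αj + p * (p ^ t * upart p (w * c ^ 2)) := by
        intro h; exact n1 ((dvd_add_left (dvd_mul_right _ _)).1 h)
      have : lg p αk = lg p αj := by
        rw [lg, e3, upart_pow_mul n3, jac_add_dvd (dvd_mul_right _ _)]; rfl
      rw [this, lg_mul_self hj, hli, hu1] at hl
      norm_num at hl
    · rw [h]
    · obtain ⟨t, ht⟩ := Nat.exists_eq_add_of_lt h
      have e3 : αk = (p : ℤ) ^ padicValInt p w *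
          (upart p (w * c ^ 2) + p * (p ^ t * upart p αj)) := by
        rw [ek, mul_add, e2]
        conv_lhs => rw [← e1, ht]
        ring
      have n3 : ¬(p : ℤ) ∣ upart p (w * c ^ 2) + p * (p ^ t * upart p αj) := by
        intro h; exact n2 ((dvd_add_left (dvd_mul_right _ _)).1 h)
      have : padicValInt p αk = padicValInt p w := by
        conv_lhs => rw [e3]
        exact val_pow_mul n3
      omega
  · have hpk : ¬(p : ℤ) ∣ αk := by
      rw [ek]; intro h
      exact hpj ((dvd_add_left (Dvd.dvd.mul_right hw _)).1 h)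
    have hvj : padicValInt p αj = 0 := padicValInt.eq_zero_of_not_dvd hpj
    have hvk : padicValInt p αk = 0 := padicValInt.eq_zero_of_not_dvd hpk
    have : lg p αk = lg p αj := by
      rw [lg_of_not_dvd hpk, lg_of_not_dvd hpj, ek, jac_add_dvd (Dvd.dvd.mul_right hw _)]
    rw [this, lg_mul_self hj, mul_one] at hl
    exact ⟨⟨padicValInt p b, by omega⟩, Or.inl ⟨hvj, hl⟩⟩

/-- The local analysis at a prime of good reduction. -/
lemma local_good {αi αj αk u w c b : ℤ} (hi : αi ≠ 0) (hj : αj ≠ 0) (hk : αk ≠ 0)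
    (hb : αi * αj * αk = b ^ 2) (ej : αj = αi + u * c ^ 2) (ek : αk = αi + w * c ^ 2)
    (hw : ¬(p : ℤ) ∣ w) (hu : ¬(p : ℤ) ∣ u) (hc : (p : ℤ) ∣ c → ¬(p : ℤ) ∣ αi) :
    Even (padicValInt p αi) := by
  have hpr : Prime (p : ℤ) := Nat.prime_iff_prime_int.1 hp.out
  have hb0 : b ≠ 0 := by
    rintro rfl
    exact mul_ne_zero (mul_ne_zero hi hj) hk (by simpa using hb)
  have hv : padicValInt p αi + padicValInt p αj + padicValInt p αk = 2 * padicValInt p b := by
    rw [← val_sq hb0, ← hb, padicValInt.mul (mul_ne_zero hi hj) hk, padicValInt.mul hi hj]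
  by_cases hpi : (p : ℤ) ∣ αi
  · have hpc : ¬(p : ℤ) ∣ c := fun h => hc h hpi
    have key : ∀ z : ℤ, ¬(p : ℤ) ∣ z → ¬(p : ℤ) ∣ αi + z * c ^ 2 := by
      intro z hz h
      rcases hpr.dvd_or_dvd ((dvd_add_right hpi).1 h) with h | h
      · exact hz h
      · exact hpc (hpr.dvd_of_dvd_pow h)
    have h1 : padicValInt p αj = 0 := padicValInt.eq_zero_of_not_dvd (ej ▸ key u hu)
    have h2 : padicValInt p αk = 0 := padicValInt.eq_zero_of_not_dvd (ek ▸ key w hw)
    exact ⟨padicValInt p b, by omega⟩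
  · simp [padicValInt.eq_zero_of_not_dvd hpi]

end

lemma isSquare_of_even_val {n : ℤ} (hn : 0 < n)
    (h : ∀ p : ℕ, p.Prime → Even (padicValInt p n)) : IsSquare n := by
  obtain ⟨m, rfl⟩ := Int.eq_ofNat_of_zero_le hn.le
  have hm : 0 < m := by exact_mod_cast hn
  rw [Int.isSquare_natCast_iff]
  obtain ⟨a, b, ha, hb, hab, hsq⟩ := Nat.sq_mul_squarefree_of_pos hm
  by_cases ha1 : a = 1
  · subst ha1; exact ⟨b, by rw [← hab]; ring⟩
  · exfalso
    obtain ⟨p, hp, hpa⟩ := Nat.exists_prime_and_dvd ha1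
    have : Fact p.Prime := ⟨hp⟩
    have h1 := h p hp
    rw [padicValInt.of_nat, ← hab, padicValNat.mul (by positivity) ha.ne', padicValNat.pow,
      ← Nat.factorization_def a hp, Nat.factorization_eq_one_of_squarefree hsq hp hpa] at h1
    rw [Nat.even_add_one] at h1
    exact h1 (even_two_mul _)

/-- A rational point on a monic integral cubic has coordinates `a / c ^ 2`, `b / c ^ 3`. -/
lemma point_int {e₀ e₁ e₂ : ℤ} {x y : ℚ} (h : y ^ 2 = (x - e₀) * (x - e₁) * (x - e₂)) :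
    ∃ a b c : ℤ, c ≠ 0 ∧ IsCoprime a c ∧ x = a / c ^ 2 ∧
      (a - e₀ * c ^ 2) * (a - e₁ * c ^ 2) * (a - e₂ * c ^ 2) = b ^ 2 := by
  set a := x.num
  set d : ℤ := (x.den : ℤ)
  set r := y.num
  set s : ℤ := (y.den : ℤ)
  have hd : (d : ℚ) ≠ 0 := by simp [d]
  have hs : (s : ℚ) ≠ 0 := by simp [s]
  have hx : x = a / d := by simp [a, d, Rat.num_div_den]
  have hy : y = r / s := by simp [r, s, Rat.num_div_den]
  have had : IsCoprime a d := Int.isCoprime_iff_gcd_eq_one.2 x.reduced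
  have hrs : IsCoprime r s := Int.isCoprime_iff_gcd_eq_one.2 y.reduced
  have key : (a - e₀ * d) * (a - e₁ * d) * (a - e₂ * d) * s ^ 2 = r ^ 2 * d ^ 3 := by
    have : ((a - e₀ * d) * (a - e₁ * d) * (a - e₂ * d) * s ^ 2 : ℚ) = r ^ 2 * d ^ 3 := by
      rw [hx, hy] at h
      field_simp at h
      linear_combination -h
    exact_mod_cast this
  have cop : ∀ e : ℤ, IsCoprime (a - e * d) d := fun e => by
    have := had.add_mul_right_left (-e)
    rwa [show a + -e * d = a - e * d by ring] at this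
  have h1 : d ^ 3 ∣ s ^ 2 := by
    have : IsCoprime (d ^ 3) ((a - e₀ * d) * (a - e₁ * d) * (a - e₂ * d)) :=
      (((cop e₀).mul_left (cop e₁)).mul_left (cop e₂)).symm.pow_left
    exact this.dvd_of_dvd_mul_left (key ▸ Dvd.intro_left _ rfl)
  have h2 : s ^ 2 ∣ d ^ 3 := by
    have : IsCoprime (s ^ 2) (r ^ 2) := hrs.symm.pow
    exact this.dvd_of_dvd_mul_left (key ▸ Dvd.intro_left _ rfl)
  have hd0 : 0 < d := by simp [d, x.den_pos]
  have hs0 : 0 < s := by simp [s, y.den_pos]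
  have h3 : d ^ 3 = s ^ 2 := Int.dvd_antisymm (by positivity) (by positivity) h1 h2
  have h4 : d ∣ s := by
    rw [← Int.pow_dvd_pow_iff two_ne_zero, ← h3]
    exact pow_dvd_pow d (by norm_num)
  obtain ⟨c, hc⟩ := h4
  have h5 : d = c ^ 2 := by
    have : d ^ 2 * d = d ^ 2 * c ^ 2 := by rw [hc] at h3; linear_combination h3
    exact mul_left_cancel₀ (by positivity) this
  have hc0 : c ≠ 0 := by rintro rfl; simp at h5; omega
  refine ⟨a, r, c, hc0, ?_, ?_, ?_⟩
  · rw [h5] at had; exact (IsCoprime.pow_right_iff two_pos).1 had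
  · rw [hx, h5]; simp
  · rw [← h5]
    rw [h3] at key
    exact mul_right_cancel₀ (by positivity) key

end Pool.Agent.Lib.MP_788af2_nt
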