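import Pool.Agent.Lib.MP_788af2_nt.MW
import Pool.Agent.Lib.MP_788af2_nt.Local
import Pool.Agent.Lib.MP_788af2_nt.Defs

/-!
Full 2-descent on `y^2 = (x - e 0) (x - e 1) (x - e 2)` and the resulting rank bound.
-/

namespace Pool.Agent.Lib.MP_788af2_nt

open WeierstrassCurve WeierstrassCurve.Affine
open scoped NumberTheorySymbols

/-- The curve with three given integral roots. -/
abbrev cvE (e : Fin 3 → ℤ) : WeierstrassCurve.Affine ℚ :=
  cv (-((e 0 : ℚ) + e 1 + e 2)) ((e 0 : ℚ) * e 1 + e 0 * e 2 + e 1 * e 2) (-((e 0 : ℚ) * e 1 * e 2))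

section

variable {e : Fin 3 → ℤ}

lemma fin3_prod (f : Fin 3 → ℚ) (m : Fin 3) : f 0 * f 1 * f 2 = f m * f (m + 1) * f (m + 2) := by
  fin_cases m <;> simp <;> ring

lemma fin3_prod_int (f : Fin 3 → ℤ) (m : Fin 3) :
    f 0 * f 1 * f 2 = f m * f (m + 1) * f (m + 2) := by
  fin_cases m <;> simp <;> ring

lemma eqn_cvE {x y : ℚ} (h : (cvE e).Nonsingular x y) :
    y ^ 2 = (x - e 0) * (x - e 1) * (x - e 2) := by
  have := ((nonsing_iff ..).1 h).1
  linear_combination this

lemma dsc_ne {e : Fin 3 → ℤ} (he : dsc e ≠ 0) {i j : Fin 3} (h : i ≠ j) : e i ≠ e j := by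
  intro hij
  apply he
  unfold dsc
  fin_cases i <;> fin_cases j <;> simp_all

lemma disc_cvE (he : dsc e ≠ 0) : (cvE e).Δ ≠ 0 := by
  rw [disc_cv]
  have : (dsc e : ℚ) ≠ 0 := by exact_mod_cast he
  convert (by positivity : 16 * (dsc e : ℚ) ^ 2 ≠ 0) using 1
  simp only [dsc]; push_cast; ring

/-- The `m`-th coordinate of the descent map. -/
def dl (e : Fin 3 → ℤ) (m : Fin 3) : (cvE e).Point → ℚ
  | .zero => 1
  | .some x _ _ => if x = e m then ((e m : ℚ) - e (m + 1)) * (e m - e (m + 2)) else x - e m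

lemma fin3_ne1 (m : Fin 3) : m ≠ m + 1 := by revert m; decide
lemma fin3_ne2 (m : Fin 3) : m ≠ m + 2 := by revert m; decide
lemma fin3_ne3 (m : Fin 3) : m + 1 ≠ m + 2 := by revert m; decide

lemma sub_ne (he : dsc e ≠ 0) {i j : Fin 3} (h : i ≠ j) : (e i : ℚ) - e j ≠ 0 := by
  rw [sub_ne_zero]; exact_mod_cast dsc_ne he h

lemma dl_ne_zero (he : dsc e ≠ 0) (m : Fin 3) (P : (cvE e).Point) : dl e m P ≠ 0 := by
  rcases P with _ | ⟨x, y, h⟩
  · exact one_ne_zero
  · simp only [dl]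
    split_ifs with hx
    · exact mul_ne_zero (sub_ne he (fin3_ne1 m)) (sub_ne he (fin3_ne2 m))
    · exact sub_ne_zero.2 hx

lemma col_facts {x₁ y₁ x₂ y₂ x₃ y₃ l n : ℚ} (m : Fin 3)
    (h : Col (-((e 0 : ℚ) + e 1 + e 2)) ((e 0 : ℚ) * e 1 + e 0 * e 2 + e 1 * e 2)
      (-((e 0 : ℚ) * e 1 * e 2)) x₁ y₁ x₂ y₂ x₃ y₃ l n) :
    (x₁ - e m) * (x₂ - e m) * (x₃ - e m) = (l * e m + n) ^ 2 ∧
      (x₃ = e m → (x₁ - e m) * (x₂ - e m) = ((e m : ℚ) - e (m + 1)) * (e m - e (m + 2))) := by
  obtain ⟨e1, e2, e3, e4, e5, e6⟩ := h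
  have hroot : ((e m : ℚ) - e 0) * (e m - e 1) * (e m - e 2) = 0 := by
    fin_cases m <;> simp
  have h1 : (x₁ - e m) * (x₂ - e m) * (x₃ - e m) = (l * e m + n) ^ 2 := by
    linear_combination (-(e m : ℚ) ^ 2) * e4 + (e m : ℚ) * e5 - e6 - hroot
  refine ⟨h1, fun hx => ?_⟩
  have h2 : l * e m + n = 0 := by
    rw [hx, sub_self, mul_zero] at h1
    exact pow_eq_zero_iff two_ne_zero |>.1 h1.symm
  have hder : ((e m : ℚ) - e (m + 1)) * (e m - e (m + 2)) =
      3 * (e m : ℚ) ^ 2 - 2 * (e 0 + e 1 + e 2) * e m + (e 0 * e 1 + e 0 * e 2 + e 1 * e 2) := by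
    fin_cases m <;> simp <;> ring
  rw [hder]
  rw [hx] at e4 e5
  linear_combination 2 * (e m : ℚ) * e4 - e5 - 2 * l * h2

lemma dl_triple (he : dsc e ≠ 0) (m : Fin 3) :
    ∀ P Q R : (cvE e).Point, P + Q + R = 0 → IsSquare (dl e m P * dl e m Q * dl e m R) := by
  have hD : ((e m : ℚ) - e (m + 1)) * (e m - e (m + 2)) ≠ 0 :=
    mul_ne_zero (sub_ne he (fin3_ne1 m)) (sub_ne he (fin3_ne2 m))
  have keyT : ∀ {x₁ y₁ x₂ y₂ x₃ y₃ l n : ℚ} h₁ h₂ h₃,
      Col (-((e 0 : ℚ) + e 1 + e 2)) ((e 0 : ℚ) * e 1 + e 0 * e 2 + e 1 * e 2)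
        (-((e 0 : ℚ) * e 1 * e 2)) x₁ y₁ x₂ y₂ x₃ y₃ l n → x₃ = e m →
      IsSquare (dl e m (.some x₁ y₁ h₁) * dl e m (.some x₂ y₂ h₂) * dl e m (.some x₃ y₃ h₃)) := by
    intro x₁ y₁ x₂ y₂ x₃ y₃ l n h₁ h₂ h₃ h hx
    have h2 := (col_facts m h).2 hx
    have hx1 : x₁ ≠ e m := by
      intro h0; rw [h0, sub_self, zero_mul] at h2; exact hD h2.symm
    have hx2 : x₂ ≠ e m := by
      intro h0; rw [h0, sub_self, mul_zero] at h2; exact hD h2.symm
    simp only [dl, if_neg hx1, if_neg hx2, if_pos hx]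
    rw [h2]
    exact ⟨_, rfl⟩
  apply triple_cases
  · intro P Q R h; rwa [mul_comm (dl e m Q)]
  · intro P Q R h; rwa [mul_right_comm]
  · intro P
    rcases P with _ | ⟨x, y, h⟩
    · exact ⟨1, by show (1 : ℚ) * 1 * 1 = 1 * 1; ring⟩
    · rw [Point.neg_some]
      exact ⟨dl e m (.some x y h), mul_one _⟩
  · intro x₁ y₁ x₂ y₂ x₃ y₃ l n h₁ h₂ h₃ h
    by_cases hx3 : x₃ = e m
    · exact keyT h₁ h₂ h₃ h hx3
    by_cases hx2 : x₂ = e m
    · rw [mul_right_comm]; exact keyT h₁ h₃ h₂ h.swap23 hx2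
    by_cases hx1 : x₁ = e m
    · rw [mul_comm (dl e m (.some x₁ y₁ h₁)), mul_right_comm]
      exact keyT h₂ h₃ h₁ h.swap12.swap23 hx1
    simp only [dl, if_neg hx1, if_neg hx2, if_neg hx3]
    rw [(col_facts m h).1]
    exact ⟨_, sq _⟩

/-- An integer in the same square class as a rational. -/
def rep (x : ℚ) : ℤ := x.num * x.den

lemma rep_ne_zero {x : ℚ} (hx : x ≠ 0) : rep x ≠ 0 :=
  mul_ne_zero (Rat.num_ne_zero.2 hx) (by simp)

lemma rep_cast (x : ℚ) : (rep x : ℚ) = x * (x.den : ℚ) ^ 2 := by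
  simp only [rep]; push_cast
  rw [sq, ← mul_assoc, Rat.mul_den_eq_num]

/-- Additive functions to `ZMod 2` on the nonzero integers. -/
def IsQF (F : ℤ → ZMod 2) : Prop := ∀ m n, m ≠ 0 → n ≠ 0 → F (m * n) = F m + F n

lemma IsQF.sq {F : ℤ → ZMod 2} (hF : IsQF F) {n : ℤ} (hn : n ≠ 0) : F (n * n) = 0 := by
  rw [hF n n hn hn]; exact CharTwo.add_self_eq_zero _

lemma IsQF.one {F : ℤ → ZMod 2} (hF : IsQF F) : F 1 = 0 := by simpa using hF.sq one_ne_zero

lemma IsQF.eq_of_isSquare {F : ℤ → ZMod 2} (hF : IsQF F) {m n : ℤ} (hm : m ≠ 0) (hn : n ≠ 0)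
    (h : IsSquare (m * n)) : F m = F n := by
  obtain ⟨k, hk⟩ := h
  have hk0 : k ≠ 0 := by rintro rfl; exact mul_ne_zero hm hn (by simpa using hk)
  have := hF m n hm hn
  rw [hk, hF.sq hk0] at this
  exact (by decide : ∀ a b : ZMod 2, 0 = a + b → a = b) _ _ this

/-- The homomorphism attached to a quadratic functional. -/
def qfHom (he : dsc e ≠ 0) (m : Fin 3) {F : ℤ → ZMod 2} (hF : IsQF F) :
    (cvE e).Point →+ ZMod 2 :=
  homOfTriple (fun P => F (rep (dl e m P))) (by simpa [dl, rep, Point.zero_def] using hF.one) (by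
    intro P Q R h
    have h1 := dl_triple he m P Q R h
    have hP := rep_ne_zero (dl_ne_zero he m P)
    have hQ := rep_ne_zero (dl_ne_zero he m Q)
    have hR := rep_ne_zero (dl_ne_zero he m R)
    have h2 : IsSquare (rep (dl e m P) * rep (dl e m Q) * rep (dl e m R)) := by
      rw [← Rat.isSquare_intCast_iff]
      push_cast
      obtain ⟨k, hk⟩ := h1
      refine ⟨k * (dl e m P).den * (dl e m Q).den * (dl e m R).den, ?_⟩
      rw [rep_cast, rep_cast, rep_cast]
      linear_combination (((dl e m P).den : ℚ) * (dl e m Q).den * (dl e m R).den) ^ 2 * hk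
    have h3 := hF.eq_of_isSquare (mul_ne_zero hP hQ) hR h2
    rw [← hF _ _ hP hQ, h3]
    exact CharTwo.add_self_eq_zero _)

lemma qfHom_apply (he : dsc e ≠ 0) (m : Fin 3) {F : ℤ → ZMod 2} (hF : IsQF F)
    (P : (cvE e).Point) : qfHom he m hF P = F (rep (dl e m P)) := rfl

/-- Halving a point whose three descent coordinates are squares. -/
lemma halve (he : dsc e ≠ 0) {x y : ℚ} (h : (cvE e).Nonsingular x y)
    (hs : ∀ m, IsSquare (x - e m)) : ∃ Q, Point.some x y h = 2 • Q := by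
  obtain ⟨r₀, h0⟩ := hs 0
  obtain ⟨r₁, h1⟩ := hs 1
  obtain ⟨r₂, h2⟩ := hs 2
  have hq := eqn_cvE h
  wlog hy : y = -(r₀ * r₁ * r₂) generalizing r₀
  · have hy' : y = -((-r₀) * r₁ * r₂) := by
      have : (y - r₀ * r₁ * r₂) * (y + r₀ * r₁ * r₂) = 0 := by
        rw [h0, h1, h2] at hq; linear_combination hq
      rcases mul_eq_zero.1 this with h | h
      · linear_combination h
      · exact absurd (eq_neg_of_add_eq_zero_left h) hy
    exact this (-r₀) (by rw [h0]; ring) hy'
  have e0 : (e 0 : ℚ) = x - r₀ * r₀ := by linear_combination -h0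
  have e1 : (e 1 : ℚ) = x - r₁ * r₁ := by linear_combination -h1
  have e2 : (e 2 : ℚ) = x - r₂ * r₂ := by linear_combination -h2
  have hQ : (cvE e).Nonsingular (x + r₀ * r₁ + r₀ * r₂ + r₁ * r₂)
      ((r₀ + r₁) * (r₀ + r₂) * (r₁ + r₂)) := by
    apply nonsing_of_disc (disc_cvE he)
    rw [e0, e1, e2]; ring
  refine ⟨-Point.some _ _ hQ, ?_⟩
  have := sum_eq_zero_of_col hQ hQ h (l := r₀ + r₁ + r₂) (n := y - (r₀ + r₁ + r₂) * x)
    (by
      refine ⟨?_, ?_, ?_, ?_, ?_, ?_⟩ <;> simp only [e0, e1, e2, hy] <;> ring)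
  rw [two_nsmul, ← neg_add]
  exact eq_neg_of_add_eq_zero_right this

lemma halve' (he : dsc e ≠ 0) (P : (cvE e).Point) (h0 : IsSquare (dl e 0 P))
    (h1 : IsSquare (dl e 1 P)) : ∃ Q, P = 2 • Q := by
  rcases P with _ | ⟨x, y, h⟩
  · exact ⟨0, rfl⟩
  apply halve he
  have hq := eqn_cvE h
  have div : ∀ u v w : ℚ, v ≠ 0 → IsSquare v → IsSquare w → w = v * u → IsSquare u := by
    intro u v w hv ⟨a, ha⟩ ⟨b, hb⟩ huv
    have ha0 : a ≠ 0 := by rintro rfl; exact hv (by simpa using ha)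
    refine ⟨b / a, ?_⟩
    field_simp
    rw [hb, ha] at huv
    linear_combination -huv
  have n01 := sub_ne he (show (0 : Fin 3) ≠ 1 by decide)
  have n10 := sub_ne he (show (1 : Fin 3) ≠ 0 by decide)
  simp only [dl] at h0 h1
  by_cases hx0 : x = e 0
  · have hx1 : x ≠ e 1 := by rw [hx0]; exact sub_ne_zero.1 n01
    rw [if_pos hx0] at h0
    rw [if_neg hx1] at h1
    intro m
    fin_cases m
    · simp [hx0]
    · exact h1
    · refine div _ _ _ (sub_ne_zero.2 hx1) h1 h0 ?_
      rw [hx0]; rfl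
  by_cases hx1 : x = e 1
  · rw [if_neg hx0] at h0
    rw [if_pos hx1] at h1
    intro m
    fin_cases m
    · exact h0
    · simp [hx1]
    · refine div _ _ _ (sub_ne_zero.2 hx0) h0 h1 ?_
      rw [hx1, mul_comm]; rfl
  · rw [if_neg hx0] at h0
    rw [if_neg hx1] at h1
    intro m
    fin_cases m
    · exact h0
    · exact h1
    · exact div _ _ _ (mul_ne_zero (sub_ne_zero.2 hx0) (sub_ne_zero.2 hx1)) (h0.mul h1)
        ⟨y, rfl⟩ (by rw [← sq, hq]; rfl)

end

/-! ### The quadratic functionals -/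

/-- Parity of the valuation. -/
def qV (l : ℕ) (n : ℤ) : ZMod 2 := (padicValInt l n : ZMod 2)

/-- Sign. -/
def qS (n : ℤ) : ZMod 2 := if n < 0 then 1 else 0

/-- Residue character of the unit part. -/
def qL (l : ℕ) (n : ℤ) : ZMod 2 := if lg l n = -1 then 1 else 0

lemma isQF_qV {l : ℕ} (hl : l.Prime) : IsQF (qV l) := by
  have : Fact l.Prime := ⟨hl⟩
  intro m n hm hn
  simp [qV, padicValInt.mul hm hn]

lemma isQF_qS : IsQF qS := by
  intro m n hm hn
  unfold qS
  rcases lt_or_gt_of_ne hm with h | h <;> rcases lt_or_gt_of_ne hn with h' | h'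
  · rw [if_pos h, if_pos h', if_neg (mul_pos_of_neg_of_neg h h').not_gt]; decide
  · rw [if_pos h, if_neg h'.not_gt, if_pos (mul_neg_of_neg_of_pos h h')]; decide
  · rw [if_neg h.not_gt, if_pos h', if_pos (mul_neg_of_pos_of_neg h h')]; decide
  · rw [if_neg h.not_gt, if_neg h'.not_gt, if_neg (mul_pos h h').not_gt]; decide

lemma isQF_qL {l : ℕ} (hl : l.Prime) : IsQF (qL l) := by
  have : Fact l.Prime := ⟨hl⟩
  intro m n hm hn
  unfold qL
  rw [lg_mul hm hn]
  rcases lg_cases (p := l) hm with h | h <;> rcases lg_cases (p := l) hn with h' | h' <;>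
    simp [h, h']
  decide

lemma qV_eq_zero {l : ℕ} {n : ℤ} : qV l n = 0 ↔ Even (padicValInt l n) := by
  rw [qV, ZMod.natCast_eq_zero_iff_even]

lemma IsQF.prod {F : ℤ → ZMod 2} (hF : IsQF F) {ι : Type} (s : Finset ι) (f : ι → ℤ)
    (hf : ∀ i ∈ s, f i ≠ 0) : F (∏ i ∈ s, f i) = ∑ i ∈ s, F (f i) := by
  classical
  induction s using Finset.induction_on with
  | empty => simpa using hF.one
  | insert a s ha ih =>
    rw [Finset.prod_insert ha, Finset.sum_insert ha, hF _ _ (hf a (by simp))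
      (Finset.prod_ne_zero_iff.2 fun i hi => hf i (by simp [hi])), ih fun i hi => hf i (by simp [hi])]

section core

variable {ι : Type} [Fintype ι] [DecidableEq ι] {q : ι → ℕ} {σ : ι → St}

omit [Fintype ι] [DecidableEq ι] in
lemma dd_pos (hq : ∀ p, (q p).Prime) (S : Finset ι) (m : Fin 3) : 0 < dd q σ S m :=
  Finset.prod_pos fun p _ => (hq p).pos

omit [Fintype ι] in
lemma qV_dd (hq : ∀ p, (q p).Prime) (hinj : Function.Injective q) (S : Finset ι) (m : Fin 3)
    (p : ι) : qV (q p) (dd q σ S m) = if p ∈ S ∧ St.ty (σ p) ≠ some m then 1 else 0 := by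
  rw [dd, Nat.cast_prod, (isQF_qV (hq p)).prod _ _ fun i _ => by exact_mod_cast (hq i).ne_zero]
  have : ∀ i, qV (q p) (q i) = if i = p then 1 else 0 := by
    intro i
    have : Fact (q p).Prime := ⟨hq p⟩
    have : Fact (q i).Prime := ⟨hq i⟩
    split_ifs with h
    · simp [qV, h]
    · simp [qV, padicValNat_primes (fun h' => h (hinj h').symm)]
  simp [this]

omit [Fintype ι] [DecidableEq ι] in
lemma qV_dd' (hq : ∀ p, (q p).Prime) (S : Finset ι) (m : Fin 3) {l : ℕ} (hl : l.Prime)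
    (h : ∀ p ∈ S, q p ≠ l) : qV l (dd q σ S m) = 0 := by
  rw [dd, Nat.cast_prod, (isQF_qV hl).prod _ _ fun i _ => by exact_mod_cast (hq i).ne_zero]
  refine Finset.sum_eq_zero fun i hi => ?_
  have : Fact l.Prime := ⟨hl⟩
  have : Fact (q i).Prime := ⟨hq i⟩
  simp [qV, padicValNat_primes (fun h' => h i (Finset.mem_filter.1 hi).1 h'.symm)]

lemma fin3_cases (i m : Fin 3) : m = i ∨ m = i + 1 ∨ m = i + 2 := by revert i m; decide

open Classical in
/-- The set of variables attached to a triple of integers. -/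
noncomputable def varSet (q : ι → ℕ) (σ : ι → St) (α : Fin 3 → ℤ) : Finset ι :=
  Finset.univ.filter fun p => ∃ i b, σ p = some (some (i, b)) ∧ qV (q p) (α (i + 1)) = 1

lemma core {e : Fin 3 → ℤ} (he : dsc e ≠ 0) (hq : ∀ p, (q p).Prime)
    (hinj : Function.Injective q) {B : Finset ℕ}
    (H1 : ∀ l : ℕ, l.Prime → (l : ℤ) ∣ dsc e → l ∈ B ∨ ∃ p, q p = l ∧ σ p ≠ none)
    (H2 : ∀ p, q p ∈ B ∨ Valid e (q p) (σ p)) {a b c : ℤ} (hac : IsCoprime a c)
    {α : Fin 3 → ℤ} (hα : ∀ m, α m = a - e m * c ^ 2) (hpos : ∀ m, 0 < α m)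
    (hb : α 0 * α 1 * α 2 = b ^ 2) (hB : ∀ l ∈ B, ∀ m, qV l (α m) = 0 ∧ qL l (α m) = 0) :
    (∀ m (l : ℕ), l.Prime → qV l (α m) = qV l (dd q σ (varSet q σ α) m)) ∧
      ∀ p, okAt q σ (varSet q σ α) p := by
  have hne : ∀ m, α m ≠ 0 := fun m => (hpos m).ne'
  have hb' : ∀ m, α m * α (m + 1) * α (m + 2) = b ^ 2 := fun m => by rw [← fin3_prod_int, hb]
  have hcop : ∀ (l : ℕ) m, l.Prime → (l : ℤ) ∣ c → ¬(l : ℤ) ∣ α m := by
    intro l m hl hc h
    rw [hα] at h
    have : (l : ℤ) ∣ a := by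
      have h2 : (l : ℤ) ∣ e m * c ^ 2 := (dvd_pow hc two_ne_zero).mul_left _
      simpa using dvd_add h h2
    have := hac.isUnit_of_dvd' this hc
    exact (Nat.prime_iff_prime_int.1 hl).not_unit this
  have hsum : ∀ (l : ℕ) (i : Fin 3), l.Prime → qV l (α i) = 0 → qV l (α (i + 2)) = qV l (α (i + 1)) := by
    intro l i hl h0
    have hF := isQF_qV hl
    have h1 := hF.eq_of_isSquare (mul_ne_zero (hne i) (hne (i + 1))) (hne (i + 2))
      ⟨b, by rw [hb' i, sq]⟩
    rw [hF _ _ (hne _) (hne _), h0, zero_add] at h1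
    exact h1.symm
  have hloc : ∀ (l : ℕ) (i : Fin 3), l.Prime → (l : ℤ) ∣ e (i + 1) - e (i + 2) →
      J(e (i + 1) - e i | l) ≠ 0 →
      qV l (α i) = 0 ∧ ((padicValInt l (α (i + 1)) = 0 ∧ lg l (α i) = 1) ∨
        (lg l (α i) = J(e (i + 1) - e i | l) ∧ (J(e (i + 1) - e i | l) = -1 →
          padicValInt l (α (i + 1)) % 2 = padicValInt l (e (i + 1) - e (i + 2)) % 2))) := by
    intro l i hl hd hJ
    have : Fact l.Prime := ⟨hl⟩
    rw [qV_eq_zero]
    refine local_mult (hne i) (hne (i + 1)) (hne (i + 2)) (hb' i) (c := c)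
      (by rw [hα, hα]; ring) (by rw [hα, hα]; ring) hd
      (sub_ne_zero.2 (dsc_ne he (fin3_ne3 i))) ?_ (hcop l _ hl)
    intro h
    apply hJ
    rw [← zero_add (e (i + 1) - e i), jac_add_dvd h, jacobiSym.zero_left hl.one_lt]
  have hmem : ∀ p i b', σ p = some (some (i, b')) →
      (p ∈ varSet q σ α ↔ qV (q p) (α (i + 1)) = 1) := by
    intro p i b' h
    simp only [varSet, Finset.mem_filter, Finset.mem_univ, true_and]
    constructor
    · rintro ⟨i', b'', h1, h2⟩
      rw [h] at h1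
      simp only [Option.some.injEq, Prod.mk.injEq] at h1
      rw [h1.1]; exact h2
    · intro h2; exact ⟨i, b', h, h2⟩
  have hall : ∀ (l : ℕ), l.Prime → (∀ m, qV l (α m) = 0) → ∀ m,
      qV l (α m) = qV l (dd q σ (varSet q σ α) m) := by
    intro l hl h m
    rw [h m, qV_dd' hq _ _ hl]
    intro p hp hpl
    simp only [varSet, Finset.mem_filter, Finset.mem_univ, true_and] at hp
    obtain ⟨i, b', -, h2⟩ := hp
    rw [hpl, h] at h2
    exact zero_ne_one h2
  have part1 : ∀ m (l : ℕ), l.Prime → qV l (α m) = qV l (dd q σ (varSet q σ α) m) := by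
    intro m l hl
    have : Fact l.Prime := ⟨hl⟩
    by_cases hlB : l ∈ B
    · exact hall l hl (fun m => (hB l hlB m).1) m
    by_cases hd : (l : ℤ) ∣ dsc e
    swap
    · refine hall l hl (fun m => ?_) m
      rw [qV_eq_zero]
      have hpr := Nat.prime_iff_prime_int.1 hl
      have hd' : ∀ i j : Fin 3, i ≠ j → ¬(l : ℤ) ∣ e i - e j := by
        intro i j hij h
        apply hd
        have h' : (l : ℤ) ∣ e j - e i := dvd_sub_comm.1 h
        unfold dsc
        fin_cases i <;> fin_cases j <;> simp at hij h h' <;>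
          first
          | exact (h.mul_right _).mul_right _
          | exact (h'.mul_right _).mul_right _
          | exact (h.mul_left _).mul_right _
          | exact (h'.mul_left _).mul_right _
          | exact h.mul_left _
          | exact h'.mul_left _
      exact local_good (hne m) (hne (m + 1)) (hne (m + 2)) (hb' m) (c := c)
        (u := e m - e (m + 1)) (w := e m - e (m + 2))
        (by rw [hα, hα]; ring) (by rw [hα, hα]; ring) (hd' _ _ (fin3_ne2 m))
        (hd' _ _ (fin3_ne1 m)) (hcop l _ hl)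
    obtain ⟨p, rfl, hp⟩ := (H1 l hl hd).resolve_left hlB
    have hv := (H2 p).resolve_left hlB
    rcases hσ : σ p with _ | _ | ⟨i, b'⟩
    · exact absurd hσ hp
    · rw [hσ] at hv
      obtain ⟨i, h1, h2, h3⟩ := hv
      obtain ⟨h4, h5⟩ := hloc _ i hl h1 (by rw [h2]; norm_num)
      have h6 : qV (q p) (α (i + 1)) = 0 := by
        rw [qV_eq_zero]
        rcases h5 with h5 | h5
        · simp [h5.1]
        · rw [Nat.even_iff] at h3 ⊢
          rw [h5.2 h2, h3]
      refine hall _ hl (fun m => ?_) m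
      rcases fin3_cases i m with rfl | rfl | rfl
      · exact h4
      · exact h6
      · rw [hsum _ _ hl h4, h6]
    · have h4 : qV (q p) (α i) = 0 := by
        rw [hσ] at hv
        cases b'
        · exact (hloc _ i hl hv.1 (by rw [hv.2]; norm_num)).1
        · exact (hloc _ i hl hv.1 (by rw [hv.2.1]; norm_num)).1
      rw [qV_dd hq hinj]
      simp only [hmem p i b' hσ, hσ, St.ty, ne_eq, Option.some.injEq]
      have h01 : ∀ z : ZMod 2, z = if z = 1 then 1 else 0 := by decide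
      rcases fin3_cases i m with rfl | rfl | rfl
      · simp [h4]
      · simpa [fin3_ne1 i] using h01 _
      · rw [hsum _ _ hl h4]; simpa [fin3_ne2 i] using h01 _
  refine ⟨part1, fun p => ?_⟩
  unfold okAt
  rcases hσ : σ p with _ | _ | ⟨i, b'⟩
  · simp [varSet, hσ]
  · simp [varSet, hσ]
  simp only
  have hl := hq p
  have : Fact (q p).Prime := ⟨hl⟩
  have hdd : (0 : ℤ) < dd q σ (varSet q σ α) i := by exact_mod_cast dd_pos hq _ _
  have hsq : IsSquare (α i * dd q σ (varSet q σ α) i) := by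
    refine isSquare_of_even_val (mul_pos (hpos i) hdd) fun l hl => ?_
    rw [← qV_eq_zero, isQF_qV hl _ _ (hne i) hdd.ne', part1 i l hl]
    exact CharTwo.add_self_eq_zero _
  have hnd : ¬((q p : ℕ) : ℤ) ∣ dd q σ (varSet q σ α) i := by
    rw [Int.natCast_dvd_natCast, dd, Prime.dvd_finsetProd_iff hl.prime]
    rintro ⟨p', hp', h⟩
    have := hinj ((Nat.prime_dvd_prime_iff_eq hl (hq p')).1 h)
    subst this
    exact (Finset.mem_filter.1 hp').2 (by rw [hσ]; rfl)
  have hlg : J((dd q σ (varSet q σ α) i : ℤ) | q p) = lg (q p) (α i) := by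
    obtain ⟨k, hk⟩ := hsq
    have hk0 : k ≠ 0 := by
      rintro rfl; exact mul_ne_zero (hne i) hdd.ne' (by simpa using hk)
    have h1 := lg_mul (p := q p) (hne i) hdd.ne'
    rw [hk, lg_mul hk0 hk0, lg_mul_self hk0, lg_of_not_dvd hnd] at h1
    rcases lg_cases (p := q p) (hne i) with h | h <;> rw [h] at h1 ⊢ <;> linarith
  rw [hlg]
  simp only [hmem p i b' hσ]
  rcases H2 p with hpB | hv
  · have h1 := (hB _ hpB (i + 1)).1
    have h2 := (hB _ hpB i).2
    rw [h1, if_neg (by simp)]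
    rcases lg_cases (p := q p) (hne i) with h | h
    · exact h
    · simp [qL, h] at h2
  · rw [hσ] at hv
    cases b'
    · rw [if_neg (by simp)]
      rcases (hloc _ i hl hv.1 (by rw [hv.2]; norm_num)).2 with h | h
      · exact h.2
      · rw [h.1, hv.2]
    · rcases (hloc _ i hl hv.1 (by rw [hv.2.1]; norm_num)).2 with h | h
      · rw [if_neg (by simp [qV, h.1]), h.2]
      · rw [if_pos, h.1, hv.2.1]
        refine ⟨rfl, ?_⟩
        have h3 := h.2 hv.2.1
        rw [Nat.odd_iff.1 hv.2.2] at h3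
        rw [qV, ZMod.natCast_eq_one_iff_odd, Nat.odd_iff, h3]

lemma point_data {e : Fin 3 → ℤ} (P : (cvE e).Point)
    (hP : ∀ x y h, P = Point.some x y h → ∀ m, x ≠ e m) :
    ∃ (a b c : ℤ) (α : Fin 3 → ℤ), IsCoprime a c ∧ (∀ m, α m = a - e m * c ^ 2) ∧
      (∀ m, α m ≠ 0) ∧ α 0 * α 1 * α 2 = b ^ 2 ∧
      ∀ m (F : ℤ → ZMod 2), IsQF F → F (rep (dl e m P)) = F (α m) := by
  rcases P with _ | ⟨x, y, h⟩
  · exact ⟨1, 1, 0, fun _ => 1, isCoprime_one_left, by simp, by simp, by simp,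
      by simp [dl, rep]⟩
  · have hx := hP x y h rfl
    obtain ⟨a, b, c, hc, hac, hxa, hb⟩ := point_int (eqn_cvE h)
    have hc' : (c : ℚ) ≠ 0 := by exact_mod_cast hc
    have hα : ∀ m, ((a - e m * c ^ 2 : ℤ) : ℚ) = (x - e m) * c ^ 2 := by
      intro m; rw [hxa]; push_cast; field_simp
    have hne : ∀ m, a - e m * c ^ 2 ≠ 0 := by
      intro m
      rw [← Int.cast_ne_zero (α := ℚ), hα]
      exact mul_ne_zero (sub_ne_zero.2 (hx m)) (pow_ne_zero _ hc')
    refine ⟨a, b, c, fun m => a - e m * c ^ 2, hac, fun _ => rfl, hne, hb, fun m F hF => ?_⟩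
    simp only [dl, if_neg (hx m)]
    refine hF.eq_of_isSquare (rep_ne_zero (sub_ne_zero.2 (hx m))) (hne m) ?_
    rw [← Rat.isSquare_intCast_iff, Int.cast_mul, hα, rep_cast]
    exact ⟨(x - e m) * (x - e m).den * c, by ring⟩

/-- The rank bound coming from 2-descent. -/
theorem rank_bound {e : Fin 3 → ℤ} (he : dsc e ≠ 0) (hq : ∀ p, (q p).Prime)
    (hinj : Function.Injective q) {B : Finset ℕ} (hBp : ∀ l ∈ B, l.Prime)
    (H1 : ∀ l : ℕ, l.Prime → (l : ℤ) ∣ dsc e → l ∈ B ∨ ∃ p, q p = l ∧ σ p ≠ none)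
    (H2 : ∀ p, q p ∈ B ∨ Valid e (q p) (σ p)) :
    ∃ r : ℕ, Module.rank ℤ (cvE e).Point = r ∧ 2 ^ r ≤ 2 ^ (2 + 4 * B.card) * (NN q σ + 3) := by
  classical
  set D := (dsc e).natAbs.primeFactors with hD
  let F₁ : Option D → ℤ → ZMod 2 := fun o => o.elim qS fun l => qV l
  have hF₁ : ∀ o, IsQF (F₁ o) := by
    rintro (_ | l)
    · exact isQF_qS
    · exact isQF_qV (Nat.prime_of_mem_primeFactors l.2)
  let F₂ : Option (B × Bool) → ℤ → ZMod 2 := fun o => o.elim qS fun l =>
    if l.2 then qV l.1 else qL l.1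
  have hF₂ : ∀ o, IsQF (F₂ o) := by
    rintro (_ | ⟨l, _ | _⟩)
    · exact isQF_qS
    · exact isQF_qL (hBp _ l.2)
    · exact isQF_qV (hBp _ l.2)
  let Φ : (cvE e).Point →+ (Fin 2 × Option D → ZMod 2) :=
    AddMonoidHom.pi fun x => qfHom he x.1.castSucc (hF₁ x.2)
  let Ψ : (cvE e).Point →+ (Fin 2 × Option (B × Bool) → ZMod 2) :=
    AddMonoidHom.pi fun x => qfHom he x.1.castSucc (hF₂ x.2)
  have hΦ : ∀ P x, Φ P x = F₁ x.2 (rep (dl e x.1.castSucc P)) := fun _ _ => rfl
  have hΨ : ∀ P x, Ψ P x = F₂ x.2 (rep (dl e x.1.castSucc P)) := fun _ _ => rfl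
  have three : ∀ (F : ℤ → ZMod 2), IsQF F → ∀ (α : Fin 3 → ℤ) (b : ℤ), (∀ m, α m ≠ 0) →
      α 0 * α 1 * α 2 = b ^ 2 → F (α 0) = 0 → F (α 1) = 0 → ∀ m, F (α m) = 0 := by
    intro F hF α b hne hb h0 h1 m
    fin_cases m
    · exact h0
    · exact h1
    · have := hF.eq_of_isSquare (mul_ne_zero (hne 0) (hne 1)) (hne 2) ⟨b, by rw [hb, sq]⟩
      rw [hF _ _ (hne 0) (hne 1), h0, h1] at this
      exact this.symm
  have hker : ∀ P, Φ P = 0 → ∃ Q, P = 2 • Q := by
    intro P hP
    have key : ∀ m : Fin 2, IsSquare (dl e m.castSucc P) := by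
      intro m
      have hne := dl_ne_zero he m.castSucc P
      have hsq : IsSquare (rep (dl e m.castSucc P)) := by
        apply isSquare_of_even_val
        · have := congrFun hP (m, none)
          rw [hΦ] at this
          simp only [F₁, Option.elim, qS, Pi.zero_apply, ite_eq_right_iff, one_ne_zero] at this
          exact lt_of_le_of_ne (not_lt.1 this) (rep_ne_zero hne).symm
        · intro l hl
          rw [← qV_eq_zero]
          by_cases hlD : l ∈ D
          · exact congrFun hP (m, some ⟨l, hlD⟩)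
          have hd : ¬(l : ℤ) ∣ dsc e := by
            intro h
            exact hlD (Nat.mem_primeFactors.2 ⟨hl, Int.natCast_dvd.1 h, Int.natAbs_ne_zero.2 he⟩)
          have : Fact l.Prime := ⟨hl⟩
          have hpr := Nat.prime_iff_prime_int.1 hl
          have hd' : ∀ i j : Fin 3, i ≠ j → ¬(l : ℤ) ∣ e i - e j := by
            intro i j hij h
            apply hd
            have h' : (l : ℤ) ∣ e j - e i := dvd_sub_comm.1 h
            unfold dsc
            fin_cases i <;> fin_cases j <;> simp at hij h h' <;>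
              first
              | exact (h.mul_right _).mul_right _
              | exact (h'.mul_right _).mul_right _
              | exact (h.mul_left _).mul_right _
              | exact (h'.mul_left _).mul_right _
              | exact h.mul_left _
              | exact h'.mul_left _
          by_cases hP' : ∀ x y h, P = Point.some x y h → ∀ m, x ≠ e m
          · obtain ⟨a, b, c, α, hac, hα, hne, hb, hF⟩ := point_data P hP'
            rw [hF _ _ (isQF_qV hl), qV_eq_zero]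
            generalize m.castSucc = m
            refine local_good (hne m) (hne (m + 1)) (hne (m + 2))
              (by rw [← fin3_prod_int, hb]) (c := c)
              (u := e m - e (m + 1)) (w := e m - e (m + 2))
              (by rw [hα, hα]; ring) (by rw [hα, hα]; ring) (hd' _ _ (fin3_ne2 m))
              (hd' _ _ (fin3_ne1 m)) ?_
            intro hc h
            rw [hα] at h
            have : (l : ℤ) ∣ a := by
              have h2 : (l : ℤ) ∣ e m * c ^ 2 := (dvd_pow hc two_ne_zero).mul_left _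
              simpa using dvd_add h h2
            exact hpr.not_unit (hac.isUnit_of_dvd' this hc)
          · push Not at hP'
            obtain ⟨x, y, h, rfl, i, rfl⟩ := hP'
            generalize m.castSucc = m
            have hr : ∀ n : ℤ, rep (n : ℚ) = n := by intro n; simp [rep]
            simp only [dl]
            split_ifs with hx
            · rw [← Int.cast_sub, ← Int.cast_sub, ← Int.cast_mul, hr, qV,
                padicValInt.eq_zero_of_not_dvd, Nat.cast_zero]
              intro h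
              rcases hpr.dvd_or_dvd h with h | h
              · exact hd' _ _ (fin3_ne1 m) h
              · exact hd' _ _ (fin3_ne2 m) h
            · rw [← Int.cast_sub, hr, qV, padicValInt.eq_zero_of_not_dvd, Nat.cast_zero]
              exact hd' _ _ (by rintro rfl; exact hx rfl)
      rw [← Rat.isSquare_intCast_iff, rep_cast] at hsq
      obtain ⟨k, hk⟩ := hsq
      have hden : ((dl e m.castSucc P).den : ℚ) ≠ 0 := by simp
      refine ⟨k / (dl e m.castSucc P).den, ?_⟩
      field_simp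
      linear_combination hk
    exact halve' he P (key 0) (key 1)
  have hfg := fg_of_finiteIndex (disc_cvE he) (finiteIndex_two Φ hker)
  obtain ⟨r, hr, hr2⟩ := two_pow_rank_le Φ hfg hker
  refine ⟨r, hr, hr2.trans ((card_range_le Φ Ψ).trans ?_)⟩
  apply Nat.mul_le_mul
  · simp only [Nat.card_eq_fintype_card, Fintype.card_pi, ZMod.card, Finset.prod_const,
      Finset.card_univ, Fintype.card_prod, Fintype.card_fin, Fintype.card_option,
      Fintype.card_coe, Fintype.card_bool]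
    apply le_of_eq; congr 1; ring
  let Φ' : Finset ι → (Fin 2 × Option D → ZMod 2) := fun S x =>
    x.2.elim 0 fun l => qV l (dd q σ S x.1.castSucc)
  let T : Fin 3 → (Fin 2 × Option D → ZMod 2) := fun i x =>
    F₁ x.2 (rep (if (e i : ℚ) = e x.1.castSucc then
      ((e x.1.castSucc : ℚ) - e (x.1.castSucc + 1)) * (e x.1.castSucc - e (x.1.castSucc + 2))
      else e i - e x.1.castSucc))
  have hsub : (Ψ.ker.map Φ : Set _) ⊆
      (((Finset.univ.filter fun S : Finset ι => ∀ p, okAt q σ S p).image Φ' ∪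
        Finset.univ.image T : Finset _) : Set (Fin 2 × Option D → ZMod 2)) := by
    rintro _ ⟨P, hP, rfl⟩
    simp only [Finset.coe_union, Finset.coe_image, Set.mem_union, Set.mem_image,
      Finset.coe_filter, Finset.mem_univ, true_and, Set.mem_ofPred_eq, Finset.coe_univ,
      Set.mem_univ]
    by_cases hP' : ∀ x y h, P = Point.some x y h → ∀ m, x ≠ e m
    · left
      obtain ⟨a, b, c, α, hac, hα, hne, hb, hF⟩ := point_data P hP'
      have hz : ∀ o m, F₂ o (α m) = 0 := by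
        intro o
        refine three _ (hF₂ o) α b hne hb ?_ ?_
        · rw [← hF _ _ (hF₂ o)]; exact congrFun hP (0, o)
        · rw [← hF _ _ (hF₂ o)]; exact congrFun hP (1, o)
      have hpos : ∀ m, 0 < α m := by
        intro m
        have := hz none m
        simp only [F₂, Option.elim, qS, ite_eq_right_iff, one_ne_zero] at this
        exact lt_of_le_of_ne (not_lt.1 this) (hne m).symm
      obtain ⟨h1, h2⟩ := core he hq hinj H1 H2 hac hα hpos hb
        (fun l hl m => ⟨hz (some (⟨l, hl⟩, true)) m, hz (some (⟨l, hl⟩, false)) m⟩)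
      refine ⟨_, h2, ?_⟩
      ext ⟨m, o⟩
      rw [hΦ, hF _ _ (hF₁ o)]
      rcases o with _ | l
      · exact (hz none _).symm
      · exact (h1 _ l (Nat.prime_of_mem_primeFactors l.2)).symm
    · right
      push Not at hP'
      obtain ⟨x, y, h, rfl, i, rfl⟩ := hP'
      exact ⟨i, rfl⟩
  have h1 := Set.ncard_le_ncard hsub (Finset.finite_toSet _)
  rw [Set.ncard_coe_finset] at h1
  refine le_trans h1 ((Finset.card_union_le _ _).trans (add_le_add ?_ ?_))
  · refine le_trans Finset.card_image_le (le_of_eq ?_)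
    unfold NN
    congr
  · simpa using Finset.card_image_le (s := (Finset.univ : Finset (Fin 3))) (f := T)

end core

end Pool.Agent.Lib.MP_788af2_nt
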