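import Pool.Agent.Lib.MP_788af2_nt.Level
import Pool.Agent.Lib.MP_788af2_nt.Descent

/-!
The average rank over a box is bounded.
-/

namespace Pool.Agent.Lib.MP_788af2_nt

open Finset Real

variable {p₀ : ℕ} {K c₀ : ℝ} {e : ℤ → ℤ → Fin 3 → ℤ} {st : ℕ → ℤ → ℤ → St}
  {bad : ℕ → ℤ → ℤ → Prop} {μ : Option (Fin 3 × Bool) → ℝ}

lemma card_PP_le (p₀ y : ℕ) : ((PP p₀ y).card : ℝ) ≤ y := by
  have : (PP p₀ y).card ≤ (Ioc 0 y).card := card_le_card fun p hp =>
    mem_Ioc.2 ⟨(mem_PP.1 hp).1.pos, (mem_PP.1 hp).2.2⟩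
  simpa using this

lemma Fam.second (H : Fam p₀ K c₀ e st bad μ) (y : ℕ) (a b : ℤ) (A B : ℕ)
    (hA : (y : ℝ) ^ 4 ≤ A) (hB : (y : ℝ) ^ 4 ≤ B) :
    box a b A B (fun m n => log (DP Subtype.val (fun p : PP p₀ y => st p m n)) ^ 2) ≤
      214 * K ^ 2 * log y ^ 2 * A * B := by
  have hK := H.one_le
  let g : ℕ → ℤ → ℤ → ℝ := fun p m n => if st p m n = none then 0 else 1
  have hg : ∀ p, Per p (g p) := fun p _ _ _ _ h1 h2 => by simp only [g, H.per p _ _ _ _ h1 h2]
  have hg1 : ∀ p m n, |g p m n| ≤ 1 := fun p m n => by simp only [g]; split_ifs <;> simp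
  have hm : ∀ p ∈ PP p₀ y, 0 ≤ mean p (g p) ∧ mean p (g p) ≤ 7 * K / p := by
    intro p hp
    obtain ⟨h1, h2, _⟩ := mem_PP.1 hp
    have h3 := mean_lin h1.pos (fun m n => if st p m n = none then 1 else 0) (-1) 1
    have h4 : mean p (g p) = 1 - dens p (st p) none := by
      rw [dens, sub_eq_neg_add, ← neg_one_mul, ← h3]
      congr 1; funext m n; simp only [g]; split_ifs <;> norm_num
    obtain ⟨h5, h6, _⟩ := H.none_ge h1 h2
    rw [h4]
    exact ⟨h5 ▸ sum_nonneg fun s _ => dens_nonneg _ _ _, h6⟩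
  have h1 : (fun m n => log (DP Subtype.val (fun p : PP p₀ y => st p m n)) ^ 2) = fun m n =>
      ∑ p ∈ PP p₀ y, ∑ p' ∈ PP p₀ y, log p * log p' * (g p m n * g p' m n) := by
    funext m n
    have : log (DP Subtype.val (fun p : PP p₀ y => st p m n)) =
        ∑ p ∈ PP p₀ y, log p * g p m n := by
      rw [DP, pp, Nat.cast_prod, log_prod fun p _ => by exact_mod_cast (mem_PP.1 p.2).1.ne_zero,
        sum_filter, ← sum_coe_sort (PP p₀ y)]
      refine sum_congr rfl fun p _ => ?_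
      by_cases h : st p m n = none <;> simp [g, h]
    rw [this, sq, sum_mul_sum]
    exact sum_congr rfl fun p _ => sum_congr rfl fun p' _ => by ring
  have hl := log_natCast_nonneg y
  have hS : ∑ p ∈ PP p₀ y, log p / p ≤ 2 * log y := by
    rcases (PP p₀ y).eq_empty_or_nonempty with h | ⟨p, hp⟩
    · rw [h, sum_empty]; positivity
    · have h2 : (4 : ℝ) ≤ y := by
        have h3 : (p₀ : ℝ) ≤ y := by exact_mod_cast (mem_PP.1 hp).2.1.le.trans (mem_PP.1 hp).2.2
        linarith [H.big]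
      have := log_le_log (by norm_num) h2
      refine le_trans (sum_le_sum_of_subset_of_nonneg (filter_subset _ _) fun p _ _ =>
        div_nonneg (log_natCast_nonneg p) (by positivity)) ((sum_log_div_le y).trans (by linarith))
  have hS0 : 0 ≤ ∑ p ∈ PP p₀ y, log p / p :=
    sum_nonneg fun p _ => div_nonneg (log_natCast_nonneg p) (by positivity)
  have hly : ∀ p ∈ PP p₀ y, log p ≤ log y := fun p hp =>
    log_le_log (by exact_mod_cast (mem_PP.1 hp).1.pos) (by exact_mod_cast (mem_PP.1 hp).2.2)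
  have h2 : ∀ p ∈ PP p₀ y, ∀ p' ∈ PP p₀ y,
      log p * log p' * box a b A B (fun m n => g p m n * g p' m n) ≤
      49 * K ^ 2 * A * B * (log p / p * (log p' / p')) +
        (if p = p' then 7 * K * A * B * log y * (log p / p) else 0) +
        2 * y ^ 2 * (A + B) * log y ^ 2 := by
    intro p hp p' hp'
    have e1 := log_natCast_nonneg p
    have e2 := log_natCast_nonneg p'
    have e3 := hly p hp
    have e4 := hly p' hp'
    have e5 : (p : ℝ) ≤ y := by exact_mod_cast (mem_PP.1 hp).2.2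
    have e6 : (p' : ℝ) ≤ y := by exact_mod_cast (mem_PP.1 hp').2.2
    have e7 : (1 : ℝ) ≤ p := by exact_mod_cast (mem_PP.1 hp).1.one_le
    split_ifs with hpp
    · subst hpp
      have h3 : (fun m n => g p m n * g p m n) = g p := by
        funext m n; simp only [g]; split_ifs <;> norm_num
      have h4 := (abs_le.1 (box_mean (mem_PP.1 hp).1.pos (hg p) (hg1 p) a b A B)).2
      have h5 : box a b A B (g p) ≤ A * B * (7 * K / p) + 2 * y ^ 2 * (A + B) := by
        have := mul_le_mul_of_nonneg_left (hm p hp).2 (by positivity : (0 : ℝ) ≤ A * B)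
        have h6 : (2 : ℝ) * p * (A + B) ≤ 2 * y ^ 2 * (A + B) := by gcongr; nlinarith
        linarith
      rw [h3]
      calc _ ≤ log p * log p * (A * B * (7 * K / p) + 2 * y ^ 2 * (A + B)) := by gcongr
        _ = 7 * K * A * B * log p * (log p / p) + 2 * y ^ 2 * (A + B) * (log p * log p) := by ring
        _ ≤ 7 * K * A * B * log y * (log p / p) + 2 * y ^ 2 * (A + B) * (log y * log y) := by
            gcongr
        _ ≤ _ := by
            have : 0 ≤ 49 * K ^ 2 * A * B * (log p / p * (log p / p)) := by positivity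
            rw [← sq]; linarith
    · have hc : p.Coprime p' := (Nat.coprime_primes (mem_PP.1 hp).1 (mem_PP.1 hp').1).2 hpp
      have h4 := (abs_le.1 (box_mean (Nat.mul_pos (mem_PP.1 hp).1.pos (mem_PP.1 hp').1.pos)
        (f := fun m n => g p m n * g p' m n) (fun _ _ _ _ h1 h2 => by
          dsimp only
          rw [(hg p).of_dvd (dvd_mul_right _ _) _ _ _ _ h1 h2,
            (hg p').of_dvd (dvd_mul_left _ _) _ _ _ _ h1 h2])
        (fun m n => by rw [abs_mul]; exact mul_le_one₀ (hg1 ..) (abs_nonneg _) (hg1 ..))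
        a b A B)).2
      rw [mean_mul hc (mem_PP.1 hp).1.pos (mem_PP.1 hp').1.pos (hg p) (hg p')] at h4
      have h5 : box a b A B (fun m n => g p m n * g p' m n) ≤
          A * B * (7 * K / p * (7 * K / p')) + 2 * y ^ 2 * (A + B) := by
        have h6 : (A : ℝ) * B * (mean p (g p) * mean p' (g p')) ≤
            A * B * (7 * K / p * (7 * K / p')) := by
          gcongr
          exacts [(hm p' hp').1, (hm p hp).2, (hm p' hp').2]
        have h7 : (2 : ℝ) * (p * p' : ℕ) * (A + B) ≤ 2 * y ^ 2 * (A + B) := by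
          push_cast; rw [sq]; gcongr
        linarith
      calc _ ≤ log p * log p' * (A * B * (7 * K / p * (7 * K / p')) + 2 * y ^ 2 * (A + B)) := by
            gcongr
        _ = 49 * K ^ 2 * A * B * (log p / p * (log p' / p')) +
            2 * y ^ 2 * (A + B) * (log p * log p') := by ring
        _ ≤ 49 * K ^ 2 * A * B * (log p / p * (log p' / p')) +
            2 * y ^ 2 * (A + B) * (log y * log y) := by gcongr
        _ = _ := by ring
  rw [h1]
  simp only [box_sum, box_mul]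
  refine (sum_le_sum fun p hp => sum_le_sum fun p' hp' => h2 p hp p' hp').trans ?_
  have h3 : ∑ p ∈ PP p₀ y, ∑ p' ∈ PP p₀ y,
      (if p = p' then 7 * K * A * B * log y * (log p / p) else 0) =
      7 * K * A * B * log y * ∑ p ∈ PP p₀ y, log p / p := by
    rw [mul_sum]
    exact sum_congr rfl fun p hp => by rw [sum_ite_eq, if_pos hp]
  simp only [sum_add_distrib, h3, sum_const, nsmul_eq_mul]
  simp only [← mul_sum, ← sum_mul]
  have hc := card_PP_le p₀ y
  have h4 : (y : ℝ) ^ 4 * (A + B) ≤ 2 * A * B := by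
    have e1 := mul_le_mul_of_nonneg_right hA (Nat.cast_nonneg (α := ℝ) B)
    have e2 := mul_le_mul_of_nonneg_right hB (Nat.cast_nonneg (α := ℝ) A)
    linarith
  calc _ ≤ 49 * K ^ 2 * A * B * (2 * log y * (2 * log y)) + 7 * K * A * B * log y * (2 * log y) +
        y * (y * (2 * y ^ 2 * (A + B) * log y ^ 2)) := by gcongr
    _ = (196 * K ^ 2 + 14 * K) * log y ^ 2 * A * B + 2 * log y ^ 2 * (y ^ 4 * (A + B)) := by ring
    _ ≤ (196 * K ^ 2 + 14 * K ^ 2) * log y ^ 2 * A * B +
        2 * log y ^ 2 * (K ^ 2 * (2 * A * B)) := by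
        have h5 := h4.trans (le_mul_of_one_le_left (by positivity) (one_le_pow₀ (n := 2) hK))
        gcongr ?_ + 2 * _ * ?_
        gcongr
        nlinarith
    _ = _ := by ring

open Classical in
lemma Fam.bad_sum (H : Fam p₀ K c₀ e st bad μ) (y : ℕ) (a b : ℤ) (A B : ℕ)
    (hA : (y : ℝ) ^ 4 ≤ A) (hB : (y : ℝ) ^ 4 ≤ B) :
    box a b A B (fun m n => ∑ p ∈ PP p₀ y, if bad p m n then 1 else 0) ≤ 6 * K * A * B := by
  have hK := H.one_le
  rw [box_sum]
  have h1 : ∀ p ∈ PP p₀ y, box a b A B (fun m n => if bad p m n then 1 else 0) ≤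
      K * A * B * ((p : ℝ) ^ 2)⁻¹ + 2 * y ^ 3 * (A + B) := by
    intro p hp
    obtain ⟨e1, e2, e3⟩ := mem_PP.1 hp
    have h2 := (abs_le.1 (box_mean (pow_pos e1.pos 2) (f := fun m n => if bad p m n then 1 else 0)
      (fun _ _ _ _ h1 h2 => by dsimp only; rw [H.perb p _ _ _ _ h1 h2])
      (fun m n => by split_ifs <;> simp) a b A B)).2
    have h3 := mul_le_mul_of_nonneg_left (H.badle p e1 e2) (by positivity : (0 : ℝ) ≤ A * B)
    have h4 : (2 : ℝ) * (p ^ 2 : ℕ) * (A + B) ≤ 2 * y ^ 3 * (A + B) := by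
      gcongr
      exact_mod_cast (Nat.pow_le_pow_left e3 2).trans
        (Nat.pow_le_pow_right (e1.pos.trans_le e3) (by norm_num))
    have h5 : A * B * (K / p ^ 2) = K * A * B * ((p : ℝ) ^ 2)⁻¹ := by ring
    linarith
  refine (sum_le_sum h1).trans ?_
  rw [sum_add_distrib, ← mul_sum, sum_const, nsmul_eq_mul]
  have h2 := sum_inv_sq_le (PP p₀ y) 0 fun p hp => (mem_PP.1 hp).1.pos
  have hc := card_PP_le p₀ y
  have h4 : (y : ℝ) ^ 4 * (A + B) ≤ 2 * A * B := by
    have e1 := mul_le_mul_of_nonneg_right hA (Nat.cast_nonneg (α := ℝ) B)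
    have e2 := mul_le_mul_of_nonneg_right hB (Nat.cast_nonneg (α := ℝ) A)
    linarith
  calc _ ≤ K * A * B * 2 + y * (2 * y ^ 3 * (A + B)) := by
        gcongr
        simpa using h2
    _ = K * A * B * 2 + 2 * (y ^ 4 * (A + B)) := by ring
    _ ≤ K * A * B * 2 + 2 * (K * (2 * A * B)) := by
        linarith [h4.trans (le_mul_of_one_le_left (by positivity) hK)]
    _ = _ := by ring

/-- The rank of the curve with roots `e`, as a real number. -/
noncomputable def rk (e : Fin 3 → ℤ) : ℝ :=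
  if dsc e = 0 then 0 else ((Module.rank ℤ (cvE e).Point).toNat : ℝ)

lemma rk_nonneg (e : Fin 3 → ℤ) : 0 ≤ rk e := by unfold rk; split_ifs <;> positivity

open Classical in
lemma Fam.point (H : Fam p₀ K c₀ e st bad μ) (m n : ℤ) {x w : ℝ} (hx : 0 < x)
    (hd : |(dsc (e m n) : ℝ)| ≤ exp w) (hw : 0 ≤ w) (j : ℕ) :
    rk (e m n) ≤ 5 + 4 * p₀ + 4 * (w / x) + 7 * j +
      4 * (∑ p ∈ PP p₀ ⌊exp x⌋₊, if bad p m n then 1 else 0) +
      14 * (MM Subtype.val (fun p : PP p₀ ⌊exp x⌋₊ => st p m n) / 2 ^ j) := by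
  set y := ⌊exp x⌋₊ with hy
  have hM := (MM_terms Subtype.val (fun p : PP p₀ y => st p m n)).1
  have hb : (0 : ℝ) ≤ ∑ p ∈ PP p₀ y, if bad p m n then 1 else 0 :=
    sum_nonneg fun _ _ => by split_ifs <;> norm_num
  unfold rk
  split_ifs with h0
  · positivity
  set B₁ := (Ioc 0 p₀).filter Nat.Prime
  set B₂ := (dsc (e m n)).natAbs.primeFactors.filter (y < ·) with hB₂
  set B₃ := (PP p₀ y).filter (bad · m n)
  obtain ⟨r, hr1, hr2⟩ := rank_bound (q := (Subtype.val : PP p₀ y → ℕ))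
    (σ := fun p => st p m n) (B := B₁ ∪ B₂ ∪ B₃) h0 (psys p₀ y).prime Subtype.val_injective
    (fun l hl => by
      simp only [mem_union] at hl
      rcases hl with (hl | hl) | hl
      · exact (mem_filter.1 hl).2
      · exact Nat.prime_of_mem_primeFactors (mem_filter.1 hl).1
      · exact (mem_PP.1 (mem_filter.1 hl).1).1)
    (fun l hl hld => by
      simp only [mem_union]
      by_cases h1 : l ≤ p₀
      · exact Or.inl (Or.inl (Or.inl (mem_filter.2 ⟨mem_Ioc.2 ⟨hl.pos, h1⟩, hl⟩)))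
      by_cases h2 : y < l
      · exact Or.inl (Or.inl (Or.inr (mem_filter.2 ⟨Nat.mem_primeFactors.2
          ⟨hl, Int.natCast_dvd.1 hld, Int.natAbs_ne_zero.2 h0⟩, h2⟩)))
      have h3 : l ∈ PP p₀ y := mem_PP.2 ⟨hl, not_le.1 h1, not_lt.1 h2⟩
      by_cases h4 : bad l m n
      · exact Or.inl (Or.inr (mem_filter.2 ⟨h3, h4⟩))
      · exact Or.inr ⟨⟨l, h3⟩, rfl, (H.valid l m n hl (not_le.1 h1) h4).2 hld⟩)
    (fun p => by
      by_cases h4 : bad p m n
      · exact Or.inl (mem_union_right _ (mem_filter.2 ⟨p.2, h4⟩))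
      · exact Or.inr (H.valid p m n (mem_PP.1 p.2).1 (mem_PP.1 p.2).2.1 h4).1)
  rw [hr1, Cardinal.toNat_natCast]
  have c1 : (B₁.card : ℝ) ≤ p₀ := by
    have : B₁.card ≤ (Ioc 0 p₀).card := card_filter_le _ _
    simpa using this
  have c2 : (B₂.card : ℝ) ≤ w / x := by
    rw [le_div_iff₀ hx, ← exp_le_exp, exp_nat_mul, ← prod_const]
    refine le_trans ?_ hd
    calc ∏ _p ∈ B₂, exp x ≤ ∏ p ∈ B₂, (p : ℝ) := prod_le_prod (fun _ _ => (exp_pos _).le)
          fun p hp => (Nat.lt_of_floor_lt (mem_filter.1 hp).2).le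
      _ ≤ ((dsc (e m n)).natAbs : ℝ) := by
          rw [← Nat.cast_prod, Nat.cast_le]
          exact Nat.le_of_dvd (Int.natAbs_pos.2 h0) ((prod_dvd_prod_of_subset _ _ _
            (filter_subset _ _)).trans (Nat.prod_primeFactors_dvd _))
      _ = _ := by rw [Nat.cast_natAbs, Int.cast_abs]
  have c3 : (B₃.card : ℝ) = ∑ p ∈ PP p₀ y, if bad p m n then 1 else 0 := by simp [B₃]
  have c4 : ((B₁ ∪ B₂ ∪ B₃).card : ℝ) ≤ B₁.card + B₂.card + B₃.card := by
    exact_mod_cast (card_union_le _ _).trans (Nat.add_le_add_right (card_union_le _ _) _)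
  set M := MM Subtype.val (fun p : PP p₀ y => st p m n)
  set c := (B₁ ∪ B₂ ∪ B₃).card
  have h1 : (2 : ℝ) ^ r ≤ 2 ^ (5 + 4 * c + 7 * j) * (M / 2 ^ j) ^ 7 := by
    calc (2 : ℝ) ^ r ≤ 2 ^ (2 + 4 * c) * (NN Subtype.val (fun p : PP p₀ y => st p m n) + 3) := by
          exact_mod_cast hr2
      _ ≤ 2 ^ (2 + 4 * c) * (8 * M ^ 7) := by gcongr; exact NN_le_MM _ _
      _ = _ := by field_simp; ring
  have h2 := log_le_log (by positivity) h1
  rw [log_mul (by positivity) (by positivity), log_pow, log_pow, log_pow] at h2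
  have h3 := log_le_sub_one_of_pos (by positivity : 0 < M / 2 ^ j)
  have h4 := log_two_gt_d9
  have h5 : 0 < M / 2 ^ j := by positivity
  push_cast at h2
  have h6 : (r : ℝ) ≤ 5 + 4 * c + 7 * j + 14 * (M / 2 ^ j) := by
    by_contra hc
    nlinarith
  linarith

lemma two_pow_le_sum (P : ℕ → Prop) [DecidablePred P] {r R : ℕ} (hr : r ≤ R)
    (h : ∀ j < r, ¬P j) : (2 : ℝ) ^ r ≤ 1 + ∑ j ∈ range R, 2 ^ j * if P j then 0 else 1 := by
  have h1 : (2 : ℝ) ^ r = 1 + ∑ j ∈ range r, 2 ^ j * if P j then 0 else 1 := by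
    rw [sum_congr rfl fun j hj => by rw [if_neg (h j (mem_range.1 hj)), mul_one], geom_sum_eq
      (by norm_num)]
    ring
  rw [h1, add_le_add_iff_left]
  exact sum_le_sum_of_subset_of_nonneg (range_subset_range.2 hr) fun j _ _ => by
    split_ifs <;> positivity

theorem Fam.transfer (H : Fam p₀ K c₀ e st bad μ) (k : ℕ) : ∃ C X₀ : ℝ, 0 ≤ C ∧ ∀ X, X₀ ≤ X →
    ∀ (a b : ℤ) (A B : ℕ), X ≤ A → X ≤ B →
      (∀ i < A, ∀ j < B, |(dsc (e (a + i) (b + j)) : ℝ)| ≤ X ^ k) →
      box a b A B (fun m n => rk (e m n)) ≤ C * A * B := by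
  classical
  obtain ⟨C, hC0, hC⟩ := H.level
  have hK := H.one_le
  set c := 4 * k * (560 * K) + 7 with hc
  refine ⟨5 + 4 * p₀ + c * (1 + 428 * K ^ 2) + 24 * K + 28 * (C + 32), exp (560 * K * 2),
    by positivity, fun X hX a b A B hA hB hd => ?_⟩
  have hX0 : 0 < X := (exp_pos _).trans_le hX
  set l := log X with hl
  have hl1 : 560 * K * 2 ≤ l := (le_log_iff_exp_le hX0).2 hX
  have hl0 : 0 < l := by linarith
  have hXl : exp l = X := exp_log hX0
  set x : ℕ → ℝ := fun j => l / (560 * K) / 2 ^ j with hx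
  have hx0 : ∀ j, 0 < x j := fun j => by simp only [hx]; positivity
  have hx1 : ∀ j, x j ≤ l / (560 * K) := fun j => div_le_self (by positivity) (one_le_pow₀ one_le_two)
  set y : ℕ → ℕ := fun j => ⌊exp (x j)⌋₊ with hy
  have hy1 : ∀ j, (y j : ℝ) ≤ exp (x j) := fun j => Nat.floor_le (exp_pos _).le
  have hy2 : ∀ j, log (y j) ≤ x j := fun j => by
    rw [log_le_iff_le_exp]
    · exact hy1 j
    · exact_mod_cast Nat.floor_pos.2 (one_le_exp (hx0 j).le)
  have hy3 : ∀ j, (y j : ℝ) ^ 4 ≤ X := fun j => by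
    calc (y j : ℝ) ^ 4 ≤ exp (x j) ^ 4 := by gcongr; exact hy1 j
      _ ≤ exp l := by
          rw [← exp_nat_mul, exp_le_exp]
          refine (mul_le_mul_of_nonneg_left (hx1 j) (by positivity)).trans ?_
          rw [← mul_div_assoc, div_le_iff₀ (by positivity)]
          push_cast; nlinarith
      _ = X := hXl
  set Z := exp (l / 10) with hZ
  have hZ1 : 1 ≤ Z := one_le_exp (by positivity)
  have hZ2 : Z ^ 10 = X := by rw [hZ, ← exp_nat_mul, ← hXl]; congr 1; push_cast; ring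
  set R := ⌈l⌉₊ with hR
  let σ : ∀ j, ℤ → ℤ → PP p₀ (y j) → St := fun j m n p => st p m n
  have hRP : ∀ m n, (DP Subtype.val (σ R m n) : ℝ) ≤ Z := by
    intro m n
    have h1 : x R ≤ 1 := by
      have h2 : l ≤ 2 ^ R := (Nat.le_ceil l).trans (by exact_mod_cast Nat.lt_two_pow_self.le)
      rw [hx, div_le_one (by positivity)]
      exact (div_le_self hl0.le (by linarith)).trans h2
    have h2 : (y R : ℝ) ≤ p₀ := by
      linarith [hy1 R, exp_le_exp.2 h1, exp_one_lt_d9, H.big]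
    have h3 : IsEmpty (PP p₀ (y R)) := ⟨fun p => by
      have := (mem_PP.1 p.2).2
      have h4 : y R ≤ p₀ := by exact_mod_cast h2
      omega⟩
    simpa [DP, pp] using hZ1
  let nb : ℤ → ℤ → ℝ := fun m n => ∑ p ∈ PP p₀ (y 0), if bad p m n then 1 else 0
  let u : ℕ → ℤ → ℤ → ℝ := fun j m n => if (DP Subtype.val (σ j m n) : ℝ) ≤ Z then 0 else 1
  let v : ℕ → ℤ → ℤ → ℝ := fun j m n =>
    if (DP Subtype.val (σ j m n) : ℝ) ≤ Z then MM Subtype.val (σ j m n) else 0
  have hpt : box a b A B (fun m n => rk (e m n)) ≤ box a b A B (fun m n => (5 + 4 * p₀ + c) +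
      (c * ∑ j ∈ range R, 2 ^ j * u j m n + (4 * nb m n +
        14 * ∑ j ∈ range (R + 1), (1 / 2) ^ j * v j m n))) := by
    refine box_mono fun i hi j hj => ?_
    have h1 := hd i hi j hj
    generalize a + i = m at h1 ⊢
    generalize b + j = n at h1 ⊢
    have hex : ∃ r, (DP Subtype.val (σ r m n) : ℝ) ≤ Z := ⟨R, hRP m n⟩
    set r := Nat.find hex
    have hrR : r ≤ R := Nat.find_min' hex (hRP m n)
    have h2 := two_pow_le_sum (fun r => (DP Subtype.val (σ r m n) : ℝ) ≤ Z) hrR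
      fun j hj => Nat.find_min hex hj
    rw [← hXl, ← exp_nat_mul] at h1
    have h3 := H.point m n (hx0 r) h1 (by positivity) r
    have h4 : k * l / x r = k * (560 * K) * 2 ^ r := by simp only [hx]; field_simp
    have h5 : (r : ℝ) ≤ 2 ^ r := by exact_mod_cast Nat.lt_two_pow_self.le
    have h6 : (∑ p ∈ PP p₀ (y r), if bad p m n then 1 else 0) ≤ nb m n := by
      refine sum_le_sum_of_subset_of_nonneg (fun p hp => ?_) fun _ _ _ => by
        split_ifs <;> norm_num
      rw [mem_PP] at hp ⊢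
      refine ⟨hp.1, hp.2.1, hp.2.2.trans (Nat.floor_mono (exp_le_exp.2 ?_))⟩
      simpa [hx] using hx1 r
    have h7 : MM Subtype.val (σ r m n) / 2 ^ r ≤
        ∑ j ∈ range (R + 1), (1 / 2) ^ j * v j m n := by
      refine le_trans (le_of_eq ?_) (single_le_sum (f := fun j => (1 / 2) ^ j * v j m n)
        (fun j _ => ?_) (mem_range.2 (Nat.lt_succ_of_le hrR)))
      · have h9 : (DP Subtype.val (σ r m n) : ℝ) ≤ Z := Nat.find_spec hex
        simp only [v, if_pos h9]
        rw [one_div, inv_pow]; ring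
      · have := (MM_terms Subtype.val (σ j m n)).1
        simp only [v]; split_ifs <;> positivity
    have h8 := mul_le_mul_of_nonneg_left h2 (by positivity : 0 ≤ c)
    rw [h4] at h3
    simp only [u]
    nlinarith
  refine hpt.trans ?_
  simp only [box_add, box_mul, box_sum, box_const]
  have hAB : X * (A + B) ≤ 2 * A * B := by
    have e1 := mul_le_mul_of_nonneg_right hA (Nat.cast_nonneg (α := ℝ) B)
    have e2 := mul_le_mul_of_nonneg_right hB (Nat.cast_nonneg (α := ℝ) A)
    linarith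
  have b1 : ∀ j, 2 ^ j * box a b A B (u j) ≤ 214 * K ^ 2 * A * B * (1 / 2) ^ j := by
    intro j
    have h1 := H.second (y j) a b A B ((hy3 j).trans hA) ((hy3 j).trans hB)
    have h2 : box a b A B (fun m n => (l / 10) ^ 2 * u j m n) ≤
        box a b A B (fun m n => log (DP Subtype.val (σ j m n)) ^ 2) := by
      refine box_mono fun _ _ _ _ => ?_
      simp only [u]
      split_ifs with h
      · rw [mul_zero]; positivity
      · rw [mul_one]
        gcongr
        rw [le_log_iff_exp_le ((exp_pos _).trans (not_le.1 h))]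
        exact (not_le.1 h).le
    rw [box_mul] at h2
    have h3 : log (y j) ≤ l / 10 / 2 ^ j := by
      refine (hy2 j).trans ?_
      simp only [hx]; gcongr; linarith
    have h4 := log_natCast_nonneg (y j)
    have h5 : (l / 10) ^ 2 * box a b A B (u j) ≤
        (l / 10) ^ 2 * (214 * K ^ 2 * A * B / (2 ^ j) ^ 2) := by
      calc _ ≤ 214 * K ^ 2 * (l / 10 / 2 ^ j) ^ 2 * A * B := h2.trans (h1.trans (by gcongr))
        _ = _ := by ring
    have h6 := le_of_mul_le_mul_left h5 (by positivity)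
    calc _ ≤ 2 ^ j * (214 * K ^ 2 * A * B / (2 ^ j) ^ 2) := by gcongr
      _ = _ := by rw [one_div, inv_pow]; field_simp
  have b2 : ∀ j, (1 / 2) ^ j * box a b A B (v j) ≤ (C + 32) * A * B * (1 / 2) ^ j := by
    intro j
    have h1 := hC (y j) Z hZ1 (by
      rw [hZ, log_exp]
      have h2 := (hy2 j).trans (hx1 j)
      rw [le_div_iff₀ (by positivity)] at h2
      have h3 : log 4 ≤ 2 := by
        rw [show (4 : ℝ) = 2 ^ 2 by norm_num, log_pow]; push_cast; linarith [log_two_lt_d9]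
      nlinarith) a b A B
    rw [hZ2] at h1
    rw [mul_comm]
    refine mul_le_mul_of_nonneg_right (h1.trans ?_) (by positivity)
    nlinarith
  have b3 := H.bad_sum (y 0) a b A B ((hy3 0).trans hA) ((hy3 0).trans hB)
  have b4 := sum_le_sum (s := range R) fun j _ => b1 j
  have b5 := sum_le_sum (s := range (R + 1)) fun j _ => b2 j
  rw [← mul_sum] at b4 b5
  have b6 := b4.trans (mul_le_mul_of_nonneg_left (sum_geometric_two_le R) (by positivity))
  have b7 := b5.trans (mul_le_mul_of_nonneg_left (sum_geometric_two_le (R + 1)) (by positivity))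
  have b8 := mul_le_mul_of_nonneg_left b6 (by positivity : 0 ≤ c)
  have b9 : box a b A B nb ≤ 6 * K * A * B := b3
  nlinarith

end Pool.Agent.Lib.MP_788af2_nt
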