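import Pool.Agent.Lib.MP_788af2_nt.Count
import Pool.Agent.Lib.MP_788af2_nt.Transfer

/-!
Families given by a factorisation of the root differences into linear and quadratic forms.
-/

namespace Pool.Agent.Lib.MP_788af2_nt

open Finset Real
open scoped NumberTheorySymbols

/-- Compatibility with congruences. -/
def Cong (F : ℤ → ℤ → ℤ) : Prop :=
  ∀ q m m' n n' : ℤ, m ≡ m' [ZMOD q] → n ≡ n' [ZMOD q] → F m n ≡ F m' n' [ZMOD q]

/-- The normalised number of zeros modulo `p`. -/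
noncomputable def zc (F : ℤ → ℤ → ℤ) (p : ℕ) : ℝ :=
  p * mean p fun m n => if (p : ℤ) ∣ F m n then 1 else 0

/-- The normalised number of zeros modulo `p` at which `G` is a non-zero square. -/
noncomputable def wc (F G : ℤ → ℤ → ℤ) (p : ℕ) : ℝ :=
  p * mean p fun m n => if (p : ℤ) ∣ F m n ∧ J(G m n | p) = 1 then 1 else 0

/-- The zeros of a form. -/
structure Zeros (p₀ : ℕ) (F : ℤ → ℤ → ℤ) (χ : ℕ → ℝ) : Prop where
  cong : Cong F
  sq : ∀ p : ℕ, p.Prime → p₀ < p → mean (p ^ 2) (fun m n => if (p : ℤ) ^ 2 ∣ F m n ∧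
      ¬((p : ℤ) ∣ m ∧ (p : ℤ) ∣ n) then 1 else 0) ≤ 2 / p ^ 2
  ch : IsCh24 χ ∨ χ = fun _ => 0
  mn : HasMean p₀ χ 0
  near : ∀ p : ℕ, p.Prime → p₀ < p → |zc F p - (1 + χ p)| ≤ 1 / p

/-- A form together with its splitting condition. -/
structure Form (p₀ : ℕ) (F G : ℤ → ℤ → ℤ) (a : ℝ) : Prop where
  cong : Cong F
  sq : ∀ p : ℕ, p.Prime → p₀ < p → mean (p ^ 2) (fun m n => if (p : ℤ) ^ 2 ∣ F m n ∧
      ¬((p : ℤ) ∣ m ∧ (p : ℤ) ∣ n) then 1 else 0) ≤ 2 / p ^ 2
  le : ∀ p : ℕ, p.Prime → p₀ < p → zc F p ≤ 3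
  mz : HasMean p₀ (zc F) 1
  mw : HasMean p₀ (wc F G) a
  oz : Osc p₀ (zc F)
  ow : Osc p₀ (wc F G)
  od : Osc p₀ fun p => 2 * wc F G p - zc F p

variable {p₀ : ℕ} {F G : ℤ → ℤ → ℤ} {χ : ℕ → ℝ} {a : ℝ}

lemma HasMean.zero : HasMean p₀ (fun _ => 0) 0 := ⟨0, by simp⟩

lemma Cong.swap (h : Cong F) : Cong fun m n => F n m := fun q _ _ _ _ h1 h2 => h q _ _ _ _ h2 h1

lemma zc_swap (F : ℤ → ℤ → ℤ) : zc (fun m n => F n m) = zc F := by
  funext p; rw [zc, zc, ← mean_swap]

lemma wc_swap (F G : ℤ → ℤ → ℤ) : wc (fun m n => F n m) (fun m n => G n m) = wc F G := by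
  funext p; rw [wc, wc, ← mean_swap]

lemma Zeros.swap (h : Zeros p₀ F χ) : Zeros p₀ (fun m n => F n m) χ :=
  ⟨h.cong.swap, fun p h1 h2 => by
    rw [← mean_swap]; simpa only [and_comm (a := (p : ℤ) ∣ _) (b := (p : ℤ) ∣ _)] using h.sq p h1 h2,
    h.ch, h.mn, by rw [zc_swap]; exact h.near⟩

lemma Form.swap (h : Form p₀ F G a) : Form p₀ (fun m n => F n m) (fun m n => G n m) a :=
  ⟨h.cong.swap, fun p h1 h2 => by
    rw [← mean_swap]; simpa only [and_comm (a := (p : ℤ) ∣ _) (b := (p : ℤ) ∣ _)] using h.sq p h1 h2,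
    by rw [zc_swap]; exact h.le, by rw [zc_swap]; exact h.mz, by rw [wc_swap]; exact h.mw,
    by rw [zc_swap]; exact h.oz, by rw [wc_swap]; exact h.ow,
    by rw [zc_swap, wc_swap]; exact h.od⟩

lemma not_dvd_small {p : ℕ} (hp : p₀ < p) {u : ℤ} (h0 : u ≠ 0) (hu : u.natAbs ≤ p₀) :
    ¬(p : ℤ) ∣ u := fun h => by
  have := Nat.le_of_dvd (Int.natAbs_pos.2 h0) (Int.natCast_dvd.1 h); omega

lemma Zeros.lin (hc : Cong F) {u : ℤ} (h0 : u ≠ 0) (hu : u.natAbs ≤ p₀) (h : ℤ → ℤ)
    (hF : ∀ m n, F m n = u * n + h m) : Zeros p₀ F fun _ => 0 := by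
  refine ⟨hc, fun p hp h1 => ?_, Or.inr rfl, HasMean.zero, fun p hp h1 => ?_⟩
  · have h2 := mean_linear (pow_pos hp.pos 2) (u := u) (by
      push_cast; exact (cop_of_not_dvd hp (not_dvd_small h1 h0 hu)).pow_right) h fun _ => 1
    have hp' : (0 : ℝ) < p := by exact_mod_cast hp.pos
    refine (mean_mono fun m n => ?_).trans (h2.le.trans ?_)
    · rw [hF]; push_cast; split_ifs with h3 h4 <;> first | exact absurd h3.1 h4 | norm_num
    · simp; field_simp; norm_num
  · have h2 := mean_linear hp.pos (cop_of_not_dvd hp (not_dvd_small h1 h0 hu)) h fun _ => 1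
    have hp' : (0 : ℝ) < p := by exact_mod_cast hp.pos
    simp only [zc, hF, h2]
    simp [pow_two, hp'.ne']

lemma Zeros.quad (h3 : 3 ≤ p₀) (a b c d w : ℤ) (hF : ∀ m n, F m n = a * m ^ 2 + b * m * n + c * n ^ 2)
    (h0 : a ≠ 0) (ha : (2 * a).natAbs ≤ p₀) (hD : b ^ 2 - 4 * a * c = d * w ^ 2)
    (hD0 : d * w ^ 2 ≠ 0) (hD1 : (d * w ^ 2).natAbs ≤ p₀) (hd : d.natAbs ∣ 6)
    (hm : HasMean p₀ (jc d) 0) : Zeros p₀ F (jc d) := by
  refine ⟨fun q _ _ _ _ h1 h2 => by simp only [hF]; gcongr, fun p hp h1 => ?_,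
    Or.inl (isCh24_jc hd), hm, fun p hp h1 => ?_⟩
  · simp only [hF]
    exact mean_quad_sq hp (not_dvd_small h1 (by omega) ha) (hD ▸ not_dvd_small h1 hD0 hD1)
  · have : Fact p.Prime := ⟨hp⟩
    have h2 := mean_quad hp (by omega) (b := b) (c := c)
      fun h => not_dvd_small h1 (by omega) ha (h.mul_left 2)
    have h4 : J(d * w ^ 2 | p) = J(d | p) := by
      rw [jacobiSym.mul_left, jacobiSym.pow_left]
      rcases jac_unit (p := p) (u := w) fun h => not_dvd_small h1 hD0 hD1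
        ((dvd_pow h two_ne_zero).mul_left d) with h5 | h5 <;> simp [h5]
    simp only [zc, hF, h2, hD, h4, jc_prime d hp (by omega)]
    rw [sub_sub_cancel_left, abs_neg, abs_div, Nat.abs_cast]
    gcongr
    rcases jacobiSym.trichotomy d p with h | h | h <;> simp [h]

lemma osc_chz (h : IsCh24 χ ∨ χ = fun _ => 0) {ψ : ℕ → ℝ} (h' : IsCh24 ψ) :
    Osc p₀ fun p => (1 + χ p) * ψ p := by
  rcases h with h | rfl
  · simpa only [add_mul, one_mul] using (Osc.ch h').add (Osc.ch (h.mul h'))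
  · simpa using Osc.ch h'

lemma Zeros.base (h : Zeros p₀ F χ) : (∀ p : ℕ, p.Prime → p₀ < p → zc F p ≤ 3) ∧
    HasMean p₀ (zc F) 1 ∧ Osc p₀ (zc F) := by
  refine ⟨fun p hp h1 => ?_, ?_, ?_⟩
  · have h2 := (abs_le.1 (h.near p hp h1)).2
    have h3 : (1 : ℝ) / p ≤ 1 := div_le_self zero_le_one (by exact_mod_cast hp.one_le)
    have h4 : χ p ≤ 1 := by
      rcases h.ch with h | rfl
      · exact (abs_le.1 (h.1.abs_le p)).2
      · exact zero_le_one
    linarith
  · simpa using (HasMean.one.add h.mn).near h.near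
  · exact (osc_chz h.ch isCh24_one).near (by simpa only [mul_one] using h.near)

lemma Form.const (h : Zeros p₀ F χ) (h3 : 3 ≤ p₀) (d : ℤ) (hd : d.natAbs ∣ 6) {α β : ℝ}
    (hα : HasMean p₀ (jc d) α) (hβ : HasMean p₀ (fun p => χ p * jc d p) β)
    (ha : a = (1 + α + β) / 2)
    (hJ : ∀ (p : ℕ) m n, p.Prime → p₀ < p → (p : ℤ) ∣ F m n → ¬((p : ℤ) ∣ m ∧ (p : ℤ) ∣ n) →
      J(G m n | p) = J(d | p)) : Form p₀ F G a := by
  have key : ∀ p : ℕ, p.Prime → p₀ < p → |wc F G p - (1 + jc d p) / 2 * zc F p| ≤ 1 / p ∧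
      (jc d p = 1 ∨ jc d p = -1) := by
    intro p hp h1
    have : Fact p.Prime := ⟨hp⟩
    have hp' : (0 : ℝ) < p := by exact_mod_cast hp.pos
    have h4 : J(d | p) = 1 ∨ J(d | p) = -1 := jac_unit fun h => by
      have h5 := (Int.natCast_dvd.1 h).trans hd
      rcases (Nat.Prime.dvd_mul hp).1 (show p ∣ 2 * 3 from h5) with h | h <;>
        have := Nat.le_of_dvd (by norm_num) h <;> omega
    rw [jc_prime d hp (by omega)]
    refine ⟨?_, by exact_mod_cast h4⟩
    rw [wc, zc, mul_left_comm, ← mul_sub, ← mean_smul, abs_mul, Nat.abs_cast]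
    refine (mul_le_mul_of_nonneg_left ((mean_near fun m n => ?_).trans_eq
      (mean_origin hp.pos)) hp'.le).trans (le_of_eq (by field_simp))
    by_cases h5 : (p : ℤ) ∣ F m n
    · by_cases h6 : (p : ℤ) ∣ m ∧ (p : ℤ) ∣ n
      · rw [if_pos h5, if_pos h6]
        rcases h4 with h4 | h4 <;> rw [h4] <;> split_ifs <;> norm_num
      · rw [hJ p m n hp h1 h5 h6]
        rcases h4 with h4 | h4 <;> simp [h4, h5, h6]
    · simp only [h5, false_and, if_false]; split_ifs <;> norm_num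
  have n1 : ∀ p : ℕ, p.Prime → p₀ < p →
      |wc F G p - (1 / 2) * ((1 + χ p) + (jc d p + χ p * jc d p))| ≤ 2 / p := by
    intro p hp h1
    have h4 := abs_le.1 (key p hp h1).1
    have h5 := abs_le.1 (h.near p hp h1)
    have h6 : (2 : ℝ) / p = 1 / p + 1 / p := by ring
    have h7 : (0 : ℝ) ≤ 1 / p := by positivity
    rcases (key p hp h1).2 with h8 | h8 <;> rw [h8] at h4 ⊢ <;> rw [abs_le] <;>
      constructor <;> linarith
  have o1 := osc_chz (p₀ := p₀) h.ch isCh24_one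
  have o2 := osc_chz (p₀ := p₀) h.ch (isCh24_jc hd)
  refine ⟨h.cong, h.sq, h.base.1, h.base.2.1, ?_, h.base.2.2, ?_, o2.near (K := 5) ?_⟩
  · have := (((HasMean.one.add h.mn).add (hα.add hβ)).smul (1 / 2)).near n1
    convert this using 1
    rw [ha]; ring
  · refine ((o1.add o2).smul (c := 1 / 2) (by norm_num)).near (K := 2) fun p hp h1 => ?_
    convert n1 p hp h1 using 3
    ring
  · intro p hp h1
    have h4 := abs_le.1 (n1 p hp h1)
    have h5 := abs_le.1 (h.near p hp h1)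
    have h6 : (5 : ℝ) / p = 2 * (2 / p) + 1 / p := by ring
    rw [abs_le]; constructor <;> linarith

lemma Form.bal (h2 : 2 ≤ p₀) (hc : Cong F) {u v : ℤ} (h0 : u ≠ 0) (hu : u.natAbs ≤ p₀)
    (h0' : v ≠ 0) (hv : v.natAbs ≤ p₀) (h : ℤ → ℤ) (hF : ∀ m n, F m n = u * n + h m)
    (hJ : ∀ (p : ℕ) m n, p.Prime → p₀ < p → (p : ℤ) ∣ F m n → J(G m n | p) = J(v * m | p)) :
    Form p₀ F G (1 / 2) := by
  have hz := Zeros.lin hc h0 hu h hF
  have n1 : ∀ p : ℕ, p.Prime → p₀ < p → |wc F G p - 1 / 2 * 1| ≤ 1 / p := by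
    intro p hp h1
    have hp' : (0 : ℝ) < p := by exact_mod_cast hp.pos
    have h3 := mean_linear hp.pos (cop_of_not_dvd hp (not_dvd_small h1 h0 hu)) h
      fun m => if J(v * m | p) = 1 then 1 else 0
    rw [sum_jac_one hp (by omega) (not_dvd_small h1 h0' hv)] at h3
    have h4 : wc F G p = 1 / 2 - 1 / p / 2 := by
      rw [wc, show (1 / 2 - 1 / p / 2 : ℝ) = p * ((p - 1) / 2 / p ^ 2) by field_simp, ← h3]
      congr 2
      funext m n
      rw [← hF]
      by_cases h5 : (p : ℤ) ∣ F m n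
      · simp only [h5, true_and, if_true, hJ p m n hp h1 h5]
      · simp only [h5, false_and, if_false]
    have h7 : (0 : ℝ) ≤ 1 / p := by positivity
    rw [h4, abs_le]; constructor <;> linarith
  refine ⟨hc, hz.sq, hz.base.1, hz.base.2.1, ?_, hz.base.2.2,
    ((Osc.ch isCh24_one).smul (by norm_num)).near n1, Osc.zero.near (K := 3) fun p hp h1 => ?_⟩
  · simpa using (HasMean.one.smul (1 / 2)).near n1
  · have h4 := abs_le.1 (n1 p hp h1)
    have h5 := abs_le.1 (hz.near p hp h1)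
    have h6 : (3 : ℝ) / p = 2 * (1 / p) + 1 / p := by ring
    rw [abs_le]; constructor <;> linarith

open Classical in
/-- Choice of an index with a given property. -/
noncomputable def pick {κ : Type} (P : κ → Prop) : Option κ :=
  if h : ∃ k, P k then some h.choose else none

lemma pick_cases {κ : Type} (P : κ → Prop) :
    (pick P = none ∧ ∀ k, ¬P k) ∨ ∃ k, pick P = some k ∧ P k := by
  unfold pick
  split_ifs with h
  · exact Or.inr ⟨_, rfl, h.choose_spec⟩
  · exact Or.inl ⟨rfl, not_exists.1 h⟩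

/-- The state attached to a form of type `i` and exponent `x`. -/
def rule (i : Fin 3) (x : ℕ) (j : ℤ) : Option (Fin 3 × Bool) :=
  if j = 1 then some (i, false) else if Odd x then some (i, true) else none

/-- The coefficient of the zero count. -/
def ca (i : Fin 3) (x : ℕ) : Option (Fin 3 × Bool) → ℝ
  | none => if Odd x then 0 else 1
  | some (j, b) => if i = j ∧ b = true ∧ Odd x then 1 else 0

/-- The coefficient of the split count. -/
def cb (i : Fin 3) (x : ℕ) : Option (Fin 3 × Bool) → ℝ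
  | none => if Odd x then 0 else -1
  | some (j, b) => if i = j then (if b = true then (if Odd x then -1 else 0) else 1) else 0

lemma rule_ind (i : Fin 3) (x : ℕ) (j : ℤ) (P : Prop) [Decidable P] (s : Option (Fin 3 × Bool)) :
    (if P ∧ rule i x j = s then (1 : ℝ) else 0) =
      ca i x s * (if P then 1 else 0) + cb i x s * if P ∧ j = 1 then 1 else 0 := by
  rcases s with _ | ⟨i', _ | _⟩ <;> by_cases h1 : P <;> by_cases h2 : j = 1 <;>
    by_cases h3 : Odd x <;> simp [rule, ca, cb, h1, h2, h3]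
  split_ifs <;> norm_num

variable {κ : Type} [Fintype κ] [DecidableEq κ]

/-- The data of a family. -/
structure Forms (p₀ : ℕ) (e : ℤ → ℤ → Fin 3 → ℤ) (F : κ → ℤ → ℤ → ℤ) (ty : κ → Fin 3)
    (ex : κ → ℕ) (c : Fin 3 → ℤ) (a : κ → ℝ) : Prop where
  big : 104 * (3 * Fintype.card κ + 1) ≤ p₀
  form : ∀ k, Form p₀ (F k) (fun m n => e m n (ty k + 1) - e m n (ty k)) (a k)
  fac : ∀ m n i, e m n (i + 1) - e m n (i + 2) = c i * ∏ k with ty k = i, F k m n ^ ex k
  c0 : ∀ i, c i ≠ 0 ∧ (c i).natAbs ≤ p₀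
  expos : ∀ k, ex k ≠ 0
  cop : ∀ (p : ℕ) j k m n, p.Prime → p₀ < p → j ≠ k → (p : ℤ) ∣ F j m n → (p : ℤ) ∣ F k m n →
    (p : ℤ) ∣ m ∧ (p : ℤ) ∣ n
  drift : ∀ i, 7 * ∑ k with ty k = i, a k ≤
    6 * ∑ k with ty k ≠ i, if Odd (ex k) then 1 else a k
  pos : ∀ i, 1 / 2 ≤ ∑ k with ty k ≠ i, if Odd (ex k) then 1 else a k

variable {e : ℤ → ℤ → Fin 3 → ℤ} {F : κ → ℤ → ℤ → ℤ} {ty : κ → Fin 3} {ex : κ → ℕ}
  {c : Fin 3 → ℤ} {a : κ → ℝ}

theorem Forms.fam (H : Forms p₀ e F ty ex c a) : ∃ st bad μ,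
    Fam p₀ (3 * Fintype.card κ + 1) (1 / 2) e st bad μ := by
  classical
  let R : κ → ℕ → ℤ → ℤ → Option (Fin 3 × Bool) := fun k p m n =>
    rule (ty k) (ex k) J(e m n (ty k + 1) - e m n (ty k) | p)
  let st : ℕ → ℤ → ℤ → St := fun p m n =>
    (pick fun k => (p : ℤ) ∣ F k m n).map fun k => R k p m n
  let bad : ℕ → ℤ → ℤ → Prop := fun p m n =>
    ((p : ℤ) ∣ m ∧ (p : ℤ) ∣ n) ∨ ∃ k, (p : ℤ) ^ 2 ∣ F k m n
  let μ : Option (Fin 3 × Bool) → ℝ := fun s =>
    ∑ k, (ca (ty k) (ex k) s * 1 + cb (ty k) (ex k) s * a k)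
  have hG : ∀ m n i, e m n (i + 1) - e m n i =
      -(c (i + 2) * ∏ k with ty k = i + 2, F k m n ^ ex k) := by
    intro m n i
    rw [← H.fac, neg_sub, add_assoc, add_assoc]
    fin_cases i <;> rfl
  have hdv : ∀ {q x y : ℤ}, x ≡ y [ZMOD q] → (q ∣ x ↔ q ∣ y) := fun h => by
    rw [← Int.modEq_zero_iff_dvd, ← Int.modEq_zero_iff_dvd]
    exact ⟨fun h1 => h.symm.trans h1, fun h1 => h.trans h1⟩
  have hfac : ∀ (p : ℕ) m n i, p.Prime → p₀ < p →
      (p : ℤ) ∣ c i * ∏ k with ty k = i, F k m n ^ ex k → ∃ k, ty k = i ∧ (p : ℤ) ∣ F k m n := by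
    intro p m n i hp h1 h2
    have hpp := Nat.prime_iff_prime_int.1 hp
    obtain ⟨k, h3, h4⟩ := (hpp.dvd_finsetProd_iff _).1 ((hpp.dvd_or_dvd h2).resolve_left
      (not_dvd_small h1 (H.c0 i).1 (H.c0 i).2))
    exact ⟨k, (mem_filter.1 h3).2, hpp.dvd_of_dvd_pow h4⟩
  have near : ∀ s (p : ℕ), p.Prime → p₀ < p → |p * dens p (st p) (some s) -
      ∑ k, (ca (ty k) (ex k) s * zc (F k) p + cb (ty k) (ex k) s *
        wc (F k) (fun m n => e m n (ty k + 1) - e m n (ty k)) p)| ≤ Fintype.card κ / p := by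
    intro s p hp h1
    have hp' : (0 : ℝ) < p := by exact_mod_cast hp.pos
    have h2 : ∑ k, (ca (ty k) (ex k) s * zc (F k) p + cb (ty k) (ex k) s *
        wc (F k) (fun m n => e m n (ty k + 1) - e m n (ty k)) p) = p * mean p fun m n =>
        ∑ k, if (p : ℤ) ∣ F k m n ∧ R k p m n = s then 1 else 0 := by
      rw [mean_sum, mul_sum]
      refine sum_congr rfl fun k _ => ?_
      simp only [R, rule_ind, mean_add, mean_smul, zc, wc]
      ring
    rw [h2, ← mul_sub, abs_mul, Nat.abs_cast, dens]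
    refine (mul_le_mul_of_nonneg_left ((mean_near (h := fun m n => Fintype.card κ *
      if (p : ℤ) ∣ m ∧ (p : ℤ) ∣ n then 1 else 0) fun m n => ?_).trans_eq (by
      rw [mean_smul, mean_origin hp.pos])) hp'.le).trans (le_of_eq (by field_simp))
    rcases pick_cases fun k => (p : ℤ) ∣ F k m n with ⟨h3, h4⟩ | ⟨k, h3, h4⟩
    · simp only [st, h3]
      rw [if_neg (by simp), sum_eq_zero fun k _ => if_neg fun h => h4 k h.1, sub_zero, abs_zero]
      positivity
    · simp only [st, h3, Option.map_some, Option.some.injEq]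
      rw [← add_sum_erase _ _ (mem_univ k), if_congr (and_iff_right h4) rfl rfl,
        sub_add_cancel_left, abs_neg, abs_of_nonneg (sum_nonneg fun _ _ => by positivity)]
      split_ifs with h5
      · refine (sum_le_card_nsmul _ _ 1 fun j _ => by split_ifs <;> norm_num).trans ?_
        rw [nsmul_eq_mul]
        gcongr
        exact card_le_univ _
      · rw [sum_eq_zero, mul_zero]
        exact fun j hj => if_neg fun h6 => h5 (H.cop p j k m n hp h1 (ne_of_mem_erase hj) h6.1 h4)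
  have hμ : ∀ i, μ (some (i, false)) = ∑ k with ty k = i, a k ∧
      Cc μ i = ∑ k with ty k ≠ i, if Odd (ex k) then 1 else a k := by
    intro i
    simp only [μ, Cc, sum_filter, ← sum_add_distrib]
    refine ⟨sum_congr rfl fun k _ => by simp [ca, cb], sum_congr rfl fun k _ => ?_⟩
    generalize ty k = j
    by_cases h : Odd (ex k) <;> fin_cases i <;> fin_cases j <;> simp [ca, cb, h]
  refine ⟨st, bad, μ, by linarith [Nat.cast_nonneg (α := ℝ) (Fintype.card κ)],
    by exact_mod_cast H.big, by norm_num, fun p m m' n n' h1 h2 => ?_,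
    fun p m m' n n' h1 h2 => ?_, fun p hp h1 => ?_, fun p m n hp h1 h2 => ?_,
    fun p s hp h1 => ?_, fun s => ?_, fun i => ?_, fun i => ?_,
    fun i => by rw [(hμ i).1, (hμ i).2]; exact H.drift i, fun i => by rw [(hμ i).2]; exact H.pos i⟩
  · simp only [st, hdv ((H.form _).cong _ _ _ _ _ h1 h2), R]
    congr 1
    funext k
    congr 1
    apply jacobiSym.mod_left'
    rw [hG, hG]
    exact ((Int.ModEq.refl _).mul (Int.ModEq.prod fun j _ =>
      ((H.form j).cong _ _ _ _ _ h1 h2).pow _)).neg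
  · push_cast at h1 h2
    simp only [bad, hdv ((H.form _).cong _ _ _ _ _ h1 h2),
      hdv (h1.of_dvd (dvd_pow_self _ two_ne_zero)), hdv (h2.of_dvd (dvd_pow_self _ two_ne_zero))]
  · refine (mean_mono (g := fun m n => (if (p : ℤ) ∣ m ∧ (p : ℤ) ∣ n then 1 else 0) +
      ∑ k, if (p : ℤ) ^ 2 ∣ F k m n ∧ ¬((p : ℤ) ∣ m ∧ (p : ℤ) ∣ n) then 1 else 0)
      fun m n => ?_).trans ?_
    · have h3 : (0 : ℝ) ≤
          ∑ k, if (p : ℤ) ^ 2 ∣ F k m n ∧ ¬((p : ℤ) ∣ m ∧ (p : ℤ) ∣ n) then 1 else 0 :=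
        sum_nonneg fun _ _ => by positivity
      by_cases h4 : (p : ℤ) ∣ m ∧ (p : ℤ) ∣ n
      · rw [if_pos h4]; split_ifs <;> linarith
      · rw [if_neg h4, zero_add]
        split_ifs with h5
        · obtain ⟨k, hk⟩ := h5.resolve_left h4
          refine le_trans (le_of_eq (if_pos ⟨hk, h4⟩).symm) (single_le_sum (f := fun k =>
            if (p : ℤ) ^ 2 ∣ F k m n ∧ ¬((p : ℤ) ∣ m ∧ (p : ℤ) ∣ n) then (1 : ℝ) else 0)
            (fun _ _ => by positivity) (mem_univ k))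
        · exact h3
    · rw [mean_add, mean_sum, mean_origin_sq hp.pos]
      have h3 := sum_le_card_nsmul univ _ _ fun k _ => (H.form k).sq p hp h1
      rw [nsmul_eq_mul, card_univ] at h3
      have h4 : (0 : ℝ) ≤ Fintype.card κ / p ^ 2 := by positivity
      have h5 : (3 * Fintype.card κ + 1 : ℝ) / p ^ 2 =
        1 / p ^ 2 + Fintype.card κ * (2 / p ^ 2) + Fintype.card κ / p ^ 2 := by ring
      linarith
  · have : Fact p.Prime := ⟨hp⟩
    have hpp := Nat.prime_iff_prime_int.1 hp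
    simp only [bad, not_or, not_exists] at h2
    rcases pick_cases fun k => (p : ℤ) ∣ F k m n with ⟨h3, h4⟩ | ⟨k, h3, h4⟩
    · simp only [st, h3, Option.map_none]
      refine ⟨trivial, fun h5 => ?_⟩
      have h6 : dsc (e m n) = (e m n (2 + 1) - e m n (2 + 2)) * (e m n (0 + 1) - e m n (0 + 2)) *
        (e m n (1 + 1) - e m n (1 + 2)) := rfl
      rw [h6, H.fac, H.fac, H.fac] at h5
      rcases hpp.dvd_or_dvd h5 with h5 | h5
      · rcases hpp.dvd_or_dvd h5 with h5 | h5 <;>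
          exact absurd (hfac p m n _ hp h1 h5).choose_spec.2 (h4 _)
      · exact absurd (hfac p m n _ hp h1 h5).choose_spec.2 (h4 _)
    · simp only [st, h3, Option.map_some]
      refine ⟨?_, fun _ => by simp⟩
      have h5 : ∀ j, j ≠ k → ¬(p : ℤ) ∣ F j m n := fun j hj h => h2.1 (H.cop p j k m n hp h1 hj h h4)
      have h6 : ¬(p : ℤ) ∣ e m n (ty k + 1) - e m n (ty k) := by
        rw [hG, dvd_neg]
        intro h
        obtain ⟨j, h7, h8⟩ := hfac p m n _ hp h1 h
        refine h5 j ?_ h8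
        rintro rfl
        revert h7
        generalize ty j = i
        revert i; decide
      obtain ⟨w, hw⟩ := h4
      have hw' : ¬(p : ℤ) ∣ w := fun h => h2.2 k (by rw [hw, sq]; exact mul_dvd_mul_left _ h)
      have h7 : ∃ z, ¬(p : ℤ) ∣ z ∧ e m n (ty k + 1) - e m n (ty k + 2) = p ^ ex k * z := by
        refine ⟨c (ty k) * (w ^ ex k * ∏ j ∈ (univ.filter fun j => ty j = ty k).erase k,
          F j m n ^ ex j), fun h => ?_, ?_⟩
        · rcases hpp.dvd_or_dvd h with h | h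
          · exact not_dvd_small h1 (H.c0 _).1 (H.c0 _).2 h
          rcases hpp.dvd_or_dvd h with h | h
          · exact hw' (hpp.dvd_of_dvd_pow h)
          · obtain ⟨j, h3, h4⟩ := (hpp.dvd_finsetProd_iff _).1 h
            exact h5 j (ne_of_mem_erase h3) (hpp.dvd_of_dvd_pow h4)
        · rw [H.fac, ← mul_prod_erase _ _ (a := k) (by simp), hw]; ring
      obtain ⟨z, hz1, hz2⟩ := h7
      have h8 : (p : ℤ) ∣ e m n (ty k + 1) - e m n (ty k + 2) :=
        hz2 ▸ (dvd_pow_self _ (H.expos k)).mul_right _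
      have h9 : padicValInt p (e m n (ty k + 1) - e m n (ty k + 2)) = ex k := by
        rw [hz2, padicValInt.mul (pow_ne_zero _ hpp.ne_zero) (by rintro rfl; simp at hz1),
          padicValInt.eq_zero_of_not_dvd hz1]
        simp [padicValInt]
      simp only [R, rule]
      split_ifs with h10 h11
      · exact ⟨h8, h10⟩
      · exact ⟨h8, (jac_unit h6).resolve_left h10, h9 ▸ h11⟩
      · exact ⟨ty k, h8, (jac_unit h6).resolve_left h10, h9 ▸ Nat.not_odd_iff_even.1 h11⟩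
  · have hp' : (0 : ℝ) < p := by exact_mod_cast hp.pos
    have h3 := sum_le_card_nsmul univ _ _ fun k _ => (H.form k).le p hp h1
    rw [nsmul_eq_mul, card_univ] at h3
    refine le_trans ?_ (h3.trans (by linarith))
    simp only [zc, ← mul_sum, ← mean_sum]
    refine mul_le_mul_of_nonneg_left (mean_mono fun m n => ?_) hp'.le
    rcases pick_cases fun k => (p : ℤ) ∣ F k m n with ⟨h3, h4⟩ | ⟨k, h3, h4⟩
    · simp [st, h3]
    · refine le_trans ?_ (single_le_sum (f := fun k => if (p : ℤ) ∣ F k m n then (1 : ℝ) else 0)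
        (fun _ _ => by positivity) (mem_univ k))
      simp only [h4, if_true]; split_ifs <;> norm_num
  · exact (HasMean.sum univ fun k =>
      ((H.form k).mz.smul _).add ((H.form k).mw.smul _)).near (near s)
  · refine (Osc.sum univ (f := fun k p => if ty k = i then (if Odd (ex k) then zc (F k) p else
      wc (F k) (fun m n => e m n (ty k + 1) - e m n (ty k)) p) else 0) fun k => ?_).near
      (K := 2 * Fintype.card κ) fun p hp h1 => ?_
    · split_ifs
      exacts [(H.form k).oz, (H.form k).ow, Osc.zero]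
    · refine le_trans (le_of_eq ?_) ((abs_add_le _ _).trans ((add_le_add (near (some (i, false))
        p hp h1) (near (some (i, true)) p hp h1)).trans (le_of_eq (by ring))))
      rw [sub_add_sub_comm, ← sum_add_distrib]
      congr 2
      refine sum_congr rfl fun k _ => ?_
      by_cases h2 : ty k = i <;> by_cases h3 : Odd (ex k) <;> simp [ca, cb, h2, h3]
  · refine (Osc.sum univ (f := fun k p => if ty k = i then (if Odd (ex k) then
      2 * wc (F k) (fun m n => e m n (ty k + 1) - e m n (ty k)) p - zc (F k) p else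
      wc (F k) (fun m n => e m n (ty k + 1) - e m n (ty k)) p) else 0) fun k => ?_).near
      (K := 2 * Fintype.card κ) fun p hp h1 => ?_
    · split_ifs
      exacts [(H.form k).od, (H.form k).ow, Osc.zero]
    · refine le_trans (le_of_eq ?_) ((abs_sub _ _).trans ((add_le_add (near (some (i, false))
        p hp h1) (near (some (i, true)) p hp h1)).trans (le_of_eq (by ring))))
      rw [sub_sub_sub_comm, ← sum_sub_distrib]
      congr 2
      refine sum_congr rfl fun k _ => ?_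
      by_cases h2 : ty k = i <;> by_cases h3 : Odd (ex k) <;> simp [ca, cb, h2, h3]
      ring

end Pool.Agent.Lib.MP_788af2_nt
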