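import Pool.Agent.Lib.MP_788af2_nt.Models
import Pool.Agent.Lib.MP_788af2_nt.Forms

/-!
From parameter boxes to the height ordering.
-/

namespace Pool.Agent.Lib.MP_788af2_nt

open Finset Polynomial

open Classical in
/-- The minimal models of height at most `X` containing `ℤ/a × ℤ/b`. -/
noncomputable def SX (a b X : ℕ) : Finset (ℤ × ℤ) :=
  (Icc (-X : ℤ) X ×ˢ Icc (-X : ℤ) X).filter fun x => 4 * x.1 ^ 3 + 27 * x.2 ^ 2 ≠ 0 ∧
    Mn x.1 x.2 ∧ max (4 * |x.1| ^ 3) (27 * x.2 ^ 2) ≤ (X : ℤ) ∧ Has a b (cv 0 x.1 x.2).Point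

lemma mem_SX {a b X : ℕ} {A B : ℤ} : (A, B) ∈ SX a b X ↔ 4 * A ^ 3 + 27 * B ^ 2 ≠ 0 ∧
    Mn A B ∧ max (4 * |A| ^ 3) (27 * B ^ 2) ≤ (X : ℤ) ∧ Has a b (cv 0 A B).Point := by
  simp only [SX, mem_filter, mem_product, mem_Icc, ← abs_le, and_iff_right_iff_imp]
  rintro ⟨-, -, h, -⟩
  rw [max_le_iff, ← sq_abs B] at h
  have h1 := abs_nonneg A
  have h2 := abs_nonneg B
  exact ⟨by nlinarith [le_self_pow₀ (a := |A| + 1) (by linarith) three_ne_zero,
    mul_nonneg h1 (sq_nonneg (2 * |A| - 1)), mul_nonneg h1 (sq_nonneg (|A| - 1)),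
    Int.le_self_sq |A|], by nlinarith [Int.le_self_sq |B|]⟩

/-- The description of a family by a parametrisation. -/
structure Param (a b : ℕ) (cy : Bool) (w d : ℕ) (M N : ℤ → ℤ → ℤ) (pM pN : ℚ[X]) (R C : ℕ) :
    Prop where
  wpos : 0 < w
  dpos : 0 < d
  Rpos : 0 < R
  Cpos : 0 < C
  up : ∀ A B : ℤ, 4 * A ^ 3 + 27 * B ^ 2 ≠ 0 → Has a b (cv 0 A B).Point → ∃ (m n : ℤ) (k : ℚ),
    (IsCoprime m n ∨ k = 1) ∧ A = AA cy (k ^ 2 * M m n) (k ^ 2 * N m n) ∧
      B = BB cy (k ^ 2 * M m n) (k ^ 2 * N m n)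
  low : ∀ m n : ℤ, 0 < m → (M m n : ℚ) * N m n * (M m n - N m n) ≠ 0 →
    Has a b (cv (aa cy (M m n) (N m n)) (bb cy (M m n) (N m n)) 0).Point
  bez : ∀ m n, IsCoprime m n → ∃ U W, U * M m n + W * N m n = R
  size : ∀ T m n : ℤ, 1 ≤ T → |M m n| ≤ T ^ d → |N m n| ≤ T ^ d →
    |m| ≤ C * T ∧ |n| ≤ (C * T) ^ w
  growth : ∀ T m n : ℤ, 1 ≤ T → |m| ≤ T → |n| ≤ T ^ w →
    |M m n| ≤ C * T ^ d ∧ |N m n| ≤ C * T ^ d
  hM : ∀ m n : ℤ, 0 < m → (M m n : ℚ) = m ^ d * pM.eval (n / m ^ w : ℚ)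
  hN : ∀ m n : ℤ, 0 < m → (N m n : ℚ) = m ^ d * pN.eval (n / m ^ w : ℚ)
  cusp : pM.eval 0 * pN.eval 0 * (pM.eval 0 - pN.eval 0) = 0 ∧ ¬(pM.eval 0 = 0 ∧ pN.eval 0 = 0)
  nondeg : ∃ x, pM.eval x * pN.eval x * (pM.eval x - pN.eval x) ≠ 0
  fam : ∃ p₀ K c₀ st bad μ, Fam p₀ K c₀ (fun m n => ![0, M m n, N m n]) st bad μ

variable {a b : ℕ} {cy : Bool} {w d : ℕ} {M N : ℤ → ℤ → ℤ} {pM pN : ℚ[X]} {R C : ℕ}

lemma Param.cover (H : Param a b cy w d M N pM pN R C) {X T : ℕ} (hT : 1 ≤ T)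
    (hX : X ≤ T ^ (6 * d)) {A B : ℤ} (h : (A, B) ∈ SX a b X) : ∃ (v : ℕ) (m n : ℤ) (r : ℕ),
      v ∈ Icc 1 (144 * R) ∧ |m| ≤ (C * (14 * R * T) : ℕ) ∧ |n| ≤ ((C * (14 * R * T)) ^ w : ℕ) ∧
      (A : ℚ) = 12 ^ 4 * AA cy (M m n) (N m n) / v ^ 4 ∧
      (B : ℚ) = 12 ^ 6 * BB cy (M m n) (N m n) / v ^ 6 ∧
      Module.rank ℤ (cv 0 A B).Point = r ∧ (r : ℝ) ≤ rk ![0, M m n, N m n] := by
  obtain ⟨h1, h2, h3, h4⟩ := mem_SX.1 h
  obtain ⟨m, n, k, h5, hA, hB⟩ := H.up A B h1 h4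
  obtain ⟨⟨x, hx⟩, ⟨y, hy⟩⟩ := int_AB hA hB
  have hd : (M m n : ℚ) * N m n * (M m n - N m n) ≠ 0 := by
    intro h0
    apply h1
    have : 4 * (A : ℚ) ^ 3 + 27 * B ^ 2 = 0 := by
      rw [hA, hB, disc_AB]; linear_combination k ^ 6 * h0
    exact_mod_cast this
  have hs := size_AB (cy := cy) (x := k ^ 2 * M m n) (y := k ^ 2 * N m n) (Y := T ^ d)
    (by positivity) (by
      rw [← hA]
      refine le_of_pow_le_pow_left₀ three_ne_zero (by positivity) ?_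
      rw [← pow_mul, ← pow_mul, show d * (2 * 3) = 6 * d by ring]
      have h6 : (X : ℤ) ≤ T ^ (6 * d) := by exact_mod_cast hX
      have h7 := (le_max_left _ _).trans h3
      have h8 : 0 ≤ |A| ^ 3 := by positivity
      exact_mod_cast (by linarith : |A| ^ 3 ≤ T ^ (6 * d))) (by
      rw [← hB]
      refine le_of_pow_le_pow_left₀ two_ne_zero (by positivity) ?_
      rw [← pow_mul, ← pow_mul, show d * (3 * 2) = 6 * d by ring, sq_abs]
      have h6 : (X : ℤ) ≤ T ^ (6 * d) := by exact_mod_cast hX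
      have h7 := (le_max_right _ _).trans h3
      have h8 : 0 ≤ B ^ 2 := by positivity
      exact_mod_cast (by linarith : B ^ 2 ≤ T ^ (6 * d)))
  rw [AA_smul] at hA
  rw [BB_smul] at hB
  obtain ⟨P, Q, hP, hQ⟩ := scaled_int (cy := cy) (M m n) (N m n)
  obtain ⟨v, hv0, hv⟩ := twist_min (u := k / 12) (P := P) (Q := Q) h2 (by rw [hA, hP]; ring)
    (by rw [hB, hQ]; ring)
  have hv' : (0 : ℚ) < v := by exact_mod_cast hv0
  have hk : k ^ 2 = 144 / v ^ 2 := by field_simp; linear_combination 144 * hv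
  have hvR : v ^ 2 ≤ 144 * R := by
    rcases h5 with h5 | rfl
    · obtain ⟨U, W, hUW⟩ := H.bez m n h5
      refine Nat.le_of_dvd (by have := H.Rpos; omega) (Int.natCast_dvd_natCast.1 ⟨U * x + W * y, ?_⟩)
      have h6 : ((U * M m n + W * N m n : ℤ) : ℚ) = R := by exact_mod_cast hUW
      have : (144 * R : ℚ) = v ^ 2 * (U * x + W * y) := by
        rw [← hx, ← hy, hk, ← h6]; push_cast; field_simp
      exact_mod_cast this
    · have : (v : ℚ) ^ 2 = 144 := by linear_combination 144 * hv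
      have : v ^ 2 = 144 := by exact_mod_cast this
      have := H.Rpos; omega
  have key : ∀ z : ℤ, |k ^ 2 * z| ≤ 14 * T ^ d → |z| ≤ (14 * R * T : ℕ) ^ d := by
    intro z hz
    rw [abs_mul, hk, abs_of_pos (by positivity), div_mul_eq_mul_div, div_le_iff₀ (by positivity)]
      at hz
    have h6 : (v : ℚ) ^ 2 ≤ 144 * R := by exact_mod_cast hvR
    have h7 : (14 * R : ℚ) ≤ (14 * R) ^ d := le_self_pow₀ (by
      have : (1 : ℚ) ≤ R := by exact_mod_cast H.Rpos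
      linarith) H.dpos.ne'
    have h8 : |(z : ℚ)| ≤ (14 * R) ^ d * T ^ d := by
      have : (14 : ℚ) * T ^ d * v ^ 2 ≤ 14 * T ^ d * (144 * R) := by gcongr
      have : (14 * R : ℚ) * T ^ d ≤ (14 * R) ^ d * T ^ d := by gcongr
      linarith
    rw [← mul_pow] at h8
    exact_mod_cast h8
  obtain ⟨s1, s2⟩ := H.size _ m n (by
    have := H.Rpos
    exact_mod_cast Nat.mul_pos (by omega) hT) (key _ hs.1) (key _ hs.2)
  have hk0 : k ≠ 0 := by rintro rfl; simp at hv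
  have hr := rank_AB (cy := cy) (A := A) (B := B) hk0 (by rw [hA]; ring) (by rw [hB]; ring) hd
  have he : dsc ![0, M m n, N m n] ≠ 0 := by
    intro h0
    apply hd
    have : ((dsc ![0, M m n, N m n] : ℤ) : ℚ) = 0 := by exact_mod_cast h0
    simp only [dsc, Matrix.cons_val] at this
    push_cast at this
    linear_combination -this
  obtain ⟨r, hr'⟩ := rank_fin he
  rw [hr'] at hr
  obtain ⟨r', h6⟩ := Cardinal.lt_aleph0.1 (hr.trans_lt (Cardinal.natCast_lt_aleph0 (n := r)))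
  refine ⟨v, m, n, r', mem_Icc.2 ⟨hv0, (Nat.le_self_pow two_ne_zero v).trans hvR⟩,
    by exact_mod_cast s1, by exact_mod_cast s2, by rw [hA, hk]; field_simp; ring,
    by rw [hB, hk]; field_simp; ring, h6, ?_⟩
  rw [rk, if_neg he, hr', Cardinal.toNat_natCast]
  rw [h6] at hr
  exact_mod_cast hr

lemma Param.upper (H : Param a b cy w d M N pM pN R C) : ∃ C₁ : ℝ, ∃ T₁ : ℕ, 0 ≤ C₁ ∧ ∀ T X : ℕ,
    T₁ ≤ T → X ≤ T ^ (6 * d) →
      ∑ x ∈ SX a b X, ((Module.rank ℤ (cv 0 x.1 x.2).Point).toNat : ℝ) ≤ C₁ * T ^ (w + 1) := by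
  classical
  obtain ⟨p₀, K, c₀, st, bad, μ, hF⟩ := H.fam
  obtain ⟨C₂, X₀, hC₂, h⟩ := hF.transfer (3 * d + 1)
  refine ⟨144 * R * (C₂ * 9 * (C * (14 * R)) ^ (w + 1)), ⌈X₀⌉₊ + 2 * C ^ 3 + 1, by positivity,
    fun T X hT hX => ?_⟩
  set U := C * (14 * R * T) with hU
  have hTU : T ≤ U := by
    have := H.Rpos; have := H.Cpos
    exact Nat.le_mul_of_pos_left T (by positivity : 0 < C * (14 * R)) |>.trans_eq (by ring)
  have hUw : U ≤ U ^ w := Nat.le_self_pow H.wpos.ne' U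
  have h1 := h U ((Nat.le_ceil _).trans (by exact_mod_cast (by omega))) (-U) (-(U ^ w : ℕ))
    (2 * U + 1) (2 * U ^ w + 1) (by exact_mod_cast (by omega)) (by exact_mod_cast (by omega))
    (fun i hi j hj => by
      obtain ⟨g1, g2⟩ := H.growth U (-U + i) (-(U ^ w : ℕ) + j) (by omega) (abs_le.2 (by omega))
        (by rw [← Nat.cast_pow]; exact abs_le.2 (by omega))
      generalize M _ _ = x at g1 ⊢
      generalize N _ _ = y at g2 ⊢
      have h2 : |dsc ![0, x, y]| ≤ U ^ (3 * d + 1) := by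
        have h3 : |x - y| ≤ 2 * (C * U ^ d) := (abs_sub _ _).trans (by linarith)
        calc _ = |x| * |x - y| * |y| := by simp [dsc, abs_mul]
          _ ≤ C * U ^ d * (2 * (C * U ^ d)) * (C * U ^ d) := by gcongr
          _ = U ^ (3 * d) * (2 * C ^ 3 : ℕ) := by push_cast; ring
          _ ≤ U ^ (3 * d) * U := by gcongr; omega
      exact_mod_cast h2)
  choose! v m n r h2 h3 h4 h5 h6 h7 h8 using fun x (hx : x ∈ SX a b X) =>
    H.cover (by omega) hX (A := x.1) (B := x.2) hx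
  simp only [← hU] at h3 h4
  obtain ⟨V, hV⟩ : ∃ V, U ^ w = V := ⟨_, rfl⟩
  rw [hV] at h1 h4 hUw
  let g : ℤ × ℤ → ℕ × ℕ × ℕ := fun x => (v x, (m x + U).toNat, (n x + (V : ℤ)).toNat)
  let F : ℕ × ℕ × ℕ → ℝ := fun y =>
    rk ![0, M (-U + y.2.1) (-(V : ℤ) + y.2.2), N (-U + y.2.1) (-(V : ℤ) + y.2.2)]
  have e1 : ∀ x ∈ SX a b X, -(U : ℤ) + (g x).2.1 = m x ∧ -((V : ℤ) : ℤ) + (g x).2.2 = n x := by
    intro x hx
    have := abs_le.1 (h3 x hx)
    have := abs_le.1 (h4 x hx)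
    simp only [g]; omega
  calc _ ≤ ∑ x ∈ SX a b X, F (g x) := sum_le_sum fun x hx => by
        simp only [F, e1 x hx, h7 x hx, Cardinal.toNat_natCast, h8 x hx]
    _ = ∑ y ∈ (SX a b X).image g, F y := (sum_image fun x hx x' hx' e => by
        have e2 : v x = v x' := congrArg Prod.fst e
        have e3 : m x = m x' := by rw [← (e1 x hx).1, ← (e1 x' hx').1, e]
        have e4 : n x = n x' := by rw [← (e1 x hx).2, ← (e1 x' hx').2, e]
        refine Prod.ext (Int.cast_injective (α := ℚ) ?_) (Int.cast_injective (α := ℚ) ?_)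
        · rw [h5 x hx, h5 x' hx', e2, e3, e4]
        · rw [h6 x hx, h6 x' hx', e2, e3, e4]).symm
    _ ≤ ∑ y ∈ Icc 1 (144 * R) ×ˢ range (2 * U + 1) ×ˢ range (2 * V + 1), F y := by
        refine sum_le_sum_of_subset_of_nonneg (fun y hy => ?_) fun _ _ _ => rk_nonneg _
        obtain ⟨x, hx, rfl⟩ := mem_image.1 hy
        have := abs_le.1 (h3 x hx)
        have := abs_le.1 (h4 x hx)
        simp only [g, mem_product, mem_range, h2 x hx, true_and]; omega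
    _ = 144 * R * box (-U) (-(V : ℤ)) (2 * U + 1) (2 * V + 1)
          fun m n => rk ![0, M m n, N m n] := by
        rw [sum_product]
        simp only [F, sum_product, sum_const, box]
        simp
    _ ≤ 144 * R * (C₂ * (3 * U : ℕ) * (3 * V : ℕ)) := by
        refine mul_le_mul_of_nonneg_left (h1.trans ?_) (by positivity)
        gcongr <;> omega
    _ = _ := by rw [← hV, hU]; push_cast; ring

/-- Coprime pairs in a box. -/
def Cop (s t : ℕ) : Finset (ℕ × ℕ) := (Ioc 0 s ×ˢ Ioc 0 t).filter fun x => x.1.Coprime x.2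

lemma card_Cop (s t : ℕ) : (s : ℝ) * t ≤ 5 * (Cop s t).card := by
  have h1 : Ioc 0 s ×ˢ Ioc 0 t ⊆ Cop s t ∪ (Nat.primesLE s).biUnion fun p =>
      (Ioc 0 s).filter (p ∣ ·) ×ˢ (Ioc 0 t).filter (p ∣ ·) := by
    intro x hx
    rw [mem_union]
    by_cases h : x.1.Coprime x.2
    · exact Or.inl (mem_filter.2 ⟨hx, h⟩)
    · obtain ⟨p, hp, h1, h2⟩ := Nat.Prime.not_coprime_iff_dvd.1 h
      rw [mem_product] at hx
      have := mem_Ioc.1 hx.1
      exact Or.inr (mem_biUnion.2 ⟨p, Nat.mem_primesLE.2 ⟨(Nat.le_of_dvd this.1 h1).trans this.2, hp⟩,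
        mem_product.2 ⟨mem_filter.2 ⟨hx.1, h1⟩, mem_filter.2 ⟨hx.2, h2⟩⟩⟩)
  have h2 := (card_le_card h1).trans ((card_union_le _ _).trans
    (Nat.add_le_add_left card_biUnion_le _))
  simp only [card_product, Nat.card_Ioc, tsub_zero, Nat.Ioc_filter_dvd_card_eq_div] at h2
  have h3 : (s : ℝ) * t ≤ (Cop s t).card +
      ∑ p ∈ Nat.primesLE s, ((s / p : ℕ) : ℝ) * ((t / p : ℕ) : ℝ) := by exact_mod_cast h2
  have h4 : ∑ p ∈ Nat.primesLE s, ((p : ℝ) ^ 2)⁻¹ ≤ 4 / 5 := by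
    have h5 := sum_inv_sq_le ((Nat.primesLE s).filter (4 < ·)) 4 fun n hn => (mem_filter.1 hn).2
    rw [← sum_filter_add_sum_filter_not _ (4 < ·)]
    have h6 : ∑ p ∈ (Nat.primesLE s).filter (¬4 < ·), ((p : ℝ) ^ 2)⁻¹ ≤
        ∑ p ∈ ({2, 3} : Finset ℕ), ((p : ℝ) ^ 2)⁻¹ := by
      refine sum_le_sum_of_subset_of_nonneg (fun p hp => ?_) fun _ _ _ => by positivity
      have h7 := (Nat.mem_primesLE.1 (mem_filter.1 hp).1).2
      have h8 := not_lt.1 (mem_filter.1 hp).2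
      interval_cases p <;> simp_all (config := {decide := true})
    norm_num at h5 h6 ⊢
    linarith
  have h5 : ∑ p ∈ Nat.primesLE s, ((s / p : ℕ) : ℝ) * ((t / p : ℕ) : ℝ) ≤ s * t * (4 / 5) := by
    refine le_trans ?_ (mul_le_mul_of_nonneg_left h4 (by positivity))
    rw [mul_sum]
    refine sum_le_sum fun p _ => ?_
    calc _ ≤ (s : ℝ) / p * (t / p) := by gcongr <;> exact Nat.cast_div_le
      _ = _ := by ring
  linarith

lemma card_roots_le (hw : 0 < w) (s t : ℕ) {F : ℚ[X]} (hF : F ≠ 0) :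
    ((Cop s t).filter fun x => F.eval (x.2 / x.1 ^ w : ℚ) = 0).card ≤ F.natDegree := by
  refine le_trans (card_le_card_of_injOn (t := F.roots.toFinset)
    (fun x => (x.2 / x.1 ^ w : ℚ)) (fun x hx => ?_) fun x hx y hy h => ?_)
    ((Multiset.toFinset_card_le _).trans (card_roots' F))
  · simpa [hF] using (mem_filter.1 hx).2
  · simp only [coe_filter, Cop, mem_filter, mem_product, mem_Ioc, Set.mem_ofPred_eq] at hx hy
    have := Rat.div_int_inj (a := x.2) (b := (x.1 ^ w : ℕ)) (c := y.2) (d := (y.1 ^ w : ℕ))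
      (by exact_mod_cast pow_pos hx.1.1.1.1 w) (by exact_mod_cast pow_pos hy.1.1.1.1 w)
      (hx.1.2.symm.pow_right w) (hy.1.2.symm.pow_right w) (by simpa using h)
    exact Prod.ext (Nat.pow_left_injective hw.ne' (by exact_mod_cast this.2))
      (by exact_mod_cast this.1)

lemma Param.lower (H : Param a b cy w d M N pM pN R C) : ∃ C₂ t₂ : ℕ, ∀ t X : ℕ, t₂ ≤ t →
    (432 * C * t) ^ (6 * d) ≤ X → (t : ℝ) ^ (w + 1) ≤ C₂ * (SX a b X).card := by
  classical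
  obtain ⟨PA, hPA⟩ : ∃ P : ℚ[X], ∀ x, P.eval x = AA cy (pM.eval x) (pN.eval x) := by
    cases cy
    · exact ⟨pM * pN - Polynomial.C (1 / 3) * (pM + pN) ^ 2, by simp [AA, aa, bb]; intros; ring⟩
    · exact ⟨Polynomial.C (1 / 16) * (pM - pN) ^ 2 - Polynomial.C (1 / 12) * (pM + pN) ^ 2,
        by simp [AA, aa, bb]; intros; ring⟩
  obtain ⟨PB, hPB⟩ : ∃ P : ℚ[X], ∀ x, P.eval x = BB cy (pM.eval x) (pN.eval x) := by
    cases cy
    · exact ⟨Polynomial.C (1 / 3) * (pM + pN) * pM * pN - Polynomial.C (2 / 27) * (pM + pN) ^ 3,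
        by simp [BB, aa, bb]; intros; ring⟩
    · exact ⟨Polynomial.C (1 / 108) * (pM + pN) ^ 3 -
        Polynomial.C (1 / 96) * (pM + pN) * (pM - pN) ^ 2, by simp [BB, aa, bb]; intros; ring⟩
  set G := pM * pN * (pM - pN) with hG
  have hG0 : G ≠ 0 := fun h => by
    obtain ⟨x, hx⟩ := H.nondeg
    exact hx (by simpa [hG] using congrArg (eval x) h)
  let F : ℤ × ℤ → ℚ[X] := fun y =>
    PA ^ 3 * Polynomial.C ((y.2 : ℚ) ^ 2) - PB ^ 2 * Polynomial.C ((y.1 : ℚ) ^ 3)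
  set D := (PA ^ 3).natDegree + (PB ^ 2).natDegree
  refine ⟨10 * D, 10 * G.natDegree + 1, fun t X ht hX => ?_⟩
  have h1 : Cop t (t ^ w) ⊆ ((Cop t (t ^ w)).filter fun x => G.eval (x.2 / x.1 ^ w : ℚ) = 0) ∪
      (SX a b X).biUnion fun y =>
        (Cop t (t ^ w)).filter fun x => (F y).eval (x.2 / x.1 ^ w : ℚ) = 0 := by
    rintro ⟨m, n⟩ hx
    rw [mem_union]
    by_cases h : G.eval (n / m ^ w : ℚ) = 0
    · exact Or.inl (mem_filter.2 ⟨hx, h⟩)
    right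
    have h2 := mem_product.1 (mem_filter.1 hx).1
    simp only [mem_Ioc] at h2
    have hm : (0 : ℤ) < m := by exact_mod_cast h2.1.1
    have hm' : (m : ℚ) ^ d ≠ 0 := by have := h2.1.1; positivity
    have e1 := H.hM m n hm
    have e2 := H.hN m n hm
    push_cast at e1 e2
    have hd : (M m n : ℚ) * N m n * (M m n - N m n) ≠ 0 := by
      rw [e1, e2]
      simp only [hG, eval_mul, eval_sub] at h
      convert mul_ne_zero (pow_ne_zero 3 hm') h using 1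
      ring
    obtain ⟨P, Q, hP, hQ⟩ := scaled_int (cy := cy) (M m n) (N m n)
    have h3 : 4 * (P : ℚ) ^ 3 + 27 * Q ^ 2 ≠ 0 := fun h0 => hd (disc_AB.1 (by
      rw [hP, hQ] at h0; linear_combination h0 / 12 ^ 12))
    obtain ⟨v, A, B, hv, rfl, rfl, hmn⟩ := exists_min P Q (by
      by_contra hc
      push Not at hc
      simp [hc] at h3)
    have hv' : (v : ℚ) ≠ 0 := by exact_mod_cast hv
    push_cast at hP hQ h3
    refine mem_biUnion.2 ⟨(A, B), mem_SX.2 ⟨fun h0 => h3 ?_, hmn, ?_, ?_⟩, mem_filter.2 ⟨hx, ?_⟩⟩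
    · have : 4 * (A : ℚ) ^ 3 + 27 * B ^ 2 = 0 := by exact_mod_cast h0
      linear_combination v ^ 12 * this
    · obtain ⟨g1, g2⟩ := H.growth t m n (by omega) (by rw [Nat.abs_cast]; exact_mod_cast h2.1.2)
        (by rw [Nat.abs_cast]; exact_mod_cast h2.2.2)
      obtain ⟨g3, g4⟩ := growth_AB (cy := cy) (x := M m n) (y := N m n) (Y := C * t ^ d)
        (by exact_mod_cast g1) (by exact_mod_cast g2)
      have hv1 : (1 : ℚ) ≤ |(v : ℚ)| := by exact_mod_cast Int.one_le_abs hv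
      have g5 : |(A : ℚ)| ≤ 12 ^ 4 * (3 * (C * t ^ d) ^ 2) := by
        calc |(A : ℚ)| ≤ |(v : ℚ)| ^ 4 * |(A : ℚ)| :=
              le_mul_of_one_le_left (abs_nonneg _) (one_le_pow₀ hv1)
          _ = 12 ^ 4 * |AA cy (M m n) (N m n)| := by
              rw [← abs_pow, ← abs_mul, hP, abs_mul, abs_of_pos (by norm_num)]
          _ ≤ _ := by gcongr
      have g6 : |(B : ℚ)| ≤ 12 ^ 6 * (2 * (C * t ^ d) ^ 3) := by
        calc |(B : ℚ)| ≤ |(v : ℚ)| ^ 6 * |(B : ℚ)| :=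
              le_mul_of_one_le_left (abs_nonneg _) (one_le_pow₀ hv1)
          _ = 12 ^ 6 * |BB cy (M m n) (N m n)| := by
              rw [← abs_pow, ← abs_mul, hQ, abs_mul, abs_of_pos (by norm_num)]
          _ ≤ _ := by gcongr
      have g7 : (432 * (C * t ^ d) : ℚ) ^ 6 ≤ X := by
        refine le_trans ?_ (by exact_mod_cast hX : ((432 * C * t) ^ (6 * d) : ℚ) ≤ X)
        rw [mul_comm 6, pow_mul, mul_pow _ (t : ℚ), ← mul_assoc]
        gcongr
        refine le_self_pow₀ ?_ H.dpos.ne'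
        have : (1 : ℚ) ≤ C := by exact_mod_cast H.Cpos
        linarith
      have g8 : (0 : ℚ) ≤ (C * t ^ d) ^ 6 := by positivity
      have g9 : 4 * |(A : ℚ)| ^ 3 ≤ X ∧ 27 * (B : ℚ) ^ 2 ≤ X := by
        have := pow_le_pow_left₀ (abs_nonneg _) g5 3
        have := pow_le_pow_left₀ (abs_nonneg _) g6 2
        rw [sq_abs] at this
        constructor <;> linarith
      exact max_le (by exact_mod_cast g9.1) (by exact_mod_cast g9.2)
    · exact has_AB (u := 12 / v) (by positivity) (by field_simp; linear_combination hP)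
        (by field_simp; linear_combination hQ) (H.low m n hm hd)
    · rw [e1, e2, AA_smul, ← hPA] at hP
      rw [e1, e2, BB_smul, ← hPB] at hQ
      simp only [F, eval_sub, eval_mul, eval_pow, eval_C]
      set x := PA.eval (n / m ^ w : ℚ)
      set y := PB.eval (n / m ^ w : ℚ)
      have e3 : x = v ^ 4 * A / (12 ^ 4 * (m ^ d) ^ 2) := by rw [hP]; field_simp
      have e4 : y = v ^ 6 * B / (12 ^ 6 * (m ^ d) ^ 3) := by rw [hQ]; field_simp
      rw [e3, e4]; field_simp; ring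
  have h2 : ∀ y ∈ SX a b X, ((Cop t (t ^ w)).filter
      fun x => (F y).eval (x.2 / x.1 ^ w : ℚ) = 0).card ≤ D := by
    rintro ⟨A, B⟩ hy
    refine (card_roots_le H.wpos _ _ fun h0 => ?_).trans ((natDegree_sub_le _ _).trans
      (max_le ((natDegree_mul_C_le _ _).trans (Nat.le_add_right _ _))
        ((natDegree_mul_C_le _ _).trans (Nat.le_add_left _ _))))
    have h3 := congrArg (eval 0) h0
    simp only [F, eval_sub, eval_mul, eval_pow, eval_C, hPA, hPB, eval_zero] at h3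
    have h4 := (disc_AB (cy := cy)).2 H.cusp.1
    have h5 : 4 * (A : ℚ) ^ 3 + 27 * B ^ 2 ≠ 0 := by exact_mod_cast (mem_SX.1 hy).1
    have h6 : AA cy (pM.eval 0) (pN.eval 0) = 0 := pow_eq_zero_iff three_ne_zero |>.1
      (mul_left_cancel₀ h5 (by linear_combination 27 * h3 + A ^ 3 * h4))
    refine H.cusp.2 (AB_zero h6 (pow_eq_zero_iff two_ne_zero |>.1 ?_))
    rw [h6] at h4
    linear_combination h4 / 27
  have h3 := (card_le_card h1).trans ((card_union_le _ _).trans (Nat.add_le_add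
    (card_roots_le H.wpos _ _ hG0) (card_biUnion_le_card_mul _ _ _ h2)))
  have h4 := card_Cop t (t ^ w)
  have h5 : ((Cop t (t ^ w)).card : ℝ) ≤ G.natDegree + (SX a b X).card * D := by exact_mod_cast h3
  have h6 : (10 * G.natDegree : ℝ) ≤ t ^ (w + 1) := by
    exact_mod_cast (by omega : 10 * G.natDegree ≤ t).trans (Nat.le_self_pow (by omega) t)
  push_cast at h4 ⊢
  rw [← pow_succ'] at h4
  linarith

theorem Param.bound (H : Param a b cy w d M N pM pN R C) : ∃ C' : ℕ, ∀ᶠ X : ℕ in Filter.atTop,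
    (SX a b X).Nonempty ∧ ∑ x ∈ SX a b X, Module.rank ℤ (cv 0 x.1 x.2).Point ≤
      C' * (SX a b X).card := by
  obtain ⟨C₁, T₁, hC₁, h1⟩ := H.upper
  obtain ⟨C₂, t₂, h2⟩ := H.lower
  have hC := H.Cpos
  have hd := H.dpos
  refine ⟨⌈C₁ * (864 * C) ^ (w + 1) * C₂⌉₊, Filter.eventually_atTop.2
    ⟨(432 * C * (T₁ + t₂ + 1)) ^ (6 * d), fun X hX => ?_⟩⟩
  have hex : ∃ t, X < (432 * C * t) ^ (6 * d) := ⟨X + 1, (by nlinarith : X < 432 * C * (X + 1)).trans_le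
    (Nat.le_self_pow (by omega) _)⟩
  have h3 := Nat.find_spec hex
  have h4 : T₁ + t₂ + 1 < Nat.find hex := by
    have := lt_of_pow_lt_pow_left₀ _ (by positivity) (hX.trans_lt h3)
    exact lt_of_mul_lt_mul_left this (by positivity)
  obtain ⟨t, ht⟩ : ∃ t, Nat.find hex = t + 1 := ⟨Nat.find hex - 1, by omega⟩
  have h5 := h2 t X (by omega) (not_lt.1 (Nat.find_min hex (by omega)))
  have h6 : X ≤ (864 * C * t) ^ (6 * d) :=
    h3.le.trans (Nat.pow_le_pow_left (by rw [ht]; nlinarith) _)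
  have h7 := h1 _ X (by nlinarith) h6
  have h8 : (0 : ℝ) < t ^ (w + 1) := pow_pos (by exact_mod_cast (by omega : 0 < t)) _
  refine ⟨card_pos.1 (Nat.pos_of_ne_zero fun h => by simp [h] at h5; linarith), ?_⟩
  have h9 : ∀ x ∈ SX a b X, Module.rank ℤ (cv 0 x.1 x.2).Point =
      ((Module.rank ℤ (cv 0 x.1 x.2).Point).toNat : ℕ) := fun x hx => by
    obtain ⟨-, -, -, r, -, -, -, -, -, hr, -⟩ := H.cover (by nlinarith) h6 (A := x.1) (B := x.2) hx
    rw [hr, Cardinal.toNat_natCast]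
  rw [sum_congr rfl h9, ← Nat.cast_sum, ← Nat.cast_mul, Nat.cast_le, ← Nat.cast_le (α := ℝ)]
  push_cast at h7 ⊢
  refine h7.trans ?_
  calc _ = C₁ * (864 * C) ^ (w + 1) * t ^ (w + 1) := by ring
    _ ≤ C₁ * (864 * C) ^ (w + 1) * (C₂ * (SX a b X).card) := by gcongr
    _ = C₁ * (864 * C) ^ (w + 1) * C₂ * (SX a b X).card := by ring
    _ ≤ _ := by gcongr; exact Nat.le_ceil _

end Pool.Agent.Lib.MP_788af2_nt
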