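import Pool.Agent.Lib.MP_788af2_nt.CharBound

/-!
A bilinear estimate for the Jacobi symbol with logarithmic weights.
-/

namespace Pool.Agent.Lib.MP_788af2_nt

open Finset Real
open scoped NumberTheorySymbols

variable {ι : Type} [Fintype ι] [DecidableEq ι]

/-- A finite system of primes together with a bound `L` for the sum of reciprocals. -/
structure PSys (q : ι → ℕ) (p₀ : ℕ) (L : ℝ) : Prop where
  prime : ∀ p, (q p).Prime
  inj : Function.Injective q
  big : ∀ p, p₀ < q p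
  sum_le : ∑ p, (q p : ℝ)⁻¹ ≤ L
  log_le : ∑ p, log (q p) / q p ≤ 4 * exp L
  nonneg : 0 ≤ L

/-- The product of the primes in `S`. -/
def pp (q : ι → ℕ) (S : Finset ι) : ℕ := ∏ p ∈ S, q p

variable {q : ι → ℕ} {p₀ : ℕ} {L : ℝ}

lemma PSys.pp_pos (h : PSys q p₀ L) (S : Finset ι) : 0 < pp q S :=
  prod_pos fun p _ => (h.prime p).pos

lemma PSys.dvd_pp (h : PSys q p₀ L) {p : ι} {S : Finset ι} : q p ∣ pp q S ↔ p ∈ S := by
  refine ⟨fun hd => ?_, fun hp => dvd_prod_of_mem _ hp⟩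
  obtain ⟨p', hp', hd⟩ := (Prime.dvd_finsetProd_iff (h.prime p).prime _).1 hd
  rwa [h.inj ((Nat.prime_dvd_prime_iff_eq (h.prime p) (h.prime p')).1 hd)]

lemma PSys.sum_prod_le (h : PSys q p₀ L) {K : ℝ} (hK : 0 ≤ K) :
    ∑ S : Finset ι, ∏ p ∈ S, K / q p ≤ exp (K * L) := by
  rw [← powerset_univ, ← prod_one_add]
  refine (prod_one_add_le_exp _ _ fun p _ => ?_).trans (exp_le_exp.2 ?_)
  · have : 0 ≤ K / q p := by positivity
    linarith
  · simp only [div_eq_mul_inv, ← mul_sum]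
    exact mul_le_mul_of_nonneg_left h.sum_le hK

lemma prod_div_eq (K : ℝ) (S : Finset ι) : ∏ p ∈ S, K / q p = K ^ S.card / pp q S := by
  simp [pp, prod_div_distrib]

lemma cs_weight {α : Type*} (s : Finset α) (u x : α → ℝ) (hu : ∀ i ∈ s, 0 ≤ u i) :
    (∑ i ∈ s, u i * x i) ^ 2 ≤ (∑ i ∈ s, u i) * ∑ i ∈ s, u i * x i ^ 2 :=
  sum_sq_le_sum_mul_sum_of_sq_le_mul s hu (fun i hi => mul_nonneg (hu i hi) (sq_nonneg _))
    fun i _ => le_of_eq (by ring)

lemma box_bound (h : PSys q p₀ L) {K : ℝ} (hK : 1 ≤ K) (κ : ℕ → ℕ → ℝ)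
    (k1 : ∀ m m' n, κ (m * m') n = κ m n * κ m' n) (k2 : ∀ m n, |κ m n| ≤ 1)
    (k3 : ∀ S S' : Finset ι, S ≠ S' → ∀ R,
      |∑ r ∈ Ioc 0 R, κ r (pp q S) * κ r (pp q S')| ≤ 48 * (pp q S * pp q S'))
    (A B : Finset (Finset ι)) (a b : Finset ι → ℝ) (ha : ∀ S, |a S| ≤ ∏ p ∈ S, K / q p)
    (hb : ∀ S, |b S| ≤ ∏ p ∈ S, K / q p) {M N : ℕ} (hN : 1 ≤ N) (hNM : N ≤ M)
    (hA : ∀ S ∈ A, M ≤ pp q S ∧ pp q S ≤ 2 * M) (hB : ∀ S ∈ B, N ≤ pp q S ∧ pp q S ≤ 2 * N) :
    (∑ S ∈ A, ∑ T ∈ B, a S * b T * κ (pp q S) (pp q T)) ^ 8 ≤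
      208 * exp (K ^ 2 * L) ^ 73 / N := by
  set G := exp (K ^ 2 * L) with hG
  have hL := h.nonneg
  have hG1 : 1 ≤ G := one_le_exp (by positivity)
  have hN' : (1 : ℝ) ≤ N := by exact_mod_cast hN
  have hNM' : (N : ℝ) ≤ M := by exact_mod_cast hNM
  have hM' : (1 : ℝ) ≤ M := hN'.trans hNM'
  set X : Finset ι → ℝ := fun T => ∑ S ∈ A, a S * κ (pp q S) (pp q T) with hX
  set B1 := ∑ T ∈ B, |b T| with hB1
  have hB1G : B1 ≤ G := by
    calc B1 ≤ ∑ S : Finset ι, ∏ p ∈ S, K / q p :=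
          (sum_le_sum fun T _ => hb T).trans (sum_le_sum_of_subset_of_nonneg (subset_univ _)
            fun S _ _ => prod_nonneg fun p _ => by positivity)
      _ ≤ exp (K * L) := h.sum_prod_le (by linarith)
      _ ≤ G := exp_le_exp.2 (by nlinarith [mul_nonneg (sub_nonneg.2 hK) hL])
  have hB10 : 0 ≤ B1 := sum_nonneg fun _ _ => abs_nonneg _
  have e1 : ∑ S ∈ A, ∑ T ∈ B, a S * b T * κ (pp q S) (pp q T) = ∑ T ∈ B, b T * X T := by
    rw [sum_comm]
    refine sum_congr rfl fun T _ => ?_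
    rw [hX, mul_sum]
    exact sum_congr rfl fun S _ => by ring
  have c1 : (∑ T ∈ B, b T * X T) ^ 2 ≤ B1 * ∑ T ∈ B, |b T| * X T ^ 2 :=
    sum_sq_le_sum_mul_sum_of_sq_le_mul B (fun _ _ => abs_nonneg _)
      (fun _ _ => by positivity) fun T _ => le_of_eq (by
        rw [← mul_assoc, abs_mul_abs_self]; ring)
  have c2 : (∑ T ∈ B, |b T| * X T ^ 2) ^ 2 ≤ B1 * ∑ T ∈ B, |b T| * X T ^ 4 := by
    have := cs_weight B (fun T => |b T|) (fun T => X T ^ 2) fun _ _ => abs_nonneg _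
    simpa only [← pow_mul] using this
  set Pi4 := Fintype.piFinset fun _ : Fin 4 => A with hPi4
  set rr : (Fin 4 → Finset ι) → ℕ := fun s => ∏ i, pp q (s i) with hrr
  set AA : (Fin 4 → Finset ι) → ℝ := fun s => ∏ i, a (s i) with hAA
  set Y : ℕ → ℝ := fun r => ∑ T ∈ B, |b T| * κ r (pp q T) with hY
  set R : ℕ := (2 * M) ^ 4 with hR
  have hκprod : ∀ (s : Fin 4 → Finset ι) n, κ (rr s) n = ∏ i, κ (pp q (s i)) n := by
    intro s n
    simp only [hrr, Fin.prod_univ_four, k1]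
  have e2 : ∑ T ∈ B, |b T| * X T ^ 4 = ∑ s ∈ Pi4, AA s * Y (rr s) := by
    simp only [hX, sum_pow', hY, mul_sum]
    rw [sum_comm]
    refine sum_congr rfl fun s _ => sum_congr rfl fun T _ => ?_
    rw [prod_mul_distrib, hκprod]; ring
  have hrr1 : ∀ s ∈ Pi4, M ^ 4 ≤ rr s ∧ rr s ≤ R := by
    intro s hs
    rw [Fintype.mem_piFinset] at hs
    constructor
    · calc M ^ 4 = ∏ _i : Fin 4, M := by simp
        _ ≤ _ := prod_le_prod' fun i _ => (hA _ (hs i)).1
    · calc rr s ≤ ∏ _i : Fin 4, 2 * M := prod_le_prod' fun i _ => (hA _ (hs i)).2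
        _ = R := by simp [hR]
  have hmaps : ∀ s ∈ Pi4, rr s ∈ Ioc 0 R := fun s hs =>
    mem_Ioc.2 ⟨prod_pos fun i _ => h.pp_pos _, (hrr1 s hs).2⟩
  set cc : ℕ → ℝ := fun r => ∑ s ∈ Pi4 with rr s = r, AA s with hcc
  have e3 : ∑ s ∈ Pi4, AA s * Y (rr s) = ∑ r ∈ Ioc 0 R, cc r * Y r := by
    rw [← sum_fiberwise_of_maps_to hmaps]
    refine sum_congr rfl fun r _ => ?_
    rw [hcc, sum_mul]
    exact sum_congr rfl fun s hs => by rw [(mem_filter.1 hs).2]
  have c3 := sum_mul_sq_le_sq_mul_sq (Ioc 0 R) cc Y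
  have hE : ∑ r ∈ Ioc 0 R, cc r ^ 2 ≤ G ^ 64 / (M : ℝ) ^ 4 := by
    have h1 : ∀ r ∈ Ioc 0 R, cc r ^ 2 ≤ ∑ s ∈ Pi4 with rr s = r,
        (∏ i, ∏ p ∈ s i, 16 * K ^ 2 / q p) / (M : ℝ) ^ 4 := by
      intro r _
      refine sq_sum_le_card_mul_sum_sq.trans ?_
      rw [mul_sum]
      refine sum_le_sum fun s hs => ?_
      rw [mem_filter] at hs
      have hcard : (Pi4.filter fun s' => rr s' = r).card ≤ 16 ^ ∑ i, (s i).card := by
        have hsub : (Pi4.filter fun s' => rr s' = r) ⊆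
            Fintype.piFinset fun _ : Fin 4 => (univ.biUnion s).powerset := by
          intro s' hs'
          rw [Fintype.mem_piFinset]
          intro i
          rw [mem_powerset]
          intro p hp
          have h2 : q p ∣ rr s := by
            rw [hs.2, ← (mem_filter.1 hs').2]
            exact (h.dvd_pp.2 hp).trans (dvd_prod_of_mem (fun i => pp q (s' i)) (mem_univ i))
          obtain ⟨j, -, hj⟩ := (Prime.dvd_finsetProd_iff (h.prime p).prime _).1 h2
          exact mem_biUnion.2 ⟨j, mem_univ _, h.dvd_pp.1 hj⟩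
        refine (card_le_card hsub).trans ?_
        rw [Fintype.card_piFinset_const, card_powerset, ← pow_mul, mul_comm, pow_mul]
        exact Nat.pow_le_pow_right (by norm_num) card_biUnion_le
      have hAA1 : |AA s| ≤ ∏ i, ∏ p ∈ s i, K / q p := by
        rw [hAA, abs_prod]
        exact prod_le_prod (fun _ _ => abs_nonneg _) fun i _ => ha _
      have hAA2 : ∏ i, ∏ p ∈ s i, K / q p = K ^ (∑ i, (s i).card) / rr s := by
        simp only [prod_div_eq]
        simp only [prod_div_distrib, prod_pow_eq_pow_sum, hrr, Nat.cast_prod]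
      have hAA3 : ∏ i, ∏ p ∈ s i, 16 * K ^ 2 / q p =
          (16 * K ^ 2) ^ (∑ i, (s i).card) / rr s := by
        simp only [prod_div_eq]
        simp only [prod_div_distrib, prod_pow_eq_pow_sum, hrr, Nat.cast_prod]
      rw [hAA3]
      rw [hAA2] at hAA1
      set n := ∑ i, (s i).card
      have hr0 : (0 : ℝ) < rr s := by exact_mod_cast (mem_Ioc.1 (hmaps s hs.1)).1
      have hr1 : (M : ℝ) ^ 4 ≤ rr s := by exact_mod_cast (hrr1 s hs.1).1
      have hc : ((Pi4.filter fun s' => rr s' = r).card : ℝ) ≤ 16 ^ n := by exact_mod_cast hcard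
      calc _ ≤ (16 : ℝ) ^ n * (K ^ n / rr s) ^ 2 := by
            rw [← sq_abs (AA s)]; gcongr
        _ = (16 * K ^ 2) ^ n / rr s / rr s := by
            rw [mul_pow, ← pow_mul, mul_comm 2 n, pow_mul]; field_simp
        _ ≤ _ := by gcongr
    refine (sum_le_sum h1).trans ?_
    rw [sum_fiberwise_of_maps_to hmaps, ← sum_div]
    gcongr
    rw [hPi4, ← prod_univ_sum (fun _ : Fin 4 => A) fun _ S => ∏ p ∈ S, 16 * K ^ 2 / q p]
    have : ∑ S ∈ A, ∏ p ∈ S, 16 * K ^ 2 / q p ≤ G ^ 16 := by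
      refine (sum_le_sum_of_subset_of_nonneg (subset_univ _)
        fun S _ _ => prod_nonneg fun p _ => by positivity).trans
        ((h.sum_prod_le (by positivity)).trans (le_of_eq ?_))
      rw [hG, ← exp_nat_mul]; congr 1; push_cast; ring
    calc ∏ _i : Fin 4, ∑ S ∈ A, ∏ p ∈ S, 16 * K ^ 2 / q p ≤ ∏ _i : Fin 4, G ^ 16 :=
          prod_le_prod (fun _ _ => sum_nonneg fun S _ => prod_nonneg fun p _ => by positivity)
            fun _ _ => this
      _ = G ^ 64 := by simp [← pow_mul]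
  have hY2 : ∑ r ∈ Ioc 0 R, Y r ^ 2 ≤ 16 * (M : ℝ) ^ 4 * G / N + 192 * (N : ℝ) ^ 2 * G ^ 2 := by
    have h1 : ∑ r ∈ Ioc 0 R, Y r ^ 2 = ∑ T ∈ B, ∑ T' ∈ B,
        |b T| * |b T'| * ∑ r ∈ Ioc 0 R, κ r (pp q T) * κ r (pp q T') := by
      simp only [hY, sq, sum_mul_sum]
      simp only [mul_sum]
      rw [sum_comm]
      refine sum_congr rfl fun T _ => ?_
      rw [sum_comm]
      exact sum_congr rfl fun T' _ => sum_congr rfl fun r _ => by ring
    have h2 : ∀ T ∈ B, ∀ T' ∈ B, ∑ r ∈ Ioc 0 R, κ r (pp q T) * κ r (pp q T') ≤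
        (if T = T' then (R : ℝ) else 0) + 192 * (N : ℝ) ^ 2 := by
      intro T hT T' hT'
      split_ifs with hTT
      · have : ∑ r ∈ Ioc 0 R, κ r (pp q T) * κ r (pp q T') ≤ ∑ r ∈ Ioc 0 R, (1 : ℝ) :=
          sum_le_sum fun r _ => (le_abs_self _).trans (by
            rw [abs_mul]; exact mul_le_one₀ (k2 _ _) (abs_nonneg _) (k2 _ _))
        simp only [sum_const, Nat.card_Ioc, tsub_zero, nsmul_eq_mul, mul_one] at this
        have : 0 ≤ 192 * (N : ℝ) ^ 2 := by positivity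
        linarith
      · have h3 := (le_abs_self _).trans (k3 T T' hTT R)
        have h4 : (pp q T : ℝ) ≤ 2 * N := by exact_mod_cast (hB T hT).2
        have h5 : (pp q T' : ℝ) ≤ 2 * N := by exact_mod_cast (hB T' hT').2
        have : (pp q T : ℝ) * pp q T' ≤ (2 * N) * (2 * N) := by gcongr
        linarith
    have h3 : ∑ T ∈ B, |b T| * |b T| ≤ G / N := by
      have : ∀ T ∈ B, |b T| * |b T| ≤ (∏ p ∈ T, K ^ 2 / q p) / N := by
        intro T hT
        have h4 := hb T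
        rw [prod_div_eq] at h4 ⊢
        have h5 : (N : ℝ) ≤ pp q T := by exact_mod_cast (hB T hT).1
        calc |b T| * |b T| ≤ (K ^ T.card / pp q T) * (K ^ T.card / pp q T) := by gcongr
          _ = (K ^ 2) ^ T.card / pp q T / pp q T := by
              rw [← pow_mul, mul_comm 2, pow_mul]; field_simp
          _ ≤ _ := by gcongr
      refine (sum_le_sum this).trans ?_
      rw [← sum_div]
      gcongr
      exact (sum_le_sum_of_subset_of_nonneg (subset_univ _)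
        fun S _ _ => prod_nonneg fun p _ => by positivity).trans (h.sum_prod_le (by positivity))
    rw [h1]
    calc _ ≤ ∑ T ∈ B, ∑ T' ∈ B, |b T| * |b T'| *
          ((if T = T' then (R : ℝ) else 0) + 192 * (N : ℝ) ^ 2) :=
          sum_le_sum fun T hT => sum_le_sum fun T' hT' =>
            mul_le_mul_of_nonneg_left (h2 T hT T' hT') (by positivity)
      _ = (R : ℝ) * ∑ T ∈ B, |b T| * |b T| + 192 * (N : ℝ) ^ 2 * B1 ^ 2 := by
          simp only [mul_add, sum_add_distrib, mul_ite, mul_zero, sum_ite_eq]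
          congr 1
          · rw [mul_sum]
            exact sum_congr rfl fun T hT => by rw [if_pos hT]; ring
          · rw [sq B1, hB1, sum_mul_sum, mul_sum]
            refine sum_congr rfl fun T _ => ?_
            rw [mul_sum]
            exact sum_congr rfl fun T' _ => by ring
      _ ≤ (R : ℝ) * (G / N) + 192 * (N : ℝ) ^ 2 * G ^ 2 := by gcongr
      _ = _ := by rw [hR]; push_cast; ring
  rw [e1]
  rw [e2, e3] at c2
  set Z := ∑ T ∈ B, b T * X T
  set Z2 := ∑ T ∈ B, |b T| * X T ^ 2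
  set Z4 := ∑ r ∈ Ioc 0 R, cc r * Y r
  have hZ2 : 0 ≤ Z2 := sum_nonneg fun _ _ => by positivity
  have d1 : Z ^ 4 ≤ B1 ^ 2 * (B1 * Z4) := by
    calc Z ^ 4 = (Z ^ 2) ^ 2 := by ring
      _ ≤ (B1 * Z2) ^ 2 := by gcongr
      _ = B1 ^ 2 * Z2 ^ 2 := by ring
      _ ≤ _ := by gcongr
  have d2 : Z4 ^ 2 ≤ G ^ 64 / (M : ℝ) ^ 4 *
      (16 * (M : ℝ) ^ 4 * G / N + 192 * (N : ℝ) ^ 2 * G ^ 2) :=
    c3.trans (mul_le_mul hE hY2 (sum_nonneg fun _ _ => sq_nonneg _) (by positivity))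
  have d3 : (N : ℝ) ^ 2 / (M : ℝ) ^ 4 ≤ 1 / N := by
    rw [div_le_div_iff₀ (by positivity) (by positivity)]
    calc (N : ℝ) ^ 2 * N = (N : ℝ) ^ 3 * 1 := by ring
      _ ≤ (M : ℝ) ^ 3 * M := by gcongr
      _ = _ := by ring
  calc Z ^ 8 = (Z ^ 4) ^ 2 := by ring
    _ ≤ (B1 ^ 2 * (B1 * Z4)) ^ 2 := by gcongr
    _ = B1 ^ 6 * Z4 ^ 2 := by ring
    _ ≤ G ^ 6 * (G ^ 64 / (M : ℝ) ^ 4 *
      (16 * (M : ℝ) ^ 4 * G / N + 192 * (N : ℝ) ^ 2 * G ^ 2)) := by gcongr
    _ = 16 * G ^ 71 / N + 192 * G ^ 72 * ((N : ℝ) ^ 2 / (M : ℝ) ^ 4) := by field_simp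
    _ ≤ 16 * G ^ 73 / N + 192 * G ^ 73 * (1 / N) := by
        gcongr <;> first | exact hG1 | norm_num
    _ = _ := by ring

/-- The non-principal character modulo 4. -/
def chi4 (n : ℕ) : ℝ := ((ZMod.χ₄ (n : ZMod 4) : ℤ) : ℝ)

lemma isCh24_chi4 : IsCh24 chi4 := by
  refine ⟨⟨by simp [chi4], fun m n => by
    rw [chi4, chi4, chi4, Nat.cast_mul, map_mul, Int.cast_mul], fun n => ?_⟩, fun n => ?_⟩
  · have := ZMod.isQuadratic_χ₄ (n : ZMod 4)
    unfold chi4
    exact_mod_cast this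
  · unfold chi4
    congr 2
    push_cast
    rw [show (24 : ZMod 4) = 0 by decide, add_zero]

lemma isCh24_one : IsCh24 fun _ => 1 := ⟨⟨rfl, by simp, by simp⟩, by simp⟩

lemma IsCh24.mul {κ κ' : ℕ → ℝ} (h : IsCh24 κ) (h' : IsCh24 κ') : IsCh24 fun n => κ n * κ' n :=
  ⟨h.1.mul h'.1, fun n => by simp only [h.2, h'.2]⟩

lemma IsCh24.prod {α : Type} (s : Finset α) (κ : α → ℕ → ℝ) (h : ∀ i, IsCh24 (κ i)) :
    IsCh24 fun n => ∏ i ∈ s, κ i n := by
  classical
  induction s using Finset.induction_on with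
  | empty => simpa using isCh24_one
  | insert a s ha ih => simpa [prod_insert ha] using (h a).mul ih

/-- The sign in the reciprocity law. -/
noncomputable def th (n : ℕ) : ℕ → ℝ := if n % 4 = 3 then chi4 else fun _ => 1

lemma isCh24_th (n : ℕ) : IsCh24 (th n) := by
  unfold th; split_ifs
  · exact isCh24_chi4
  · exact isCh24_one

lemma recip {m n : ℕ} (hm : Odd m) (hn : Odd n) :
    (J((n : ℤ) | m) : ℝ) = (J((m : ℤ) | n) : ℝ) * th n m := by
  unfold th
  split_ifs with h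
  · rcases Nat.odd_mod_four_iff.1 (Nat.odd_iff.1 hm) with h' | h'
    · rw [jacobiSym.quadratic_reciprocity_one_mod_four' hn h', chi4,
        ZMod.χ₄_nat_one_mod_four h']; simp
    · rw [jacobiSym.quadratic_reciprocity_three_mod_four h h', chi4,
        ZMod.χ₄_nat_three_mod_four h']; simp
  · have h' : n % 4 = 1 := (Nat.odd_mod_four_iff.1 (Nat.odd_iff.1 hn)).resolve_right h
    rw [jacobiSym.quadratic_reciprocity_one_mod_four h' hm]; simp

lemma abs_jac_le (m : ℤ) (n : ℕ) : |(J(m | n) : ℝ)| ≤ 1 := by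
  rcases jacobiSym.trichotomy m n with h | h | h <;> simp [h]

lemma PSys.odd (h : PSys q p₀ L) (h3 : 3 ≤ p₀) (p : ι) : Odd (q p) :=
  (h.prime p).odd_of_ne_two (by have := h.big p; omega)

lemma PSys.pp_odd (h : PSys q p₀ L) (h3 : 3 ≤ p₀) (S : Finset ι) : Odd (pp q S) :=
  Finset.prod_induction _ Odd (fun _ _ => Odd.mul) odd_one fun p _ => h.odd h3 p

lemma kernel_orth (h : PSys q p₀ L) (h3 : 3 ≤ p₀) (θ : ℕ → ℕ → ℝ) (hθ : ∀ n, IsCh24 (θ n))
    (S S' : Finset ι) (hS : S ≠ S') (R : ℕ) :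
    |∑ r ∈ Ioc 0 R, (J((r : ℤ) | pp q S) : ℝ) * θ (pp q S) r *
      ((J((r : ℤ) | pp q S') : ℝ) * θ (pp q S') r)| ≤ 48 * (pp q S * pp q S') := by
  wlog hp : ∃ p ∈ S, p ∉ S' generalizing S S'
  · have := this S' S hS.symm (by
      by_contra hc
      push Not at hp hc
      exact hS (Subset.antisymm hp hc))
    rw [mul_comm (pp q S : ℝ)]
    simpa only [mul_comm ((J(_ | pp q S) : ℝ) * _)] using this
  obtain ⟨p, hp, hp'⟩ := hp
  have e : pp q S * pp q S' = q p * (pp q (S.erase p) * pp q S') := by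
    rw [← mul_assoc, pp, ← mul_prod_erase S _ hp]; rfl
  have := jac_twist_interval ((hθ (pp q S)).mul (hθ (pp q S'))) (h.prime p)
    (lt_of_le_of_lt h3 (h.big p)) (a := pp q (S.erase p) * pp q S')
    (Nat.mul_pos (h.pp_pos _) (h.pp_pos _)) (by
      rw [(h.prime p).dvd_mul, h.dvd_pp, h.dvd_pp]; simp [hp']) 0 R
  rw [← e] at this
  convert this using 2
  · refine sum_congr rfl fun r _ => ?_
    rw [jacobiSym.mul_right' _ (h.pp_pos _).ne' (h.pp_pos _).ne']
    push_cast; ring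
  · push_cast; ring

lemma trunc_le (h : PSys q p₀ L) {K R : ℝ} (hK : 1 ≤ K) (hR : 0 < R) :
    ∑ S : Finset ι with exp R < pp q S, ∏ p ∈ S, K / q p ≤ 4 * K * exp L * exp (K * L) / R := by
  have h1 := markov_subsets (univ : Finset ι) (fun p => K / q p) (fun p => log (q p))
    (fun p _ => by positivity) fun p _ => log_natCast_nonneg _
  have h2 : ∑ p, K / q p * log (q p) ≤ 4 * K * exp L := by
    calc ∑ p, K / q p * log (q p) = K * ∑ p, log (q p) / q p := by
          rw [mul_sum]; exact sum_congr rfl fun p _ => by ring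
      _ ≤ K * (4 * exp L) := by gcongr; exact h.log_le
      _ = _ := by ring
  have h3 := h.sum_prod_le (K := K) (by linarith)
  rw [← powerset_univ, ← prod_one_add] at h3
  rw [le_div_iff₀ hR, sum_mul]
  calc _ ≤ ∑ S : Finset ι with exp R < pp q S, (∏ p ∈ S, K / q p) * ∑ p ∈ S, log (q p) := by
        refine sum_le_sum fun S hS => mul_le_mul_of_nonneg_left ?_ (by positivity)
        rw [← log_prod (fun p _ => by exact_mod_cast (h.prime p).ne_zero), ← Nat.cast_prod,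
          le_log_iff_exp_le (by exact_mod_cast h.pp_pos S)]
        exact (mem_filter.1 hS).2.le
    _ ≤ ∑ S ∈ (univ : Finset ι).powerset, (∏ p ∈ S, K / q p) * ∑ p ∈ S, log (q p) :=
        sum_le_sum_of_subset_of_nonneg (by simp) fun S _ _ =>
          mul_nonneg (by positivity) (sum_nonneg fun p _ => log_natCast_nonneg _)
    _ ≤ _ := h1.trans (mul_le_mul h2 h3 (by positivity) (by positivity))

theorem bilinear_bound (h : PSys q p₀ L) (h3 : 3 ≤ p₀) {K N : ℝ} (hK : 1 ≤ K) (hN : 0 ≤ N)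
    (a b : Finset ι → ℝ) (ha : ∀ S, |a S| ≤ ∏ p ∈ S, K / q p)
    (hb : ∀ S, |b S| ≤ ∏ p ∈ S, K / q p)
    (ha0 : ∀ S, a S ≠ 0 → exp ((105 * K ^ 2 + 24 * N + 16) * L) < pp q S)
    (hb0 : ∀ S, b S ≠ 0 → exp ((105 * K ^ 2 + 24 * N + 16) * L) < pp q S) :
    |∑ S, ∑ T, a S * b T * (J((pp q S : ℤ) | pp q T) : ℝ)| ≤ (8 * K + 27) * exp (-N * L) := by
  have hL := h.nonneg
  set Λ := exp ((105 * K ^ 2 + 24 * N + 16) * L) with hΛ
  set R := exp ((N + 1 + 2 * K ^ 2) * L) with hR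
  have hR1 : 1 ≤ R := one_le_exp (by positivity)
  set f : Finset ι → Finset ι → ℝ := fun S T => a S * b T * (J((pp q S : ℤ) | pp q T) : ℝ)
    with hf
  set u : Finset ι → ℝ := fun S => ∏ p ∈ S, K / q p with hu
  have hu0 : ∀ S, 0 ≤ u S := fun S => prod_nonneg fun p _ => by positivity
  have hfu : ∀ S T, |f S T| ≤ u S * u T := by
    intro S T
    rw [hf]; simp only [abs_mul]
    calc _ ≤ u S * u T * 1 := by
          gcongr
          · exact ha S
          · exact hb T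
          · exact abs_jac_le _ _
      _ = _ := mul_one _
  set Sm : Finset (Finset ι) := univ.filter fun S => ¬exp R < pp q S with hSm
  set Bg : Finset (Finset ι) := univ.filter fun S => exp R < pp q S with hBg
  have hU : ∑ S, u S ≤ exp (K * L) := h.sum_prod_le (by linarith)
  have hT : ∑ S ∈ Bg, u S ≤ 4 * K * exp L * exp (K * L) / R := trunc_le h hK (by linarith)
  have split : ∑ S, ∑ T, f S T =
      ∑ S ∈ Bg, ∑ T, f S T + ∑ S ∈ Sm, ∑ T ∈ Bg, f S T + ∑ S ∈ Sm, ∑ T ∈ Sm, f S T := by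
    rw [add_assoc, ← sum_add_distrib, ← sum_filter_add_sum_filter_not univ
      (fun S => exp R < pp q S)]
    congr 1
    exact sum_congr rfl fun S _ => (sum_filter_add_sum_filter_not _ _ _).symm
  have gen : ∀ A B : Finset (Finset ι), |∑ S ∈ A, ∑ T ∈ B, f S T| ≤
      (∑ S ∈ A, u S) * ∑ T ∈ B, u T := by
    intro A B
    rw [sum_mul_sum]
    exact (abs_sum_le_sum_abs _ _).trans (sum_le_sum fun S _ =>
      (abs_sum_le_sum_abs _ _).trans (sum_le_sum fun T _ => hfu S T))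
  have herr : 4 * K * exp L * exp (K * L) / R * exp (K * L) ≤ 4 * K * exp (-N * L) := by
    rw [hR, div_mul_eq_mul_div, div_le_iff₀ (exp_pos _)]
    calc 4 * K * exp L * exp (K * L) * exp (K * L) = 4 * K * exp (L + K * L + K * L) := by
          rw [exp_add, exp_add]; ring
      _ ≤ 4 * K * exp (-N * L + (N + 1 + 2 * K ^ 2) * L) := by
          refine mul_le_mul_of_nonneg_left (exp_le_exp.2 ?_) (by positivity)
          nlinarith [mul_nonneg (mul_nonneg (sub_nonneg.2 hK) hL) (zero_le_one.trans hK)]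
      _ = _ := by rw [exp_add]; ring
  have b1 : |∑ S ∈ Bg, ∑ T, f S T| ≤ 4 * K * exp (-N * L) :=
    (gen _ _).trans (le_trans (mul_le_mul hT hU (sum_nonneg fun _ _ => hu0 _) (by positivity)) herr)
  have b2 : |∑ S ∈ Sm, ∑ T ∈ Bg, f S T| ≤ 4 * K * exp (-N * L) := by
    refine (gen _ _).trans (le_trans ?_ herr)
    rw [mul_comm]
    exact mul_le_mul hT ((sum_le_sum_of_subset_of_nonneg (subset_univ _)
      fun _ _ _ => hu0 _).trans hU) (sum_nonneg fun _ _ => hu0 _) (by positivity)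
  set Jm := ⌊2 * R⌋₊ + 1 with hJm
  set lg2 : Finset ι → ℕ := fun S => Nat.log 2 (pp q S) with hlg
  have hlg1 : ∀ S, 2 ^ lg2 S ≤ pp q S ∧ pp q S ≤ 2 * 2 ^ lg2 S := fun S =>
    ⟨Nat.pow_log_le_self 2 (h.pp_pos S).ne', by
      rw [← pow_succ']; exact (Nat.lt_pow_succ_log_self one_lt_two _).le⟩
  have hmaps : ∀ S ∈ Sm, lg2 S ∈ range Jm := by
    intro S hS
    have h1 : ((2 ^ lg2 S : ℕ) : ℝ) ≤ exp R :=
      le_trans (by exact_mod_cast (hlg1 S).1) (not_lt.1 (mem_filter.1 hS).2)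
    rw [← log_le_iff_le_exp (by positivity)] at h1
    push_cast at h1
    rw [log_pow] at h1
    rw [mem_range, hJm, Nat.lt_succ_iff]
    apply Nat.le_floor
    have := log_two_gt_d9
    have h2 : (0 : ℝ) ≤ lg2 S := by positivity
    nlinarith
  set Z := 3 * exp (-(4 * K ^ 2 + 3 * N + 2) * L) with hZ
  have hZ8 : ∀ n : ℕ, Λ < 2 * (n : ℝ) → 208 * exp (K ^ 2 * L) ^ 73 / n ≤ Z ^ 8 := by
    intro n hn
    have hΛ0 : 0 < Λ := exp_pos _
    have hn0 : (0 : ℝ) < n := by linarith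
    rw [div_le_iff₀ hn0]
    have e1 : exp (K ^ 2 * L) ^ 73 = exp (-(4 * K ^ 2 + 3 * N + 2) * L) ^ 8 * Λ := by
      rw [hΛ, ← exp_nat_mul, ← exp_nat_mul, ← exp_add]; congr 1; push_cast; ring
    rw [e1, hZ, mul_pow]
    have : 0 < exp (-(4 * K ^ 2 + 3 * N + 2) * L) ^ 8 := by positivity
    nlinarith
  have hbox : ∀ i j : ℕ,
      |∑ S ∈ Sm with lg2 S = i, ∑ T ∈ Sm with lg2 T = j, f S T| ≤ Z := by
    intro i j
    have hZ0 : 0 ≤ Z := by positivity
    rw [← pow_le_pow_iff_left₀ (abs_nonneg _) hZ0 (n := 8) (by norm_num),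
      Even.pow_abs (by decide)]
    rcases le_total j i with hij | hij
    · by_cases hz : ∀ T ∈ Sm.filter fun T => lg2 T = j, b T = 0
      · rw [sum_eq_zero fun S _ => sum_eq_zero fun T hT => by simp [hf, hz T hT]]
        simpa using pow_nonneg hZ0 _
      push Not at hz
      obtain ⟨T₀, hT₀, hb1⟩ := hz
      have h1 : Λ < 2 * ((2 ^ j : ℕ) : ℝ) := by
        refine (hb0 T₀ hb1).trans_le ?_
        have := (hlg1 T₀).2
        rw [(mem_filter.1 hT₀).2] at this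
        exact_mod_cast this
      refine le_trans ?_ (hZ8 _ h1)
      refine box_bound h hK (fun m n => (J((m : ℤ) | n) : ℝ))
        (fun m m' n => by simp [jacobiSym.mul_left]) (fun m n => abs_jac_le _ _)
        (fun S S' hS R => by
          simpa using kernel_orth h h3 (fun _ _ => 1) (fun _ => isCh24_one) S S' hS R)
        _ _ a b ha hb (M := 2 ^ i) Nat.one_le_two_pow (Nat.pow_le_pow_right two_pos hij)
        (fun S hS => by rw [← (mem_filter.1 hS).2]; exact hlg1 S)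
        (fun S hS => by rw [← (mem_filter.1 hS).2]; exact hlg1 S)
    · by_cases hz : ∀ S ∈ Sm.filter fun S => lg2 S = i, a S = 0
      · rw [sum_eq_zero fun S hS => sum_eq_zero fun T hT => by simp [hf, hz S hS]]
        simpa using pow_nonneg hZ0 _
      push Not at hz
      obtain ⟨S₀, hS₀, ha1⟩ := hz
      have h1 : Λ < 2 * ((2 ^ i : ℕ) : ℝ) := by
        refine (ha0 S₀ ha1).trans_le ?_
        have := (hlg1 S₀).2
        rw [(mem_filter.1 hS₀).2] at this
        exact_mod_cast this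
      refine le_trans (le_of_eq ?_) ((box_bound h hK (fun m n => (J((m : ℤ) | n) : ℝ) * th n m)
        (fun m m' n => by simp only [Nat.cast_mul, jacobiSym.mul_left, (isCh24_th n).1.2.1]
                          push_cast; ring)
        (fun m n => by
          rw [abs_mul]; exact mul_le_one₀ (abs_jac_le _ _) (abs_nonneg _) ((isCh24_th n).1.abs_le _))
        (kernel_orth h h3 th isCh24_th)
        (Sm.filter fun T => lg2 T = j) (Sm.filter fun S => lg2 S = i) b a hb ha (M := 2 ^ j)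
        Nat.one_le_two_pow (Nat.pow_le_pow_right two_pos hij)
        (fun S hS => by rw [← (mem_filter.1 hS).2]; exact hlg1 S)
        (fun S hS => by rw [← (mem_filter.1 hS).2]; exact hlg1 S)).trans (hZ8 _ h1))
      rw [sum_comm]
      congr 1
      refine sum_congr rfl fun T _ => sum_congr rfl fun S _ => ?_
      simp only [hf]
      rw [recip (h.pp_odd h3 T) (h.pp_odd h3 S)]; ring
  have b3 : |∑ S ∈ Sm, ∑ T ∈ Sm, f S T| ≤ 27 * exp (-N * L) := by
    have e : ∑ S ∈ Sm, ∑ T ∈ Sm, f S T = ∑ i ∈ range Jm, ∑ j ∈ range Jm,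
        ∑ S ∈ Sm with lg2 S = i, ∑ T ∈ Sm with lg2 T = j, f S T := by
      rw [← sum_fiberwise_of_maps_to hmaps]
      refine sum_congr rfl fun i _ => ?_
      rw [sum_comm (s := range Jm)]
      exact sum_congr rfl fun S _ => (sum_fiberwise_of_maps_to hmaps _).symm
    rw [e]
    have hJ : (Jm : ℝ) ≤ 3 * R := by
      have := Nat.floor_le (show 0 ≤ 2 * R by linarith)
      rw [hJm]; push_cast; linarith
    calc _ ≤ ∑ i ∈ range Jm, ∑ j ∈ range Jm, Z :=
          (abs_sum_le_sum_abs _ _).trans (sum_le_sum fun i _ =>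
            (abs_sum_le_sum_abs _ _).trans (sum_le_sum fun j _ => hbox i j))
      _ = (Jm : ℝ) ^ 2 * Z := by simp; ring
      _ ≤ (3 * R) ^ 2 * Z := by gcongr
      _ = 27 * exp (-N * L) := by
          rw [hZ, hR, mul_pow, ← exp_nat_mul]
          have : exp (-N * L) = exp ((2 : ℕ) * ((N + 1 + 2 * K ^ 2) * L)) *
              exp (-(4 * K ^ 2 + 3 * N + 2) * L) := by
            rw [← exp_add]; congr 1; push_cast; ring
          rw [this]; ring
  rw [show (∑ S, ∑ T, a S * b T * (J((pp q S : ℤ) | pp q T) : ℝ)) = ∑ S, ∑ T, f S T from rfl,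
    split]
  calc _ ≤ |∑ S ∈ Bg, ∑ T, f S T| + |∑ S ∈ Sm, ∑ T ∈ Bg, f S T| +
        |∑ S ∈ Sm, ∑ T ∈ Sm, f S T| := abs_add_three _ _ _
    _ ≤ _ := by linarith

end Pool.Agent.Lib.MP_788af2_nt
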