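import Pool.Agent.Lib.MP_788af2_nt.Primes

/-!
Elementary upper and lower bounds for `∑ χ(p) / p` with `χ` a real character.
-/

namespace Pool.Agent.Lib.MP_788af2_nt

open Finset Real
open ArithmeticFunction hiding log
open scoped NumberTheorySymbols ArithmeticFunction.zeta ArithmeticFunction.Moebius

lemma abel_le (a h : ℕ → ℝ) (k : ℕ) (B : ℝ) (hB : 0 ≤ B) (hA : ∀ z, ∑ d ∈ Ioc k z, a d ≤ B)
    (hanti : ∀ d, k < d → h (d + 1) ≤ h d) (h0 : ∀ d, 0 ≤ h d) (Y : ℕ) :
    ∑ d ∈ Ioc k Y, a d * h d ≤ B * h (k + 1) := by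
  rcases le_or_gt Y k with hY | hY
  · rw [Ioc_eq_empty (by omega), sum_empty]; exact mul_nonneg hB (h0 _)
  have key : ∀ Y, k + 1 ≤ Y →
      ∑ d ∈ Ioc k Y, a d * h d ≤ B * h (k + 1) - (B - ∑ d ∈ Ioc k Y, a d) * h Y := by
    intro Y hY
    induction Y, hY using Nat.le_induction with
    | base => simp; linarith
    | succ Y hY ih =>
      rw [sum_Ioc_succ_top (by omega), sum_Ioc_succ_top (by omega)]
      have h1 := hA Y
      have h2 := hanti Y (by omega)
      nlinarith
  have h1 := key Y hY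
  have h2 := mul_nonneg (sub_nonneg.2 (hA Y)) (h0 Y)
  linarith

lemma euler_le (G : ArithmeticFunction ℝ) (hG : G.IsMultiplicative)
    (h1 : ∀ p : ℕ, p.Prime → |G p| ≤ 1)
    (h2 : ∀ p k : ℕ, p.Prime → 0 ≤ ∑ i ∈ range (k + 1), G (p ^ i)) (B : ℝ)
    (hB : ∀ z, ∑ d ∈ Ioc 0 z, G d / d ≤ B) (y : ℕ) :
    exp (∑ p ∈ Nat.primesLE y, G p / p) ≤ 34 * exp 8 * B := by
  have hB1 : 1 ≤ B := by simpa [hG.map_one] using hB 1
  rcases Nat.eq_zero_or_pos y with rfl | hy
  · have : Nat.primesLE 0 = ∅ := by decide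
    simp only [this, sum_empty, exp_zero]
    have : 1 ≤ exp 8 := one_le_exp (by norm_num)
    nlinarith
  set P := Nat.primesLE y with hP
  have hpr : ∀ p ∈ P, p.Prime := fun p hp => (Nat.mem_primesLE.1 hp).2
  have hy' : (1 : ℝ) ≤ y := by exact_mod_cast hy
  let h : ℕ → ℝ := fun p => (1 + G p) / p
  have hh : ∀ p ∈ P, 0 ≤ h p := fun p hp =>
    div_nonneg (by linarith [(abs_le.1 (h1 p (hpr p hp))).1]) (by positivity)
  have hh2 : ∀ p ∈ P, h p ≤ 2 / p := fun p hp =>
    div_le_div_of_nonneg_right (by linarith [(abs_le.1 (h1 p (hpr p hp))).2]) (by positivity)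
  set Y : ℕ := (4 * y) ^ 4 with hY
  have hlogY : log Y = 4 * (log y + log 4) := by
    rw [hY]; push_cast
    rw [log_pow, log_mul (by norm_num) (by positivity)]; push_cast; ring
  have hs : 2 * ∑ p ∈ P, h p * log p ≤ log Y := by
    have : ∑ p ∈ P, h p * log p ≤ ∑ p ∈ P, 2 * (log p / p) := by
      refine sum_le_sum fun p hp => ?_
      calc h p * log p ≤ 2 / p * log p :=
            mul_le_mul_of_nonneg_right (hh2 p hp) (log_natCast_nonneg p)
        _ = _ := by ring
    rw [← mul_sum] at this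
    have := sum_log_div_le y
    linarith
  have hsmall := prod_le_two_mul_small P (fun p => p) (fun p hp => (hpr p hp).pos) h hh Y
    (by rw [hY]; positivity) hs
  let r : ArithmeticFunction ℝ := G * (ζ : ArithmeticFunction ℝ)
  have hr : r.IsMultiplicative := hG.mul isMultiplicative_zeta.natCast
  have hr0 : ∀ n, 0 ≤ r n := by
    intro n
    rcases eq_or_ne n 0 with rfl | hn
    · simp
    rw [hr.multiplicative_factorization _ hn]
    refine prod_nonneg fun p hp => ?_
    have hp' := Nat.prime_of_mem_primeFactors hp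
    simp only [r, coe_mul_zeta_apply, Nat.sum_divisors_prime_pow hp']
    exact h2 p _ hp'
  have hS : ∑ S ∈ P.powerset with ((∏ p ∈ S, p : ℕ) : ℝ) ≤ Y, ∏ p ∈ S, h p ≤
      ∑ n ∈ Ioc 0 Y, r n / n := by
    have hinj : Set.InjOn (fun S : Finset ℕ => ∏ p ∈ S, p)
        (P.powerset.filter fun S => ((∏ p ∈ S, p : ℕ) : ℝ) ≤ Y) := by
      intro S hS T hT hST
      have hS' := mem_powerset.1 (mem_filter.1 hS).1
      have hT' := mem_powerset.1 (mem_filter.1 hT).1
      rw [← Nat.primeFactors_prod fun p hp => hpr p (hS' hp),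
        ← Nat.primeFactors_prod fun p hp => hpr p (hT' hp)]
      exact congrArg _ hST
    calc _ = ∑ n ∈ (P.powerset.filter fun S => ((∏ p ∈ S, p : ℕ) : ℝ) ≤ Y).image
          (fun S : Finset ℕ => ∏ p ∈ S, p), r n / n := by
          rw [sum_image hinj]
          refine sum_congr rfl fun S hS => ?_
          have hS' := mem_powerset.1 (mem_filter.1 hS).1
          have hsq : Squarefree (∏ p ∈ S, p) :=
            Finset.squarefree_prod_of_pairwise_isCoprime
              (fun p hp q hq hpq => by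
                simpa [Nat.coprime_iff_isRelPrime, Function.onFun] using
                  Nat.coprime_iff_isRelPrime.1
                    ((Nat.coprime_primes (hpr p (hS' hp)) (hpr q (hS' hq))).2 hpq))
              fun p hp => (hpr p (hS' hp)).prime.squarefree
          simp only [r, coe_mul_zeta_apply]
          rw [← hG.prodPrimeFactors_one_add_of_squarefree hsq,
            Nat.primeFactors_prod fun p hp => hpr p (hS' hp)]
          simp [h, prod_div_distrib]
      _ ≤ _ := by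
          refine sum_le_sum_of_subset_of_nonneg ?_ fun n _ _ => div_nonneg (hr0 n) (by positivity)
          intro n hn
          obtain ⟨S, hS, rfl⟩ := mem_image.1 hn
          rw [mem_filter] at hS
          rw [mem_Ioc]
          exact ⟨prod_pos fun p hp => (hpr p (mem_powerset.1 hS.1 hp)).pos, by exact_mod_cast hS.2⟩
  let G' : ArithmeticFunction ℝ := ⟨fun n => G n / n, by simp⟩
  let I : ArithmeticFunction ℝ := ⟨fun n => (n : ℝ)⁻¹, by simp⟩
  have hconv : ∑ n ∈ Ioc 0 Y, r n / n =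
      ∑ d ∈ Ioc 0 Y, G d / d * ∑ m ∈ Ioc 0 (Y / d), (m : ℝ)⁻¹ := by
    refine Eq.trans ?_ (sum_Ioc_mul_eq_sum_sum G' I Y)
    refine sum_congr rfl fun n hn => ?_
    simp only [r, mul_apply, sum_div]
    refine sum_congr rfl fun x hx => ?_
    obtain ⟨h1, h2⟩ := Nat.mem_divisorsAntidiagonal.1 hx
    have h3 : x.2 ≠ 0 := by rintro h; simp [h] at h1; exact h2 h1.symm
    simp only [G', I, coe_mk, natCoe_apply, zeta_apply, h3, if_false, ← h1]
    push_cast
    field_simp
  have habel := abel_le (fun d => G d / d) (fun d => ∑ m ∈ Ioc 0 (Y / d), (m : ℝ)⁻¹) 0 B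
    (by linarith) hB (fun d hd => sum_le_sum_of_subset_of_nonneg
      (Ioc_subset_Ioc_right (Nat.div_le_div_left (by omega) hd)) fun _ _ _ => by positivity)
    (fun d => sum_nonneg fun _ _ => by positivity) Y
  simp only [zero_add, Nat.div_one] at habel
  have hH := harm_le_log Y
  have hL := log_le_exp_LL' y
  have hL1 : 1 ≤ exp (LL y) := one_le_exp (LL_nonneg y)
  have hup : ∏ p ∈ P, (1 + h p) ≤ 34 * B * exp (LL y) := by
    have : B * ∑ m ∈ Ioc 0 Y, (m : ℝ)⁻¹ ≤ B * (17 * exp (LL y)) :=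
      mul_le_mul_of_nonneg_left (by linarith) (by linarith)
    linarith
  have hlow := exp_le_prod_one_add P h hh
  have hsq : ∑ p ∈ P, h p ^ 2 ≤ 8 := by
    calc ∑ p ∈ P, h p ^ 2 ≤ ∑ p ∈ P, 4 * ((p : ℝ) ^ 2)⁻¹ := by
          refine sum_le_sum fun p hp => ?_
          calc h p ^ 2 ≤ (2 / p) ^ 2 := pow_le_pow_left₀ (hh p hp) (hh2 p hp) 2
            _ = _ := by ring
      _ ≤ 8 := by
          rw [← mul_sum]
          have := sum_inv_sq_le P 0 fun p hp => (hpr p hp).pos
          simp at this ⊢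
          linarith
  have hsum : ∑ p ∈ P, h p = LL y + ∑ p ∈ P, G p / p := by
    rw [LL, ← sum_add_distrib]
    exact sum_congr rfl fun p _ => by simp only [h]; ring
  have : exp (∑ p ∈ P, G p / p) * exp (LL y) ≤ (34 * exp 8 * B) * exp (LL y) := by
    calc exp (∑ p ∈ P, G p / p) * exp (LL y) = exp (∑ p ∈ P, h p - 8) * exp 8 := by
          rw [← exp_add, ← exp_add, hsum]; congr 1; ring
      _ ≤ exp (∑ p ∈ P, h p - ∑ p ∈ P, h p ^ 2) * exp 8 := by gcongr
      _ ≤ 34 * B * exp (LL y) * exp 8 := by gcongr; exact hlow.trans hup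
      _ = _ := by ring
  exact le_of_mul_le_mul_right this (exp_pos _)

/-- Completely multiplicative functions with values in `{0, 1, -1}`. -/
def IsCh (χ : ℕ → ℝ) : Prop :=
  χ 1 = 1 ∧ (∀ m n, χ (m * n) = χ m * χ n) ∧ ∀ n, χ n = 0 ∨ χ n = 1 ∨ χ n = -1

lemma IsCh.abs_le {χ : ℕ → ℝ} (h : IsCh χ) (n : ℕ) : |χ n| ≤ 1 := by
  rcases h.2.2 n with h | h | h <;> simp [h]

lemma IsCh.pow {χ : ℕ → ℝ} (h : IsCh χ) (n k : ℕ) : χ (n ^ k) = χ n ^ k := by
  induction k with
  | zero => simp [h.1]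
  | succ k ih => rw [pow_succ, h.2.1, ih, pow_succ]

lemma IsCh.mul {χ ψ : ℕ → ℝ} (h : IsCh χ) (h' : IsCh ψ) : IsCh fun n => χ n * ψ n := by
  refine ⟨by simp [h.1, h'.1], fun m n => by simp only [h.2.1, h'.2.1]; ring, fun n => ?_⟩
  rcases h.2.2 n with h | h | h <;> rcases h'.2.2 n with h' | h' | h' <;> simp [h, h']

lemma tail_le {χ : ℕ → ℝ} {Q : ℝ} (hQ : ∀ u v, |∑ n ∈ Ioc u v, χ n| ≤ Q) (u v : ℕ) :
    |∑ n ∈ Ioc u v, χ n / n| ≤ Q / (u + 1) := by
  have hQ0 : 0 ≤ Q := (abs_nonneg _).trans (hQ 0 0)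
  have anti : ∀ d : ℕ, u < d → ((d + 1 : ℕ) : ℝ)⁻¹ ≤ (d : ℝ)⁻¹ := fun d hd =>
    inv_anti₀ (by exact_mod_cast (by omega : 0 < d)) (by simp)
  have h1 := abel_le χ (fun d => (d : ℝ)⁻¹) u Q hQ0 (fun z => (abs_le.1 (hQ u z)).2) anti
    (fun d => by positivity) v
  have h2 := abel_le (fun n => -χ n) (fun d => (d : ℝ)⁻¹) u Q hQ0
    (fun z => by rw [sum_neg_distrib]; linarith [(abs_le.1 (hQ u z)).1]) anti
    (fun d => by positivity) v
  simp only [neg_mul, sum_neg_distrib] at h2
  push_cast at h1 h2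
  simp only [div_eq_mul_inv]
  rw [abs_le]
  constructor <;> linarith

lemma char_upper {χ : ℕ → ℝ} (h : IsCh χ) {Q : ℕ} (hQ : ∀ u v, |∑ n ∈ Ioc u v, χ n| ≤ Q)
    (y : ℕ) : exp (∑ p ∈ Nat.primesLE y, χ p / p) ≤ 34 * exp 8 * (2 + log Q) := by
  let G : ArithmeticFunction ℝ := ⟨fun n => if n = 0 then 0 else χ n, by simp⟩
  have hG : ∀ n, n ≠ 0 → G n = χ n := fun n hn => by simp [G, hn]
  have hm : G.IsMultiplicative := by
    refine ⟨by simp [G, h.1], fun {m n} _ => ?_⟩
    by_cases hm : m = 0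
    · simp [hm]
    by_cases hn : n = 0
    · simp [hn]
    rw [hG _ (mul_ne_zero hm hn), hG _ hm, hG _ hn, h.2.1]
  have := euler_le G hm (fun p hp => by rw [hG p hp.ne_zero]; exact h.abs_le p)
    (fun p k hp => by
      rw [sum_congr rfl fun i _ => (hG _ (pow_ne_zero i hp.ne_zero)).trans (h.pow p i)]
      rcases h.2.2 p with h | h | h
      · rw [h]; positivity
      · rw [h]; positivity
      · rw [h, neg_one_geom_sum]; split_ifs <;> norm_num) (2 + log Q)
    (fun z => by
      rw [sum_congr rfl fun d hd => by rw [hG d (mem_Ioc.1 hd).1.ne']]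
      have key : ∀ z ≤ Q, ∑ d ∈ Ioc 0 z, χ d / d ≤ 1 + log Q := by
        intro z hz
        refine le_trans ?_ (harm_le_log Q)
        refine le_trans (sum_le_sum fun d _ => ?_) (sum_le_sum_of_subset_of_nonneg
          (Ioc_subset_Ioc_right hz) fun _ _ _ => by positivity)
        rw [div_eq_mul_inv]
        exact mul_le_of_le_one_left (by positivity) (abs_le.1 (h.abs_le d)).2
      rcases le_or_gt z Q with hz | hz
      · linarith [key z hz]
      · rw [← sum_Ioc_consecutive _ (Nat.zero_le Q) hz.le]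
        have h1 := (abs_le.1 (tail_le hQ Q z)).2
        have h2 : (Q : ℝ) / (Q + 1) ≤ 1 := by
          rw [div_le_one (by positivity)]; linarith
        linarith [key Q le_rfl]) y
  rwa [sum_congr rfl fun p hp => by rw [hG p (Nat.mem_primesLE.1 hp).2.ne_zero]] at this

lemma char_lower {χ : ℕ → ℝ} (h : IsCh χ) {Q : ℝ} (hQ : ∀ u v, |∑ n ∈ Ioc u v, χ n| ≤ Q)
    {c : ℝ} (hc : 0 < c) {N₀ : ℕ} (hN : ∀ N, N₀ ≤ N → c ≤ ∑ n ∈ Ioc 0 N, χ n / n)
    (y : ℕ) : exp (-∑ p ∈ Nat.primesLE y, χ p / p) ≤ 34 * exp 8 * ((1 + Q) / c) := by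
  have hQ0 : 0 ≤ Q := (abs_nonneg _).trans (hQ 0 0)
  let X : ArithmeticFunction ℝ := ⟨fun n => if n = 0 then 0 else χ n, by simp⟩
  have hX : ∀ n, n ≠ 0 → X n = χ n := fun n hn => by simp [X, hn]
  have hm : X.IsMultiplicative := by
    refine ⟨by simp [X, h.1], fun {m n} _ => ?_⟩
    by_cases hm : m = 0
    · simp [hm]
    by_cases hn : n = 0
    · simp [hn]
    rw [hX _ (mul_ne_zero hm hn), hX _ hm, hX _ hn, h.2.1]
  let G : ArithmeticFunction ℝ := pmul (μ : ArithmeticFunction ℝ) X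
  have hG : ∀ n, n ≠ 0 → G n = (μ n : ℝ) * χ n := fun n hn => by simp [G, hX n hn]
  have hGp : ∀ p : ℕ, p.Prime → G p = -χ p := fun p hp => by
    rw [hG p hp.ne_zero, moebius_apply_prime hp]; simp
  have := euler_le G (isMultiplicative_moebius.intCast.pmul hm)
    (fun p hp => by rw [hGp p hp, abs_neg]; exact h.abs_le p)
    (fun p k hp => by
      induction k with
      | zero => simp [hG, h.1]
      | succ k ih =>
        rcases k with _ | k
        · simp only [zero_add, sum_range_succ, range_one, sum_singleton, pow_zero, pow_one,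
            hGp p hp, hG 1 one_ne_zero, h.1]
          simp
          exact (abs_le.1 (h.abs_le p)).2
        · rw [sum_range_succ, hG _ (pow_ne_zero _ hp.ne_zero),
            moebius_apply_prime_pow hp (by omega), if_neg (by omega)]
          simpa using ih) ((1 + Q) / c)
    (fun z => by
      rcases Nat.eq_zero_or_pos z with rfl | hz
      · simp; positivity
      let G' : ArithmeticFunction ℝ := ⟨fun n => G n / n, by simp⟩
      let X' : ArithmeticFunction ℝ := ⟨fun n => χ n / n, by simp⟩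
      have h1 := sum_Ioc_mul_eq_sum_sum G' X' z
      have h2 : ∑ n ∈ Ioc 0 z, (G' * X') n = 1 := by
        have : ∀ n ∈ Ioc 0 z, (G' * X') n = if n = 1 then 1 else 0 := by
          intro n hn
          have hn0 := (mem_Ioc.1 hn).1.ne'
          have e : (G' * X') n = (χ n / n) * ((μ : ArithmeticFunction ℝ) * ζ) n := by
            simp only [mul_apply, mul_sum]
            refine sum_congr rfl fun x hx => ?_
            obtain ⟨h1, h2⟩ := Nat.mem_divisorsAntidiagonal.1 hx
            have h3 : x.2 ≠ 0 := by rintro h; simp [h] at h1; exact h2 h1.symm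
            have h4 : x.1 ≠ 0 := by rintro h; simp [h] at h1; exact h2 h1.symm
            simp only [G', X', coe_mk, hG _ h4, natCoe_apply, zeta_apply, h3, if_false, ← h1,
              h.2.1, intCoe_apply]
            push_cast
            field_simp
          rw [e, coe_moebius_mul_coe_zeta, one_apply]
          split_ifs with h1
          · simp [h1, h.1]
          · simp
        rw [sum_congr rfl this]
        simp
        omega
      rw [h2] at h1
      simp only [G', X', coe_mk] at h1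
      set N := max z N₀
      set SN := ∑ n ∈ Ioc 0 N, χ n / n
      have hSN : c ≤ SN := hN N (le_max_right _ _)
      have h3 : (∑ d ∈ Ioc 0 z, G d / d) * SN ≤ 1 + Q := by
        rw [h1, sum_mul]
        have : Q = ∑ d ∈ Ioc 0 z, Q / z := by
          simp; field_simp
        conv_rhs => rw [this, ← sum_add_distrib]
        refine sum_le_sum fun d hd => ?_
        rw [mem_Ioc] at hd
        have hd0 : (0 : ℝ) < d := by exact_mod_cast hd.1
        have hz0 : (0 : ℝ) < z := by exact_mod_cast hz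
        have e : SN = ∑ n ∈ Ioc 0 (z / d), χ n / n + ∑ n ∈ Ioc (z / d) N, χ n / n :=
          (sum_Ioc_consecutive _ (Nat.zero_le _)
            ((Nat.div_le_self _ _).trans (le_max_left _ _))).symm
        rw [e, mul_add, add_le_add_iff_left]
        have h4 := tail_le hQ (z / d) N
        have h5 : |G d / d| ≤ 1 / d := by
          rw [abs_div, abs_of_pos hd0, hG d hd.1.ne', abs_mul]
          gcongr
          refine mul_le_one₀ ?_ (abs_nonneg _) (h.abs_le d)
          exact_mod_cast abs_moebius_le_one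
        have h6 : (z : ℝ) / d ≤ ((z / d : ℕ) : ℝ) + 1 := by
          have := Nat.lt_floor_add_one ((z : ℝ) / d)
          rw [Nat.floor_div_eq_div] at this
          exact this.le
        calc _ ≤ |G d / d * ∑ n ∈ Ioc (z / d) N, χ n / n| := le_abs_self _
          _ ≤ 1 / d * (Q / (((z / d : ℕ) : ℝ) + 1)) := by
              rw [abs_mul]; gcongr
          _ ≤ 1 / d * (Q / ((z : ℝ) / d)) := by gcongr
          _ = Q / z := by field_simp
      rw [le_div_iff₀ hc]
      rcases le_total (∑ d ∈ Ioc 0 z, G d / d) 0 with h4 | h4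
      · nlinarith
      · nlinarith) y
  rwa [sum_congr rfl fun p hp => by rw [hGp p (Nat.mem_primesLE.1 hp).2, neg_div],
    sum_neg_distrib] at this

/-! ### Periodic characters -/

lemma abs_sum_range_le {χ : ℕ → ℝ} (h1 : ∀ n, |χ n| ≤ 1) {q : ℕ} (hq : 0 < q)
    (hper : ∀ n, χ (n + q) = χ n) (h0 : ∑ n ∈ range q, χ n = 0) (v : ℕ) :
    |∑ n ∈ range v, χ n| ≤ q := by
  have key : ∀ k r, ∑ n ∈ range (q * k + r), χ n = ∑ n ∈ range r, χ n := by
    intro k r
    induction k with
    | zero => simp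
    | succ k ih =>
      rw [show q * (k + 1) + r = q + (q * k + r) by ring, sum_range_add, h0, zero_add, ← ih]
      exact sum_congr rfl fun n _ => by rw [add_comm, hper]
  rw [← Nat.div_add_mod v q, key]
  calc _ ≤ ∑ n ∈ range (v % q), |χ n| := abs_sum_le_sum_abs _ _
    _ ≤ ∑ n ∈ range (v % q), (1 : ℝ) := sum_le_sum fun n _ => h1 n
    _ ≤ q := by simp; exact (Nat.mod_lt _ hq).le

lemma abs_sum_Ioc_le {χ : ℕ → ℝ} (h1 : ∀ n, |χ n| ≤ 1) {q : ℕ} (hq : 0 < q)
    (hper : ∀ n, χ (n + q) = χ n) (h0 : ∑ n ∈ range q, χ n = 0) (u v : ℕ) :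
    |∑ n ∈ Ioc u v, χ n| ≤ (2 * q : ℕ) := by
  rcases le_or_gt u v with h | h
  · have : ∑ n ∈ Ioc u v, χ n = ∑ n ∈ range (v + 1), χ n - ∑ n ∈ range (u + 1), χ n := by
      rw [← sum_Ico_eq_sub _ (by omega)]
      exact sum_congr (by ext; simp) fun _ _ => rfl
    rw [this]
    have h2 := abs_sum_range_le h1 hq hper h0 (v + 1)
    have h3 := abs_sum_range_le h1 hq hper h0 (u + 1)
    push_cast
    linarith [abs_sub (∑ n ∈ range (v + 1), χ n) (∑ n ∈ range (u + 1), χ n)]
  · rw [Ioc_eq_empty (by omega)]; simp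

lemma periodic_mod {χ : ℕ → ℝ} {q : ℕ} (hper : ∀ n, χ (n + q) = χ n) (n : ℕ) :
    χ (n % q) = χ n := by
  have : Function.Periodic χ q := hper
  exact this.map_mod_nat n

lemma sum_range_eq_zero {χ : ℕ → ℝ} (hm : ∀ m n, χ (m * n) = χ m * χ n) {q : ℕ} (hq : 0 < q)
    (hper : ∀ n, χ (n + q) = χ n) {n₀ : ℕ} (hc : n₀.Coprime q) (h0 : χ n₀ = -1) :
    ∑ n ∈ range q, χ n = 0 := by
  obtain ⟨q, rfl⟩ : ∃ k, q = k + 1 := ⟨q - 1, by omega⟩
  have h1 : ∑ n ∈ range (q + 1), χ n = ∑ x : ZMod (q + 1), χ x.val :=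
    (Fin.sum_univ_eq_sum_range χ (q + 1)).symm
  have h2 := Equiv.sum_comp (ZMod.unitOfCoprime n₀ hc).mulLeft fun x : ZMod (q + 1) => χ x.val
  have h3 : ∀ x : ZMod (q + 1), χ ((ZMod.unitOfCoprime n₀ hc).mulLeft x).val = -χ x.val := by
    intro x
    simp only [Units.mulLeft_apply, ZMod.coe_unitOfCoprime, ZMod.val_mul, ZMod.val_natCast]
    rw [periodic_mod hper, hm, periodic_mod hper, h0]; ring
  simp only [h3, sum_neg_distrib] at h2
  linarith

/-- Characters of period 24. -/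
def IsCh24 (κ : ℕ → ℝ) : Prop := IsCh κ ∧ ∀ n, κ (n + 24) = κ n

lemma isCh_jac (a : ℕ) : IsCh fun n => (J((n : ℤ) | a) : ℝ) := by
  refine ⟨by simp, fun m n => by simp [jacobiSym.mul_left], fun n => ?_⟩
  rcases jacobiSym.trichotomy n a with h | h | h <;> simp [h]

lemma jac_twist_interval {κ : ℕ → ℝ} (hκ : IsCh24 κ) {l a : ℕ} (hl : l.Prime) (hl3 : 3 < l)
    (ha : 0 < a) (hla : ¬l ∣ a) (u v : ℕ) :
    |∑ n ∈ Ioc u v, (J((n : ℤ) | l * a) : ℝ) * κ n| ≤ (2 * (24 * (l * a)) : ℕ) := by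
  have hch := (isCh_jac (l * a)).mul hκ.1
  have hper : ∀ n : ℕ, (J(((n + 24 * (l * a) : ℕ) : ℤ) | l * a) : ℝ) * κ (n + 24 * (l * a)) =
      (J((n : ℤ) | l * a) : ℝ) * κ n := by
    intro n
    congr 1
    · congr 1
      apply jacobiSym.mod_left'
      push_cast
      simp
    · have : Function.Periodic κ 24 := hκ.2
      have := this.nat_mul (l * a) n
      simpa [mul_comm] using this
  have : Fact l.Prime := ⟨hl⟩
  obtain ⟨r, hr⟩ := FiniteField.exists_nonsquare (F := ZMod l)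
    (by rw [ZMod.ringChar_zmod_n]; omega)
  have hco : l.Coprime (24 * a) := by
    rw [Nat.Prime.coprime_iff_not_dvd hl]
    intro h
    rcases (Nat.Prime.dvd_mul hl).1 h with h | h
    · have h2 : l ∣ 2 ^ 3 * 3 := h
      rcases (Nat.Prime.dvd_mul hl).1 h2 with h | h
      · have := Nat.le_of_dvd two_pos (hl.dvd_of_dvd_pow h); omega
      · have := Nat.le_of_dvd (by norm_num) h; omega
    · exact hla h
  obtain ⟨n₀, h1, h2⟩ := Nat.chineseRemainder hco r.val 1
  have hJ1 : J((n₀ : ℤ) | l) = -1 := by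
    rw [ZMod.nonsquare_iff_jacobiSym_eq_neg_one]
    have : ((n₀ : ℤ) : ZMod l) = r := by
      rw [Int.cast_natCast, (ZMod.natCast_eq_natCast_iff _ _ _).2 h1, ZMod.natCast_zmod_val]
    rwa [this]
  have hJ2 : J((n₀ : ℤ) | a) = 1 := by
    rw [← jacobiSym.one_left a]
    apply jacobiSym.mod_left'
    exact_mod_cast (h2.of_mul_left 24)
  have hκ0 : κ n₀ = 1 := by
    rw [← periodic_mod hκ.2, (h2.of_mul_right a : n₀ % 24 = 1 % 24)]
    exact hκ.1.1
  refine abs_sum_Ioc_le hch.abs_le (by have := hl.pos; positivity) hper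
    (sum_range_eq_zero hch.2.1 (by have := hl.pos; positivity) hper (n₀ := n₀) ?_ ?_) u v
  · rw [show 24 * (l * a) = l * (24 * a) by ring]
    apply Nat.Coprime.mul_right
    · rw [Nat.coprime_comm, hl.coprime_iff_not_dvd]
      intro h
      rw [jacobiSym.mod_left, Int.emod_eq_zero_of_dvd (by exact_mod_cast h),
        jacobiSym.zero_left hl.one_lt] at hJ1
      norm_num at hJ1
    · exact Nat.coprime_of_mul_modEq_one 1 (by simpa using h2)
  · rw [jacobiSym.mul_right' _ hl.ne_zero ha.ne', hJ1, hJ2, hκ0]; norm_num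

end Pool.Agent.Lib.MP_788af2_nt
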