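import Pool.Agent.Lib.MP_788af2_nt.Sieve
import Pool.Agent.Lib.MP_788af2_nt.Local

/-!
Local densities of linear and quadratic forms.
-/

namespace Pool.Agent.Lib.MP_788af2_nt

open Finset Real
open scoped NumberTheorySymbols

lemma mean_mono {q : ℕ} {f g : ℤ → ℤ → ℝ} (h : ∀ m n, f m n ≤ g m n) : mean q f ≤ mean q g :=
  div_le_div_of_nonneg_right (sum_le_sum fun _ _ => sum_le_sum fun _ _ => h _ _) (by positivity)

lemma mean_add (q : ℕ) (f g : ℤ → ℤ → ℝ) :
    mean q (fun m n => f m n + g m n) = mean q f + mean q g := by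
  simp only [mean, sum_add_distrib, add_div]

lemma mean_smul (q : ℕ) (c : ℝ) (f : ℤ → ℤ → ℝ) :
    mean q (fun m n => c * f m n) = c * mean q f := by
  simp only [mean, ← mul_sum, mul_div_assoc]

lemma mean_sum {κ : Type} (q : ℕ) (S : Finset κ) (f : κ → ℤ → ℤ → ℝ) :
    mean q (fun m n => ∑ k ∈ S, f k m n) = ∑ k ∈ S, mean q (f k) := by
  simp only [mean, ← sum_div]
  congr 1
  rw [sum_comm (s := S)]
  exact sum_congr rfl fun i _ => sum_comm

lemma mean_swap (q : ℕ) (f : ℤ → ℤ → ℝ) : mean q (fun m n => f n m) = mean q f := by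
  simp only [mean]; rw [sum_comm]

lemma mean_near {q : ℕ} {f g h : ℤ → ℤ → ℝ} (H : ∀ m n, |f m n - g m n| ≤ h m n) :
    |mean q f - mean q g| ≤ mean q h := by
  have h1 := mean_mono (q := q) (f := f) (g := fun m n => g m n + h m n)
    fun m n => by linarith [abs_le.1 (H m n)]
  have h2 := mean_mono (q := q) (f := g) (g := fun m n => f m n + h m n)
    fun m n => by linarith [abs_le.1 (H m n)]
  rw [mean_add] at h1 h2
  rw [abs_le]; constructor <;> linarith

lemma sum_range_zmod (q : ℕ) [NeZero q] (g : ZMod q → ℝ) :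
    ∑ i ∈ range q, g ((i : ℤ) : ZMod q) = ∑ x, g x := by
  obtain ⟨q, rfl⟩ : ∃ k, q = k + 1 := ⟨q - 1, by have := NeZero.pos q; omega⟩
  rw [← Fin.sum_univ_eq_sum_range (fun i : ℕ => g ((i : ℤ) : ZMod (q + 1)))]
  exact sum_congr rfl fun x _ => by
    congr 1; rw [Int.cast_natCast]; exact ZMod.natCast_zmod_val (n := q + 1) x

lemma sum_lin {q : ℕ} (hq : 0 < q) {u : ℤ} (hu : IsCoprime u q) (h : ℤ) :
    ∑ j ∈ range q, (if (q : ℤ) ∣ u * j + h then (1 : ℝ) else 0) = 1 := by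
  have : NeZero q := ⟨hq.ne'⟩
  obtain ⟨v, w, hvw⟩ := hu
  have h1 : (v : ZMod q) * u = 1 := by
    have := congrArg (Int.cast : ℤ → ZMod q) hvw
    simpa using this
  have := sum_range_zmod q fun x => if x = -(v * h) then (1 : ℝ) else 0
  rw [sum_ite_eq', if_pos (mem_univ _)] at this
  refine Eq.trans (sum_congr rfl fun j _ => if_congr ?_ rfl rfl) this
  rw [← ZMod.intCast_zmod_eq_zero_iff_dvd]
  push_cast
  constructor
  · intro h2; linear_combination v * h2 - j * h1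
  · intro h2; linear_combination u * h2 - h * h1

lemma cop_of_not_dvd {p : ℕ} (hp : p.Prime) {u : ℤ} (hu : ¬(p : ℤ) ∣ u) : IsCoprime u p :=
  ((Nat.prime_iff_prime_int.1 hp).irreducible.coprime_iff_not_dvd.2 hu).symm

lemma mean_origin {p : ℕ} (hp : 0 < p) :
    mean p (fun m n => if (p : ℤ) ∣ m ∧ (p : ℤ) ∣ n then 1 else 0) = 1 / p ^ 2 := by
  have h := sum_lin hp isCoprime_one_left 0
  simp only [one_mul, add_zero] at h
  simp only [mean, ite_and]
  congr 1
  refine Eq.trans (sum_congr rfl fun i _ => ?_) h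
  split_ifs
  · exact h
  · simp

lemma mean_origin_sq {p : ℕ} (hp : 0 < p) :
    mean (p ^ 2) (fun m n => if (p : ℤ) ∣ m ∧ (p : ℤ) ∣ n then 1 else 0) = 1 / p ^ 2 := by
  have h : ∑ j ∈ range (p ^ 2), (if (p : ℤ) ∣ j then (1 : ℝ) else 0) = p := by
    simp only [Int.natCast_dvd_natCast, sum_boole]
    have h2 := Nat.count_modEq_card (p ^ 2) hp 0
    rw [Nat.count_eq_card_filter_range] at h2
    simp only [Nat.modEq_zero_iff_dvd] at h2
    rw [h2]
    simp [sq, Nat.mul_div_cancel _ hp]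
  have hp' : (0 : ℝ) < p := by exact_mod_cast hp
  simp only [mean, ite_and]
  rw [sum_congr rfl (g := fun i : ℕ => (if (p : ℤ) ∣ i then (1 : ℝ) else 0) * p) fun i _ => by
    split_ifs
    · rw [h, one_mul]
    · simp]
  rw [← sum_mul, h]
  push_cast; field_simp

/-- Forms that are linear in the second variable. -/
lemma mean_linear {q : ℕ} (hq : 0 < q) {u : ℤ} (hu : IsCoprime u q) (h : ℤ → ℤ) (φ : ℤ → ℝ) :
    mean q (fun m n => if (q : ℤ) ∣ u * n + h m then φ m else 0) =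
      (∑ i ∈ range q, φ i) / q ^ 2 := by
  simp only [mean]
  congr 1
  refine sum_congr rfl fun i _ => ?_
  refine Eq.trans ?_ ((congrArg (φ i * ·) (sum_lin hq hu (h i))).trans (mul_one _))
  rw [mul_sum]
  exact sum_congr rfl fun j _ => by split_ifs <;> simp

lemma sum_jac_one {p : ℕ} (hp : p.Prime) (h2 : 2 < p) {v : ℤ} (hv : ¬(p : ℤ) ∣ v) :
    ∑ i ∈ range p, (if J(v * i | p) = 1 then (1 : ℝ) else 0) = (p - 1) / 2 := by
  have : Fact p.Prime := ⟨hp⟩
  have h1 : ∑ i ∈ range p, (J((i : ℤ) | p) : ℝ) = 0 := by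
    have := sum_range_zmod p fun x => (quadraticChar (ZMod p) x : ℝ)
    simp only [← jacobiSym.legendreSym.to_jacobiSym, legendreSym]
    rw [this]
    exact_mod_cast quadraticChar_sum_zero (by rw [ZMod.ringChar_zmod_n]; omega)
  have h3 := sum_lin hp.pos (cop_of_not_dvd hp hv) 0
  have h4 : ∀ i ∈ range p, (if J(v * i | p) = 1 then (1 : ℝ) else 0) =
      1 / 2 + (J(v | p) : ℝ) / 2 * J((i : ℤ) | p) -
        1 / 2 * if (p : ℤ) ∣ v * i + 0 then 1 else 0 := by
    intro i _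
    rw [div_mul_eq_mul_div, ← Int.cast_mul, ← jacobiSym.mul_left, add_zero]
    by_cases h : (p : ℤ) ∣ v * i
    · have := jac_add_dvd (u := 0) h
      rw [zero_add, jacobiSym.zero_left hp.one_lt] at this
      simp [this, h]
    · rcases jac_unit h with h5 | h5 <;> simp [h, h5] <;> norm_num
  rw [sum_congr rfl h4]
  simp only [sum_sub_distrib, sum_add_distrib, ← mul_sum, h1, h3]
  simp; ring

lemma mean_quad {p : ℕ} (hp : p.Prime) (h2 : 2 < p) {a b c : ℤ} (ha : ¬(p : ℤ) ∣ a) :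
    p * mean p (fun m n => if (p : ℤ) ∣ a * m ^ 2 + b * m * n + c * n ^ 2 then 1 else 0) =
      1 + J(b ^ 2 - 4 * a * c | p) - J(b ^ 2 - 4 * a * c | p) / p := by
  have : Fact p.Prime := ⟨hp⟩
  have hp' : (0 : ℝ) < p := by exact_mod_cast hp.pos
  have ha' : (2 * a : ZMod p) ≠ 0 := by
    refine mul_ne_zero ?_ fun h => ha ((ZMod.intCast_zmod_eq_zero_iff_dvd _ _).1 h)
    intro h
    have := (ZMod.natCast_eq_zero_iff 2 p).1 (by exact_mod_cast h)
    have := Nat.le_of_dvd two_pos this; omega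
  have h1 : ∀ n : ℤ, ∑ i ∈ range p,
      (if (p : ℤ) ∣ a * i ^ 2 + b * i * n + c * n ^ 2 then (1 : ℝ) else 0) =
      1 + J(b ^ 2 - 4 * a * c | p) - J(b ^ 2 - 4 * a * c | p) *
        if (p : ℤ) ∣ 1 * n + 0 then 1 else 0 := by
    intro n
    have e1 := sum_range_zmod p fun x => if (2 * a * x + b * n) ^ 2 =
      (((b ^ 2 - 4 * a * c) * n ^ 2 : ℤ) : ZMod p) then (1 : ℝ) else 0
    have e2 := Equiv.sum_comp ((Equiv.mulLeft₀ _ ha').trans (Equiv.addRight (b * n : ZMod p)))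
      fun x => if x ^ 2 = (((b ^ 2 - 4 * a * c) * n ^ 2 : ℤ) : ZMod p) then (1 : ℝ) else 0
    have e3 := legendreSym.card_sqrts p (by omega) ((b ^ 2 - 4 * a * c) * n ^ 2)
    have e4 : ∑ i ∈ range p,
        (if (p : ℤ) ∣ a * i ^ 2 + b * i * n + c * n ^ 2 then (1 : ℝ) else 0) =
        (J((b ^ 2 - 4 * a * c) * n ^ 2 | p) : ℝ) + 1 := by
      rw [jacobiSym.legendreSym.to_jacobiSym] at e3
      rw [← Int.cast_one, ← Int.cast_add, ← e3, Int.cast_natCast, Set.toFinset_ofPred, card_filter]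
      push_cast at e1 e2 ⊢
      rw [← e2]
      refine Eq.trans (sum_congr rfl fun i _ => if_congr ?_ rfl rfl) e1
      rw [← ZMod.intCast_zmod_eq_zero_iff_dvd]
      push_cast
      constructor
      · intro h; linear_combination 4 * a * h
      · intro h
        refine mul_left_cancel₀ (mul_ne_zero ha' ha') ?_
        linear_combination a * h
    rw [e4, one_mul, add_zero]
    split_ifs with h
    · have := jac_add_dvd (u := 0) ((dvd_pow h two_ne_zero).mul_left (b ^ 2 - 4 * a * c))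
      rw [zero_add, jacobiSym.zero_left hp.one_lt] at this
      rw [this]; simp
    · rw [jacobiSym.mul_left, jacobiSym.pow_left]
      rcases jac_unit h with h5 | h5 <;> rw [h5] <;> simp [add_comm]
  simp only [mean]
  rw [sum_comm]
  simp only [h1, sum_sub_distrib, ← mul_sum, sum_lin hp.pos isCoprime_one_left 0]
  simp; field_simp

lemma mean_quad_sq {p : ℕ} (hp : p.Prime) {a b c : ℤ} (ha : ¬(p : ℤ) ∣ 2 * a)
    (hD : ¬(p : ℤ) ∣ b ^ 2 - 4 * a * c) :
    mean (p ^ 2) (fun m n => if (p : ℤ) ^ 2 ∣ a * m ^ 2 + b * m * n + c * n ^ 2 ∧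
      ¬((p : ℤ) ∣ m ∧ (p : ℤ) ∣ n) then 1 else 0) ≤ 2 / p ^ 2 := by
  have hp' : (0 : ℝ) < p := by exact_mod_cast hp.pos
  have hpp := Nat.prime_iff_prime_int.1 hp
  have h1 : ∀ n : ℤ, ∑ i ∈ range (p ^ 2), (if (p : ℤ) ^ 2 ∣ a * i ^ 2 + b * i * n + c * n ^ 2 ∧
      ¬((p : ℤ) ∣ i ∧ (p : ℤ) ∣ n) then (1 : ℝ) else 0) ≤ 2 := by
    intro n
    by_cases hex : ∃ i : ℤ, (p : ℤ) ^ 2 ∣ a * i ^ 2 + b * i * n + c * n ^ 2 ∧
      ¬((p : ℤ) ∣ i ∧ (p : ℤ) ∣ n)
    · obtain ⟨k, hk1, hk2⟩ := hex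
      have e1 := sum_lin (pow_pos hp.pos 2) isCoprime_one_left (-k)
      have e2 := sum_lin (pow_pos hp.pos 2) (u := a) (by
        push_cast
        exact (cop_of_not_dvd hp fun h => ha (h.mul_left 2)).pow_right) (a * k + b * n)
      refine le_trans ?_ (le_of_eq ((congrArg₂ (· + ·) e1 e2).trans one_add_one_eq_two))
      rw [← sum_add_distrib]
      refine sum_le_sum fun i _ => ?_
      push_cast
      by_cases hi : (p : ℤ) ^ 2 ∣ a * i ^ 2 + b * i * n + c * n ^ 2 ∧ ¬((p : ℤ) ∣ i ∧ (p : ℤ) ∣ n)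
      · have e3 : (p : ℤ) ^ 2 ∣ (1 * i + -k) * (a * i + (a * k + b * n)) :=
          (dvd_sub hi.1 hk1).trans (dvd_of_eq (by ring))
        have e4 : (p : ℤ) ^ 2 ∣ 1 * i + -k ∨ (p : ℤ) ^ 2 ∣ a * i + (a * k + b * n) := by
          by_cases e5 : (p : ℤ) ∣ 1 * i + -k
          · left
            refine hpp.pow_dvd_of_dvd_mul_right 2 (fun e6 => hk2 ?_) e3
            have e7 : (p : ℤ) ∣ 2 * a * k + b * n :=
              (dvd_sub e6 (e5.mul_left a)).trans (dvd_of_eq (by ring))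
            have e8 : (p : ℤ) ∣ (b ^ 2 - 4 * a * c) * n ^ 2 :=
              (dvd_sub (dvd_pow e7 two_ne_zero) (((dvd_pow_self _ two_ne_zero).trans
                hk1).mul_left (4 * a))).trans (dvd_of_eq (by ring))
            have e9 := hpp.dvd_of_dvd_pow ((hpp.dvd_or_dvd e8).resolve_left hD)
            exact ⟨(hpp.dvd_or_dvd ((dvd_add_left (e9.mul_left b)).1 e7)).resolve_left ha, e9⟩
          · exact Or.inr (hpp.pow_dvd_of_dvd_mul_left 2 e5 e3)
        rw [if_pos hi]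
        rcases e4 with e4 | e4 <;> rw [if_pos e4] <;> split_ifs <;> norm_num
      · rw [if_neg hi]
        split_ifs <;> norm_num
    · exact (sum_eq_zero fun (i : ℕ) _ => if_neg fun h => hex ⟨i, h⟩).trans_le zero_le_two
  simp only [mean]
  rw [sum_comm, div_le_iff₀ (by push_cast; positivity)]
  refine (sum_le_card_nsmul _ _ _ fun (j : ℕ) _ => h1 j).trans (le_of_eq ?_)
  simp; field_simp

end Pool.Agent.Lib.MP_788af2_nt
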