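import Mathlib

/-!
Basic facts on the curves `y^2 = x^3 + a x^2 + b x + c` over the rationals:
collinearity description of the group law, affine changes of variables, the 2-isogeny.
-/

namespace Pool.Agent.Lib.MP_788af2_nt

open WeierstrassCurve WeierstrassCurve.Affine

/-- The curve `y^2 = x^3 + a x^2 + b x + c`. -/
abbrev cv (a b c : ℚ) : WeierstrassCurve.Affine ℚ := ⟨0, a, 0, b, c⟩

lemma nonsing_iff (a b c x y : ℚ) :
    (cv a b c).Nonsingular x y ↔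
      y ^ 2 = x ^ 3 + a * x ^ 2 + b * x + c ∧ (3 * x ^ 2 + 2 * a * x + b ≠ 0 ∨ y ≠ 0) := by
  rw [nonsingular_iff, equation_iff]
  simp only [zero_mul, add_zero, sub_zero]
  constructor
  · rintro ⟨h1, h2⟩
    refine ⟨h1, ?_⟩
    rcases h2 with h2 | h2
    · exact Or.inl (fun h => h2 h.symm)
    · exact Or.inr (fun h => h2 (by simp [h]))
  · rintro ⟨h1, h2⟩
    refine ⟨h1, ?_⟩
    rcases h2 with h2 | h2
    · exact Or.inl (fun h => h2 h.symm)
    · exact Or.inr (fun h => h2 (by linarith))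

/-- Three points on the line `y = l x + n` cut out by the cubic. -/
def Col (a b c x₁ y₁ x₂ y₂ x₃ y₃ l n : ℚ) : Prop :=
  y₁ = l * x₁ + n ∧ y₂ = l * x₂ + n ∧ y₃ = l * x₃ + n ∧
    l ^ 2 - a = x₁ + x₂ + x₃ ∧ b - 2 * l * n = x₁ * x₂ + x₁ * x₃ + x₂ * x₃ ∧
    n ^ 2 - c = x₁ * x₂ * x₃

lemma sum_eq_zero_of_col {a b c x₁ y₁ x₂ y₂ x₃ y₃ l n : ℚ}
    (h₁ : (cv a b c).Nonsingular x₁ y₁) (h₂ : (cv a b c).Nonsingular x₂ y₂)
    (h₃ : (cv a b c).Nonsingular x₃ y₃) (h : Col a b c x₁ y₁ x₂ y₂ x₃ y₃ l n) :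
    Point.some x₁ y₁ h₁ + Point.some x₂ y₂ h₂ + Point.some x₃ y₃ h₃ = 0 := by
  obtain ⟨e1, e2, e3, e4, e5, e6⟩ := h
  have hs : ¬(x₁ = x₂ ∧ y₁ = (cv a b c).negY x₂ y₂) ∧ (cv a b c).slope x₁ x₂ y₁ y₂ = l := by
    by_cases hx : x₁ = x₂
    · subst hx
      have hy : y₂ = y₁ := by rw [e1, e2]
      subst hy
      have hd : 3 * x₁ ^ 2 + 2 * a * x₁ + b = 2 * l * y₂ := by
        linear_combination (-2 * x₁) * e4 + e5 - 2 * l * e1
      have hy0 : y₂ ≠ 0 := by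
        rcases ((nonsing_iff ..).1 h₁).2 with h | h
        · intro h0; apply h; rw [hd, h0]; ring
        · exact h
      have hne : y₂ ≠ (cv a b c).negY x₁ y₂ := by
        simp only [negY, zero_mul, sub_zero]
        intro h; apply hy0; linarith
      refine ⟨fun h => hne h.2, ?_⟩
      rw [slope_of_Y_ne rfl hne]
      simp only [negY, zero_mul, sub_zero]
      field_simp
      linear_combination hd
    · refine ⟨fun h => hx h.1, ?_⟩
      rw [slope_of_X_ne hx]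
      have : x₁ - x₂ ≠ 0 := sub_ne_zero.2 hx
      field_simp
      linear_combination e1 - e2
  rw [Point.add_some hs.1]
  apply Point.add_of_Y_eq
  · rw [hs.2]; simp only [addX, zero_mul, add_zero]; linear_combination e4
  · rw [hs.2]; simp only [addY, negAddY, negY, addX, zero_mul, add_zero, sub_zero]
    linear_combination (-l) * e4 - e1 + e3

lemma col_of_sum_eq_zero {a b c x₁ y₁ x₂ y₂ x₃ y₃ : ℚ}
    (h₁ : (cv a b c).Nonsingular x₁ y₁) (h₂ : (cv a b c).Nonsingular x₂ y₂)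
    (h₃ : (cv a b c).Nonsingular x₃ y₃)
    (h : Point.some x₁ y₁ h₁ + Point.some x₂ y₂ h₂ + Point.some x₃ y₃ h₃ = 0) :
    ∃ l n, Col a b c x₁ y₁ x₂ y₂ x₃ y₃ l n := by
  have q1 := ((nonsing_iff ..).1 h₁).1
  have q2 := ((nonsing_iff ..).1 h₂).1
  by_cases hxy : x₁ = x₂ ∧ y₁ = (cv a b c).negY x₂ y₂
  · rw [Point.add_of_Y_eq hxy.1 hxy.2, zero_add] at h
    exact absurd h (Point.some_ne_zero _)
  rw [Point.add_some hxy, add_eq_zero_iff_eq_neg, Point.neg_some, Point.some.injEq] at h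
  obtain ⟨hx3, hy3⟩ := h
  simp only [addY, negAddY, negY, addX, zero_mul, add_zero, sub_zero, neg_inj] at hx3 hy3
  set l := (cv a b c).slope x₁ x₂ y₁ y₂ with hl
  refine ⟨l, y₁ - l * x₁, ?_⟩
  by_cases hx : x₁ = x₂
  · subst hx
    have hne : y₁ ≠ (cv a b c).negY x₁ y₂ := fun h => hxy ⟨rfl, h⟩
    have hy : y₁ = y₂ := Y_eq_of_Y_ne h₁.1 h₂.1 rfl hne
    subst hy
    rw [slope_of_Y_ne rfl hne] at hl
    simp only [negY, zero_mul, sub_zero] at hl hne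
    have hy0 : y₁ ≠ 0 := by intro h; apply hne; simp [h]
    have hd : 3 * x₁ ^ 2 + 2 * a * x₁ + b = 2 * l * y₁ := by
      rw [hl]; field_simp; ring
    refine ⟨by ring, by ring, ?_, ?_, ?_, ?_⟩
    · linear_combination (-1) * hy3 + l * hx3
    · linear_combination hx3
    · linear_combination hd + 2 * x₁ * hx3
    · linear_combination q1 + x₁ * hd + x₁ ^ 2 * hx3
  · rw [slope_of_X_ne hx] at hl
    have hx' : x₁ - x₂ ≠ 0 := sub_ne_zero.2 hx
    have hd : y₂ = y₁ - l * (x₁ - x₂) := by rw [hl]; field_simp; ring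
    have hk : b - 2 * l * (y₁ - l * x₁) = x₁ * x₂ + (x₁ + x₂) * (l ^ 2 - a - x₁ - x₂) := by
      apply mul_left_cancel₀ hx'
      rw [hd] at q2
      linear_combination q2 - q1
    refine ⟨by ring, ?_, ?_, ?_, ?_, ?_⟩
    · linear_combination hd
    · linear_combination (-1) * hy3 + l * hx3
    · linear_combination hx3
    · linear_combination hk + (x₁ + x₂) * hx3
    · linear_combination q1 + x₁ * hk + x₁ * x₂ * hx3

/-- A map of commutative groups respecting zero-sum triples is a homomorphism. -/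
def homOfTriple {G H : Type*} [AddCommGroup G] [AddCommGroup H] (f : G → H) (h0 : f 0 = 0)
    (h : ∀ P Q R, P + Q + R = 0 → f P + f Q + f R = 0) : G →+ H where
  toFun := f
  map_zero' := h0
  map_add' P Q := by
    have h1 := h (P + Q) (-(P + Q)) 0 (by abel)
    have h2 := h P Q (-(P + Q)) (by abel)
    rw [h0, add_zero] at h1
    have : f (P + Q) = -f (-(P + Q)) := eq_neg_of_add_eq_zero_left h1
    rw [this]
    exact (eq_neg_of_add_eq_zero_left h2).symm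

@[simp] lemma homOfTriple_apply {G H : Type*} [AddCommGroup G] [AddCommGroup H] (f : G → H)
    (h0 : f 0 = 0) (h : ∀ P Q R, P + Q + R = 0 → f P + f Q + f R = 0) (P : G) :
    homOfTriple f h0 h P = f P := rfl

/-- Induction principle for zero-sum triples of points. -/
lemma triple_cases {a b c : ℚ} (p : (cv a b c).Point → (cv a b c).Point → (cv a b c).Point → Prop)
    (hs1 : ∀ P Q R, p P Q R → p Q P R) (hs2 : ∀ P Q R, p P Q R → p P R Q)
    (h0 : ∀ P, p P (-P) 0)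
    (hc : ∀ x₁ y₁ x₂ y₂ x₃ y₃ l n h₁ h₂ h₃, Col a b c x₁ y₁ x₂ y₂ x₃ y₃ l n →
      p (Point.some x₁ y₁ h₁) (Point.some x₂ y₂ h₂) (Point.some x₃ y₃ h₃)) :
    ∀ P Q R, P + Q + R = 0 → p P Q R := by
  intro P Q R h
  rcases R with _ | ⟨x₃, y₃, h₃⟩
  · rw [← Point.zero_def] at h ⊢
    rw [add_zero] at h
    rw [eq_neg_of_add_eq_zero_right h]
    exact h0 P
  rcases Q with _ | ⟨x₂, y₂, h₂⟩
  · rw [← Point.zero_def] at h ⊢
    rw [add_zero] at h
    rw [eq_neg_of_add_eq_zero_right h]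
    exact hs2 _ _ _ (h0 P)
  rcases P with _ | ⟨x₁, y₁, h₁⟩
  · rw [← Point.zero_def] at h ⊢
    rw [zero_add] at h
    rw [eq_neg_of_add_eq_zero_right h]
    exact hs1 _ _ _ (hs2 _ _ _ (h0 _))
  obtain ⟨l, n, hl⟩ := col_of_sum_eq_zero h₁ h₂ h₃ h
  exact hc _ _ _ _ _ _ l n h₁ h₂ h₃ hl

lemma Col.swap12 {a b c x₁ y₁ x₂ y₂ x₃ y₃ l n : ℚ} (h : Col a b c x₁ y₁ x₂ y₂ x₃ y₃ l n) :
    Col a b c x₂ y₂ x₁ y₁ x₃ y₃ l n := by
  obtain ⟨e1, e2, e3, e4, e5, e6⟩ := h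
  exact ⟨e2, e1, e3, by linear_combination e4, by linear_combination e5,
    by linear_combination e6⟩

lemma Col.swap23 {a b c x₁ y₁ x₂ y₂ x₃ y₃ l n : ℚ} (h : Col a b c x₁ y₁ x₂ y₂ x₃ y₃ l n) :
    Col a b c x₁ y₁ x₃ y₃ x₂ y₂ l n := by
  obtain ⟨e1, e2, e3, e4, e5, e6⟩ := h
  exact ⟨e1, e3, e2, by linear_combination e4, by linear_combination e5,
    by linear_combination e6⟩

/-! ### Affine changes of variables -/

section change

variable {a b c a' b' c' u r : ℚ}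

lemma nonsing_change (hu : u ≠ 0) (ha : a' = u ^ 2 * (a + 3 * r))
    (hb : b' = u ^ 4 * (b + 2 * a * r + 3 * r ^ 2))
    (hc : c' = u ^ 6 * (c + b * r + a * r ^ 2 + r ^ 3)) {x y : ℚ}
    (h : (cv a b c).Nonsingular x y) :
    (cv a' b' c').Nonsingular (u ^ 2 * (x - r)) (u ^ 3 * y) := by
  rw [nonsing_iff] at h ⊢
  obtain ⟨h1, h2⟩ := h
  subst ha hb hc
  refine ⟨by linear_combination u ^ 6 * h1, ?_⟩
  rcases h2 with h2 | h2
  · left
    have : 3 * (u ^ 2 * (x - r)) ^ 2 + 2 * (u ^ 2 * (a + 3 * r)) * (u ^ 2 * (x - r)) +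
        u ^ 4 * (b + 2 * a * r + 3 * r ^ 2) = u ^ 4 * (3 * x ^ 2 + 2 * a * x + b) := by ring
    rw [this]
    exact mul_ne_zero (pow_ne_zero _ hu) h2
  · right
    exact mul_ne_zero (pow_ne_zero _ hu) h2

/-- The point map `(x, y) ↦ (u^2 (x - r), u^3 y)`. -/
def changeFun (hu : u ≠ 0) (ha : a' = u ^ 2 * (a + 3 * r))
    (hb : b' = u ^ 4 * (b + 2 * a * r + 3 * r ^ 2))
    (hc : c' = u ^ 6 * (c + b * r + a * r ^ 2 + r ^ 3)) :
    (cv a b c).Point → (cv a' b' c').Point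
  | .zero => 0
  | .some x y h => .some (u ^ 2 * (x - r)) (u ^ 3 * y) (nonsing_change hu ha hb hc h)

lemma exists_change' (hu : u ≠ 0) (ha : a' = u ^ 2 * (a + 3 * r))
    (hb : b' = u ^ 4 * (b + 2 * a * r + 3 * r ^ 2))
    (hc : c' = u ^ 6 * (c + b * r + a * r ^ 2 + r ^ 3)) :
    ∃ f : (cv a b c).Point →+ (cv a' b' c').Point, Function.Injective f ∧ ∀ x y h,
      f (.some x y h) = .some (u ^ 2 * (x - r)) (u ^ 3 * y) (nonsing_change hu ha hb hc h) := by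
  refine ⟨homOfTriple (changeFun hu ha hb hc) rfl ?_, ?_, fun _ _ _ => rfl⟩
  · apply triple_cases
    · intro P Q R h; rw [← h]; abel
    · intro P Q R h; rw [← h]; abel
    · intro P
      rcases P with _ | ⟨x, y, h⟩
      · rfl
      · rw [Point.neg_some]
        show Point.some _ _ _ + Point.some _ _ _ + 0 = 0
        rw [add_zero]
        apply Point.add_of_Y_eq rfl
        simp [negY]
    · intro x₁ y₁ x₂ y₂ x₃ y₃ l n h₁ h₂ h₃ h
      obtain ⟨e1, e2, e3, e4, e5, e6⟩ := h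
      apply sum_eq_zero_of_col (l := u * l) (n := u ^ 3 * (n + l * r))
      subst ha hb hc
      refine ⟨by linear_combination u ^ 3 * e1, by linear_combination u ^ 3 * e2,
        by linear_combination u ^ 3 * e3, by linear_combination u ^ 2 * e4,
        by linear_combination u ^ 4 * e5 - 2 * u ^ 4 * r * e4,
        by linear_combination u ^ 6 * e6 - u ^ 6 * r * e5 + u ^ 6 * r ^ 2 * e4⟩
  · rw [injective_iff_map_eq_zero]
    intro P hP
    rcases P with _ | ⟨x, y, h⟩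
    · rfl
    · exact absurd hP (Point.some_ne_zero _)

lemma exists_change (hu : u ≠ 0) (ha : a' = u ^ 2 * (a + 3 * r))
    (hb : b' = u ^ 4 * (b + 2 * a * r + 3 * r ^ 2))
    (hc : c' = u ^ 6 * (c + b * r + a * r ^ 2 + r ^ 3)) :
    ∃ f : (cv a b c).Point →+ (cv a' b' c').Point, Function.Injective f :=
  (exists_change' hu ha hb hc).imp fun _ h => h.1

end change

/-! ### The 2-isogeny -/

section isog

variable {a b : ℚ}

lemma nonsing_of_disc {a b c x y : ℚ} (hΔ : (cv a b c).Δ ≠ 0)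
    (h : y ^ 2 = x ^ 3 + a * x ^ 2 + b * x + c) : (cv a b c).Nonsingular x y := by
  rw [← equation_iff_nonsingular_of_Δ_ne_zero hΔ, equation_iff]
  simpa using h

lemma disc_cv (a b c : ℚ) : (cv a b c).Δ =
    16 * (a ^ 2 * b ^ 2 - 4 * b ^ 3 - 4 * a ^ 3 * c - 27 * c ^ 2 + 18 * a * b * c) := by
  simp only [Δ, b₂, b₄, b₆, b₈]; ring

lemma disc_isog (hb : b ≠ 0) (hd : a ^ 2 - 4 * b ≠ 0) :
    (cv (-2 * a) (a ^ 2 - 4 * b) 0).Δ ≠ 0 := by
  rw [disc_cv]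
  have : 16 * ((-2 * a) ^ 2 * (a ^ 2 - 4 * b) ^ 2 - 4 * (a ^ 2 - 4 * b) ^ 3 -
      4 * (-2 * a) ^ 3 * 0 - 27 * 0 ^ 2 + 18 * (-2 * a) * (a ^ 2 - 4 * b) * 0) =
      256 * b * (a ^ 2 - 4 * b) ^ 2 := by ring
  rw [this]; positivity

lemma nonsing_isog (hb : b ≠ 0) (hd : a ^ 2 - 4 * b ≠ 0) {x y : ℚ}
    (h : (cv a b 0).Nonsingular x y) (hx : x ≠ 0) :
    (cv (-2 * a) (a ^ 2 - 4 * b) 0).Nonsingular (x + a + b / x) (y * (b / x ^ 2 - 1)) := by
  apply nonsing_of_disc (disc_isog hb hd)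
  have h1 := ((nonsing_iff ..).1 h).1
  field_simp
  linear_combination (b - x ^ 2) ^ 2 * h1

open Classical in
/-- The 2-isogeny with kernel generated by `(0,0)`. -/
noncomputable def isogFun (hb : b ≠ 0) (hd : a ^ 2 - 4 * b ≠ 0) :
    (cv a b 0).Point → (cv (-2 * a) (a ^ 2 - 4 * b) 0).Point
  | .zero => 0
  | .some x y h => if hx : x = 0 then 0 else
      .some (x + a + b / x) (y * (b / x ^ 2 - 1)) (nonsing_isog hb hd h hx)

lemma isogFun_some (hb : b ≠ 0) (hd : a ^ 2 - 4 * b ≠ 0) {x y : ℚ}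
    (h : (cv a b 0).Nonsingular x y) (hx : x ≠ 0) :
    isogFun hb hd (.some x y h) =
      .some (x + a + b / x) (y * (b / x ^ 2 - 1)) (nonsing_isog hb hd h hx) := by
  simp [isogFun, hx]

lemma isogFun_zero (hb : b ≠ 0) (hd : a ^ 2 - 4 * b ≠ 0) {y : ℚ}
    (h : (cv a b 0).Nonsingular 0 y) : isogFun hb hd (.some 0 y h) = 0 := by
  simp [isogFun]

lemma isog_col_T (hb : b ≠ 0) (hd : a ^ 2 - 4 * b ≠ 0) {x₁ y₁ x₂ y₂ y₃ l n : ℚ}
    (h₁ : (cv a b 0).Nonsingular x₁ y₁) (h₂ : (cv a b 0).Nonsingular x₂ y₂)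
    (h₃ : (cv a b 0).Nonsingular 0 y₃) (h : Col a b 0 x₁ y₁ x₂ y₂ 0 y₃ l n) :
    isogFun hb hd (.some x₁ y₁ h₁) + isogFun hb hd (.some x₂ y₂ h₂) +
      isogFun hb hd (.some 0 y₃ h₃) = 0 := by
  obtain ⟨e1, e2, e3, e4, e5, e6⟩ := h
  have hn : n = 0 := by
    have : n ^ 2 = 0 := by linear_combination e6
    exact pow_eq_zero_iff two_ne_zero |>.1 this
  subst hn
  have hb' : b = x₁ * x₂ := by linear_combination e5
  have hx1 : x₁ ≠ 0 := by rintro rfl; exact hb (by simpa using hb')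
  have hx2 : x₂ ≠ 0 := by rintro rfl; exact hb (by simpa using hb')
  rw [isogFun_zero, add_zero, isogFun_some hb hd h₁ hx1, isogFun_some hb hd h₂ hx2]
  apply Point.add_of_Y_eq
  · rw [hb']; field_simp; ring
  · simp only [negY, zero_mul, sub_zero]
    rw [hb', e1, e2]; field_simp; ring

lemma exists_isog (hb : b ≠ 0) (hd : a ^ 2 - 4 * b ≠ 0) :
    ∃ f : (cv a b 0).Point →+ (cv (-2 * a) (a ^ 2 - 4 * b) 0).Point,
      ∀ P, f P = 0 → 2 • P = 0 := by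
  refine ⟨homOfTriple (isogFun hb hd) rfl ?_, ?_⟩
  · apply triple_cases
    · intro P Q R h; rw [← h]; abel
    · intro P Q R h; rw [← h]; abel
    · intro P
      rcases P with _ | ⟨x, y, h⟩
      · rfl
      · rw [Point.neg_some]
        by_cases hx : x = 0
        · subst hx
          rw [isogFun_zero, isogFun_zero]; rfl
        · rw [isogFun_some hb hd _ hx, isogFun_some hb hd _ hx]
          show Point.some _ _ _ + Point.some _ _ _ + 0 = 0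
          rw [add_zero]
          apply Point.add_of_Y_eq rfl
          simp [negY]
    · intro x₁ y₁ x₂ y₂ x₃ y₃ l n h₁ h₂ h₃ h
      by_cases hx3 : x₃ = 0
      · subst hx3; exact isog_col_T hb hd h₁ h₂ h₃ h
      by_cases hx2 : x₂ = 0
      · subst hx2
        rw [← isog_col_T hb hd h₁ h₃ h₂ h.swap23]; abel
      by_cases hx1 : x₁ = 0
      · subst hx1
        rw [← isog_col_T hb hd h₂ h₃ h₁ h.swap12.swap23]; abel
      rw [isogFun_some hb hd h₁ hx1, isogFun_some hb hd h₂ hx2, isogFun_some hb hd h₃ hx3]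
      obtain ⟨e1, e2, e3, e4, e5, e6⟩ := h
      have hn : n ≠ 0 := by
        rintro rfl
        have : x₁ * x₂ * x₃ = 0 := by linear_combination -e6
        exact mul_ne_zero (mul_ne_zero hx1 hx2) hx3 this
      have q1 := ((nonsing_iff ..).1 h₁).1
      have q2 := ((nonsing_iff ..).1 h₂).1
      have q3 := ((nonsing_iff ..).1 h₃).1
      apply sum_eq_zero_of_col (l := -(n * l - b) / n)
        (n := -(n ^ 2 - a * n * l + b * l ^ 2) / n)
      have key : ∀ x y : ℚ, x ≠ 0 → y = l * x + n → y ^ 2 = x ^ 3 + a * x ^ 2 + b * x + 0 →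
          y * (b / x ^ 2 - 1) = -(n * l - b) / n * (x + a + b / x) +
            -(n ^ 2 - a * n * l + b * l ^ 2) / n := by
        intro x y hx hy hq
        subst hy
        field_simp
        linear_combination b * hq
      have ha : a = l ^ 2 - x₁ - x₂ - x₃ := by linear_combination -e4
      have hb2 : b = 2 * l * n + (x₁ * x₂ + x₁ * x₃ + x₂ * x₃) := by linear_combination e5
      have hn2 : n ^ 2 = x₁ * x₂ * x₃ := by linear_combination e6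
      refine ⟨key _ _ hx1 e1 q1, key _ _ hx2 e2 q2, key _ _ hx3 e3 q3, ?_, ?_, ?_⟩
      · rw [ha, hb2]
        linear_combination (norm := (field_simp; ring1))
          ((-2 * l * n * x₁ * x₂ - 2 * l * n * x₁ * x₃ - 2 * l * n * x₂ * x₃ - 2 * x₁ * x₂ * x₃ ^ 2 - 2 * x₁ * x₂ ^ 2 * x₃ - 2 * x₁ ^ 2 * x₂ * x₃ - x₁ ^ 2 * x₂ ^ 2 - x₁ ^ 2 * x₃ ^ 2 - x₂ ^ 2 * x₃ ^ 2) / (n ^ 2 * x₁ * x₂ * x₃)) * hn2
      · rw [ha, hb2]
        linear_combination (norm := (field_simp; ring1))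
          ((-6 * l * n * x₁ * x₂ * x₃ - 2 * l * n * x₁ * x₂ ^ 2 - 2 * l * n * x₁ * x₃ ^ 2 - 2 * l * n * x₁ ^ 2 * x₂ - 2 * l * n * x₁ ^ 2 * x₃ - 2 * l * n * x₂ * x₃ ^ 2 - 2 * l * n * x₂ ^ 2 * x₃ - 4 * l ^ 2 * n ^ 2 * x₁ - 4 * l ^ 2 * n ^ 2 * x₂ - 4 * l ^ 2 * n ^ 2 * x₃ - 4 * l ^ 2 * x₁ * x₂ * x₃ ^ 2 - 4 * l ^ 2 * x₁ * x₂ ^ 2 * x₃ - 4 * l ^ 2 * x₁ ^ 2 * x₂ * x₃ - 2 * l ^ 2 * x₁ ^ 2 * x₂ ^ 2 - 2 * l ^ 2 * x₁ ^ 2 * x₃ ^ 2 - 2 * l ^ 2 * x₂ ^ 2 * x₃ ^ 2 - 4 * l ^ 3 * n * x₁ * x₂ - 4 * l ^ 3 * n * x₁ * x₃ - 4 * l ^ 3 * n * x₂ * x₃) / (n ^ 2 * x₁ * x₂ * x₃)) * hn2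
      · rw [ha, hb2]
        linear_combination (norm := (field_simp; ring1))
          ((-4 * l ^ 2 * n ^ 2 * x₁ * x₂ - 4 * l ^ 2 * n ^ 2 * x₁ * x₃ - 4 * l ^ 2 * n ^ 2 * x₂ * x₃ - 6 * l ^ 3 * n * x₁ * x₂ * x₃ - 2 * l ^ 3 * n * x₁ * x₂ ^ 2 - 2 * l ^ 3 * n * x₁ * x₃ ^ 2 - 2 * l ^ 3 * n * x₁ ^ 2 * x₂ - 2 * l ^ 3 * n * x₁ ^ 2 * x₃ - 2 * l ^ 3 * n * x₂ * x₃ ^ 2 - 2 * l ^ 3 * n * x₂ ^ 2 * x₃ - 8 * l ^ 3 * n ^ 3 - 4 * l ^ 4 * n ^ 2 * x₁ - 4 * l ^ 4 * n ^ 2 * x₂ - 4 * l ^ 4 * n ^ 2 * x₃ - 2 * l ^ 4 * x₁ * x₂ * x₃ ^ 2 - 2 * l ^ 4 * x₁ * x₂ ^ 2 * x₃ - 2 * l ^ 4 * x₁ ^ 2 * x₂ * x₃ - l ^ 4 * x₁ ^ 2 * x₂ ^ 2 - l ^ 4 * x₁ ^ 2 * x₃ ^ 2 - l ^ 4 * x₂ ^ 2 * x₃ ^ 2 - 2 * l ^ 5 * n * x₁ * x₂ - 2 * l ^ 5 * n * x₁ * x₃ - 2 * l ^ 5 * n * x₂ * x₃ + n ^ 2 * x₁ * x₂ * x₃) / (n ^ 2 * x₁ * x₂ * x₃)) * hn2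
  · intro P hP
    rcases P with _ | ⟨x, y, h⟩
    · rfl
    · by_cases hx : x = 0
      · subst hx
        have h1 := ((nonsing_iff ..).1 h).1
        have hy : y = 0 := by
          have : y ^ 2 = 0 := by linear_combination h1
          exact pow_eq_zero_iff two_ne_zero |>.1 this
        subst hy
        rw [two_nsmul]
        apply Point.add_of_Y_eq rfl
        simp [negY]
      · have hP' : isogFun hb hd (.some x y h) = 0 := hP
        rw [isogFun_some hb hd h hx] at hP'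
        exact absurd hP' (Point.some_ne_zero _)

end isog

end Pool.Agent.Lib.MP_788af2_nt
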