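import Pool.Agent.Lib.MP_788af2_nt.Total
import Pool.Agent.Lib.MP_788af2_nt.Defs

/-!
Expansion of the number of solutions of the local conditions into character sums.
-/

namespace Pool.Agent.Lib.MP_788af2_nt

open Finset Real
open scoped NumberTheorySymbols

variable {ι : Type} [Fintype ι] [DecidableEq ι]

lemma pushforward {X Y : Type} [Fintype X] [Fintype Y] [DecidableEq Y] (φ : X → Y)
    (g : ι → X → ℝ) (G : (ι → Y) → ℝ) :
    ∑ t : ι → X, (∏ p, g p (t p)) * G (fun p => φ (t p)) =
      ∑ τ : ι → Y, (∏ p, ∑ x with φ x = τ p, g p x) * G τ := by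
  classical
  rw [← sum_fiberwise univ fun (t : ι → X) p => φ (t p)]
  refine sum_congr rfl fun τ _ => ?_
  rw [prod_univ_sum, sum_mul]
  refine sum_congr ?_ fun t ht => ?_
  · ext t; simp [funext_iff]
  · congr 2
    funext p
    simpa using Fintype.mem_piFinset.1 ht p

/-- The variables. -/
abbrev Vr : Type := Option (Fin 3 × Bool × Bool)

/-- The weights of the variables. -/
noncomputable def wv (hw : Option (Fin 3 × Bool) → ℕ → ℝ) : Vr → ℕ → ℝ
  | none => hw none
  | some (i, j, k) => fun m =>
      (hw (some (i, false)) m + (if j && k then -1 else 1) * hw (some (i, true)) m) / 2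

/-- The links between variables. -/
def PhiV : Vr → Vr → Bool
  | some (i, j, _), some (i', _, k') => decide (i ≠ i') && j && k'
  | _, _ => false

lemma PhiV_irr (v : Vr) : PhiV v v = false := by
  rcases v with _ | ⟨i, j, k⟩ <;> simp [PhiV]

@[simp] lemma ty_none : St.ty none = none := rfl
@[simp] lemma ty_neut : St.ty (some none) = none := rfl
@[simp] lemma ty_cond (i : Fin 3) (b : Bool) : St.ty (some (some (i, b))) = some i := rfl

/-- The types met by `S`. -/
def tyS (σ : ι → St) (S : Finset ι) : Finset (Fin 3) :=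
  univ.filter fun i => ∃ p ∈ S, St.ty (σ p) = some i

/-- The types with a non-trivial unknown. -/
def tyA (A : Finset Vr) : Finset (Fin 3) := univ.filter fun i => ∃ k, some (i, true, k) ∈ A

open Classical in
/-- The number of solutions with a condition on the types met. -/
noncomputable def cnt (q : ι → ℕ) (σ : ι → St) (Q : Finset (Fin 3) → Prop) : ℕ :=
  (univ.filter fun S : Finset ι => (∀ p, okAt q σ S p) ∧ Q (tyS σ S)).card

/-- The variable attached to a state and two bits. -/
def piV : St × Bool × Bool → Option Vr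
  | (none, _, _) => none
  | (some none, _, _) => some none
  | (some (some (i, _)), j, k) => some (some (i, j, k))

/-- The coefficient attached to a state and two bits. -/
noncomputable def coV : St × Bool × Bool → ℝ
  | (some (some (_, b)), j, k) => (if b && j && k then -1 else 1) / 2
  | (_, j, k) => if j || k then 0 else 1

open Classical in
theorem expand {q : ι → ℕ} (hq : ∀ p, (q p).Prime) (hinj : Function.Injective q)
    (hw : Option (Fin 3 × Bool) → ℕ → ℝ) (Q : Finset (Fin 3) → Prop) :
    ∑ σ : ι → St, wt q hw σ * cnt q σ Q =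
      ∑ τ : ι → Option Vr, if Q (tyA (supp τ)) then wt q (wv hw) τ * sg q PhiV τ else 0 := by
  have h1 := pushforward piV
    (fun (p : ι) (x : St × Bool × Bool) => (x.1.elim 1 fun s => hw s (q p)) * coV x)
    fun τ : ι → Option Vr => if Q (tyA (supp τ)) then sg q PhiV τ else 0
  have h2 : ∀ (p : ι) (y : Option Vr), ∑ x with piV x = y,
      (x.1.elim 1 fun s => hw s (q p)) * coV x = y.elim 1 fun v => wv hw v (q p) := by
    intro p y
    rw [sum_filter]
    simp only [Fintype.sum_prod_type, Fintype.sum_option, Fintype.sum_bool]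
    rcases y with _ | _ | ⟨i, j, k⟩
    · simp [piV, coV]
    · simp [piV, coV, wv]
    · cases j <;> cases k <;> simp [piV, coV, wv, sum_add_distrib] <;> ring
  simp only [h2] at h1
  have h3 : ∑ τ : ι → Option Vr, (if Q (tyA (supp τ)) then wt q (wv hw) τ * sg q PhiV τ else 0) =
      ∑ τ : ι → Option Vr, (∏ p, (τ p).elim 1 fun v => wv hw v (q p)) *
        if Q (tyA (supp τ)) then sg q PhiV τ else 0 :=
    sum_congr rfl fun τ _ => by rw [wt]; split_ifs <;> simp
  rw [h3, ← h1, ← (Equiv.arrowProdEquivProdArrow ι (fun _ => St) fun _ => Bool × Bool).symm.sum_comp,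
    Fintype.sum_prod_type]
  refine sum_congr rfl fun σ _ => ?_
  rw [← (Equiv.arrowProdEquivProdArrow ι (fun _ => Bool) fun _ => Bool).symm.sum_comp,
    Fintype.sum_prod_type, cnt, card_filter, Nat.cast_sum, mul_sum]
  symm
  refine sum_bij' (fun j _ => univ.filter fun p => j p = true) (fun S _ p => decide (p ∈ S))
    (fun _ _ => mem_univ _) (fun _ _ => mem_univ _) (fun j _ => by funext p; simp)
    (fun S _ => by ext p; simp) fun j _ => ?_
  simp only [Equiv.arrowProdEquivProdArrow_symm_apply]
  set S := univ.filter fun p => j p = true with hS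
  have hmem : ∀ p, p ∈ S ↔ j p = true := fun p => by simp [hS]
  by_cases hj : ∀ p, j p = true → ∃ i b, σ p = some (some (i, b))
  swap
  · push Not at hj
    obtain ⟨p, hp, hσ⟩ := hj
    rw [if_neg, sum_eq_zero]
    · simp
    · intro k _
      rw [prod_eq_zero (mem_univ p), zero_mul]
      rcases h5 : σ p with _ | _ | ⟨i, b⟩
      · simp [coV, hp]
      · simp [coV, hp]
      · exact absurd h5 (hσ i b)
    · intro h
      have := h.1 p
      unfold okAt at this
      rcases h5 : σ p with _ | _ | ⟨i, b⟩
      · rw [h5] at this; exact this ((hmem p).2 hp)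
      · rw [h5] at this; exact this ((hmem p).2 hp)
      · exact absurd h5 (hσ i b)
  have hty : ∀ k : ι → Bool, tyA (supp fun p => piV (σ p, j p, k p)) = tyS σ S := by
    intro k
    ext i
    simp only [tyA, supp, tyS, mem_filter, mem_univ, true_and, hmem]
    constructor
    · rintro ⟨k', p, hp⟩
      refine ⟨p, ?_⟩
      rcases h5 : σ p with _ | _ | ⟨i', b⟩ <;> simp_all [piV]
    · rintro ⟨p, hp, hp'⟩
      refine ⟨k p, p, ?_⟩
      rcases h5 : σ p with _ | _ | ⟨i', b⟩ <;> simp_all [piV]
  let Jp : ι → ℝ := fun p => (St.ty (σ p)).elim 1 fun i => (J((dd q σ S i : ℤ) | q p) : ℝ)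
  have hsg : ∀ k : ι → Bool, sg q PhiV (fun p => piV (σ p, j p, k p)) =
      ∏ p, if k p then Jp p else 1 := by
    intro k
    rw [sg, prod_comm]
    refine prod_congr rfl fun p' _ => ?_
    rcases h5 : σ p' with _ | _ | ⟨i', b'⟩
    · simp [piV, Jp, h5]
    · simp only [piV, Jp, h5, ty_neut, Option.elim, ite_self]
      refine prod_eq_one fun p _ => ?_
      rcases σ p with _ | _ | ⟨i, b⟩ <;> simp [tm_ss, PhiV]
    · have e := jac_pp hq (S.filter fun p => St.ty (σ p) ≠ some i') {p'}
      simp only [prod_singleton, pp] at e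
      simp only [Jp, h5, ty_cond, Option.elim, dd]
      rw [e]
      split_ifs with hk
      · rw [hS, filter_filter, prod_filter]
        refine prod_congr rfl fun p _ => ?_
        have := hj p
        rcases h6 : σ p with _ | _ | ⟨i, b⟩
        · simp_all [piV]
        · simp_all [piV, tm_ss, PhiV]
        · simp [piV, tm_ss, PhiV, hk, and_comm]
      · refine prod_eq_one fun p _ => ?_
        rcases σ p with _ | _ | ⟨i, b⟩ <;> simp [piV, tm_ss, PhiV, hk]
  simp only [hty, hsg]
  by_cases hQ : Q (tyS σ S)
  swap
  · simp [hQ]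
  simp only [hQ, if_true, and_true, ← prod_mul_distrib]
  rw [← Fintype.piFinset_univ, ← prod_univ_sum (fun _ => univ) fun p (k : Bool) =>
    ((σ p).elim 1 fun s => hw s (q p)) * coV (σ p, j p, k) * if k then Jp p else 1]
  have hok : ∀ p, ∑ k : Bool, ((σ p).elim 1 fun s => hw s (q p)) * coV (σ p, j p, k) *
      (if k then Jp p else 1) =
      ((σ p).elim 1 fun s => hw s (q p)) * if okAt q σ S p then 1 else 0 := by
    intro p
    simp only [mul_assoc, ← mul_sum]
    congr 1
    unfold okAt
    have h6 := hj p
    rcases h5 : σ p with _ | _ | ⟨i, b⟩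
    · simp_all [coV]
    · simp_all [coV]
    · have hc : (dd q σ S i : ℤ).gcd (q p) = 1 := by
        rw [Int.gcd_natCast_natCast, Nat.gcd_comm]
        apply ((hq p).coprime_iff_not_dvd).2
        rw [dd, Prime.dvd_finsetProd_iff (hq p).prime]
        rintro ⟨p', hp', h⟩
        have := hinj ((Nat.prime_dvd_prime_iff_eq (hq p) (hq p')).1 h)
        subst this
        exact (mem_filter.1 hp').2 (by rw [h5]; rfl)
      simp only [Fintype.sum_bool, coV, Jp, h5, ty_cond, Option.elim, hmem]
      rcases jacobiSym.eq_one_or_neg_one hc with h | h <;> cases b <;> cases j p <;>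
        simp [h] <;> norm_num
  simp only [hok, prod_mul_distrib, prod_boole, wt, mem_univ, forall_const]
  split_ifs <;> simp

end Pool.Agent.Lib.MP_788af2_nt
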