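import Pool.Agent.Lib.MP_788af2_nt.Assembly

/-!
Auxiliary lemmas for the concrete families.
-/

namespace Pool.Agent.Lib.MP_788af2_nt

open Finset Polynomial
open scoped NumberTheorySymbols

lemma cert {p₀ p : ℕ} (hp : p.Prime) (h0 : p₀ < p) {m n x y : ℤ} (hx : (p : ℤ) ∣ x)
    (hy : (p : ℤ) ∣ y) (R : ℤ) (i j : ℕ) (U W U' W' : ℤ) (hR : R ≠ 0 ∧ R.natAbs ≤ p₀)
    (e1 : R * m ^ i = U * x + W * y) (e2 : R * n ^ j = U' * x + W' * y) :
    (p : ℤ) ∣ m ∧ (p : ℤ) ∣ n := by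
  have hpp := Nat.prime_iff_prime_int.1 hp
  have h1 := not_dvd_small h0 hR.1 hR.2
  exact ⟨hpp.dvd_of_dvd_pow ((hpp.dvd_or_dvd (e1 ▸ (hx.mul_left U).add (hy.mul_left W))).resolve_left
    h1), hpp.dvd_of_dvd_pow ((hpp.dvd_or_dvd
      (e2 ▸ (hx.mul_left U').add (hy.mul_left W'))).resolve_left h1)⟩

lemma jac_of {p : ℕ} (hp : p.Prime) {G F : ℤ} (d w V : ℤ) (hF : (p : ℤ) ∣ F)
    (e : G = d * w ^ 2 + V * F) (hw : ¬(p : ℤ) ∣ w) : J(G | p) = J(d | p) := by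
  have : Fact p.Prime := ⟨hp⟩
  rw [e, jac_add_dvd (hF.mul_left V), jacobiSym.mul_left, jacobiSym.pow_left]
  rcases jac_unit hw with h | h <;> simp [h]

lemma jac_of' {p : ℕ} (hp : p.Prime) {G F : ℤ} (x V : ℤ) (hF : (p : ℤ) ∣ F)
    (e : G = x + V * F) : J(G | p) = J(x | p) := by
  have : Fact p.Prime := ⟨hp⟩
  rw [e, jac_add_dvd (hF.mul_left V)]

variable {p₀ : ℕ}

lemma hm_zero (f : ℕ → ℝ) : HasMean p₀ (fun p => 0 * f p) 0 := by simpa using HasMean.zero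

lemma hm_sq (h3 : 3 ≤ p₀) {d : ℤ} (hd : d.natAbs ∣ 6) : HasMean p₀ (fun p => jc d p * jc d p) 1 :=
  HasMean.one.near (K := 0) fun p hp h => by
    have : Fact p.Prime := ⟨hp⟩
    have h4 : J(d | p) = 1 ∨ J(d | p) = -1 := jac_unit fun h => by
      have h5 := (Int.natCast_dvd.1 h).trans hd
      rcases (Nat.Prime.dvd_mul hp).1 (show p ∣ 2 * 3 from h5) with h | h <;>
        have := Nat.le_of_dvd (by norm_num) h <;> omega
    rw [jc_prime d hp (by omega)]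
    rcases h4 with h | h <;> simp [h]

lemma hm_one (h3 : 3 ≤ p₀) : HasMean p₀ (jc 1) 1 :=
  HasMean.one.near (K := 0) fun p hp h => by simp [jc_prime 1 hp (by omega)]

lemma hm_jc (h3 : 3 ≤ p₀) {d : ℤ} (hd : d.natAbs ∣ 6) (n : ℕ) (hn : n.Coprime 24)
    (h : J(d | n) = -1) : HasMean p₀ (jc d) 0 :=
  HasMean.ch (isCh24_jc hd) h3 hn (by
    rw [jc, if_pos (Nat.coprime_two_right.1 (hn.coprime_dvd_right (by norm_num))), h]; simp)

lemma hm_jc2 (h3 : 3 ≤ p₀) {d d' : ℤ} (hd : d.natAbs ∣ 6) (hd' : d'.natAbs ∣ 6) (n : ℕ)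
    (hn : n.Coprime 24) (h : J(d | n) * J(d' | n) = -1) :
    HasMean p₀ (fun p => jc d p * jc d' p) 0 :=
  HasMean.ch ((isCh24_jc hd).mul (isCh24_jc hd')) h3 hn (by
    have := Nat.coprime_two_right.1 (hn.coprime_dvd_right (by norm_num))
    simp only [jc, if_pos this]; exact_mod_cast h)

/-- A binary form given by its coefficients. -/
def hf : List ℤ → ℤ → ℤ → ℤ
  | [], _, _ => 0
  | c :: cs, m, n => c * n ^ cs.length + m * hf cs m n

lemma hf_le {T m n : ℤ} (hm : |m| ≤ T) (hn : |n| ≤ T) (cs : List ℤ) :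
    T * |hf cs m n| ≤ (cs.map abs).sum * T ^ cs.length := by
  have hT := (abs_nonneg m).trans hm
  induction cs with
  | nil => simp [hf]
  | cons c cs ih =>
    have h1 : |hf (c :: cs) m n| ≤ |c| * T ^ cs.length + T * |hf cs m n| := by
      refine (abs_add_le _ _).trans ?_
      rw [abs_mul, abs_mul, abs_pow]; gcongr
    rw [List.map_cons, List.sum_cons, List.length_cons, pow_succ', mul_left_comm]
    exact mul_le_mul_of_nonneg_left (by linarith) hT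

lemma hf_le' {T m n C : ℤ} (hT : 0 < T) (hm : |m| ≤ T) (hn : |n| ≤ T) {cs : List ℤ} {k : ℕ}
    (h : cs.length = k + 1 ∧ (cs.map abs).sum ≤ C) : |hf cs m n| ≤ C * T ^ k := by
  have := hf_le hm hn cs
  rw [h.1, pow_succ', mul_left_comm] at this
  exact (le_of_mul_le_mul_left this hT).trans (by gcongr; exact h.2)

lemma p1_aux {M N : ℤ → ℤ → ℤ} {d R C : ℕ} (l : ℕ) (cM cN U W U' W' : List ℤ) (hd : 0 < d)
    (hR : 0 < R) (C' : ℕ) (hC : 2 * C' ≤ C) (hM : ∀ m n, M m n = hf cM m n)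
    (hN : ∀ m n, N m n = hf cN m n)
    (h1 : cM.length = d + 1 ∧ (cM.map abs).sum ≤ C) (h2 : cN.length = d + 1 ∧ (cN.map abs).sum ≤ C)
    (h3 : U.length = l + 1 ∧ (U.map abs).sum ≤ C') (h4 : W.length = l + 1 ∧ (W.map abs).sum ≤ C')
    (h5 : U'.length = l + 1 ∧ (U'.map abs).sum ≤ C')
    (h6 : W'.length = l + 1 ∧ (W'.map abs).sum ≤ C') (hC' : 0 < C')
    (e1 : ∀ m n, hf U m n * M m n + hf W m n * N m n = R * m ^ (d + l))
    (e2 : ∀ m n, hf U' m n * M m n + hf W' m n * N m n = R * n ^ (d + l)) :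
    (∀ m n, IsCoprime m n → ∃ U W, U * M m n + W * N m n = R) ∧
    (∀ T m n : ℤ, 1 ≤ T → |M m n| ≤ T ^ d → |N m n| ≤ T ^ d →
      |m| ≤ C * T ∧ |n| ≤ (C * T) ^ 1) ∧
    ∀ T m n : ℤ, 1 ≤ T → |m| ≤ T → |n| ≤ T ^ 1 → |M m n| ≤ C * T ^ d ∧ |N m n| ≤ C * T ^ d := by
  refine ⟨fun m n h => ?_, fun T m n hT g1 g2 => ?_, fun T m n hT g1 g2 => ?_⟩
  · obtain ⟨x, y, hxy⟩ := h.pow (m := d + l) (n := d + l)
    exact ⟨x * hf U m n + y * hf U' m n, x * hf W m n + y * hf W' m n, by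
      linear_combination x * e1 m n + y * e2 m n + R * hxy⟩
  · rw [pow_one, ← max_le_iff]
    set S := max |m| |n| with hS
    rcases (le_max_of_le_left (abs_nonneg m) : 0 ≤ S).eq_or_lt with h0 | h0
    · exact h0.symm.trans_le (by positivity)
    have key : ∀ (z : ℤ) (U W : List ℤ), U.length = l + 1 ∧ (U.map abs).sum ≤ C' →
        W.length = l + 1 ∧ (W.map abs).sum ≤ C' →
        hf U m n * M m n + hf W m n * N m n = R * z ^ (d + l) → |z| = S → S ≤ C * T := by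
      intro z U W a1 a2 a3 a4
      have b1 := hf_le' h0 (le_max_left _ _) (le_max_right _ _) a1
      have b2 := hf_le' h0 (le_max_left _ _) (le_max_right _ _) a2
      have b3 : S ^ l * S ^ d ≤ S ^ l * (C * T) ^ d := by
        calc S ^ l * S ^ d ≤ R * (S ^ l * S ^ d) :=
              le_mul_of_one_le_left (by positivity) (by exact_mod_cast hR)
          _ = |hf U m n * M m n + hf W m n * N m n| := by
              rw [a3, abs_mul, abs_pow, a4, Nat.abs_cast]; ring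
          _ ≤ C' * S ^ l * T ^ d + C' * S ^ l * T ^ d := by
              refine (abs_add_le _ _).trans ?_
              rw [abs_mul, abs_mul]; gcongr
          _ = S ^ l * ((2 * C' : ℕ) * T ^ d) := by push_cast; ring
          _ ≤ S ^ l * (C ^ d * T ^ d) := by
              gcongr
              exact_mod_cast hC.trans (Nat.le_self_pow hd.ne' C)
          _ = _ := by ring
      exact le_of_pow_le_pow_left₀ hd.ne' (by positivity)
        (le_of_mul_le_mul_left b3 (by positivity))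
    rcases max_choice |m| |n| with h | h
    · exact key m U W h3 h4 (e1 m n) h.symm
    · exact key n U' W' h5 h6 (e2 m n) h.symm
  · rw [pow_one] at g2
    rw [hM, hN]
    exact ⟨hf_le' (by omega) g1 g2 h1, hf_le' (by omega) g1 g2 h2⟩

lemma up_of_theta {cy : Bool} {M N : ℤ → ℤ → ℤ} {pM pN : ℚ[X]} (d : ℕ)
    (hM : ∀ m n : ℤ, 0 < m → (M m n : ℚ) = m ^ (2 * d) * pM.eval (n / m ^ 1 : ℚ))
    (hN : ∀ m n : ℤ, 0 < m → (N m n : ℚ) = m ^ (2 * d) * pN.eval (n / m ^ 1 : ℚ))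
    {A B a b : ℚ} (hA : A = b - a ^ 2 / 3) (hB : B = 2 * a ^ 3 / 27 - a * b / 3) (t k x y : ℚ)
    (hx : k ^ 2 * pM.eval t = x) (hy : k ^ 2 * pN.eval t = y)
    (ha : aa cy x y = a) (hb : bb cy x y = b) :
    ∃ (m n : ℤ) (k : ℚ), (IsCoprime m n ∨ k = 1) ∧ A = AA cy (k ^ 2 * M m n) (k ^ 2 * N m n) ∧
      B = BB cy (k ^ 2 * M m n) (k ^ 2 * N m n) := by
  have h0 : (0 : ℤ) < t.den := by exact_mod_cast t.den_pos
  have h1 : (t.den : ℚ) ≠ 0 := by exact_mod_cast t.den_nz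
  refine ⟨t.den, t.num, k / t.den ^ d,
    Or.inl (IsCoprime.symm (Int.isCoprime_iff_gcd_eq_one.2 t.reduced)), ?_⟩
  rw [hM _ _ h0, hN _ _ h0]
  simp only [Int.cast_natCast, pow_one, Rat.num_div_den]
  have : ∀ z : ℚ, (k / t.den ^ d) ^ 2 * (t.den ^ (2 * d) * z) = k ^ 2 * z := fun z => by
    field_simp; ring
  rw [this, this, hx, hy, AA, BB, ha, hb]
  exact ⟨hA, hB⟩

lemma nondeg_ab {A B : ℤ} {a b : ℚ} (h : 4 * A ^ 3 + 27 * B ^ 2 ≠ 0) (hA : A = b - a ^ 2 / 3)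
    (hB : B = 2 * a ^ 3 / 27 - a * b / 3) : b ≠ 0 ∧ a ^ 2 - 4 * b ≠ 0 := by
  have h1 : 4 * (A : ℚ) ^ 3 + 27 * B ^ 2 ≠ 0 := by exact_mod_cast h
  rw [hA, hB] at h1
  exact ⟨fun h2 => h1 (by rw [h2]; ring), fun h2 => h1 (by linear_combination -b ^ 2 * h2)⟩

section group

variable {G : Type} [AddCommGroup G] {P Q : G} {k : ℕ}

lemma sub_two (h : ∀ i j : ℕ, i • P + j • Q = 0 ↔ 2 ∣ i ∧ 2 * k ∣ j) :
    2 • P = 0 ∧ P ≠ 0 ∧ P ≠ k • Q := by
  refine ⟨by simpa using (h 2 0).2 (by simp), fun h0 => ?_, fun h0 => ?_⟩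
  · simpa using (h 1 0).1 (by simp [h0])
  · have := (h 0 (k + k)).2 (by simp [two_mul])
    rw [zero_smul, zero_add, add_nsmul] at this
    simpa using ((h 1 k).1 (by rwa [one_smul, h0])).1

lemma sub_three {m : ℕ} (hk : 0 < k) (h : ∀ i j : ℕ, i • P + j • Q = 0 ↔ m ∣ i ∧ 3 * k ∣ j) :
    3 • k • Q = 0 ∧ k • Q ≠ 0 := by
  refine ⟨by simpa [mul_nsmul'] using (h 0 (3 * k)).2 (by simp), fun h0 => ?_⟩
  have := Nat.le_of_dvd hk ((h 0 k).1 (by simp [h0])).2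
  omega

end group

lemma up24 {a b t s r : ℚ} (ha : a = t ^ 2 - 2 * s) (hb : b = s ^ 2) (hd : a ^ 2 - 4 * b ≠ 0)
    (h0 : r ≠ 0) (hr : r ^ 2 + a * r + b = 0) :
    ∃ x y, x ≠ 0 ∧ t = -(x + y) ∧ s = x * y := by
  subst ha hb
  have ht : t ≠ 0 := by rintro rfl; exact hd (by ring)
  have h1 : ((r - s) / t) ^ 2 = -r := by field_simp; linear_combination hr
  refine ⟨(r - s) / t, -t - (r - s) / t, fun h => h0 ?_, by ring, ?_⟩
  · rw [h] at h1; linear_combination h1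
  · rw [mul_sub, ← sq, h1]; field_simp; ring

end Pool.Agent.Lib.MP_788af2_nt
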