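import Pool.Agent.Lib.MP_788af2_nt.FamAux

/-!
Local data of the family with torsion label 12.
-/

namespace Pool.Agent.Lib.MP_788af2_nt

open Finset

/-- First root difference. -/
abbrev M12 (m n : ℤ) : ℤ := 16 * n ^ 2 * m ^ 6

/-- Second root difference. -/
abbrev N12 (m n : ℤ) : ℤ := (m ^ 2 + n ^ 2) ^ 3 * (3 * m ^ 2 - n ^ 2)

lemma form12_0 : Form 1000000 (fun m n => n - m) (fun m n => M12 m n - 0) (1) :=
  Form.const (Zeros.lin (fun _ _ _ _ _ h1 h2 => by beta_reduce; gcongr) (u := 1) (by norm_num)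
    (by norm_num) (fun m => -m) fun m n => by ring)
    (by norm_num) (1) (by norm_num) (hm_one (by norm_num))
    (hm_zero _) (by norm_num)
    fun _ m n hp h0 hF hn => jac_of hp _ (4 * n * m ^ 3) (0) hF (by ring) fun hw => hn
      (cert hp h0 hF hw 4 4 4 (-4 * m ^ 3) (1) (4 * m * n ^ 2 + 4 * m ^ 2 * n + 4 * n ^ 3) (1) (by
        norm_num) (by ring) (by ring))

lemma form12_1 : Form 1000000 (fun m n => n + m) (fun m n => M12 m n - 0) (1) :=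
  Form.const (Zeros.lin (fun _ _ _ _ _ h1 h2 => by beta_reduce; gcongr) (u := 1) (by norm_num)
    (by norm_num) (fun m => m) fun m n => by ring)
    (by norm_num) (1) (by norm_num) (hm_one (by norm_num))
    (hm_zero _) (by norm_num)
    fun _ m n hp h0 hF hn => jac_of hp _ (4 * n * m ^ 3) (0) hF (by ring) fun hw => hn
      (cert hp h0 hF hw 4 4 4 (4 * m ^ 3) (-1) (-4 * m * n ^ 2 + 4 * m ^ 2 * n + 4 * n ^ 3) (-1)
        (by norm_num) (by ring) (by ring))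

lemma form12_2 : Form 1000000 (fun m n => 3 * m ^ 2 + n ^ 2) (fun m n => M12 m n - 0) (1) :=
  Form.const (Zeros.quad (by norm_num) (3) (0) (1) (-3) 2 (fun m n => by ring) (by norm_num)
    (by norm_num) (by norm_num) (by norm_num) (by norm_num) (by norm_num)
    (hm_jc (by norm_num) (by norm_num) 5 (by norm_num) (by norm_num)))
    (by norm_num) (1) (by norm_num) (hm_one (by norm_num))
    (hm_jc2 (by norm_num) (by norm_num) (by norm_num) 5 (by norm_num) (by norm_num)) (by norm_num)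
    fun _ m n hp h0 hF hn => jac_of hp _ (4 * n * m ^ 3) (0) hF (by ring) fun hw => hn
      (cert hp h0 hF hw 12 5 5 (4 * m ^ 3) (-n) (-36 * m ^ 2 * n + 12 * n ^ 3) (27 * m) (by
        norm_num) (by ring) (by ring))

lemma form12_3 : Form 1000000 (fun m n => m ^ 2 + n ^ 2) (fun m n => N12 m n - M12 m n) (1) :=
  Form.const (Zeros.quad (by norm_num) (1) (0) (1) (-1) 2 (fun m n => by ring) (by norm_num)
    (by norm_num) (by norm_num) (by norm_num) (by norm_num) (by norm_num)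
    (hm_jc (by norm_num) (by norm_num) 7 (by norm_num) (by norm_num)))
    (by norm_num) (-1) (by norm_num) (hm_jc (by norm_num) (by norm_num) 7 (by norm_num) (by
      norm_num))
    (hm_sq (by norm_num) (by norm_num)) (by norm_num)
    fun _ m n hp h0 hF hn => jac_of hp _ (4 * n * m ^ 3) (m ^ 2 * n ^ 4 + 5 * m ^ 4 * n ^ 2 + 3 * m
      ^ 6 - n ^ 6) hF (by ring) fun hw => hn
      (cert hp h0 hF hw 4 5 5 (4 * m ^ 3) (-n) (-4 * m ^ 2 * n + 4 * n ^ 3) (m) (by norm_num) (by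
        ring) (by ring))

lemma form12_4 : Form 1000000 (fun m n => 3 * m ^ 2 - n ^ 2) (fun m n => N12 m n - M12 m n) (1 / 2)
  :=
  Form.const (Zeros.quad (by norm_num) (3) (0) (-1) (3) 2 (fun m n => by ring) (by norm_num)
    (by norm_num) (by norm_num) (by norm_num) (by norm_num) (by norm_num)
    (hm_jc (by norm_num) (by norm_num) 5 (by norm_num) (by norm_num)))
    (by norm_num) (-1) (by norm_num) (hm_jc (by norm_num) (by norm_num) 7 (by norm_num) (by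
      norm_num))
    (hm_jc2 (by norm_num) (by norm_num) (by norm_num) 5 (by norm_num) (by norm_num)) (by norm_num)
    fun _ m n hp h0 hF hn => jac_of hp _ (4 * n * m ^ 3) (3 * m ^ 2 * n ^ 4 + 3 * m ^ 4 * n ^ 2 + m
      ^ 6 + n ^ 6) hF (by ring) fun hw => hn
      (cert hp h0 hF hw 12 5 5 (4 * m ^ 3) (n) (-36 * m ^ 2 * n - 12 * n ^ 3) (27 * m) (by
        norm_num) (by ring) (by ring))

lemma form12_5 : Form 1000000 (fun m n => n) (fun m n => 0 - N12 m n) (1 / 2) :=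
  Form.const (Zeros.lin (fun _ _ _ _ _ h1 h2 => by beta_reduce; gcongr) (u := 1) (by norm_num)
    (by norm_num) (fun m => 0) fun m n => by ring)
    (by norm_num) (-3) (by norm_num) (hm_jc (by norm_num) (by norm_num) 5 (by norm_num) (by
      norm_num))
    (hm_zero _) (by norm_num)
    fun _ m n hp h0 hF hn => jac_of hp _ (m ^ 4) (-6 * m ^ 4 * n ^ 3 - 8 * m ^ 6 * n + n ^ 7) hF
      (by ring) fun hw => hn
      (cert hp h0 hF hw 1 4 1 (0) (1) (1) (0) (by norm_num) (by ring) (by ring))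

lemma form12_6 : Form 1000000 (fun m n => m) (fun m n => 0 - N12 m n) (1) :=
  Form.const (Zeros.lin (F := fun _ n => n) (fun _ _ _ _ _ _ h2 => h2) (u := 1) (by norm_num)
    (by norm_num) (fun _ => 0) fun m n => by ring).swap
    (by norm_num) (1) (by norm_num) (hm_one (by norm_num))
    (hm_zero _) (by norm_num)
    fun _ m n hp h0 hF hn => jac_of hp _ (n ^ 4) (-6 * m ^ 3 * n ^ 4 - 8 * m ^ 5 * n ^ 2 - 3 * m ^
      7) hF (by ring) fun hw => hn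
      (cert hp h0 hF hw 1 1 4 (1) (0) (0) (1) (by norm_num) (by ring) (by ring))

lemma cop12_01 {p : ℕ} {m n : ℤ} (hp : p.Prime) (h0 : 1000000 < p)
    (h1 : (p : ℤ) ∣ n - m) (h2 : (p : ℤ) ∣ n + m) : (p : ℤ) ∣ m ∧ (p : ℤ) ∣ n :=
  cert hp h0 h1 h2 2 1 1 (-1) (1) (1) (1) (by norm_num) (by ring) (by ring)

lemma cop12_02 {p : ℕ} {m n : ℤ} (hp : p.Prime) (h0 : 1000000 < p)
    (h1 : (p : ℤ) ∣ n - m) (h2 : (p : ℤ) ∣ 3 * m ^ 2 + n ^ 2) : (p : ℤ) ∣ m ∧ (p : ℤ) ∣ n :=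
  cert hp h0 h1 h2 4 2 2 (-m - n) (1) (3 * m + 3 * n) (1) (by norm_num) (by ring) (by ring)

lemma cop12_03 {p : ℕ} {m n : ℤ} (hp : p.Prime) (h0 : 1000000 < p)
    (h1 : (p : ℤ) ∣ n - m) (h2 : (p : ℤ) ∣ m ^ 2 + n ^ 2) : (p : ℤ) ∣ m ∧ (p : ℤ) ∣ n :=
  cert hp h0 h1 h2 2 2 2 (-m - n) (1) (m + n) (1) (by norm_num) (by ring) (by ring)

lemma cop12_04 {p : ℕ} {m n : ℤ} (hp : p.Prime) (h0 : 1000000 < p)
    (h1 : (p : ℤ) ∣ n - m) (h2 : (p : ℤ) ∣ 3 * m ^ 2 - n ^ 2) : (p : ℤ) ∣ m ∧ (p : ℤ) ∣ n :=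
  cert hp h0 h1 h2 2 2 2 (m + n) (1) (3 * m + 3 * n) (1) (by norm_num) (by ring) (by ring)

lemma cop12_05 {p : ℕ} {m n : ℤ} (hp : p.Prime) (h0 : 1000000 < p)
    (h1 : (p : ℤ) ∣ n - m) (h2 : (p : ℤ) ∣ n) : (p : ℤ) ∣ m ∧ (p : ℤ) ∣ n :=
  cert hp h0 h1 h2 1 1 1 (-1) (1) (0) (1) (by norm_num) (by ring) (by ring)

lemma cop12_06 {p : ℕ} {m n : ℤ} (hp : p.Prime) (h0 : 1000000 < p)
    (h1 : (p : ℤ) ∣ n - m) (h2 : (p : ℤ) ∣ m) : (p : ℤ) ∣ m ∧ (p : ℤ) ∣ n :=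
  cert hp h0 h1 h2 1 1 1 (0) (1) (1) (1) (by norm_num) (by ring) (by ring)

lemma cop12_12 {p : ℕ} {m n : ℤ} (hp : p.Prime) (h0 : 1000000 < p)
    (h1 : (p : ℤ) ∣ n + m) (h2 : (p : ℤ) ∣ 3 * m ^ 2 + n ^ 2) : (p : ℤ) ∣ m ∧ (p : ℤ) ∣ n :=
  cert hp h0 h1 h2 4 2 2 (m - n) (1) (-3 * m + 3 * n) (1) (by norm_num) (by ring) (by ring)

lemma cop12_13 {p : ℕ} {m n : ℤ} (hp : p.Prime) (h0 : 1000000 < p)
    (h1 : (p : ℤ) ∣ n + m) (h2 : (p : ℤ) ∣ m ^ 2 + n ^ 2) : (p : ℤ) ∣ m ∧ (p : ℤ) ∣ n :=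
  cert hp h0 h1 h2 2 2 2 (m - n) (1) (-m + n) (1) (by norm_num) (by ring) (by ring)

lemma cop12_14 {p : ℕ} {m n : ℤ} (hp : p.Prime) (h0 : 1000000 < p)
    (h1 : (p : ℤ) ∣ n + m) (h2 : (p : ℤ) ∣ 3 * m ^ 2 - n ^ 2) : (p : ℤ) ∣ m ∧ (p : ℤ) ∣ n :=
  cert hp h0 h1 h2 2 2 2 (-m + n) (1) (-3 * m + 3 * n) (1) (by norm_num) (by ring) (by ring)

lemma cop12_15 {p : ℕ} {m n : ℤ} (hp : p.Prime) (h0 : 1000000 < p)
    (h1 : (p : ℤ) ∣ n + m) (h2 : (p : ℤ) ∣ n) : (p : ℤ) ∣ m ∧ (p : ℤ) ∣ n :=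
  cert hp h0 h1 h2 1 1 1 (1) (-1) (0) (1) (by norm_num) (by ring) (by ring)

lemma cop12_16 {p : ℕ} {m n : ℤ} (hp : p.Prime) (h0 : 1000000 < p)
    (h1 : (p : ℤ) ∣ n + m) (h2 : (p : ℤ) ∣ m) : (p : ℤ) ∣ m ∧ (p : ℤ) ∣ n :=
  cert hp h0 h1 h2 1 1 1 (0) (1) (1) (-1) (by norm_num) (by ring) (by ring)

lemma cop12_23 {p : ℕ} {m n : ℤ} (hp : p.Prime) (h0 : 1000000 < p)
    (h1 : (p : ℤ) ∣ 3 * m ^ 2 + n ^ 2) (h2 : (p : ℤ) ∣ m ^ 2 + n ^ 2) : (p : ℤ) ∣ m ∧ (p : ℤ) ∣ n :=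
  cert hp h0 h1 h2 2 2 2 (1) (-1) (-1) (3) (by norm_num) (by ring) (by ring)

lemma cop12_24 {p : ℕ} {m n : ℤ} (hp : p.Prime) (h0 : 1000000 < p)
    (h1 : (p : ℤ) ∣ 3 * m ^ 2 + n ^ 2) (h2 : (p : ℤ) ∣ 3 * m ^ 2 - n ^ 2) : (p : ℤ) ∣ m ∧ (p : ℤ) ∣
      n :=
  cert hp h0 h1 h2 6 2 2 (1) (1) (3) (-3) (by norm_num) (by ring) (by ring)

lemma cop12_25 {p : ℕ} {m n : ℤ} (hp : p.Prime) (h0 : 1000000 < p)
    (h1 : (p : ℤ) ∣ 3 * m ^ 2 + n ^ 2) (h2 : (p : ℤ) ∣ n) : (p : ℤ) ∣ m ∧ (p : ℤ) ∣ n :=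
  cert hp h0 h1 h2 3 2 1 (1) (-n) (0) (3) (by norm_num) (by ring) (by ring)

lemma cop12_26 {p : ℕ} {m n : ℤ} (hp : p.Prime) (h0 : 1000000 < p)
    (h1 : (p : ℤ) ∣ 3 * m ^ 2 + n ^ 2) (h2 : (p : ℤ) ∣ m) : (p : ℤ) ∣ m ∧ (p : ℤ) ∣ n :=
  cert hp h0 h1 h2 1 1 2 (0) (1) (1) (-3 * m) (by norm_num) (by ring) (by ring)

lemma cop12_34 {p : ℕ} {m n : ℤ} (hp : p.Prime) (h0 : 1000000 < p)
    (h1 : (p : ℤ) ∣ m ^ 2 + n ^ 2) (h2 : (p : ℤ) ∣ 3 * m ^ 2 - n ^ 2) : (p : ℤ) ∣ m ∧ (p : ℤ) ∣ n :=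
  cert hp h0 h1 h2 4 2 2 (1) (1) (3) (-1) (by norm_num) (by ring) (by ring)

lemma cop12_35 {p : ℕ} {m n : ℤ} (hp : p.Prime) (h0 : 1000000 < p)
    (h1 : (p : ℤ) ∣ m ^ 2 + n ^ 2) (h2 : (p : ℤ) ∣ n) : (p : ℤ) ∣ m ∧ (p : ℤ) ∣ n :=
  cert hp h0 h1 h2 1 2 1 (1) (-n) (0) (1) (by norm_num) (by ring) (by ring)

lemma cop12_36 {p : ℕ} {m n : ℤ} (hp : p.Prime) (h0 : 1000000 < p)
    (h1 : (p : ℤ) ∣ m ^ 2 + n ^ 2) (h2 : (p : ℤ) ∣ m) : (p : ℤ) ∣ m ∧ (p : ℤ) ∣ n :=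
  cert hp h0 h1 h2 1 1 2 (0) (1) (1) (-m) (by norm_num) (by ring) (by ring)

lemma cop12_45 {p : ℕ} {m n : ℤ} (hp : p.Prime) (h0 : 1000000 < p)
    (h1 : (p : ℤ) ∣ 3 * m ^ 2 - n ^ 2) (h2 : (p : ℤ) ∣ n) : (p : ℤ) ∣ m ∧ (p : ℤ) ∣ n :=
  cert hp h0 h1 h2 3 2 1 (1) (n) (0) (3) (by norm_num) (by ring) (by ring)

lemma cop12_46 {p : ℕ} {m n : ℤ} (hp : p.Prime) (h0 : 1000000 < p)
    (h1 : (p : ℤ) ∣ 3 * m ^ 2 - n ^ 2) (h2 : (p : ℤ) ∣ m) : (p : ℤ) ∣ m ∧ (p : ℤ) ∣ n :=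
  cert hp h0 h1 h2 1 1 2 (0) (1) (-1) (3 * m) (by norm_num) (by ring) (by ring)

lemma cop12_56 {p : ℕ} {m n : ℤ} (hp : p.Prime) (h0 : 1000000 < p)
    (h1 : (p : ℤ) ∣ n) (h2 : (p : ℤ) ∣ m) : (p : ℤ) ∣ m ∧ (p : ℤ) ∣ n :=
  cert hp h0 h1 h2 1 1 1 (0) (1) (1) (0) (by norm_num) (by ring) (by ring)

lemma fam12 : ∃ p₀ K c₀ st bad μ,
    Fam p₀ K c₀ (fun m n => ![0, M12 m n, N12 m n]) st bad μ := by
  have H : Forms (κ := Fin 7) 1000000 (fun m n => ![0, M12 m n, N12 m n])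
      ![fun m n => n - m, fun m n => n + m, fun m n => 3 * m ^ 2 + n ^ 2, fun m n => m ^ 2 + n ^ 2,
        fun m n => 3 * m ^ 2 - n ^ 2, fun m n => n, fun m n => m]
      ![0, 0, 0, 1, 1, 2, 2] ![3, 3, 1, 3, 1, 2, 6] ![1, 1, -16]
      ![1, 1, 1, 1, 1 / 2, 1 / 2, 1] := by
    refine ⟨by simp, fun k => ?_, fun m n i => ?_, by decide, by decide,
      fun p j k m n hp h0 hjk h1 h2 => ?_, fun i => ?_, fun i => ?_⟩
    · fin_cases k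
      exacts [form12_0, form12_1, form12_2, form12_3, form12_4, form12_5, form12_6]
    · rw [prod_filter, Fin.prod_univ_seven]
      fin_cases i <;> simp <;> ring
    · fin_cases j <;> fin_cases k
      exacts [absurd rfl hjk, cop12_01 hp h0 h1 h2, cop12_02 hp h0 h1 h2, cop12_03 hp h0 h1 h2,
        cop12_04 hp h0 h1 h2, cop12_05 hp h0 h1 h2, cop12_06 hp h0 h1 h2, cop12_01 hp h0 h2 h1,
        absurd rfl hjk, cop12_12 hp h0 h1 h2, cop12_13 hp h0 h1 h2, cop12_14 hp h0 h1 h2, cop12_15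
        hp h0 h1 h2, cop12_16 hp h0 h1 h2, cop12_02 hp h0 h2 h1, cop12_12 hp h0 h2 h1, absurd rfl
        hjk, cop12_23 hp h0 h1 h2, cop12_24 hp h0 h1 h2, cop12_25 hp h0 h1 h2, cop12_26 hp h0 h1
        h2, cop12_03 hp h0 h2 h1, cop12_13 hp h0 h2 h1, cop12_23 hp h0 h2 h1, absurd rfl hjk,
        cop12_34 hp h0 h1 h2, cop12_35 hp h0 h1 h2, cop12_36 hp h0 h1 h2, cop12_04 hp h0 h2 h1,
        cop12_14 hp h0 h2 h1, cop12_24 hp h0 h2 h1, cop12_34 hp h0 h2 h1, absurd rfl hjk, cop12_45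
        hp h0 h1 h2, cop12_46 hp h0 h1 h2, cop12_05 hp h0 h2 h1, cop12_15 hp h0 h2 h1, cop12_25 hp
        h0 h2 h1, cop12_35 hp h0 h2 h1, cop12_45 hp h0 h2 h1, absurd rfl hjk, cop12_56 hp h0 h1 h2,
        cop12_06 hp h0 h2 h1, cop12_16 hp h0 h2 h1, cop12_26 hp h0 h2 h1, cop12_36 hp h0 h2 h1,
        cop12_46 hp h0 h2 h1, cop12_56 hp h0 h2 h1, absurd rfl hjk]
    · rw [sum_filter, sum_filter, Fin.sum_univ_seven, Fin.sum_univ_seven]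
      fin_cases i <;> simp [Nat.odd_iff] <;> norm_num
    · rw [sum_filter, Fin.sum_univ_seven]
      fin_cases i <;> simp [Nat.odd_iff] <;> norm_num
  exact ⟨_, _, _, H.fam⟩

lemma aux12 : (∀ m n, IsCoprime m n → ∃ U W, U * M12 m n + W * N12 m n = (48 : ℕ)) ∧
    (∀ T m n : ℤ, 1 ≤ T → |M12 m n| ≤ T ^ 8 → |N12 m n| ≤ T ^ 8 →
      |m| ≤ (678 : ℕ) * T ∧ |n| ≤ ((678 : ℕ) * T) ^ 1) ∧
    ∀ T m n : ℤ, 1 ≤ T → |m| ≤ T → |n| ≤ T ^ 1 →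
      |M12 m n| ≤ (678 : ℕ) * T ^ 8 ∧ |N12 m n| ≤ (678 : ℕ) * T ^ 8 :=
  p1_aux 6 [0, 0, 0, 0, 0, 0, 16, 0, 0] [-1, 0, 0, 0, 6, 0, 8, 0, 3]
    [1, 0, 0, 0, -6, 0, -8] [0, 0, 0, 0, 0, 0, 16]
    [24, 0, 117, 0, 144, 0, 54] [-48, 0, 0, 0, -288, 0, 0]
    (by norm_num) (by norm_num) 339 (by norm_num)
    (fun m n => by simp only [hf, List.length]; ring)
    (fun m n => by simp only [hf, List.length]; ring)
    (by decide) (by decide) (by decide) (by decide) (by decide) (by decide) (by norm_num)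
    (fun m n => by simp only [hf, List.length]; ring)
    (fun m n => by simp only [hf, List.length]; ring)

end Pool.Agent.Lib.MP_788af2_nt
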