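import Pool.Agent.Lib.MP_788af2_nt.FamAux

/-!
Local data of the family with torsion label 24.
-/

namespace Pool.Agent.Lib.MP_788af2_nt

open Finset

/-- First root difference. -/
abbrev M24 (m n : ℤ) : ℤ := -m ^ 2

/-- Second root difference. -/
abbrev N24 (m n : ℤ) : ℤ := -n ^ 2

lemma form24_0 : Form 1000000 (fun m n => n - m) (fun m n => M24 m n - 0) (1 / 2) :=
  Form.const (Zeros.lin (fun _ _ _ _ _ h1 h2 => by beta_reduce; gcongr) (u := 1) (by norm_num)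
    (by norm_num) (fun m => -m) fun m n => by ring)
    (by norm_num) (-1) (by norm_num) (hm_jc (by norm_num) (by norm_num) 7 (by norm_num) (by
      norm_num))
    (hm_zero _) (by norm_num)
    fun _ m n hp h0 hF hn => jac_of hp _ (m) (0) hF (by ring) fun hw => hn
      (cert hp h0 hF hw 1 1 1 (0) (1) (1) (1) (by norm_num) (by ring) (by ring))

lemma form24_1 : Form 1000000 (fun m n => n + m) (fun m n => M24 m n - 0) (1 / 2) :=
  Form.const (Zeros.lin (fun _ _ _ _ _ h1 h2 => by beta_reduce; gcongr) (u := 1) (by norm_num)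
    (by norm_num) (fun m => m) fun m n => by ring)
    (by norm_num) (-1) (by norm_num) (hm_jc (by norm_num) (by norm_num) 7 (by norm_num) (by
      norm_num))
    (hm_zero _) (by norm_num)
    fun _ m n hp h0 hF hn => jac_of hp _ (m) (0) hF (by ring) fun hw => hn
      (cert hp h0 hF hw 1 1 1 (0) (1) (1) (-1) (by norm_num) (by ring) (by ring))

lemma form24_2 : Form 1000000 (fun m n => n) (fun m n => N24 m n - M24 m n) (1) :=
  Form.const (Zeros.lin (fun _ _ _ _ _ h1 h2 => by beta_reduce; gcongr) (u := 1) (by norm_num)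
    (by norm_num) (fun m => 0) fun m n => by ring)
    (by norm_num) (1) (by norm_num) (hm_one (by norm_num))
    (hm_zero _) (by norm_num)
    fun _ m n hp h0 hF hn => jac_of hp _ (m) (-n) hF (by ring) fun hw => hn
      (cert hp h0 hF hw 1 1 1 (0) (1) (1) (0) (by norm_num) (by ring) (by ring))

lemma form24_3 : Form 1000000 (fun m n => m) (fun m n => 0 - N24 m n) (1) :=
  Form.const (Zeros.lin (F := fun _ n => n) (fun _ _ _ _ _ _ h2 => h2) (u := 1) (by norm_num)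
    (by norm_num) (fun _ => 0) fun m n => by ring).swap
    (by norm_num) (1) (by norm_num) (hm_one (by norm_num))
    (hm_zero _) (by norm_num)
    fun _ m n hp h0 hF hn => jac_of hp _ (n) (0) hF (by ring) fun hw => hn
      (cert hp h0 hF hw 1 1 1 (1) (0) (0) (1) (by norm_num) (by ring) (by ring))

lemma cop24_01 {p : ℕ} {m n : ℤ} (hp : p.Prime) (h0 : 1000000 < p)
    (h1 : (p : ℤ) ∣ n - m) (h2 : (p : ℤ) ∣ n + m) : (p : ℤ) ∣ m ∧ (p : ℤ) ∣ n :=
  cert hp h0 h1 h2 2 1 1 (-1) (1) (1) (1) (by norm_num) (by ring) (by ring)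

lemma cop24_02 {p : ℕ} {m n : ℤ} (hp : p.Prime) (h0 : 1000000 < p)
    (h1 : (p : ℤ) ∣ n - m) (h2 : (p : ℤ) ∣ n) : (p : ℤ) ∣ m ∧ (p : ℤ) ∣ n :=
  cert hp h0 h1 h2 1 1 1 (-1) (1) (0) (1) (by norm_num) (by ring) (by ring)

lemma cop24_03 {p : ℕ} {m n : ℤ} (hp : p.Prime) (h0 : 1000000 < p)
    (h1 : (p : ℤ) ∣ n - m) (h2 : (p : ℤ) ∣ m) : (p : ℤ) ∣ m ∧ (p : ℤ) ∣ n :=
  cert hp h0 h1 h2 1 1 1 (0) (1) (1) (1) (by norm_num) (by ring) (by ring)

lemma cop24_12 {p : ℕ} {m n : ℤ} (hp : p.Prime) (h0 : 1000000 < p)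
    (h1 : (p : ℤ) ∣ n + m) (h2 : (p : ℤ) ∣ n) : (p : ℤ) ∣ m ∧ (p : ℤ) ∣ n :=
  cert hp h0 h1 h2 1 1 1 (1) (-1) (0) (1) (by norm_num) (by ring) (by ring)

lemma cop24_13 {p : ℕ} {m n : ℤ} (hp : p.Prime) (h0 : 1000000 < p)
    (h1 : (p : ℤ) ∣ n + m) (h2 : (p : ℤ) ∣ m) : (p : ℤ) ∣ m ∧ (p : ℤ) ∣ n :=
  cert hp h0 h1 h2 1 1 1 (0) (1) (1) (-1) (by norm_num) (by ring) (by ring)

lemma cop24_23 {p : ℕ} {m n : ℤ} (hp : p.Prime) (h0 : 1000000 < p)
    (h1 : (p : ℤ) ∣ n) (h2 : (p : ℤ) ∣ m) : (p : ℤ) ∣ m ∧ (p : ℤ) ∣ n :=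
  cert hp h0 h1 h2 1 1 1 (0) (1) (1) (0) (by norm_num) (by ring) (by ring)

lemma fam24 : ∃ p₀ K c₀ st bad μ,
    Fam p₀ K c₀ (fun m n => ![0, M24 m n, N24 m n]) st bad μ := by
  have H : Forms (κ := Fin 4) 1000000 (fun m n => ![0, M24 m n, N24 m n])
      ![fun m n => n - m, fun m n => n + m, fun m n => n, fun m n => m]
      ![0, 0, 1, 2] ![1, 1, 2, 2] ![1, -1, 1]
      ![1 / 2, 1 / 2, 1, 1] := by
    refine ⟨by simp, fun k => ?_, fun m n i => ?_, by decide, by decide,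
      fun p j k m n hp h0 hjk h1 h2 => ?_, fun i => ?_, fun i => ?_⟩
    · fin_cases k
      exacts [form24_0, form24_1, form24_2, form24_3]
    · rw [prod_filter, Fin.prod_univ_four]
      fin_cases i <;> simp <;> ring
    · fin_cases j <;> fin_cases k
      exacts [absurd rfl hjk, cop24_01 hp h0 h1 h2, cop24_02 hp h0 h1 h2, cop24_03 hp h0 h1 h2,
        cop24_01 hp h0 h2 h1, absurd rfl hjk, cop24_12 hp h0 h1 h2, cop24_13 hp h0 h1 h2, cop24_02
        hp h0 h2 h1, cop24_12 hp h0 h2 h1, absurd rfl hjk, cop24_23 hp h0 h1 h2, cop24_03 hp h0 h2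
        h1, cop24_13 hp h0 h2 h1, cop24_23 hp h0 h2 h1, absurd rfl hjk]
    · rw [sum_filter, sum_filter, Fin.sum_univ_four, Fin.sum_univ_four]
      fin_cases i <;> simp [Nat.odd_iff] <;> norm_num
    · rw [sum_filter, Fin.sum_univ_four]
      fin_cases i <;> simp [Nat.odd_iff] <;> norm_num
  exact ⟨_, _, _, H.fam⟩

lemma aux24 : (∀ m n, IsCoprime m n → ∃ U W, U * M24 m n + W * N24 m n = (1 : ℕ)) ∧
    (∀ T m n : ℤ, 1 ≤ T → |M24 m n| ≤ T ^ 2 → |N24 m n| ≤ T ^ 2 →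
      |m| ≤ (2 : ℕ) * T ∧ |n| ≤ ((2 : ℕ) * T) ^ 1) ∧
    ∀ T m n : ℤ, 1 ≤ T → |m| ≤ T → |n| ≤ T ^ 1 →
      |M24 m n| ≤ (2 : ℕ) * T ^ 2 ∧ |N24 m n| ≤ (2 : ℕ) * T ^ 2 :=
  p1_aux 0 [0, 0, -1] [-1, 0, 0]
    [-1] [0]
    [0] [-1]
    (by norm_num) (by norm_num) 1 (by norm_num)
    (fun m n => by simp only [hf, List.length]; ring)
    (fun m n => by simp only [hf, List.length]; ring)
    (by decide) (by decide) (by decide) (by decide) (by decide) (by decide) (by norm_num)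
    (fun m n => by simp only [hf, List.length]; ring)
    (fun m n => by simp only [hf, List.length]; ring)

end Pool.Agent.Lib.MP_788af2_nt
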