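import Pool.Agent.Lib.MP_788af2_nt.FamAux

/-!
Local data of the family with torsion label 26.
-/

namespace Pool.Agent.Lib.MP_788af2_nt

open Finset

/-- First root difference. -/
abbrev M26 (m n : ℤ) : ℤ := -(m ^ 3 * (m + 2 * n))

/-- Second root difference. -/
abbrev N26 (m n : ℤ) : ℤ := -(n ^ 3 * (2 * m + n))

lemma form26_0 : Form 1000000 (fun m n => n - m) (fun m n => M26 m n - 0) (1 / 2) :=
  Form.const (Zeros.lin (fun _ _ _ _ _ h1 h2 => by beta_reduce; gcongr) (u := 1) (by norm_num)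
    (by norm_num) (fun m => -m) fun m n => by ring)
    (by norm_num) (-3) (by norm_num) (hm_jc (by norm_num) (by norm_num) 5 (by norm_num) (by
      norm_num))
    (hm_zero _) (by norm_num)
    fun _ m n hp h0 hF hn => jac_of hp _ (m ^ 2) (-2 * m ^ 3) hF (by ring) fun hw => hn
      (cert hp h0 hF hw 1 2 2 (0) (1) (m + n) (1) (by norm_num) (by ring) (by ring))

lemma form26_1 : Form 1000000 (fun m n => n + m) (fun m n => M26 m n - 0) (1) :=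
  Form.const (Zeros.lin (fun _ _ _ _ _ h1 h2 => by beta_reduce; gcongr) (u := 1) (by norm_num)
    (by norm_num) (fun m => m) fun m n => by ring)
    (by norm_num) (1) (by norm_num) (hm_one (by norm_num))
    (hm_zero _) (by norm_num)
    fun _ m n hp h0 hF hn => jac_of hp _ (m ^ 2) (-2 * m ^ 3) hF (by ring) fun hw => hn
      (cert hp h0 hF hw 1 2 2 (0) (1) (-m + n) (1) (by norm_num) (by ring) (by ring))

lemma form26_2 : Form 1000000 (fun m n => n) (fun m n => N26 m n - M26 m n) (1) :=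
  Form.const (Zeros.lin (fun _ _ _ _ _ h1 h2 => by beta_reduce; gcongr) (u := 1) (by norm_num)
    (by norm_num) (fun m => 0) fun m n => by ring)
    (by norm_num) (1) (by norm_num) (hm_one (by norm_num))
    (hm_zero _) (by norm_num)
    fun _ m n hp h0 hF hn => jac_of hp _ (m ^ 2) (-2 * m * n ^ 2 + 2 * m ^ 3 - n ^ 3) hF (by ring)
      fun hw => hn
      (cert hp h0 hF hw 1 2 1 (0) (1) (1) (0) (by norm_num) (by ring) (by ring))

lemma form26_3 : Form 1000000 (fun m n => 2 * m + n) (fun m n => N26 m n - M26 m n) (1 / 2) :=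
  Form.const (Zeros.lin (fun _ _ _ _ _ h1 h2 => by beta_reduce; gcongr) (u := 1) (by norm_num)
    (by norm_num) (fun m => 2 * m) fun m n => by ring)
    (by norm_num) (-3) (by norm_num) (hm_jc (by norm_num) (by norm_num) 5 (by norm_num) (by
      norm_num))
    (hm_zero _) (by norm_num)
    fun _ m n hp h0 hF hn => jac_of hp _ (m ^ 2) (2 * m ^ 3 - n ^ 3) hF (by ring) fun hw => hn
      (cert hp h0 hF hw 1 2 2 (0) (1) (-2 * m + n) (4) (by norm_num) (by ring) (by ring))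

lemma form26_4 : Form 1000000 (fun m n => m) (fun m n => 0 - N26 m n) (1) :=
  Form.const (Zeros.lin (F := fun _ n => n) (fun _ _ _ _ _ _ h2 => h2) (u := 1) (by norm_num)
    (by norm_num) (fun _ => 0) fun m n => by ring).swap
    (by norm_num) (1) (by norm_num) (hm_one (by norm_num))
    (hm_zero _) (by norm_num)
    fun _ m n hp h0 hF hn => jac_of hp _ (n ^ 2) (2 * n ^ 3) hF (by ring) fun hw => hn
      (cert hp h0 hF hw 1 1 2 (1) (0) (0) (1) (by norm_num) (by ring) (by ring))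

lemma form26_5 : Form 1000000 (fun m n => m + 2 * n) (fun m n => 0 - N26 m n) (1 / 2) :=
  Form.const (Zeros.lin (fun _ _ _ _ _ h1 h2 => by beta_reduce; gcongr) (u := 2) (by norm_num)
    (by norm_num) (fun m => m) fun m n => by ring)
    (by norm_num) (-3) (by norm_num) (hm_jc (by norm_num) (by norm_num) 5 (by norm_num) (by
      norm_num))
    (hm_zero _) (by norm_num)
    fun _ m n hp h0 hF hn => jac_of hp _ (n ^ 2) (2 * n ^ 3) hF (by ring) fun hw => hn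
      (cert hp h0 hF hw 1 2 2 (m - 2 * n) (4) (0) (1) (by norm_num) (by ring) (by ring))

lemma cop26_01 {p : ℕ} {m n : ℤ} (hp : p.Prime) (h0 : 1000000 < p)
    (h1 : (p : ℤ) ∣ n - m) (h2 : (p : ℤ) ∣ n + m) : (p : ℤ) ∣ m ∧ (p : ℤ) ∣ n :=
  cert hp h0 h1 h2 2 1 1 (-1) (1) (1) (1) (by norm_num) (by ring) (by ring)

lemma cop26_02 {p : ℕ} {m n : ℤ} (hp : p.Prime) (h0 : 1000000 < p)
    (h1 : (p : ℤ) ∣ n - m) (h2 : (p : ℤ) ∣ n) : (p : ℤ) ∣ m ∧ (p : ℤ) ∣ n :=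
  cert hp h0 h1 h2 1 1 1 (-1) (1) (0) (1) (by norm_num) (by ring) (by ring)

lemma cop26_03 {p : ℕ} {m n : ℤ} (hp : p.Prime) (h0 : 1000000 < p)
    (h1 : (p : ℤ) ∣ n - m) (h2 : (p : ℤ) ∣ 2 * m + n) : (p : ℤ) ∣ m ∧ (p : ℤ) ∣ n :=
  cert hp h0 h1 h2 3 1 1 (-1) (1) (2) (1) (by norm_num) (by ring) (by ring)

lemma cop26_04 {p : ℕ} {m n : ℤ} (hp : p.Prime) (h0 : 1000000 < p)
    (h1 : (p : ℤ) ∣ n - m) (h2 : (p : ℤ) ∣ m) : (p : ℤ) ∣ m ∧ (p : ℤ) ∣ n :=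
  cert hp h0 h1 h2 1 1 1 (0) (1) (1) (1) (by norm_num) (by ring) (by ring)

lemma cop26_05 {p : ℕ} {m n : ℤ} (hp : p.Prime) (h0 : 1000000 < p)
    (h1 : (p : ℤ) ∣ n - m) (h2 : (p : ℤ) ∣ m + 2 * n) : (p : ℤ) ∣ m ∧ (p : ℤ) ∣ n :=
  cert hp h0 h1 h2 3 1 1 (-2) (1) (1) (1) (by norm_num) (by ring) (by ring)

lemma cop26_12 {p : ℕ} {m n : ℤ} (hp : p.Prime) (h0 : 1000000 < p)
    (h1 : (p : ℤ) ∣ n + m) (h2 : (p : ℤ) ∣ n) : (p : ℤ) ∣ m ∧ (p : ℤ) ∣ n :=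
  cert hp h0 h1 h2 1 1 1 (1) (-1) (0) (1) (by norm_num) (by ring) (by ring)

lemma cop26_13 {p : ℕ} {m n : ℤ} (hp : p.Prime) (h0 : 1000000 < p)
    (h1 : (p : ℤ) ∣ n + m) (h2 : (p : ℤ) ∣ 2 * m + n) : (p : ℤ) ∣ m ∧ (p : ℤ) ∣ n :=
  cert hp h0 h1 h2 1 1 1 (-1) (1) (2) (-1) (by norm_num) (by ring) (by ring)

lemma cop26_14 {p : ℕ} {m n : ℤ} (hp : p.Prime) (h0 : 1000000 < p)
    (h1 : (p : ℤ) ∣ n + m) (h2 : (p : ℤ) ∣ m) : (p : ℤ) ∣ m ∧ (p : ℤ) ∣ n :=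
  cert hp h0 h1 h2 1 1 1 (0) (1) (1) (-1) (by norm_num) (by ring) (by ring)

lemma cop26_15 {p : ℕ} {m n : ℤ} (hp : p.Prime) (h0 : 1000000 < p)
    (h1 : (p : ℤ) ∣ n + m) (h2 : (p : ℤ) ∣ m + 2 * n) : (p : ℤ) ∣ m ∧ (p : ℤ) ∣ n :=
  cert hp h0 h1 h2 1 1 1 (2) (-1) (-1) (1) (by norm_num) (by ring) (by ring)

lemma cop26_23 {p : ℕ} {m n : ℤ} (hp : p.Prime) (h0 : 1000000 < p)
    (h1 : (p : ℤ) ∣ n) (h2 : (p : ℤ) ∣ 2 * m + n) : (p : ℤ) ∣ m ∧ (p : ℤ) ∣ n :=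
  cert hp h0 h1 h2 2 1 1 (-1) (1) (2) (0) (by norm_num) (by ring) (by ring)

lemma cop26_24 {p : ℕ} {m n : ℤ} (hp : p.Prime) (h0 : 1000000 < p)
    (h1 : (p : ℤ) ∣ n) (h2 : (p : ℤ) ∣ m) : (p : ℤ) ∣ m ∧ (p : ℤ) ∣ n :=
  cert hp h0 h1 h2 1 1 1 (0) (1) (1) (0) (by norm_num) (by ring) (by ring)

lemma cop26_25 {p : ℕ} {m n : ℤ} (hp : p.Prime) (h0 : 1000000 < p)
    (h1 : (p : ℤ) ∣ n) (h2 : (p : ℤ) ∣ m + 2 * n) : (p : ℤ) ∣ m ∧ (p : ℤ) ∣ n :=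
  cert hp h0 h1 h2 1 1 1 (-2) (1) (1) (0) (by norm_num) (by ring) (by ring)

lemma cop26_34 {p : ℕ} {m n : ℤ} (hp : p.Prime) (h0 : 1000000 < p)
    (h1 : (p : ℤ) ∣ 2 * m + n) (h2 : (p : ℤ) ∣ m) : (p : ℤ) ∣ m ∧ (p : ℤ) ∣ n :=
  cert hp h0 h1 h2 1 1 1 (0) (1) (1) (-2) (by norm_num) (by ring) (by ring)

lemma cop26_35 {p : ℕ} {m n : ℤ} (hp : p.Prime) (h0 : 1000000 < p)
    (h1 : (p : ℤ) ∣ 2 * m + n) (h2 : (p : ℤ) ∣ m + 2 * n) : (p : ℤ) ∣ m ∧ (p : ℤ) ∣ n :=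
  cert hp h0 h1 h2 3 1 1 (2) (-1) (-1) (2) (by norm_num) (by ring) (by ring)

lemma cop26_45 {p : ℕ} {m n : ℤ} (hp : p.Prime) (h0 : 1000000 < p)
    (h1 : (p : ℤ) ∣ m) (h2 : (p : ℤ) ∣ m + 2 * n) : (p : ℤ) ∣ m ∧ (p : ℤ) ∣ n :=
  cert hp h0 h1 h2 2 1 1 (2) (0) (-1) (1) (by norm_num) (by ring) (by ring)

lemma fam26 : ∃ p₀ K c₀ st bad μ,
    Fam p₀ K c₀ (fun m n => ![0, M26 m n, N26 m n]) st bad μ := by
  have H : Forms (κ := Fin 6) 1000000 (fun m n => ![0, M26 m n, N26 m n])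
      ![fun m n => n - m, fun m n => n + m, fun m n => n, fun m n => 2 * m + n, fun m n => m, fun m
        n => m + 2 * n]
      ![0, 0, 1, 1, 2, 2] ![1, 3, 3, 1, 3, 1] ![1, -1, 1]
      ![1 / 2, 1, 1, 1 / 2, 1, 1 / 2] := by
    refine ⟨by simp, fun k => ?_, fun m n i => ?_, by decide, by decide,
      fun p j k m n hp h0 hjk h1 h2 => ?_, fun i => ?_, fun i => ?_⟩
    · fin_cases k
      exacts [form26_0, form26_1, form26_2, form26_3, form26_4, form26_5]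
    · rw [prod_filter, Fin.prod_univ_six]
      fin_cases i <;> simp <;> ring
    · fin_cases j <;> fin_cases k
      exacts [absurd rfl hjk, cop26_01 hp h0 h1 h2, cop26_02 hp h0 h1 h2, cop26_03 hp h0 h1 h2,
        cop26_04 hp h0 h1 h2, cop26_05 hp h0 h1 h2, cop26_01 hp h0 h2 h1, absurd rfl hjk, cop26_12
        hp h0 h1 h2, cop26_13 hp h0 h1 h2, cop26_14 hp h0 h1 h2, cop26_15 hp h0 h1 h2, cop26_02 hp
        h0 h2 h1, cop26_12 hp h0 h2 h1, absurd rfl hjk, cop26_23 hp h0 h1 h2, cop26_24 hp h0 h1 h2,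
        cop26_25 hp h0 h1 h2, cop26_03 hp h0 h2 h1, cop26_13 hp h0 h2 h1, cop26_23 hp h0 h2 h1,
        absurd rfl hjk, cop26_34 hp h0 h1 h2, cop26_35 hp h0 h1 h2, cop26_04 hp h0 h2 h1, cop26_14
        hp h0 h2 h1, cop26_24 hp h0 h2 h1, cop26_34 hp h0 h2 h1, absurd rfl hjk, cop26_45 hp h0 h1
        h2, cop26_05 hp h0 h2 h1, cop26_15 hp h0 h2 h1, cop26_25 hp h0 h2 h1, cop26_35 hp h0 h2 h1,
        cop26_45 hp h0 h2 h1, absurd rfl hjk]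
    · rw [sum_filter, sum_filter, Fin.sum_univ_six, Fin.sum_univ_six]
      fin_cases i <;> simp [Nat.odd_iff] <;> norm_num
    · rw [sum_filter, Fin.sum_univ_six]
      fin_cases i <;> simp [Nat.odd_iff] <;> norm_num
  exact ⟨_, _, _, H.fam⟩

lemma aux26 : (∀ m n, IsCoprime m n → ∃ U W, U * M26 m n + W * N26 m n = (3 : ℕ)) ∧
    (∀ T m n : ℤ, 1 ≤ T → |M26 m n| ≤ T ^ 4 → |N26 m n| ≤ T ^ 4 →
      |m| ≤ (58 : ℕ) * T ∧ |n| ≤ ((58 : ℕ) * T) ^ 1) ∧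
    ∀ T m n : ℤ, 1 ≤ T → |m| ≤ T → |n| ≤ T ^ 1 →
      |M26 m n| ≤ (58 : ℕ) * T ^ 4 ∧ |N26 m n| ≤ (58 : ℕ) * T ^ 4 :=
  p1_aux 3 [0, 0, 0, -2, -1] [-1, -2, 0, 0, 0]
    [-8, -12, 6, -3] [0, 0, 0, 16]
    [16, 0, 0, 0] [-3, 6, -12, -8]
    (by norm_num) (by norm_num) 29 (by norm_num)
    (fun m n => by simp only [hf, List.length]; ring)
    (fun m n => by simp only [hf, List.length]; ring)
    (by decide) (by decide) (by decide) (by decide) (by decide) (by decide) (by norm_num)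
    (fun m n => by simp only [hf, List.length]; ring)
    (fun m n => by simp only [hf, List.length]; ring)

end Pool.Agent.Lib.MP_788af2_nt
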