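import Pool.Agent.Lib.MP_788af2_nt.FamAux

/-!
Local data of the family with torsion label 28.
-/

namespace Pool.Agent.Lib.MP_788af2_nt

open Finset

/-- First root difference. -/
abbrev M28 (m n : ℤ) : ℤ := -(m ^ 2 - n ^ 2) ^ 4

/-- Second root difference. -/
abbrev N28 (m n : ℤ) : ℤ := -(2 * m * n) ^ 4

lemma form28_0 : Form 1000000 (fun m n => m ^ 2 - 2 * m * n - n ^ 2) (fun m n => M28 m n - 0) (1 /
  2) :=
  Form.const (Zeros.quad (by norm_num) (1) (-2) (-1) (2) 2 (fun m n => by ring) (by norm_num)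
    (by norm_num) (by norm_num) (by norm_num) (by norm_num) (by norm_num)
    (hm_jc (by norm_num) (by norm_num) 5 (by norm_num) (by norm_num)))
    (by norm_num) (-1) (by norm_num) (hm_jc (by norm_num) (by norm_num) 7 (by norm_num) (by
      norm_num))
    (hm_jc2 (by norm_num) (by norm_num) (by norm_num) 5 (by norm_num) (by norm_num)) (by norm_num)
    fun _ m n hp h0 hF hn => jac_of hp _ ((m ^ 2 - n ^ 2) ^ 2) (0) hF (by ring) fun hw => hn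
      (cert hp h0 hF hw 4 5 5 (m * n ^ 2 - 4 * m ^ 2 * n - m ^ 3 + 2 * n ^ 3) (5 * m + 2 * n) (-4 *
        m * n ^ 2 - m ^ 2 * n + 2 * m ^ 3 + n ^ 3) (-2 * m + 5 * n) (by norm_num) (by ring) (by
        ring))

lemma form28_1 : Form 1000000 (fun m n => m ^ 2 + 2 * m * n - n ^ 2) (fun m n => M28 m n - 0) (1 /
  2) :=
  Form.const (Zeros.quad (by norm_num) (1) (2) (-1) (2) 2 (fun m n => by ring) (by norm_num)
    (by norm_num) (by norm_num) (by norm_num) (by norm_num) (by norm_num)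
    (hm_jc (by norm_num) (by norm_num) 5 (by norm_num) (by norm_num)))
    (by norm_num) (-1) (by norm_num) (hm_jc (by norm_num) (by norm_num) 7 (by norm_num) (by
      norm_num))
    (hm_jc2 (by norm_num) (by norm_num) (by norm_num) 5 (by norm_num) (by norm_num)) (by norm_num)
    fun _ m n hp h0 hF hn => jac_of hp _ ((m ^ 2 - n ^ 2) ^ 2) (0) hF (by ring) fun hw => hn
      (cert hp h0 hF hw 4 5 5 (m * n ^ 2 + 4 * m ^ 2 * n - m ^ 3 - 2 * n ^ 3) (5 * m - 2 * n) (4 *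
        m * n ^ 2 - m ^ 2 * n - 2 * m ^ 3 + n ^ 3) (2 * m + 5 * n) (by norm_num) (by ring) (by
        ring))

lemma form28_2 : Form 1000000 (fun m n => m ^ 2 + n ^ 2) (fun m n => M28 m n - 0) (1) :=
  Form.const (Zeros.quad (by norm_num) (1) (0) (1) (-1) 2 (fun m n => by ring) (by norm_num)
    (by norm_num) (by norm_num) (by norm_num) (by norm_num) (by norm_num)
    (hm_jc (by norm_num) (by norm_num) 7 (by norm_num) (by norm_num)))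
    (by norm_num) (-1) (by norm_num) (hm_jc (by norm_num) (by norm_num) 7 (by norm_num) (by
      norm_num))
    (hm_sq (by norm_num) (by norm_num)) (by norm_num)
    fun _ m n hp h0 hF hn => jac_of hp _ ((m ^ 2 - n ^ 2) ^ 2) (0) hF (by ring) fun hw => hn
      (cert hp h0 hF hw 4 4 4 (3 * m ^ 2 - n ^ 2) (1) (-m ^ 2 + 3 * n ^ 2) (1) (by norm_num) (by
        ring) (by ring))

lemma form28_3 : Form 1000000 (fun m n => n) (fun m n => N28 m n - M28 m n) (1) :=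
  Form.const (Zeros.lin (fun _ _ _ _ _ h1 h2 => by beta_reduce; gcongr) (u := 1) (by norm_num)
    (by norm_num) (fun m => 0) fun m n => by ring)
    (by norm_num) (1) (by norm_num) (hm_one (by norm_num))
    (hm_zero _) (by norm_num)
    fun _ m n hp h0 hF hn => jac_of hp _ (m ^ 4) (-4 * m ^ 2 * n ^ 5 - 10 * m ^ 4 * n ^ 3 - 4 * m ^
      6 * n + n ^ 7) hF (by ring) fun hw => hn
      (cert hp h0 hF hw 1 4 1 (0) (1) (1) (0) (by norm_num) (by ring) (by ring))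

lemma form28_4 : Form 1000000 (fun m n => m) (fun m n => N28 m n - M28 m n) (1) :=
  Form.const (Zeros.lin (F := fun _ n => n) (fun _ _ _ _ _ _ h2 => h2) (u := 1) (by norm_num)
    (by norm_num) (fun _ => 0) fun m n => by ring).swap
    (by norm_num) (1) (by norm_num) (hm_one (by norm_num))
    (hm_zero _) (by norm_num)
    fun _ m n hp h0 hF hn => jac_of hp _ (n ^ 4) (-4 * m * n ^ 6 - 10 * m ^ 3 * n ^ 4 - 4 * m ^ 5 *
      n ^ 2 + m ^ 7) hF (by ring) fun hw => hn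
      (cert hp h0 hF hw 1 1 4 (1) (0) (0) (1) (by norm_num) (by ring) (by ring))

lemma form28_5 : Form 1000000 (fun m n => n - m) (fun m n => 0 - N28 m n) (1) :=
  Form.const (Zeros.lin (fun _ _ _ _ _ h1 h2 => by beta_reduce; gcongr) (u := 1) (by norm_num)
    (by norm_num) (fun m => -m) fun m n => by ring)
    (by norm_num) (1) (by norm_num) (hm_one (by norm_num))
    (hm_zero _) (by norm_num)
    fun _ m n hp h0 hF hn => jac_of hp _ (4 * m ^ 2 * n ^ 2) (0) hF (by ring) fun hw => hn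
      (cert hp h0 hF hw 4 4 4 (-4 * m ^ 2 * n - 4 * m ^ 3) (1) (4 * m * n ^ 2 + 4 * n ^ 3) (1) (by
        norm_num) (by ring) (by ring))

lemma form28_6 : Form 1000000 (fun m n => n + m) (fun m n => 0 - N28 m n) (1) :=
  Form.const (Zeros.lin (fun _ _ _ _ _ h1 h2 => by beta_reduce; gcongr) (u := 1) (by norm_num)
    (by norm_num) (fun m => m) fun m n => by ring)
    (by norm_num) (1) (by norm_num) (hm_one (by norm_num))
    (hm_zero _) (by norm_num)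
    fun _ m n hp h0 hF hn => jac_of hp _ (4 * m ^ 2 * n ^ 2) (0) hF (by ring) fun hw => hn
      (cert hp h0 hF hw 4 4 4 (-4 * m ^ 2 * n + 4 * m ^ 3) (1) (-4 * m * n ^ 2 + 4 * n ^ 3) (1) (by
        norm_num) (by ring) (by ring))

lemma cop28_01 {p : ℕ} {m n : ℤ} (hp : p.Prime) (h0 : 1000000 < p)
    (h1 : (p : ℤ) ∣ m ^ 2 - 2 * m * n - n ^ 2) (h2 : (p : ℤ) ∣ m ^ 2 + 2 * m * n - n ^ 2) : (p : ℤ)
      ∣ m ∧ (p : ℤ) ∣ n :=
  cert hp h0 h1 h2 4 3 3 (2 * m - n) (2 * m + n) (-m - 2 * n) (m - 2 * n) (by norm_num) (by ring)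
    (by ring)

lemma cop28_02 {p : ℕ} {m n : ℤ} (hp : p.Prime) (h0 : 1000000 < p)
    (h1 : (p : ℤ) ∣ m ^ 2 - 2 * m * n - n ^ 2) (h2 : (p : ℤ) ∣ m ^ 2 + n ^ 2) : (p : ℤ) ∣ m ∧ (p :
      ℤ) ∣ n :=
  cert hp h0 h1 h2 4 3 3 (m + n) (3 * m + n) (m - n) (-m + 3 * n) (by norm_num) (by ring) (by ring)

lemma cop28_03 {p : ℕ} {m n : ℤ} (hp : p.Prime) (h0 : 1000000 < p)
    (h1 : (p : ℤ) ∣ m ^ 2 - 2 * m * n - n ^ 2) (h2 : (p : ℤ) ∣ n) : (p : ℤ) ∣ m ∧ (p : ℤ) ∣ n :=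
  cert hp h0 h1 h2 1 2 1 (1) (2 * m + n) (0) (1) (by norm_num) (by ring) (by ring)

lemma cop28_04 {p : ℕ} {m n : ℤ} (hp : p.Prime) (h0 : 1000000 < p)
    (h1 : (p : ℤ) ∣ m ^ 2 - 2 * m * n - n ^ 2) (h2 : (p : ℤ) ∣ m) : (p : ℤ) ∣ m ∧ (p : ℤ) ∣ n :=
  cert hp h0 h1 h2 1 1 2 (0) (1) (-1) (m - 2 * n) (by norm_num) (by ring) (by ring)

lemma cop28_05 {p : ℕ} {m n : ℤ} (hp : p.Prime) (h0 : 1000000 < p)
    (h1 : (p : ℤ) ∣ m ^ 2 - 2 * m * n - n ^ 2) (h2 : (p : ℤ) ∣ n - m) : (p : ℤ) ∣ m ∧ (p : ℤ) ∣ n :=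
  cert hp h0 h1 h2 2 2 2 (-1) (-3 * m - n) (-1) (-m + n) (by norm_num) (by ring) (by ring)

lemma cop28_06 {p : ℕ} {m n : ℤ} (hp : p.Prime) (h0 : 1000000 < p)
    (h1 : (p : ℤ) ∣ m ^ 2 - 2 * m * n - n ^ 2) (h2 : (p : ℤ) ∣ n + m) : (p : ℤ) ∣ m ∧ (p : ℤ) ∣ n :=
  cert hp h0 h1 h2 2 2 2 (1) (m + n) (1) (-m + 3 * n) (by norm_num) (by ring) (by ring)

lemma cop28_12 {p : ℕ} {m n : ℤ} (hp : p.Prime) (h0 : 1000000 < p)
    (h1 : (p : ℤ) ∣ m ^ 2 + 2 * m * n - n ^ 2) (h2 : (p : ℤ) ∣ m ^ 2 + n ^ 2) : (p : ℤ) ∣ m ∧ (p :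
      ℤ) ∣ n :=
  cert hp h0 h1 h2 4 3 3 (m - n) (3 * m - n) (-m - n) (m + 3 * n) (by norm_num) (by ring) (by ring)

lemma cop28_13 {p : ℕ} {m n : ℤ} (hp : p.Prime) (h0 : 1000000 < p)
    (h1 : (p : ℤ) ∣ m ^ 2 + 2 * m * n - n ^ 2) (h2 : (p : ℤ) ∣ n) : (p : ℤ) ∣ m ∧ (p : ℤ) ∣ n :=
  cert hp h0 h1 h2 1 2 1 (1) (-2 * m + n) (0) (1) (by norm_num) (by ring) (by ring)

lemma cop28_14 {p : ℕ} {m n : ℤ} (hp : p.Prime) (h0 : 1000000 < p)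
    (h1 : (p : ℤ) ∣ m ^ 2 + 2 * m * n - n ^ 2) (h2 : (p : ℤ) ∣ m) : (p : ℤ) ∣ m ∧ (p : ℤ) ∣ n :=
  cert hp h0 h1 h2 1 1 2 (0) (1) (-1) (m + 2 * n) (by norm_num) (by ring) (by ring)

lemma cop28_15 {p : ℕ} {m n : ℤ} (hp : p.Prime) (h0 : 1000000 < p)
    (h1 : (p : ℤ) ∣ m ^ 2 + 2 * m * n - n ^ 2) (h2 : (p : ℤ) ∣ n - m) : (p : ℤ) ∣ m ∧ (p : ℤ) ∣ n :=
  cert hp h0 h1 h2 2 2 2 (1) (-m + n) (1) (m + 3 * n) (by norm_num) (by ring) (by ring)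

lemma cop28_16 {p : ℕ} {m n : ℤ} (hp : p.Prime) (h0 : 1000000 < p)
    (h1 : (p : ℤ) ∣ m ^ 2 + 2 * m * n - n ^ 2) (h2 : (p : ℤ) ∣ n + m) : (p : ℤ) ∣ m ∧ (p : ℤ) ∣ n :=
  cert hp h0 h1 h2 2 2 2 (-1) (3 * m - n) (-1) (m + n) (by norm_num) (by ring) (by ring)

lemma cop28_23 {p : ℕ} {m n : ℤ} (hp : p.Prime) (h0 : 1000000 < p)
    (h1 : (p : ℤ) ∣ m ^ 2 + n ^ 2) (h2 : (p : ℤ) ∣ n) : (p : ℤ) ∣ m ∧ (p : ℤ) ∣ n :=
  cert hp h0 h1 h2 1 2 1 (1) (-n) (0) (1) (by norm_num) (by ring) (by ring)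

lemma cop28_24 {p : ℕ} {m n : ℤ} (hp : p.Prime) (h0 : 1000000 < p)
    (h1 : (p : ℤ) ∣ m ^ 2 + n ^ 2) (h2 : (p : ℤ) ∣ m) : (p : ℤ) ∣ m ∧ (p : ℤ) ∣ n :=
  cert hp h0 h1 h2 1 1 2 (0) (1) (1) (-m) (by norm_num) (by ring) (by ring)

lemma cop28_25 {p : ℕ} {m n : ℤ} (hp : p.Prime) (h0 : 1000000 < p)
    (h1 : (p : ℤ) ∣ m ^ 2 + n ^ 2) (h2 : (p : ℤ) ∣ n - m) : (p : ℤ) ∣ m ∧ (p : ℤ) ∣ n :=
  cert hp h0 h1 h2 2 2 2 (1) (-m - n) (1) (m + n) (by norm_num) (by ring) (by ring)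

lemma cop28_26 {p : ℕ} {m n : ℤ} (hp : p.Prime) (h0 : 1000000 < p)
    (h1 : (p : ℤ) ∣ m ^ 2 + n ^ 2) (h2 : (p : ℤ) ∣ n + m) : (p : ℤ) ∣ m ∧ (p : ℤ) ∣ n :=
  cert hp h0 h1 h2 2 2 2 (1) (m - n) (1) (-m + n) (by norm_num) (by ring) (by ring)

lemma cop28_34 {p : ℕ} {m n : ℤ} (hp : p.Prime) (h0 : 1000000 < p)
    (h1 : (p : ℤ) ∣ n) (h2 : (p : ℤ) ∣ m) : (p : ℤ) ∣ m ∧ (p : ℤ) ∣ n :=
  cert hp h0 h1 h2 1 1 1 (0) (1) (1) (0) (by norm_num) (by ring) (by ring)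

lemma cop28_35 {p : ℕ} {m n : ℤ} (hp : p.Prime) (h0 : 1000000 < p)
    (h1 : (p : ℤ) ∣ n) (h2 : (p : ℤ) ∣ n - m) : (p : ℤ) ∣ m ∧ (p : ℤ) ∣ n :=
  cert hp h0 h1 h2 1 1 1 (1) (-1) (1) (0) (by norm_num) (by ring) (by ring)

lemma cop28_36 {p : ℕ} {m n : ℤ} (hp : p.Prime) (h0 : 1000000 < p)
    (h1 : (p : ℤ) ∣ n) (h2 : (p : ℤ) ∣ n + m) : (p : ℤ) ∣ m ∧ (p : ℤ) ∣ n :=
  cert hp h0 h1 h2 1 1 1 (-1) (1) (1) (0) (by norm_num) (by ring) (by ring)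

lemma cop28_45 {p : ℕ} {m n : ℤ} (hp : p.Prime) (h0 : 1000000 < p)
    (h1 : (p : ℤ) ∣ m) (h2 : (p : ℤ) ∣ n - m) : (p : ℤ) ∣ m ∧ (p : ℤ) ∣ n :=
  cert hp h0 h1 h2 1 1 1 (1) (0) (1) (1) (by norm_num) (by ring) (by ring)

lemma cop28_46 {p : ℕ} {m n : ℤ} (hp : p.Prime) (h0 : 1000000 < p)
    (h1 : (p : ℤ) ∣ m) (h2 : (p : ℤ) ∣ n + m) : (p : ℤ) ∣ m ∧ (p : ℤ) ∣ n :=
  cert hp h0 h1 h2 1 1 1 (1) (0) (-1) (1) (by norm_num) (by ring) (by ring)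

lemma cop28_56 {p : ℕ} {m n : ℤ} (hp : p.Prime) (h0 : 1000000 < p)
    (h1 : (p : ℤ) ∣ n - m) (h2 : (p : ℤ) ∣ n + m) : (p : ℤ) ∣ m ∧ (p : ℤ) ∣ n :=
  cert hp h0 h1 h2 2 1 1 (-1) (1) (1) (1) (by norm_num) (by ring) (by ring)

lemma fam28 : ∃ p₀ K c₀ st bad μ,
    Fam p₀ K c₀ (fun m n => ![0, M28 m n, N28 m n]) st bad μ := by
  have H : Forms (κ := Fin 7) 1000000 (fun m n => ![0, M28 m n, N28 m n])
      ![fun m n => m ^ 2 - 2 * m * n - n ^ 2, fun m n => m ^ 2 + 2 * m * n - n ^ 2, fun m n => m ^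
        2 + n ^ 2, fun m n => n, fun m n => m, fun m n => n - m, fun m n => n + m]
      ![0, 0, 0, 1, 1, 2, 2] ![1, 1, 2, 4, 4, 4, 4] ![-1, -16, 1]
      ![1 / 2, 1 / 2, 1, 1, 1, 1, 1] := by
    refine ⟨by simp, fun k => ?_, fun m n i => ?_, by decide, by decide,
      fun p j k m n hp h0 hjk h1 h2 => ?_, fun i => ?_, fun i => ?_⟩
    · fin_cases k
      exacts [form28_0, form28_1, form28_2, form28_3, form28_4, form28_5, form28_6]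
    · rw [prod_filter, Fin.prod_univ_seven]
      fin_cases i <;> simp <;> ring
    · fin_cases j <;> fin_cases k
      exacts [absurd rfl hjk, cop28_01 hp h0 h1 h2, cop28_02 hp h0 h1 h2, cop28_03 hp h0 h1 h2,
        cop28_04 hp h0 h1 h2, cop28_05 hp h0 h1 h2, cop28_06 hp h0 h1 h2, cop28_01 hp h0 h2 h1,
        absurd rfl hjk, cop28_12 hp h0 h1 h2, cop28_13 hp h0 h1 h2, cop28_14 hp h0 h1 h2, cop28_15
        hp h0 h1 h2, cop28_16 hp h0 h1 h2, cop28_02 hp h0 h2 h1, cop28_12 hp h0 h2 h1, absurd rfl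
        hjk, cop28_23 hp h0 h1 h2, cop28_24 hp h0 h1 h2, cop28_25 hp h0 h1 h2, cop28_26 hp h0 h1
        h2, cop28_03 hp h0 h2 h1, cop28_13 hp h0 h2 h1, cop28_23 hp h0 h2 h1, absurd rfl hjk,
        cop28_34 hp h0 h1 h2, cop28_35 hp h0 h1 h2, cop28_36 hp h0 h1 h2, cop28_04 hp h0 h2 h1,
        cop28_14 hp h0 h2 h1, cop28_24 hp h0 h2 h1, cop28_34 hp h0 h2 h1, absurd rfl hjk, cop28_45
        hp h0 h1 h2, cop28_46 hp h0 h1 h2, cop28_05 hp h0 h2 h1, cop28_15 hp h0 h2 h1, cop28_25 hp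
        h0 h2 h1, cop28_35 hp h0 h2 h1, cop28_45 hp h0 h2 h1, absurd rfl hjk, cop28_56 hp h0 h1 h2,
        cop28_06 hp h0 h2 h1, cop28_16 hp h0 h2 h1, cop28_26 hp h0 h2 h1, cop28_36 hp h0 h2 h1,
        cop28_46 hp h0 h2 h1, cop28_56 hp h0 h2 h1, absurd rfl hjk]
    · rw [sum_filter, sum_filter, Fin.sum_univ_seven, Fin.sum_univ_seven]
      fin_cases i <;> simp [Nat.odd_iff] <;> norm_num
    · rw [sum_filter, Fin.sum_univ_seven]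
      fin_cases i <;> simp [Nat.odd_iff] <;> norm_num
  exact ⟨_, _, _, H.fam⟩

lemma aux28 : (∀ m n, IsCoprime m n → ∃ U W, U * M28 m n + W * N28 m n = (16 : ℕ)) ∧
    (∀ T m n : ℤ, 1 ≤ T → |M28 m n| ≤ T ^ 8 → |N28 m n| ≤ T ^ 8 →
      |m| ≤ (160 : ℕ) * T ∧ |n| ≤ ((160 : ℕ) * T) ^ 1) ∧
    ∀ T m n : ℤ, 1 ≤ T → |m| ≤ T → |n| ≤ T ^ 1 →
      |M28 m n| ≤ (160 : ℕ) * T ^ 8 ∧ |N28 m n| ≤ (160 : ℕ) * T ^ 8 :=
  p1_aux 6 [-1, 0, 4, 0, -6, 0, 4, 0, -1] [0, 0, 0, 0, -16, 0, 0, 0, 0]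
    [0, 0, 0, 0, -64, 0, -16] [4, 0, -15, 0, 20, 0, -10]
    [-16, 0, -64, 0, 0, 0, 0] [-10, 0, 20, 0, -15, 0, 4]
    (by norm_num) (by norm_num) 80 (by norm_num)
    (fun m n => by simp only [hf, List.length]; ring)
    (fun m n => by simp only [hf, List.length]; ring)
    (by decide) (by decide) (by decide) (by decide) (by decide) (by decide) (by norm_num)
    (fun m n => by simp only [hf, List.length]; ring)
    (fun m n => by simp only [hf, List.length]; ring)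

end Pool.Agent.Lib.MP_788af2_nt
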