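import Pool.Agent.Lib.MP_788af2_nt.FamAux

/-!
Local data of the family with torsion label 4.
-/

namespace Pool.Agent.Lib.MP_788af2_nt

open Finset

/-- First root difference. -/
abbrev M4 (m n : ℤ) : ℤ := m ^ 2

/-- Second root difference. -/
abbrev N4 (m n : ℤ) : ℤ := m ^ 2 - n

lemma form4_0 : Form 1000000 (fun m n => n) (fun m n => M4 m n - 0) (1) :=
  Form.const (Zeros.lin (fun _ _ _ _ _ h1 h2 => by beta_reduce; gcongr) (u := 1) (by norm_num)
    (by norm_num) (fun m => 0) fun m n => by ring)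
    (by norm_num) (1) (by norm_num) (hm_one (by norm_num))
    (hm_zero _) (by norm_num)
    fun _ m n hp h0 hF hn => jac_of hp _ (m) (0) hF (by ring) fun hw => hn
      (cert hp h0 hF hw 1 1 1 (0) (1) (1) (0) (by norm_num) (by ring) (by ring))

lemma form4_1 : Form 1000000 (fun m n => m ^ 2 - n) (fun m n => N4 m n - M4 m n) (1 / 2) :=
  Form.const (Zeros.lin (fun _ _ _ _ _ h1 h2 => by beta_reduce; gcongr) (u := -1) (by norm_num)
    (by norm_num) (fun m => m ^ 2) fun m n => by ring)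
    (by norm_num) (-1) (by norm_num) (hm_jc (by norm_num) (by norm_num) 7 (by norm_num) (by
      norm_num))
    (hm_zero _) (by norm_num)
    fun _ m n hp h0 hF hn => jac_of hp _ (m) (1) hF (by ring) fun hw => hn
      (cert hp h0 hF hw 1 1 1 (0) (1) (-1) (m) (by norm_num) (by ring) (by ring))

lemma form4_2 : Form 1000000 (fun m n => m) (fun m n => 0 - N4 m n) (1 / 2) :=
  (Form.bal (F := fun m n => n) (G := fun m n => 0 - N4 n m) (by norm_num)
    (fun _ _ _ _ _ h1 h2 => by beta_reduce; gcongr) (u := 1) (v := 1) (by norm_num)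
    (by norm_num) (by norm_num) (by norm_num) (fun m => 0) (fun m n => by ring)
    fun _ m n hp _ hF => jac_of' hp _ (-n) hF (by ring)).swap

lemma cop4_01 {p : ℕ} {m n : ℤ} (hp : p.Prime) (h0 : 1000000 < p)
    (h1 : (p : ℤ) ∣ n) (h2 : (p : ℤ) ∣ m ^ 2 - n) : (p : ℤ) ∣ m ∧ (p : ℤ) ∣ n :=
  cert hp h0 h1 h2 1 2 1 (1) (1) (1) (0) (by norm_num) (by ring) (by ring)

lemma cop4_02 {p : ℕ} {m n : ℤ} (hp : p.Prime) (h0 : 1000000 < p)
    (h1 : (p : ℤ) ∣ n) (h2 : (p : ℤ) ∣ m) : (p : ℤ) ∣ m ∧ (p : ℤ) ∣ n :=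
  cert hp h0 h1 h2 1 1 1 (0) (1) (1) (0) (by norm_num) (by ring) (by ring)

lemma cop4_12 {p : ℕ} {m n : ℤ} (hp : p.Prime) (h0 : 1000000 < p)
    (h1 : (p : ℤ) ∣ m ^ 2 - n) (h2 : (p : ℤ) ∣ m) : (p : ℤ) ∣ m ∧ (p : ℤ) ∣ n :=
  cert hp h0 h1 h2 1 1 1 (0) (1) (-1) (m) (by norm_num) (by ring) (by ring)

lemma fam4 : ∃ p₀ K c₀ st bad μ,
    Fam p₀ K c₀ (fun m n => ![0, M4 m n, N4 m n]) st bad μ := by
  have H : Forms (κ := Fin 3) 1000000 (fun m n => ![0, M4 m n, N4 m n])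
      ![fun m n => n, fun m n => m ^ 2 - n, fun m n => m]
      ![0, 1, 2] ![1, 1, 2] ![1, 1, -1]
      ![1, 1 / 2, 1 / 2] := by
    refine ⟨by simp, fun k => ?_, fun m n i => ?_, by decide, by decide,
      fun p j k m n hp h0 hjk h1 h2 => ?_, fun i => ?_, fun i => ?_⟩
    · fin_cases k
      exacts [form4_0, form4_1, form4_2]
    · rw [prod_filter, Fin.prod_univ_three]
      fin_cases i <;> simp <;> ring
    · fin_cases j <;> fin_cases k
      exacts [absurd rfl hjk, cop4_01 hp h0 h1 h2, cop4_02 hp h0 h1 h2, cop4_01 hp h0 h2 h1, absurd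
        rfl hjk, cop4_12 hp h0 h1 h2, cop4_02 hp h0 h2 h1, cop4_12 hp h0 h2 h1, absurd rfl hjk]
    · rw [sum_filter, sum_filter, Fin.sum_univ_three, Fin.sum_univ_three]
      fin_cases i <;> simp [Nat.odd_iff] <;> norm_num
    · rw [sum_filter, Fin.sum_univ_three]
      fin_cases i <;> simp [Nat.odd_iff] <;> norm_num
  exact ⟨_, _, _, H.fam⟩

end Pool.Agent.Lib.MP_788af2_nt
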