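import Pool.Agent.Lib.MP_788af2_nt.Loc22
import Pool.Agent.Lib.MP_788af2_nt.Loc24
import Pool.Agent.Lib.MP_788af2_nt.Loc26
import Pool.Agent.Lib.MP_788af2_nt.Loc28
import Pool.Agent.Lib.MP_788af2_nt.Loc4
import Pool.Agent.Lib.MP_788af2_nt.Loc8
import Pool.Agent.Lib.MP_788af2_nt.Loc12

/-!
The parametrisations of the seven families.
-/

namespace Pool.Agent.Lib.MP_788af2_nt

open Polynomial WeierstrassCurve.Affine.Point

lemma dlt {cy : Bool} {x y : ℚ} (h : x * y * (x - y) ≠ 0) :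
    (cv (aa cy x y) (bb cy x y) 0).Δ ≠ 0 := disc0 (bb_ne h).1 (bb_ne h).2

lemma up_int {cy : Bool} {A B : ℤ} {a b x y : ℚ} (hA : A = b - a ^ 2 / 3)
    (hB : B = 2 * a ^ 3 / 27 - a * b / 3) (ha : aa cy x y = a) (hb : bb cy x y = b) :
    (A = AA cy x y ∧ B = BB cy x y) ∧ (∃ z : ℤ, x = z) ∧ ∃ z : ℤ, y = z := by
  have h : A = AA cy x y ∧ B = BB cy x y := by rw [AA, BB, ha, hb]; exact ⟨hA, hB⟩
  exact ⟨h, int_AB h.1 h.2⟩

theorem param22 : Param 2 2 false 1 1 M22 N22 1 X 1 2 where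
  wpos := one_pos
  dpos := one_pos
  Rpos := one_pos
  Cpos := two_pos
  up A B h hH := by
    obtain ⟨a, b, P, Q, h0, hPQ, hT, hA, hB⟩ := move (k := 1) one_pos hH
    obtain ⟨p1, p2, p3⟩ := sub_two hPQ
    obtain ⟨r, -, hr⟩ := up2 p1 p2 (hT ▸ p3)
    obtain ⟨h1, ⟨x, hx⟩, y, hy⟩ := up_int (cy := false) (x := r) (y := -a - r) hA hB
      (by simp [aa]) (by simp only [bb, Bool.false_eq_true, if_false]; linear_combination -hr)
    exact ⟨x, y, 1, Or.inr rfl, by simpa [← hx, ← hy] using h1⟩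
  low m n hm hd := by
    have h0 := nonsing_of_disc (x := 0) (y := 0) (dlt (cy := false) hd) (by ring)
    obtain ⟨P, p1, p2, p3⟩ := low2 (dlt hd) (left_ne_zero_of_mul (left_ne_zero_of_mul hd))
      (by simp only [aa, bb, Bool.false_eq_true, if_false]; ring) h0
    exact has_two (c := 1) one_pos (ord_two_pow (two_tors h0) (some_ne_zero _) 0 (one_nsmul _))
      p1 p2 (by simpa using p3)
  bez := aux22.1
  size := aux22.2.1
  growth := aux22.2.2
  hM m n hm := by simp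
  hN m n hm := by have : (m : ℚ) ≠ 0 := by positivity
                  simp; field_simp
  cusp := by simp
  nondeg := ⟨2, by norm_num⟩
  fam := fam22

theorem param4 : Param 1 4 true 2 2 M4 N4 1 (1 - X) 1 2 where
  wpos := two_pos
  dpos := two_pos
  Rpos := one_pos
  Cpos := two_pos
  up A B h hH := by
    obtain ⟨a, b, P, Q, h0, hPQ, hT, hA, hB⟩ := move (k := 2) two_pos hH
    obtain ⟨t, s, -, -, ha, hb⟩ := up4 hT
    obtain ⟨h1, ⟨x, hx⟩, y, hy⟩ := up_int (cy := true) (x := t ^ 2) (y := t ^ 2 - 4 * s) hA hB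
      (by simp only [aa, if_true, ha]; ring) (by simp only [bb, if_true, hb]; ring)
    obtain ⟨m, hm⟩ := int_of_monic (r := t) 0 (-x) 0 (by push_cast; rw [← hx]; ring)
    refine ⟨m, x - y, 1, Or.inr rfl, ?_⟩
    push_cast
    rw [← hm, ← hx, ← hy]
    simpa using h1
  low m n hm hd := by
    obtain ⟨h1, h0, h2⟩ := low4 (dlt (cy := true) hd) (t := m) (s := n / 4)
      (by simp only [aa, if_true]; push_cast; ring) (by simp only [bb, if_true]; push_cast; ring)
    exact has_one four_pos (ord_two_pow (two_tors h0) (some_ne_zero _) 1 h2)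
  bez m n h := by
    obtain ⟨x, y, hxy⟩ := h.pow_left (m := 2)
    exact ⟨x + y, -y, by linear_combination hxy⟩
  size T m n hT h1 h2 := by
    rw [abs_le] at h1 h2
    exact ⟨abs_le.2 (abs_le_of_sq_le_sq' (by push_cast; nlinarith) (by positivity)),
      abs_le.2 ⟨by push_cast; nlinarith, by push_cast; nlinarith⟩⟩
  growth T m n hT h1 h2 := by
    have h3 := sq_le_sq' (abs_le.1 h1).1 (abs_le.1 h1).2
    rw [abs_le] at h2
    exact ⟨abs_le.2 ⟨by push_cast; nlinarith, by push_cast; nlinarith⟩,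
      abs_le.2 ⟨by push_cast; nlinarith, by push_cast; nlinarith⟩⟩
  hM m n hm := by simp
  hN m n hm := by have : (m : ℚ) ≠ 0 := by positivity
                  simp; field_simp
  cusp := by simp
  nondeg := ⟨2, by norm_num⟩
  fam := fam4

lemma hM24 (m n : ℤ) (hm : 0 < m) :
    (M24 m n : ℚ) = m ^ 2 * (-1 : ℚ[X]).eval (n / m ^ 1 : ℚ) := by simp

lemma hN24 (m n : ℤ) (hm : 0 < m) :
    (N24 m n : ℚ) = m ^ 2 * (-X ^ 2 : ℚ[X]).eval (n / m ^ 1 : ℚ) := by
  have : (m : ℚ) ≠ 0 := by positivity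
  simp; field_simp

theorem param24 : Param 2 4 false 1 2 M24 N24 (-1) (-X ^ 2) 1 2 where
  wpos := one_pos
  dpos := two_pos
  Rpos := one_pos
  Cpos := two_pos
  up A B h hH := by
    obtain ⟨a, b, P, Q, h0, hPQ, hT, hA, hB⟩ := move (k := 2) two_pos hH
    obtain ⟨p1, p2, p3⟩ := sub_two hPQ
    obtain ⟨r, hr0, hr⟩ := up2 p1 p2 (hT ▸ p3)
    obtain ⟨t, s, -, -, ha, hb⟩ := up4 hT
    obtain ⟨x, y, hx, rfl, rfl⟩ := up24 ha hb (nondeg_ab h hA hB).2 hr0 hr
    exact up_of_theta 1 hM24 hN24 hA hB (y / x) x (-x ^ 2) (-y ^ 2) (by simp)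
      (by simp; field_simp) (by simp only [aa, Bool.false_eq_true, if_false, ha]; ring)
      (by simp only [bb, Bool.false_eq_true, if_false, hb]; ring)
  low m n hm hd := by
    obtain ⟨h1, h0, h2⟩ := low4 (dlt (cy := false) hd) (t := m + n) (s := m * n)
      (by simp only [aa, Bool.false_eq_true, if_false]; push_cast; ring)
      (by simp only [bb, Bool.false_eq_true, if_false]; push_cast; ring)
    obtain ⟨P, p1, p2, p3⟩ := low2 (dlt hd) (left_ne_zero_of_mul (left_ne_zero_of_mul hd))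
      (by simp only [aa, bb, Bool.false_eq_true, if_false]; ring) h0
    exact has_two (c := 2) two_pos (ord_two_pow (two_tors h0) (some_ne_zero _) 1 h2) p1 p2
      (h2 ▸ p3)
  bez := aux24.1
  size := aux24.2.1
  growth := aux24.2.2
  hM := hM24
  hN := hN24
  cusp := by simp
  nondeg := ⟨2, by norm_num⟩
  fam := fam24

lemma hM26 (m n : ℤ) (hm : 0 < m) :
    (M26 m n : ℚ) = m ^ 4 * (-(1 + 2 * X) : ℚ[X]).eval (n / m ^ 1 : ℚ) := by
  have : (m : ℚ) ≠ 0 := by positivity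
  simp; field_simp; ring

lemma hN26 (m n : ℤ) (hm : 0 < m) :
    (N26 m n : ℚ) = m ^ 4 * (-(X ^ 3 * (2 + X)) : ℚ[X]).eval (n / m ^ 1 : ℚ) := by
  have : (m : ℚ) ≠ 0 := by positivity
  simp; field_simp

theorem param26 : Param 2 6 false 1 4 M26 N26 (-(1 + 2 * X)) (-(X ^ 3 * (2 + X))) 3 58 where
  wpos := one_pos
  dpos := four_pos
  Rpos := three_pos
  Cpos := by norm_num
  up A B h hH := by
    obtain ⟨a, b, P, Q, h0, hPQ, hT, hA, hB⟩ := move (k := 3) three_pos hH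
    obtain ⟨p1, p2, p3⟩ := sub_two hPQ
    obtain ⟨r, hr0, hr⟩ := up2 p1 p2 (hT ▸ p3)
    obtain ⟨q1, q2⟩ := sub_three (k := 2) two_pos hPQ
    obtain ⟨hb0, hd⟩ := nondeg_ab h hA hB
    obtain ⟨l, w, hw, ha, hb⟩ := up3 q1 q2 hb0
    have h1 : (l * r + w ^ 3) ^ 2 = (w ^ 2 - r) ^ 3 := by
      rw [ha, hb] at hr; linear_combination r * hr
    have h2 : w ^ 2 - r ≠ 0 := fun h2 => by
      have h3 : l * r + w ^ 3 = 0 := by simpa [h2] using h1
      have h4 : l = -w := mul_left_cancel₀ (pow_ne_zero 2 hw) (by linear_combination h3 + l * h2)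
      exact hd (by rw [ha, hb, h4]; ring)
    obtain ⟨z, hz⟩ : ∃ z, l * r + w ^ 3 = z * (w ^ 2 - r) := ⟨_, (div_mul_cancel₀ _ h2).symm⟩
    have h3 : r = (w - z) * (w + z) := mul_left_cancel₀ (pow_ne_zero 2 h2) (by
      rw [hz] at h1; linear_combination h1)
    subst h3
    have h4 := right_ne_zero_of_mul hr0
    have h5 : l = -(z ^ 2 + z * w + w ^ 2) / (w + z) := by
      rw [eq_div_iff h4]
      exact mul_left_cancel₀ (left_ne_zero_of_mul hr0) (by linear_combination hz)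
    exact up_of_theta 2 hM26 hN26 hA hB (-w / (w + z)) (w + z) ((w - z) * (w + z))
      (w ^ 3 * (w + 2 * z) / (w + z) ^ 2) (by simp; field_simp; ring) (by simp; field_simp; ring)
      (by simp only [aa, Bool.false_eq_true, if_false, ha, h5]; field_simp; ring)
      (by simp only [bb, Bool.false_eq_true, if_false, hb, h5]; field_simp; ring)
  low m n hm hd := by
    have h0 := nonsing_of_disc (x := 0) (y := 0) (dlt (cy := false) hd) (by ring)
    obtain ⟨P, p1, p2, p3⟩ := low2 (dlt hd) (left_ne_zero_of_mul (left_ne_zero_of_mul hd))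
      (by simp only [aa, bb, Bool.false_eq_true, if_false]; ring) h0
    obtain ⟨R, q1, q2⟩ := low3 (dlt (cy := false) hd) (l := m ^ 2 + m * n + n ^ 2) (w := m * n)
      (by simp only [aa, Bool.false_eq_true, if_false]; push_cast; ring)
      (by simp only [bb, Bool.false_eq_true, if_false]; push_cast; ring)
    refine has_two (c := 3) three_pos
      (ord_mul_three (ord_two_pow (two_tors h0) (some_ne_zero _) 0 (one_nsmul _)) q1 q2) p1 p2 ?_
    rwa [nsmul_add, q1, add_zero, succ_nsmul, two_tors, zero_add]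
  bez := aux26.1
  size := aux26.2.1
  growth := aux26.2.2
  hM := hM26
  hN := hN26
  cusp := by simp
  nondeg := ⟨2, by norm_num⟩
  fam := fam26

lemma hM28 (m n : ℤ) (hm : 0 < m) :
    (M28 m n : ℚ) = m ^ 8 * (-(1 - X ^ 2) ^ 4 : ℚ[X]).eval (n / m ^ 1 : ℚ) := by
  have : (m : ℚ) ≠ 0 := by positivity
  simp; field_simp

lemma hN28 (m n : ℤ) (hm : 0 < m) :
    (N28 m n : ℚ) = m ^ 8 * (-(2 * X) ^ 4 : ℚ[X]).eval (n / m ^ 1 : ℚ) := by
  have : (m : ℚ) ≠ 0 := by positivity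
  simp; field_simp

theorem param28 : Param 2 8 false 1 8 M28 N28 (-(1 - X ^ 2) ^ 4) (-(2 * X) ^ 4) 16 160 where
  wpos := one_pos
  dpos := by norm_num
  Rpos := by norm_num
  Cpos := by norm_num
  up A B h hH := by
    obtain ⟨a, b, P, Q, h0, hPQ, hT, hA, hB⟩ := move (k := 4) four_pos hH
    obtain ⟨p1, p2, p3⟩ := sub_two hPQ
    obtain ⟨r, hr0, hr⟩ := up2 p1 p2 (hT ▸ p3)
    obtain ⟨hb0, hd⟩ := nondeg_ab h hA hB
    obtain ⟨t, s, h1, h2, ha, hb⟩ := up4 (Q := 2 • Q) (by rw [← mul_nsmul', hT])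
    have hs : s ≠ 0 := by rintro rfl; exact hb0 (by simpa using hb)
    obtain ⟨z, w, -, hz, hw⟩ := up8 h2 hb hs
    obtain ⟨x, y, hx, rfl, rfl⟩ := up24 ha hb hd hr0 hr
    have hz0 : z ≠ 0 := by rintro rfl; exact hs (by simpa using hz)
    obtain rfl : y = z ^ 2 / x := by field_simp; linear_combination hz
    have h3 : x + z ≠ 0 := fun h3 => hd (by
      obtain rfl : z = -x := by linear_combination h3
      rw [ha, hb]; field_simp; ring)
    obtain ⟨g, hg⟩ : ∃ g, g ^ 2 = x ^ 2 + z ^ 2 :=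
      ⟨(w - z - x - z ^ 2 / x) * x / (x + z), by
        field_simp at hw ⊢; linear_combination x * hw⟩
    have h4 : g - x ≠ 0 := fun h4 => hz0 (pow_eq_zero_iff two_ne_zero |>.1 (by
      linear_combination (g + x) * h4 - hg))
    have h5 : 1 - ((g - x) / z) ^ 2 = 2 * x * (g - x) / z ^ 2 := by
      field_simp; linear_combination -hg
    exact up_of_theta 4 hM28 hN28 hA hB ((g - x) / z) (z ^ 4 / (4 * x * (g - x) ^ 2)) (-x ^ 2)
      (-(z ^ 2 / x) ^ 2) (by simp [h5]; field_simp; ring) (by simp; field_simp; ring)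
      (by simp only [aa, Bool.false_eq_true, if_false, ha]; ring)
      (by simp only [bb, Bool.false_eq_true, if_false, hb]; ring)
  low m n hm hd := by
    have ha : aa false (M28 m n) (N28 m n) =
        (-(m ^ 2 + n ^ 2) ^ 2) ^ 2 - 2 * ((m ^ 2 - n ^ 2) * (2 * m * n)) ^ 2 := by
      simp only [aa, Bool.false_eq_true, if_false]; push_cast; ring
    have hb : bb false (M28 m n) (N28 m n) = (((m ^ 2 - n ^ 2) * (2 * m * n)) ^ 2) ^ 2 := by
      simp only [bb, Bool.false_eq_true, if_false]; push_cast; ring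
    obtain ⟨h1, h0, h2⟩ := low4 (dlt hd) ha hb
    obtain ⟨Q, hQ⟩ := low8 (dlt hd) ha hb (w := 2 * m ^ 2 * (m + n) ^ 2) (by ring) h1
    obtain ⟨P, p1, p2, p3⟩ := low2 (dlt hd) (left_ne_zero_of_mul (left_ne_zero_of_mul hd))
      (by simp only [aa, bb, Bool.false_eq_true, if_false]; ring) h0
    have h3 : 2 ^ 2 • Q = .some 0 0 h0 := by rw [sq, mul_nsmul', hQ, h2]
    exact has_two (c := 4) four_pos (ord_two_pow (two_tors h0) (some_ne_zero _) 2 h3) p1 p2
      (h3 ▸ p3)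
  bez := aux28.1
  size := aux28.2.1
  growth := aux28.2.2
  hM := hM28
  hN := hN28
  cusp := by simp
  nondeg := ⟨2, by norm_num⟩
  fam := fam28

lemma hM8 (m n : ℤ) (hm : 0 < m) :
    (M8 m n : ℚ) = m ^ 4 * (1 : ℚ[X]).eval (n / m ^ 1 : ℚ) := by simp

lemma hN8 (m n : ℤ) (hm : 0 < m) :
    (N8 m n : ℚ) = m ^ 4 * (X ^ 2 * (2 - X ^ 2) : ℚ[X]).eval (n / m ^ 1 : ℚ) := by
  have : (m : ℚ) ≠ 0 := by positivity
  simp; field_simp

theorem param8 : Param 1 8 true 1 4 M8 N8 1 (X ^ 2 * (2 - X ^ 2)) 1 8 where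
  wpos := one_pos
  dpos := four_pos
  Rpos := one_pos
  Cpos := by norm_num
  up A B h hH := by
    obtain ⟨a, b, P, Q, h0, hPQ, hT, hA, hB⟩ := move (k := 4) four_pos hH
    obtain ⟨hb0, hd⟩ := nondeg_ab h hA hB
    obtain ⟨t, s, h1, h2, ha, hb⟩ := up4 (Q := 2 • Q) (by rw [← mul_nsmul', hT])
    have hs : s ≠ 0 := by rintro rfl; exact hb0 (by simpa using hb)
    obtain ⟨z, w, hw0, rfl, hw⟩ := up8 h2 hb hs
    have h3 : t = -(z - w) ^ 2 / (2 * w) := by field_simp; linear_combination hw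
    have h4 : z - w ≠ 0 := fun h4 => hd (by rw [ha, hb, h3, h4]; ring)
    exact up_of_theta 2 hM8 hN8 hA hB ((z + w) / (z - w)) t (t ^ 2) (t ^ 2 - 4 * z ^ 2)
      (by simp) (by simp [h3]; field_simp; ring) (by simp only [aa, if_true, ha]; ring)
      (by simp only [bb, if_true, hb]; ring)
  low m n hm hd := by
    have ha : aa true (M8 m n) (N8 m n) = (-m ^ 2) ^ 2 - 2 * ((n ^ 2 - m ^ 2) / 2) ^ 2 := by
      simp only [aa, if_true]; push_cast; ring
    have hb : bb true (M8 m n) (N8 m n) = (((n ^ 2 - m ^ 2) / 2) ^ 2) ^ 2 := by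
      simp only [bb, if_true]; push_cast; ring
    obtain ⟨h1, h0, h2⟩ := low4 (dlt hd) ha hb
    obtain ⟨Q, hQ⟩ := low8 (dlt hd) ha hb (w := (n - m) ^ 2 / 2) (by ring) h1
    exact has_one (by norm_num) (ord_two_pow (two_tors h0) (some_ne_zero _) 2 (Q := Q)
      (by rw [sq, mul_nsmul', hQ, h2]))
  bez := aux8.1
  size := aux8.2.1
  growth := aux8.2.2
  hM := hM8
  hN := hN8
  cusp := by simp
  nondeg := ⟨2, by norm_num⟩
  fam := fam8

lemma hM12 (m n : ℤ) (hm : 0 < m) :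
    (M12 m n : ℚ) = m ^ 8 * (16 * X ^ 2 : ℚ[X]).eval (n / m ^ 1 : ℚ) := by
  have : (m : ℚ) ≠ 0 := by positivity
  simp; field_simp

lemma hN12 (m n : ℤ) (hm : 0 < m) :
    (N12 m n : ℚ) = m ^ 8 * ((1 + X ^ 2) ^ 3 * (3 - X ^ 2) : ℚ[X]).eval (n / m ^ 1 : ℚ) := by
  have : (m : ℚ) ≠ 0 := by positivity
  simp; field_simp

theorem param12 :
    Param 1 12 true 1 8 M12 N12 (16 * X ^ 2) ((1 + X ^ 2) ^ 3 * (3 - X ^ 2)) 48 678 where
  wpos := one_pos
  dpos := by norm_num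
  Rpos := by norm_num
  Cpos := by norm_num
  up A B h hH := by
    obtain ⟨a, b, P, Q, h0, hPQ, hT, hA, hB⟩ := move (k := 6) (by norm_num) hH
    obtain ⟨hb0, hd⟩ := nondeg_ab h hA hB
    obtain ⟨t, s, -, -, ha, hb⟩ := up4 (Q := 3 • Q) (by rw [← mul_nsmul', hT])
    obtain ⟨q1, q2⟩ := sub_three (k := 4) four_pos hPQ
    obtain ⟨l, w, hw, ha', hb'⟩ := up3 q1 q2 hb0
    obtain ⟨z, rfl⟩ : ∃ z, s = w ^ 2 * z := ⟨s / w ^ 2, by field_simp⟩
    obtain rfl : l = w * (z ^ 2 - 3) / 2 :=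
      mul_left_cancel₀ (pow_ne_zero 3 hw) (by linear_combination (hb - hb') / 2)
    have ht : t ^ 2 = w ^ 2 * (z - 1) ^ 3 * (z + 3) / 4 := by linear_combination ha' - ha
    have hz : z - 1 ≠ 0 := fun hz => hd (by
      rw [hz] at ht
      rw [ha, hb]; linear_combination (t ^ 2 - 4 * w ^ 2 * z) * ht)
    have h1 : (2 * t / (w * (z - 1) ^ 2)) ^ 2 = (z + 3) / (z - 1) := by
      rw [div_pow, mul_pow, ht]; field_simp; ring
    exact up_of_theta 4 hM12 hN12 hA hB (2 * t / (w * (z - 1) ^ 2)) (w * (z - 1) ^ 2 / 8) (t ^ 2)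
      (t ^ 2 - 4 * (w ^ 2 * z)) (by simp; field_simp; ring) (by simp [h1, ht]; field_simp; ring)
      (by simp only [aa, if_true, ha]; ring) (by simp only [bb, if_true, hb]; ring)
  low m n hm hd := by
    obtain ⟨h1, h0, h2⟩ := low4 (dlt (cy := true) hd) (t := 4 * n * m ^ 3)
      (s := (n ^ 2 - m ^ 2) ^ 3 * (n ^ 2 + 3 * m ^ 2) / 4)
      (by simp only [aa, if_true]; push_cast; ring) (by simp only [bb, if_true]; push_cast; ring)
    obtain ⟨R, q1, q2⟩ := low3 (dlt (cy := true) hd) (w := (n ^ 2 - m ^ 2) ^ 2 / 2)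
      (l := ((n ^ 2 + 3 * m ^ 2) ^ 2 - 3 * (n ^ 2 - m ^ 2) ^ 2) / 4)
      (by simp only [aa, if_true]; push_cast; ring) (by simp only [bb, if_true]; push_cast; ring)
    exact has_one (by norm_num)
      (ord_mul_three (ord_two_pow (two_tors h0) (some_ne_zero _) 1 h2) q1 q2)
  bez := aux12.1
  size := aux12.2.1
  growth := aux12.2.2
  hM := hM12
  hN := hN12
  cusp := by simp
  nondeg := ⟨2, by norm_num⟩
  fam := fam12

end Pool.Agent.Lib.MP_788af2_nt
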