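import Pool.Agent.Lib.MP_788af2_nt.Expand

/-!
The first moment of a majorant of the size of the model Selmer group.
-/

namespace Pool.Agent.Lib.MP_788af2_nt

open Finset Real
open scoped NumberTheorySymbols

variable {ι : Type} [Fintype ι] [DecidableEq ι]

/-- Tilting factors. -/
def tl (a b : ℝ) (i : Fin 3) : Option (Fin 3 × Bool) → ℝ
  | some (j, c) => if j = i then (if c then 1 else a) else b
  | none => 1

/-- The tilt of a configuration of states. -/
def tilt (a b : ℝ) (i : Fin 3) (σ : ι → St) : ℝ := ∏ p, (σ p).elim 1 (tl a b i)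

/-- The majorant. -/
noncomputable def MM (q : ι → ℕ) (σ : ι → St) : ℝ :=
  1 + cnt q σ (fun T => 2 ≤ T.card) +
    ∑ i, (tilt ((8 / 9) ^ 6) ((28 / 25) ^ 6) i σ * cnt q σ (fun T => T = {i}) +
      tilt (9 / 8) (25 / 28) i σ)

lemma tl_pos {a b : ℝ} (ha : 0 < a) (hb : 0 < b) (i : Fin 3) (s : Option (Fin 3 × Bool)) :
    0 < tl a b i s := by
  rcases s with _ | ⟨j, c⟩
  · exact one_pos
  · simp only [tl]; split_ifs <;> positivity

lemma tl_le {a b : ℝ} (ha : a ≤ 2) (hb : b ≤ 2) (i : Fin 3) (s : Option (Fin 3 × Bool)) :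
    tl a b i s ≤ 2 := by
  rcases s with _ | ⟨j, c⟩
  · exact one_le_two
  · simp only [tl]; split_ifs <;> first | assumption | norm_num

omit [DecidableEq ι] in
lemma tilt_pos {a b : ℝ} (ha : 0 < a) (hb : 0 < b) (i : Fin 3) (σ : ι → St) :
    0 < tilt a b i σ := prod_pos fun p _ => by
  rcases σ p with _ | s
  · exact one_pos
  · exact tl_pos ha hb i s

omit [DecidableEq ι] in
lemma tilt_mul (i : Fin 3) (σ : ι → St) :
    tilt ((8 / 9) ^ 6) ((28 / 25) ^ 6) i σ * tilt (9 / 8) (25 / 28) i σ ^ 6 = 1 := by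
  rw [tilt, tilt, ← prod_pow, ← prod_mul_distrib]
  refine prod_eq_one fun p _ => ?_
  rcases σ p with _ | _ | ⟨j, c⟩
  · simp
  · simp [tl]
  · simp only [Option.elim, tl]; split_ifs <;> norm_num

lemma MM_terms (q : ι → ℕ) (σ : ι → St) :
    1 ≤ MM q σ ∧ (cnt q σ (fun T => 2 ≤ T.card) : ℝ) ≤ MM q σ ∧
      ∀ i, tilt ((8 / 9) ^ 6) ((28 / 25) ^ 6) i σ * cnt q σ (fun T => T = {i}) ≤ MM q σ ∧
        tilt (9 / 8) (25 / 28) i σ ≤ MM q σ := by
  have h1 : ∀ i, 0 ≤ tilt ((8 / 9) ^ 6) ((28 / 25) ^ 6) i σ * cnt q σ (fun T => T = {i}) :=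
    fun i => mul_nonneg (tilt_pos (by norm_num) (by norm_num) i σ).le (by positivity)
  have h2 : ∀ i, 0 ≤ tilt (9 / 8) (25 / 28) i σ :=
    fun i => (tilt_pos (by norm_num) (by norm_num) i σ).le
  have h3 : (0 : ℝ) ≤ cnt q σ (fun T => 2 ≤ T.card) := by positivity
  have h4 := fun i => single_le_sum (f := fun i => tilt ((8 / 9) ^ 6) ((28 / 25) ^ 6) i σ *
    cnt q σ (fun T => T = {i}) + tilt (9 / 8) (25 / 28) i σ)
    (fun i _ => add_nonneg (h1 i) (h2 i)) (mem_univ i)
  unfold MM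
  refine ⟨?_, ?_, fun i => ⟨?_, ?_⟩⟩
  · linarith [h1 0, h2 0, h4 0]
  · linarith [h1 0, h2 0, h4 0]
  · linarith [h1 i, h2 i, h4 i]
  · linarith [h1 i, h2 i, h4 i]

lemma NN_le_cnt (q : ι → ℕ) (σ : ι → St) :
    NN q σ ≤ 1 + cnt q σ (fun T => 2 ≤ T.card) + ∑ i, cnt q σ (fun T => T = {i}) := by
  classical
  unfold NN cnt
  refine le_trans (card_le_card (t := {∅} ∪ (univ.filter fun S : Finset ι =>
    (∀ p, okAt q σ S p) ∧ 2 ≤ (tyS σ S).card) ∪ univ.biUnion fun i => univ.filter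
      fun S : Finset ι => (∀ p, okAt q σ S p) ∧ tyS σ S = {i}) ?_) ?_
  · intro S hS
    have hok := (mem_filter.1 hS).2
    simp only [mem_union, mem_singleton, mem_filter, mem_univ, true_and, mem_biUnion]
    rcases lt_trichotomy (tyS σ S).card 1 with h | h | h
    · left; left
      rw [eq_empty_iff_forall_notMem]
      intro p hp
      have h1 := hok p
      unfold okAt at h1
      rcases h5 : σ p with _ | _ | ⟨i, b⟩
      · rw [h5] at h1; exact h1 hp
      · rw [h5] at h1; exact h1 hp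
      · have : i ∈ tyS σ S := mem_filter.2 ⟨mem_univ _, p, hp, by simp [h5]⟩
        have := card_pos.2 ⟨i, this⟩
        omega
    · right
      obtain ⟨i, hi⟩ := card_eq_one.1 h
      exact ⟨i, hok, hi⟩
    · left; right; exact ⟨hok, h⟩
  · refine (card_union_le _ _).trans (add_le_add ((card_union_le _ _).trans ?_) ?_)
    · rw [card_singleton]; gcongr
    · refine card_biUnion_le.trans (le_of_eq (sum_congr rfl fun i _ => ?_))
      convert rfl

lemma NN_le_MM (q : ι → ℕ) (σ : ι → St) : (NN q σ : ℝ) + 3 ≤ 8 * MM q σ ^ 7 := by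
  obtain ⟨h1, h2, h3⟩ := MM_terms q σ
  have h4 : (NN q σ : ℝ) ≤ 1 + cnt q σ (fun T => 2 ≤ T.card) +
      ∑ i, (cnt q σ (fun T => T = {i}) : ℝ) := by exact_mod_cast NN_le_cnt q σ
  have h5 : ∀ i, (cnt q σ (fun T => T = {i}) : ℝ) ≤ MM q σ ^ 7 := by
    intro i
    calc (cnt q σ (fun T => T = {i}) : ℝ) = (tilt ((8 / 9) ^ 6) ((28 / 25) ^ 6) i σ *
          cnt q σ (fun T => T = {i})) * tilt (9 / 8) (25 / 28) i σ ^ 6 := by
          rw [mul_right_comm, tilt_mul, one_mul]
      _ ≤ MM q σ * MM q σ ^ 6 := by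
          have := (tilt_pos (by norm_num) (by norm_num) i σ : 0 < tilt (9 / 8) (25 / 28) i σ)
          gcongr
          · exact (h3 i).1
          · exact (h3 i).2
      _ = _ := by ring
  have h6 : MM q σ ≤ MM q σ ^ 7 := le_self_pow₀ h1 (by norm_num)
  rw [Fin.sum_univ_three] at h4
  linarith [h5 0, h5 1, h5 2]

lemma cnt_le (q : ι → ℕ) (σ : ι → St) (Q : Finset (Fin 3) → Prop) :
    cnt q σ Q ≤ 2 ^ (univ.filter fun p => σ p ≠ none).card := by
  classical
  rw [← card_powerset]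
  refine card_le_card fun S hS => mem_powerset.2 fun p hp => ?_
  have h1 := (mem_filter.1 hS).2.1 p
  unfold okAt at h1
  rcases h5 : σ p with _ | s
  · rw [h5] at h1; exact absurd hp h1
  · simp [h5]

omit [DecidableEq ι] in
lemma tilt_le {a b : ℝ} (ha0 : 0 < a) (hb0 : 0 < b) (ha : a ≤ 2) (hb : b ≤ 2) (i : Fin 3)
    (σ : ι → St) : tilt a b i σ ≤ 2 ^ (univ.filter fun p => σ p ≠ none).card := by
  rw [← prod_const, prod_filter]
  refine prod_le_prod (fun p _ => ?_) fun p _ => ?_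
  · rcases σ p with _ | s
    · exact zero_le_one
    · exact (tl_pos ha0 hb0 i s).le
  · rcases σ p with _ | s
    · simp
    · simpa using tl_le ha hb i s

lemma MM_le (q : ι → ℕ) (σ : ι → St) :
    MM q σ ≤ 8 * 4 ^ (univ.filter fun p => σ p ≠ none).card := by
  set k := (univ.filter fun p => σ p ≠ none).card
  have h1 : ∀ Q, (cnt q σ Q : ℝ) ≤ 2 ^ k := fun Q => by exact_mod_cast cnt_le q σ Q
  have h2 : (2 : ℝ) ^ k ≤ 4 ^ k := by gcongr; norm_num
  have h3 : (1 : ℝ) ≤ 4 ^ k := one_le_pow₀ (by norm_num)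
  have h4 : ∀ i, tilt ((8 / 9) ^ 6) ((28 / 25) ^ 6) i σ * cnt q σ (fun T => T = {i}) +
      tilt (9 / 8) (25 / 28) i σ ≤ 2 * 4 ^ k := by
    intro i
    have h5 := tilt_le (a := 9 / 8) (b := 25 / 28) (by norm_num) (by norm_num) (by norm_num)
      (by norm_num) i σ
    have h6 := tilt_le (a := (8 / 9) ^ 6) (b := (28 / 25) ^ 6) (by norm_num) (by norm_num)
      (by norm_num) (by norm_num) i σ
    have h7 := mul_le_mul h6 (h1 fun T => T = {i}) (by positivity) (by positivity)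
    rw [← mul_pow] at h7
    norm_num at h7 ⊢
    linarith
  unfold MM
  rw [Fin.sum_univ_three]
  linarith [h1 fun T => 2 ≤ T.card, h4 0, h4 1, h4 2]

omit [DecidableEq ι] in
lemma wt_mul_tilt (q : ι → ℕ) (hw : Option (Fin 3 × Bool) → ℕ → ℝ) (a b : ℝ) (i : Fin 3)
    (σ : ι → St) : wt q hw σ * tilt a b i σ = wt q (fun s m => tl a b i s * hw s m) σ := by
  rw [wt, wt, tilt, ← prod_mul_distrib]
  refine prod_congr rfl fun p _ => ?_
  rcases σ p with _ | s <;> simp [mul_comm]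

lemma sum_wt_le {V : Type} [Fintype V] (q : ι → ℕ) (w : V → ℕ → ℝ) (h : ∀ v p, 0 ≤ w v (q p)) :
    ∑ τ : ι → Option V, wt q w τ ≤ exp (∑ v, ∑ p, w v (q p)) := by
  simp only [wt]
  rw [← Fintype.piFinset_univ, ← prod_univ_sum (fun _ => univ) fun p (x : Option V) =>
    x.elim 1 fun v => w v (q p), sum_comm]
  simp only [Fintype.sum_option, Option.elim]
  exact prod_one_add_le_exp _ _ fun p _ => by
    have : 0 ≤ ∑ v, w v (q p) := sum_nonneg fun v _ => h v p
    linarith

omit [DecidableEq ι] in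
lemma OscW.smul {q : ι → ℕ} {f g : ℕ → ℝ} {C t : ℝ} (h : OscW q f C) (hC : 0 ≤ C) (ht : 0 ≤ t)
    (ht1 : t ≤ 1) (hg : ∀ m, g m = t * f m) : OscW q g C := by
  intro κ l a h1 h2 h3 h4 h5
  have := h κ l a h1 h2 h3 h4 h5
  have h6 : 0 ≤ C * (1 + log (2 + log (l * a : ℕ))) := by
    have : 0 ≤ log (2 + log (l * a : ℕ)) :=
      log_nonneg (by linarith [log_natCast_nonneg (l * a)])
    positivity
  simp only [hg, mul_assoc, ← mul_sum]
  nlinarith

omit [DecidableEq ι] in
lemma mass_le {q : ι → ℕ} {w : Vr → ℕ → ℝ} {sb : Vr → ℝ} (h : ∀ v, ∑ p, |w v (q p)| ≤ sb v)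
    (W : Finset Vr) (P : Vr → Bool) (hP : ∀ v ∈ W, P v = true) :
    mass q w W ≤ ∑ v, if P v then sb v else 0 := by
  rw [mass, sum_comm, ← sum_filter]
  refine (sum_le_sum fun v _ => h v).trans (sum_le_sum_of_subset_of_nonneg
    (fun v hv => mem_filter.2 ⟨mem_univ _, hP v hv⟩) fun v _ _ => ?_)
  exact (sum_nonneg fun _ _ => abs_nonneg _).trans (h v)

/-- The total mean of the conditions of the other two types. -/
def Cc (μ : Option (Fin 3 × Bool) → ℝ) (i : Fin 3) : ℝ :=
  μ (some (i + 1, false)) + μ (some (i + 1, true)) + μ (some (i + 2, false)) +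
    μ (some (i + 2, true))

/-- The hypotheses on the weights of the states. -/
structure WHyp (q : ι → ℕ) (L K C₀ C₁ c₀ : ℝ) (hw : Option (Fin 3 × Bool) → ℕ → ℝ)
    (μ : Option (Fin 3 × Bool) → ℝ) : Prop where
  nonneg : ∀ s p, 0 ≤ hw s (q p)
  le : ∀ s p, hw s (q p) ≤ K / q p
  mean : ∀ s, |∑ p, hw s (q p) - μ s * L| ≤ C₀
  osc1 : ∀ i, OscW q (fun m => hw (some (i, false)) m + hw (some (i, true)) m) C₁
  osc2 : ∀ i, OscW q (fun m => hw (some (i, false)) m - hw (some (i, true)) m) C₁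
  drift : ∀ i, 7 * μ (some (i, false)) ≤ 6 * Cc μ i
  pos : ∀ i, c₀ ≤ Cc μ i

variable {q : ι → ℕ} {L K C₀ C₁ c₀ : ℝ} {hw : Option (Fin 3 × Bool) → ℕ → ℝ}
  {μ : Option (Fin 3 × Bool) → ℝ}

omit [DecidableEq ι] in
lemma WHyp.tilt_sum (H : WHyp q L K C₀ C₁ c₀ hw μ) (hL : 0 ≤ L) (i : Fin 3) :
    ∑ s, ∑ p, tl (9 / 8) (25 / 28) i s * hw s (q p) ≤ ∑ s, ∑ p, hw s (q p) + C₀ := by
  simp only [← mul_sum]
  have h := fun s => abs_le.1 (H.mean s)
  have h1 := mul_le_mul_of_nonneg_right (H.drift i) hL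
  have hC : 0 ≤ C₀ := (abs_nonneg _).trans (H.mean none)
  have a0 := h (some (0, false)); have a1 := h (some (1, false)); have a2 := h (some (2, false))
  have b0 := h (some (0, true)); have b1 := h (some (1, true)); have b2 := h (some (2, true))
  simp only [Fintype.sum_option, Fintype.sum_prod_type, Fintype.sum_bool, Fin.sum_univ_three]
  fin_cases i <;> simp [tl, Cc] at h1 ⊢ <;> nlinarith [a0.1, a0.2, a1.1, a1.2, a2.1, a2.2,
    b0.1, b0.2, b1.1, b1.2, b2.1, b2.2]

omit [DecidableEq ι] in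
lemma WHyp.abs_wv (H : WHyp q L K C₀ C₁ c₀ hw μ) (i : Fin 3) (j k : Bool) (p : ι) :
    |wv hw (some (i, j, k)) (q p)| ≤
      (hw (some (i, false)) (q p) + hw (some (i, true)) (q p)) / 2 := by
  have h1 := H.nonneg (some (i, false)) p
  have h2 := H.nonneg (some (i, true)) p
  simp only [wv]
  rw [abs_le]
  split_ifs <;> constructor <;> linarith

omit [DecidableEq ι] in
lemma WHyp.osc_wv (H : WHyp q L K C₀ C₁ c₀ hw μ) (hC₁ : 0 ≤ C₁) (i : Fin 3) (j k : Bool) :
    OscW q (wv hw (some (i, j, k))) C₁ := by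
  by_cases h : (j && k) = true
  · exact (H.osc2 i).smul hC₁ (t := 1 / 2) (by norm_num) (by norm_num) fun m => by
      simp only [wv, h, if_true]; ring
  · exact (H.osc1 i).smul hC₁ (t := 1 / 2) (by norm_num) (by norm_num) fun m => by
      simp only [wv, h]; simp; ring

omit [DecidableEq ι] in
lemma WHyp.rest_cases (H : WHyp q L K C₀ C₁ c₀ hw μ) (hL : 0 ≤ L) (hC₁ : 0 ≤ C₁) (hc₀ : 0 ≤ c₀)
    (A U : Finset Vr) (hUA : U ⊆ A) (hA : 2 ≤ (tyA A).card)
    (hU : ∀ v ∈ U, ∀ v' ∈ U, PhiV v v' = PhiV v' v) :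
    mass q (wv hw) A ≤ ∑ s, ∑ p, hw s (q p) + 4 * C₀ ∨
      ∃ O ⊆ U, (∀ v ∈ O, ∀ v' ∈ O, PhiV v v' = false) ∧
        (∀ v ∈ O, OscW q (wv hw v) C₁ ∧ ∃ v' ∈ A, PhiV v v' ≠ PhiV v' v) ∧
        mass q (wv hw) (U \ O) ≤ ∑ s, ∑ p, hw s (q p) + 4 * C₀ - c₀ / 100 * L := by
  classical
  have hC : 0 ≤ C₀ := (abs_nonneg _).trans (H.mean none)
  set m : Option (Fin 3 × Bool) → ℝ := fun s => ∑ p, hw s (q p) with hm
  set S : Fin 3 → ℝ := fun i => (m (some (i, false)) + m (some (i, true))) / 2 with hS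
  let sb : Vr → ℝ := fun v => v.elim (m none) fun x => S x.1
  have hsb : ∀ v, ∑ p, |wv hw v (q p)| ≤ sb v := by
    rintro (_ | ⟨i, j, k⟩)
    · exact le_of_eq (sum_congr rfl fun p _ => abs_of_nonneg (H.nonneg _ _))
    · refine (sum_le_sum fun p _ => H.abs_wv i j k p).trans (le_of_eq ?_)
      simp only [sb, Option.elim, hS, hm, ← sum_add_distrib, sum_div]
  have hM : ∑ s, ∑ p, hw s (q p) = m none + 2 * (S 0 + S 1 + S 2) := by
    simp only [Fintype.sum_option, Fintype.sum_prod_type, Fintype.sum_bool, Fin.sum_univ_three,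
      hS, hm]
    ring
  have hSm : ∀ i, (μ (some (i, false)) + μ (some (i, true))) * L / 2 - C₀ ≤ S i := by
    intro i
    have h1 := (abs_le.1 (H.mean (some (i, false)))).1
    have h2 := (abs_le.1 (H.mean (some (i, true)))).1
    simp only [hS, hm]
    linarith
  rw [hM]
  have hline : ∀ j₀ k₀ : Bool, (∀ i j k, some (i, j, k) ∈ A → (j, k) = (false, false) ∨
      (j, k) = (j₀, k₀)) → j₀ = true →
      mass q (wv hw) A ≤ m none + 2 * (S 0 + S 1 + S 2) + 4 * C₀ := by
    intro j₀ k₀ h hj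
    subst hj
    refine (mass_le hsb A (fun v => v.elim true fun x =>
      decide (x.2 = (false, false) ∨ x.2 = (true, k₀))) ?_).trans ?_
    · rintro (_ | ⟨i, j, k⟩) hv
      · rfl
      · simpa using h i j k hv
    · simp only [Fintype.sum_option, Fintype.sum_prod_type, Fintype.sum_bool, Fin.sum_univ_three]
      cases k₀ <;> simp [sb] <;> linarith
  by_cases h10 : ∀ i j k, some (i, j, k) ∈ A → (j, k) = (false, false) ∨ (j, k) = (true, false)
  · exact Or.inl (hline _ _ h10 rfl)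
  by_cases h11 : ∀ i j k, some (i, j, k) ∈ A → (j, k) = (false, false) ∨ (j, k) = (true, true)
  · exact Or.inl (hline _ _ h11 rfl)
  right
  have hlk : ∀ j k j' k' : Bool, (j, k) ≠ (false, false) → (j', k') ≠ (false, false) →
      (j, k) ≠ (j', k') → (j && k') ≠ (j' && k) := by decide
  have main : ∀ (i i' : Fin 3) (j' k' : Bool), i ≠ i' → (j', k') ≠ (false, false) →
      some (i', j', k') ∈ A → ∀ P : Vr → Bool,
      (∀ v ∈ U, P v = true ∨ ∃ j k, v = some (i, j, k) ∧ (j, k) ≠ (false, false) ∧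
        (j, k) ≠ (j', k')) →
      (∑ v, if P v then sb v else 0) ≤ m none + 2 * (S 0 + S 1 + S 2) + 4 * C₀ - c₀ / 100 * L →
      ∃ O ⊆ U, (∀ v ∈ O, ∀ v' ∈ O, PhiV v v' = false) ∧
        (∀ v ∈ O, OscW q (wv hw v) C₁ ∧ ∃ v' ∈ A, PhiV v v' ≠ PhiV v' v) ∧
        mass q (wv hw) (U \ O) ≤ m none + 2 * (S 0 + S 1 + S 2) + 4 * C₀ - c₀ / 100 * L := by
    intro i i' j' k' hii hu' hmem P hP hsum
    refine ⟨U.filter fun v => ∃ j k, v = some (i, j, k) ∧ (j, k) ≠ (false, false) ∧
      (j, k) ≠ (j', k'), filter_subset _ _, ?_, ?_, (mass_le hsb _ P ?_).trans hsum⟩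
    · intro v hv v' hv'
      obtain ⟨j, k, rfl, -⟩ := (mem_filter.1 hv).2
      obtain ⟨j₂, k₂, rfl, -⟩ := (mem_filter.1 hv').2
      simp [PhiV]
    · intro v hv
      obtain ⟨j, k, rfl, h1, h2⟩ := (mem_filter.1 hv).2
      refine ⟨H.osc_wv hC₁ i j k, _, hmem, ?_⟩
      simpa [PhiV, hii, hii.symm] using hlk j k j' k' h1 hu' h2
    · intro v hv
      rw [mem_sdiff, mem_filter] at hv
      exact (hP v hv.1).resolve_right fun h => hv.2 ⟨hv.1, h⟩
  obtain ⟨t₁, ht₁, t₂, ht₂, ht⟩ := one_lt_card.1 hA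
  obtain ⟨k₁, hk₁⟩ := (mem_filter.1 ht₁).2
  obtain ⟨k₂, hk₂⟩ := (mem_filter.1 ht₂).2
  by_cases hs : ∃ i, ∀ i' j k, some (i', j, k) ∈ U → (j, k) = (false, false) ∨ i' = i
  · obtain ⟨i, hi⟩ := hs
    obtain ⟨i', k', hne, hmem⟩ : ∃ i' k', i ≠ i' ∧ some (i', true, k') ∈ A := by
      by_cases h : i = t₁
      · exact ⟨t₂, k₂, h ▸ ht, hk₂⟩
      · exact ⟨t₁, k₁, h, hk₁⟩
    refine main i i' true k' hne (by simp) hmem (fun v => v.elim true fun x =>
      decide (x.2 = (false, false) ∨ x = (i, true, k'))) ?_ ?_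
    · rintro (_ | ⟨i₂, j, k⟩) hv
      · exact Or.inl rfl
      · rcases hi i₂ j k hv with h | h
        · left; simp [h]
        · subst h
          by_cases h1 : (j, k) = (false, false) ∨ (j, k) = (true, k')
          · left; simpa using h1
          · right; exact ⟨j, k, rfl, not_or.1 h1⟩
    · have h1 := mul_le_mul_of_nonneg_right (H.pos i) hL
      have h2 := mul_nonneg hc₀ hL
      have s0 := hSm 0; have s1 := hSm 1; have s2 := hSm 2
      simp only [Fintype.sum_option, Fintype.sum_prod_type, Fintype.sum_bool, Fin.sum_univ_three]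
      fin_cases i <;> cases k' <;> simp [sb, Cc] at h1 ⊢ <;> linarith
  · push Not at hs
    obtain ⟨ia, ja, ka, ha, hua, -⟩ := hs 0
    obtain ⟨ib, jb, kb, hb, hub, hab⟩ := hs ia
    have hsame : ∀ i j k i' j' k', some (i, j, k) ∈ U → some (i', j', k') ∈ U → i ≠ i' →
        (j, k) ≠ (false, false) → (j', k') ≠ (false, false) → (j, k) = (j', k') := by
      intro i j k i' j' k' h1 h2 hne h3 h4
      by_contra hc
      have := hU _ h1 _ h2
      apply hlk j k j' k' h3 h4 hc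
      simpa [PhiV, hne, hne.symm] using this
    have hall : ∀ i j k, some (i, j, k) ∈ U → (j, k) = (false, false) ∨ (j, k) = (ja, ka) := by
      intro i j k h
      by_cases h0 : (j, k) = (false, false)
      · exact Or.inl h0
      right
      by_cases hi : i = ia
      · subst hi
        rw [hsame _ _ _ _ _ _ h hb hab.symm h0 hub, hsame _ _ _ _ _ _ hb ha hab hub hua]
      · exact hsame _ _ _ _ _ _ h ha hi h0 hua
    obtain ⟨i', j', k', hmem, hu', hne'⟩ : ∃ i' j' k', some (i', j', k') ∈ A ∧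
        (j', k') ≠ (false, false) ∧ (j', k') ≠ (ja, ka) := by
      push Not at h10 h11
      cases ja
      · exact ⟨t₁, true, k₁, hk₁, by simp, by simp⟩
      · cases ka
        · exact h10
        · exact h11
    obtain ⟨i, hi, hμ⟩ : ∃ i, i ≠ i' ∧ c₀ / 2 ≤ μ (some (i, false)) + μ (some (i, true)) := by
      have h1 := H.pos i'
      unfold Cc at h1
      by_cases h : c₀ / 2 ≤ μ (some (i' + 1, false)) + μ (some (i' + 1, true))
      · exact ⟨i' + 1, by simp, h⟩
      · exact ⟨i' + 2, by simp, by linarith⟩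
    refine main i i' j' k' hi hu' hmem (fun v => v.elim true fun x =>
      decide (x.2 = (false, false) ∨ (x.2 = (ja, ka) ∧ x.1 ≠ i))) ?_ ?_
    · rintro (_ | ⟨i₂, j, k⟩) hv
      · exact Or.inl rfl
      · rcases hall i₂ j k hv with h | h
        · left; simp [h]
        · by_cases h1 : i₂ = i
          · right; exact ⟨j, k, by rw [h1], h ▸ hua, h ▸ hne'.symm⟩
          · left; simp [h, h1]
    · have h1 := mul_le_mul_of_nonneg_right hμ hL
      have h2 := mul_nonneg hc₀ hL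
      have s0 := hSm i
      simp only [Fintype.sum_option, Fintype.sum_prod_type, Fintype.sum_bool, Fin.sum_univ_three]
      fin_cases i <;> cases ja <;> cases ka <;> simp [sb] at h1 s0 hua ⊢ <;> linarith

/-- Merging the two condition bits of type `i`. -/
def rho (i : Fin 3) : Option Vr → Option Vr
  | some (some (i', j, k)) => some (some (i', j, if i' = i then false else k))
  | x => x

/-- The merged weights. -/
noncomputable def w2 (i : Fin 3) (w : Vr → ℕ → ℝ) : Vr → ℕ → ℝ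
  | some (i', j, k) => if i' = i then (if k then fun _ => 0 else
      fun m => w (some (i', j, true)) m + w (some (i', j, false)) m) else w (some (i', j, k))
  | none => w none

open Classical in
lemma merge (q : ι → ℕ) (i : Fin 3) (w : Vr → ℕ → ℝ) :
    ∑ τ : ι → Option Vr, (if tyA (supp τ) = {i} then wt q w τ * sg q PhiV τ else 0) =
      ∑ τ : ι → Option Vr, if tyA (supp τ) = {i} then wt q (w2 i w) τ * sg q PhiV τ else 0 := by
  have h1 := pushforward (rho i) (fun (p : ι) (x : Option Vr) => x.elim 1 fun v => w v (q p))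
    fun τ : ι → Option Vr => if tyA (supp τ) = {i} then sg q PhiV τ else 0
  have h2 : ∀ (p : ι) (y : Option Vr), ∑ x with rho i x = y,
      (x.elim 1 fun v => w v (q p)) = y.elim 1 fun v => w2 i w v (q p) := by
    intro p y
    rw [sum_filter]
    simp only [Fintype.sum_prod_type, Fintype.sum_option, Fintype.sum_bool, Fin.sum_univ_three]
    rcases y with _ | _ | ⟨i', j, k⟩
    · simp [rho]
    · simp [rho, w2]
    · fin_cases i <;> fin_cases i' <;> cases j <;> cases k <;> simp [rho, w2]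
  simp only [h2] at h1
  have h3 : ∑ τ : ι → Option Vr,
      (if tyA (supp τ) = {i} then wt q (w2 i w) τ * sg q PhiV τ else 0) =
      ∑ τ : ι → Option Vr, (∏ p, (τ p).elim 1 fun v => w2 i w v (q p)) *
        if tyA (supp τ) = {i} then sg q PhiV τ else 0 :=
    sum_congr rfl fun τ _ => by rw [wt]; split_ifs <;> simp
  rw [h3, ← h1]
  refine sum_congr rfl fun τ _ => ?_
  have hty : tyA (supp fun p => rho i (τ p)) = tyA (supp τ) := by
    ext i'
    simp only [tyA, supp, mem_filter, mem_univ, true_and]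
    constructor
    · rintro ⟨k, p, hp⟩
      rcases h5 : τ p with _ | _ | ⟨i₂, j, k₂⟩
      · simp [h5, rho] at hp
      · simp [h5, rho] at hp
      · simp only [h5, rho, Option.some.injEq, Prod.mk.injEq] at hp
        exact ⟨k₂, p, by rw [h5, hp.1, hp.2.1]⟩
    · rintro ⟨k, p, hp⟩
      exact ⟨_, p, by rw [hp]; rfl⟩
  rw [hty]
  split_ifs with hT
  swap
  · simp
  rw [wt]
  congr 1
  refine prod_congr rfl fun p _ => prod_congr rfl fun p' _ => ?_
  rcases h5 : τ p with _ | _ | ⟨i₁, j₁, k₁⟩ <;> rcases h6 : τ p' with _ | _ | ⟨i₂, j₂, k₂⟩ <;>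
    simp only [h5, h6, rho, tm_nl, tm_nr, tm_ss, PhiV]
  all_goals try rfl
  cases j₁
  · simp
  · have : i₁ ∈ tyA (supp τ) := by
      simp only [tyA, supp, mem_filter, mem_univ, true_and]
      exact ⟨k₁, p, h5⟩
    rw [hT, mem_singleton] at this
    subst this
    by_cases h : i₂ = i₁ <;> simp [h]

omit [DecidableEq ι] in
lemma WHyp.one_cases (H : WHyp q L K C₀ C₁ c₀ hw μ) (hL : 0 ≤ L) (hC₁ : 0 ≤ C₁) (hc₀ : 0 ≤ c₀)
    (i : Fin 3) (A U : Finset Vr) (hUA : U ⊆ A) (hA : tyA A = {i}) :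
    ∃ O ⊆ U, (∀ v ∈ O, ∀ v' ∈ O, PhiV v v' = false) ∧
      (∀ v ∈ O, OscW q (w2 i (wv fun s m => tl ((8 / 9) ^ 6) ((28 / 25) ^ 6) i s * hw s m) v) C₁ ∧
        ∃ v' ∈ A, PhiV v v' ≠ PhiV v' v) ∧
      mass q (w2 i (wv fun s m => tl ((8 / 9) ^ 6) ((28 / 25) ^ 6) i s * hw s m)) (U \ O) ≤
        ∑ s, ∑ p, hw s (q p) + 4 * C₀ - c₀ / 100 * L := by
  classical
  have hC : 0 ≤ C₀ := (abs_nonneg _).trans (H.mean none)
  set m : Option (Fin 3 × Bool) → ℝ := fun s => ∑ p, hw s (q p) with hm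
  have hm0 : ∀ s, 0 ≤ m s := fun s => sum_nonneg fun p _ => H.nonneg s p
  let sb : Vr → ℝ := fun v => v.elim (m none) fun x =>
    if x.1 = i then (if x.2.2 then 0 else if x.2.1 then m (some (i, false)) / 2 else
      m (some (i, false)) / 2 + m (some (i, true)))
    else 99 / 100 * (m (some (x.1, false)) + m (some (x.1, true)))
  have hsb : ∀ v, ∑ p, |w2 i (wv fun s m => tl ((8 / 9) ^ 6) ((28 / 25) ^ 6) i s * hw s m) v
      (q p)| ≤ sb v := by
    rintro (_ | ⟨i', j, k⟩)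
    · simp only [w2, wv, tl, one_mul]
      exact le_of_eq (sum_congr rfl fun p _ => abs_of_nonneg (H.nonneg _ _))
    · simp only [sb, Option.elim, w2, hm]
      have h1 := H.nonneg (some (i', false))
      have h2 := H.nonneg (some (i', true))
      split_ifs with h3 h4 h5
      · simp
      · subst h3
        rw [sum_div]
        refine sum_le_sum fun p _ => ?_
        simp only [wv, tl, h5, if_true]
        rw [abs_le]; constructor <;> norm_num <;> linarith [h1 p, h2 p]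
      · subst h3
        rw [sum_div, ← sum_add_distrib]
        refine sum_le_sum fun p _ => ?_
        simp only [wv, tl, h5, if_true]
        rw [abs_le]; constructor <;> norm_num <;> linarith [h1 p, h2 p]
      · rw [← sum_add_distrib, mul_sum]
        refine sum_le_sum fun p _ => ?_
        simp only [wv, tl, h3, if_false]
        rw [abs_le]; constructor <;> split_ifs <;> norm_num <;> linarith [h1 p, h2 p]
  have hi : i ∈ tyA A := by rw [hA]; simp
  obtain ⟨k₀, hk₀⟩ := (mem_filter.1 hi).2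
  refine ⟨U.filter fun v => ∃ i', i' ≠ i ∧ v = some (i', false, true), filter_subset _ _, ?_, ?_,
    (mass_le hsb _ (fun v => v.elim true fun x =>
      decide (x.1 = i ∨ x.2 = (false, false))) ?_).trans ?_⟩
  · intro v hv v' hv'
    obtain ⟨j, -, rfl⟩ := (mem_filter.1 hv).2
    obtain ⟨j₂, -, rfl⟩ := (mem_filter.1 hv').2
    simp [PhiV]
  · intro v hv
    obtain ⟨j, hj, rfl⟩ := (mem_filter.1 hv).2
    refine ⟨(H.osc1 j).smul hC₁ (t := (28 / 25) ^ 6 / 2) (by norm_num) (by norm_num) fun m => ?_,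
      _, hk₀, by simp [PhiV, hj.symm]⟩
    simp only [w2, wv, tl, hj, if_false]; simp; ring
  · rintro (_ | ⟨i', j, k⟩) hv
    · rfl
    · rw [mem_sdiff, mem_filter] at hv
      by_cases h : i' = i
      · simp [h]
      cases j
      · cases k
        · simp
        · exact absurd ⟨hv.1, i', h, rfl⟩ hv.2
      · have : i' ∈ tyA A := mem_filter.2 ⟨mem_univ _, k, hUA hv.1⟩
        rw [hA, mem_singleton] at this
        exact absurd this h
  · have h1 := mul_le_mul_of_nonneg_right (H.pos i) hL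
    have h := fun s => (abs_le.1 (H.mean s)).1
    have a0 := h (some (0, false)); have a1 := h (some (1, false)); have a2 := h (some (2, false))
    have b0 := h (some (0, true)); have b1 := h (some (1, true)); have b2 := h (some (2, true))
    simp only [Fintype.sum_option, Fintype.sum_prod_type, Fintype.sum_bool, Fin.sum_univ_three]
    fin_cases i <;> simp [sb, Cc, hm] at h1 ⊢ <;> linarith

theorem model_bound {K C₀ C₁ c₀ : ℝ} (hK : 1 ≤ K) (hC₁ : 0 ≤ C₁) (hc₀ : 0 < c₀) :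
    ∃ C, ∀ (ι : Type) [Fintype ι] [DecidableEq ι] (q : ι → ℕ) (p₀ : ℕ) (L : ℝ)
      (hw : Option (Fin 3 × Bool) → ℕ → ℝ) (μ : Option (Fin 3 × Bool) → ℝ),
      PSys q p₀ L → 52 * K ≤ p₀ → WHyp q L K C₀ C₁ c₀ hw μ →
      ∑ σ : ι → St, wt q hw σ * MM q σ ≤ C * exp (∑ s, ∑ p, hw s (q p)) := by
  classical
  obtain ⟨C, hC⟩ := total_bound Vr (K := 4 * K) (δ := c₀ / 100) (by linarith) hC₁ (by positivity)
  refine ⟨1 + 4 * (C * exp (4 * C₀)) + 3 * exp C₀, ?_⟩
  intro ι _ _ q p₀ L hw μ h hp₀ H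
  have hL := h.nonneg
  have hC₀ : 0 ≤ C₀ := (abs_nonneg _).trans (H.mean none)
  set M := ∑ s, ∑ p, hw s (q p) with hM
  have hM0 : 0 ≤ M := sum_nonneg fun s _ => sum_nonneg fun p _ => H.nonneg s p
  have h3 : 3 ≤ p₀ := by
    have : (3 : ℝ) ≤ p₀ := by linarith
    exact_mod_cast this
  have hcard : 4 * K * Fintype.card Vr ≤ p₀ := by
    simp only [Fintype.card_option, Fintype.card_prod, Fintype.card_fin, Fintype.card_bool]
    push_cast; linarith
  have hq0 : ∀ p, 0 ≤ K / q p := fun p => by positivity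
  have hwv : ∀ (hw' : Option (Fin 3 × Bool) → ℕ → ℝ), (∀ s p, 0 ≤ hw' s (q p)) →
      (∀ s p, hw' s (q p) ≤ 2 * (K / q p)) → ∀ v p, |wv hw' v (q p)| ≤ 2 * (K / q p) := by
    rintro hw' h1 h2 (_ | ⟨i, j, k⟩) p
    · rw [wv, abs_of_nonneg (h1 _ _)]; exact h2 _ _
    · have := h1 (some (i, false)) p; have := h1 (some (i, true)) p
      have := h2 (some (i, false)) p; have := h2 (some (i, true)) p
      simp only [wv]
      rw [abs_le]; constructor <;> split_ifs <;> linarith
  have E0 : ∑ σ : ι → St, wt q hw σ ≤ exp M := sum_wt_le q hw H.nonneg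
  have E1 : ∀ i, ∑ σ : ι → St, wt q hw σ * tilt (9 / 8) (25 / 28) i σ ≤ exp C₀ * exp M := by
    intro i
    simp only [wt_mul_tilt]
    refine (sum_wt_le q _ fun s p => mul_nonneg (tl_pos (by norm_num) (by norm_num) i s).le
      (H.nonneg s p)).trans ?_
    rw [← exp_add, exp_le_exp, add_comm]
    exact H.tilt_sum hL i
  have E3 : ∑ σ : ι → St, wt q hw σ * cnt q σ (fun T => 2 ≤ T.card) ≤
      C * exp (4 * C₀) * exp M := by
    rw [expand h.prime h.inj, mul_assoc, ← exp_add, add_comm]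
    refine (le_abs_self _).trans ?_
    convert hC ι q p₀ L (M + 4 * C₀) PhiV (wv hw) (fun A => 2 ≤ (tyA A).card) h h3 hcard
      (by positivity) (fun v p => (hwv hw H.nonneg (fun s p => by linarith [H.le s p, hq0 p])
        v p).trans (by rw [mul_div_assoc]; linarith [hq0 p])) PhiV_irr
      (fun A U h1 h2 h4 => H.rest_cases hL hC₁ hc₀.le A U h1 h2 h4)
  have E2 : ∀ i, ∑ σ : ι → St, wt q hw σ * (tilt ((8 / 9) ^ 6) ((28 / 25) ^ 6) i σ *
      cnt q σ (fun T => T = {i})) ≤ C * exp (4 * C₀) * exp M := by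
    intro i
    simp only [← mul_assoc, wt_mul_tilt]
    rw [expand h.prime h.inj, mul_assoc, ← exp_add, add_comm]
    refine (le_abs_self _).trans ?_
    have hb := hwv (fun s m => tl ((8 / 9) ^ 6) ((28 / 25) ^ 6) i s * hw s m)
      (fun s p => mul_nonneg (tl_pos (by norm_num) (by norm_num) i s).le (H.nonneg s p))
      (fun s p => mul_le_mul (tl_le (by norm_num) (by norm_num) i s) (H.le s p) (H.nonneg s p)
        (by norm_num))
    have hm := merge q i (wv fun s m => tl ((8 / 9) ^ 6) ((28 / 25) ^ 6) i s * hw s m)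
    have := hC ι q p₀ L (M + 4 * C₀) PhiV
      (w2 i (wv fun s m => tl ((8 / 9) ^ 6) ((28 / 25) ^ 6) i s * hw s m))
      (fun A => tyA A = {i}) h h3 hcard (by positivity) (by
        rintro (_ | ⟨i', j, k⟩) p
        · exact (hb none p).trans (by rw [mul_div_assoc]; linarith [hq0 p])
        · simp only [w2]
          rw [mul_div_assoc]
          split_ifs
          · simp only [abs_zero]; linarith [hq0 p]
          · linarith [abs_add_le (wv (fun s m => tl ((8 / 9) ^ 6) ((28 / 25) ^ 6) i s * hw s m)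
              (some (i', j, true)) (q p))
              (wv (fun s m => tl ((8 / 9) ^ 6) ((28 / 25) ^ 6) i s * hw s m)
              (some (i', j, false)) (q p)), hb (some (i', j, true)) p, hb (some (i', j, false)) p]
          · linarith [hb (some (i', j, k)) p, hq0 p]) PhiV_irr
      (fun A U h1 h2 _ => Or.inr (H.one_cases hL hC₁ hc₀.le i A U h1 h2))
    refine le_trans (le_of_eq (congrArg _ ?_)) this
    convert hm
  simp only [MM, mul_add, mul_sum, sum_add_distrib, mul_one]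
  rw [sum_comm, sum_comm (s := (univ : Finset (ι → St))), Fin.sum_univ_three, Fin.sum_univ_three]
  linarith [E1 0, E1 1, E1 2, E2 0, E2 1, E2 2]

end Pool.Agent.Lib.MP_788af2_nt
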