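import Pool.Agent.Lib.MP_788af2_nt.Bilinear
import Pool.Agent.Lib.MP_788af2_nt.Defs

/-!
Periodic functions on boxes and Selberg's upper bound sieve in two variables.
-/

namespace Pool.Agent.Lib.MP_788af2_nt

open Finset Real

/-- Periodicity in both variables. -/
def Per {α : Type} (q : ℕ) (f : ℤ → ℤ → α) : Prop :=
  ∀ m m' n n', m ≡ m' [ZMOD q] → n ≡ n' [ZMOD q] → f m n = f m' n'

/-- The mean over a period. -/
noncomputable def mean (q : ℕ) (f : ℤ → ℤ → ℝ) : ℝ :=
  (∑ i ∈ range q, ∑ j ∈ range q, f i j) / (q : ℝ) ^ 2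

/-- The sum over a box. -/
def box (a b : ℤ) (A B : ℕ) (f : ℤ → ℤ → ℝ) : ℝ :=
  ∑ i ∈ range A, ∑ j ∈ range B, f (a + i) (b + j)

lemma box_sum {κ : Type} (a b : ℤ) (A B : ℕ) (S : Finset κ) (f : κ → ℤ → ℤ → ℝ) :
    box a b A B (fun m n => ∑ k ∈ S, f k m n) = ∑ k ∈ S, box a b A B (f k) := by
  simp only [box]
  rw [sum_comm (s := S)]
  exact sum_congr rfl fun i _ => sum_comm

lemma box_mul (a b : ℤ) (A B : ℕ) (c : ℝ) (f : ℤ → ℤ → ℝ) :
    box a b A B (fun m n => c * f m n) = c * box a b A B f := by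
  simp only [box, mul_sum]

lemma box_add (a b : ℤ) (A B : ℕ) (f g : ℤ → ℤ → ℝ) :
    box a b A B (fun m n => f m n + g m n) = box a b A B f + box a b A B g := by
  simp only [box, sum_add_distrib]

lemma box_const (a b : ℤ) (A B : ℕ) (c : ℝ) : box a b A B (fun _ _ => c) = A * B * c := by
  simp [box, mul_assoc]

lemma box_mono {a b : ℤ} {A B : ℕ} {f g : ℤ → ℤ → ℝ}
    (h : ∀ i < A, ∀ j < B, f (a + i) (b + j) ≤ g (a + i) (b + j)) :
    box a b A B f ≤ box a b A B g :=
  sum_le_sum fun i hi => sum_le_sum fun j hj => h i (mem_range.1 hi) j (mem_range.1 hj)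

lemma shift_sum (g : ℤ → ℝ) (q : ℕ) (hg : ∀ m, g (m + q) = g m) (a : ℤ) :
    ∑ i ∈ range q, g (a + i) = ∑ i ∈ range q, g i := by
  have step : ∀ a : ℤ, ∑ i ∈ range q, g (a + 1 + i) = ∑ i ∈ range q, g (a + i) := by
    intro a
    have h1 := sum_range_succ (fun i : ℕ => g (a + i)) q
    have h2 := sum_range_succ' (fun i : ℕ => g (a + i)) q
    rw [hg] at h1
    simp only [Nat.cast_add, Nat.cast_one, Nat.cast_zero, add_zero] at h2
    rw [h1] at h2
    rw [add_right_cancel h2]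
    exact sum_congr rfl fun i _ => by congr 1; ring
  induction a using Int.induction_on with
  | zero => simp
  | succ n ih => rw [step, ih]
  | pred n ih => rw [← step, ← ih]; simp

lemma one_dim (g : ℤ → ℝ) {q : ℕ} (hq : 0 < q) (hg : ∀ m, g (m + q) = g m) (h1 : ∀ m, |g m| ≤ 1)
    (a : ℤ) (A : ℕ) :
    |∑ i ∈ range A, g (a + i) - A * ((∑ i ∈ range q, g i) / q)| ≤ 2 * q := by
  set μ := (∑ i ∈ range q, g i) / q with hμ
  have hq' : (0 : ℝ) < q := by exact_mod_cast hq
  have hμ1 : |μ| ≤ 1 := by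
    rw [hμ, abs_div, abs_of_pos hq', div_le_one hq']
    calc _ ≤ ∑ i ∈ range q, |g i| := abs_sum_le_sum_abs _ _
      _ ≤ ∑ i ∈ range q, (1 : ℝ) := sum_le_sum fun i _ => h1 i
      _ = q := by simp
  have := abs_sum_range_le (χ := fun i : ℕ => (g (a + i) - μ) / 2) (q := q) (fun i => by
      rw [abs_div, abs_two, div_le_one two_pos]
      linarith [abs_sub (g (a + i)) μ, h1 (a + i)]) hq
    (fun n => by push_cast; rw [← add_assoc, hg]) (by
      rw [← sum_div, sum_sub_distrib, shift_sum g q hg, hμ]; simp; field_simp; ring) A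
  rw [← sum_div, sum_sub_distrib, abs_div, abs_two, div_le_iff₀ two_pos] at this
  simpa [mul_comm] using this

lemma abs_mean_aux {q : ℕ} (hq : 0 < q) (g : ℕ → ℝ) (h1 : ∀ m, |g m| ≤ 1) :
    |(∑ i ∈ range q, g i) / q| ≤ 1 := by
  have hq' : (0 : ℝ) < q := by exact_mod_cast hq
  rw [abs_div, abs_of_pos hq', div_le_one hq']
  calc _ ≤ ∑ i ∈ range q, |g i| := abs_sum_le_sum_abs _ _
    _ ≤ ∑ i ∈ range q, (1 : ℝ) := sum_le_sum fun i _ => h1 i
    _ = q := by simp

lemma box_mean {q : ℕ} (hq : 0 < q) {f : ℤ → ℤ → ℝ} (hf : Per q f) (h1 : ∀ m n, |f m n| ≤ 1)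
    (a b : ℤ) (A B : ℕ) : |box a b A B f - A * B * mean q f| ≤ 2 * q * (A + B) := by
  set g : ℤ → ℝ := fun m => (∑ j ∈ range q, f m j) / q with hg
  have h2 : ∀ i : ℕ, |∑ j ∈ range B, f (a + i) (b + j) - B * g (a + i)| ≤ 2 * q := fun i =>
    one_dim (f (a + i)) hq (fun m => hf _ _ _ _ rfl (by simp)) (h1 _) b B
  have h3 := one_dim g hq (fun m => by
    simp only [hg]
    congr 1
    exact sum_congr rfl fun j _ => hf _ _ _ _ (by simp) rfl)
    (fun m => abs_mean_aux hq _ fun j => h1 _ _) a A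
  have h4 : (∑ i ∈ range q, g i) / q = mean q f := by
    simp only [hg, mean, ← sum_div]; ring
  rw [h4] at h3
  have h5 : |box a b A B f - B * ∑ i ∈ range A, g (a + i)| ≤ A * (2 * q) := by
    rw [box, mul_sum, ← sum_sub_distrib]
    refine (abs_sum_le_sum_abs _ _).trans ((sum_le_sum fun i _ => h2 i).trans ?_)
    simp
  have h6 : |B * ∑ i ∈ range A, g (a + i) - A * B * mean q f| ≤ B * (2 * q) := by
    rw [show B * ∑ i ∈ range A, g (a + i) - A * B * mean q f =
      B * (∑ i ∈ range A, g (a + i) - A * mean q f) by ring, abs_mul, Nat.abs_cast]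
    gcongr
  linarith [abs_sub_le (box a b A B f) (B * ∑ i ∈ range A, g (a + i)) (A * B * mean q f)]

lemma crt_sum {q₁ q₂ : ℕ} (h : q₁.Coprime q₂) (h1 : 0 < q₁) (h2 : 0 < q₂) (F : ℕ → ℕ → ℝ) :
    ∑ i ∈ range (q₁ * q₂), F (i % q₁) (i % q₂) = ∑ i ∈ range q₁, ∑ j ∈ range q₂, F i j := by
  rw [← sum_product']
  refine sum_bij (fun i _ => (i % q₁, i % q₂)) ?_ ?_ ?_ fun _ _ => rfl
  · intro i _
    simp [Nat.mod_lt _ h1, Nat.mod_lt _ h2]
  · intro i hi j hj hij
    simp only [Prod.mk.injEq] at hij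
    have := (Nat.modEq_and_modEq_iff_modEq_mul h).1 ⟨hij.1, hij.2⟩
    exact this.eq_of_lt_of_lt (mem_range.1 hi) (mem_range.1 hj)
  · rintro ⟨i, j⟩ hij
    simp only [mem_product, mem_range] at hij
    obtain ⟨k, hk1, hk2⟩ := Nat.chineseRemainder h i j
    refine ⟨k % (q₁ * q₂), mem_range.2 (Nat.mod_lt _ (Nat.mul_pos h1 h2)), ?_⟩
    rw [Nat.mod_mul_right_mod, Nat.mod_mul_left_mod, hk1, hk2, Nat.mod_eq_of_lt hij.1,
      Nat.mod_eq_of_lt hij.2]

lemma mean_mul {q₁ q₂ : ℕ} (h : q₁.Coprime q₂) (h1 : 0 < q₁) (h2 : 0 < q₂) {f g : ℤ → ℤ → ℝ}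
    (hf : Per q₁ f) (hg : Per q₂ g) :
    mean (q₁ * q₂) (fun m n => f m n * g m n) = mean q₁ f * mean q₂ g := by
  have key : ∀ (q : ℕ) (i : ℕ), (i : ℤ) ≡ ((i % q : ℕ) : ℤ) [ZMOD q] := fun q i => by
    push_cast; exact (Int.mod_modEq _ _).symm
  have e : ∑ i ∈ range (q₁ * q₂), ∑ j ∈ range (q₁ * q₂), f i j * g i j =
      (∑ i ∈ range q₁, ∑ j ∈ range q₁, f i j) * ∑ i ∈ range q₂, ∑ j ∈ range q₂, g i j := by
    rw [sum_mul_sum, ← crt_sum h h1 h2 fun i i' =>
      (∑ j ∈ range q₁, f i j) * ∑ j ∈ range q₂, g i' j]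
    refine sum_congr rfl fun i _ => ?_
    rw [sum_mul_sum, ← crt_sum h h1 h2 fun j j' => f (i % q₁ : ℕ) j * g (i % q₂ : ℕ) j']
    exact sum_congr rfl fun j _ => by
      rw [hf _ _ _ _ (key q₁ i) (key q₁ j), hg _ _ _ _ (key q₂ i) (key q₂ j)]
  simp only [mean]
  rw [e]; push_cast; field_simp

lemma Per.of_dvd {α : Type} {q q' : ℕ} {f : ℤ → ℤ → α} (h : Per q f) (hd : q ∣ q') : Per q' f :=
  fun _ _ _ _ h1 h2 => h _ _ _ _ (h1.of_dvd (by exact_mod_cast hd)) (h2.of_dvd (by exact_mod_cast hd))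

lemma mean_const {q : ℕ} (hq : 0 < q) (c : ℝ) : mean q (fun _ _ => c) = c := by
  have hq' : (0 : ℝ) < q := by exact_mod_cast hq
  simp [mean]; field_simp

variable {ι : Type} [Fintype ι] [DecidableEq ι] {q : ι → ℕ} {p₀ : ℕ} {L : ℝ}

lemma mean_prod (h : PSys q p₀ L) (f : ι → ℤ → ℤ → ℝ) (hf : ∀ p, Per (q p) (f p)) (S : Finset ι) :
    mean (pp q S) (fun m n => ∏ p ∈ S, f p m n) = ∏ p ∈ S, mean (q p) (f p) := by
  induction S using Finset.induction_on with
  | empty => simp [pp, mean]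
  | insert a S ha ih =>
    simp only [prod_insert ha, pp]
    rw [← ih]
    refine mean_mul ?_ (h.prime a).pos (h.pp_pos S) (hf a) ?_
    · exact ((h.prime a).coprime_iff_not_dvd).2 fun hd => ha (h.dvd_pp.1 hd)
    · intro _ _ _ _ h1 h2
      exact prod_congr rfl fun p hp => (hf p).of_dvd (h.dvd_pp.2 hp) _ _ _ _ h1 h2

lemma box_prod (h : PSys q p₀ L) (f : ι → ℤ → ℤ → ℝ) (hf : ∀ p, Per (q p) (f p))
    (h1 : ∀ p m n, |f p m n| ≤ 1) (S : Finset ι) (hS : ∀ p, p ∉ S → f p = fun _ _ => 1)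
    (a b : ℤ) (A B : ℕ) :
    |box a b A B (fun m n => ∏ p, f p m n) - A * B * ∏ p, mean (q p) (f p)| ≤
      2 * pp q S * (A + B) := by
  have e1 : (fun m n => ∏ p, f p m n) = fun m n => ∏ p ∈ S, f p m n := by
    funext m n
    exact (prod_subset (subset_univ S) fun p _ hp => by rw [hS p hp]).symm
  have e2 : ∏ p, mean (q p) (f p) = ∏ p ∈ S, mean (q p) (f p) :=
    (prod_subset (subset_univ S) fun p _ hp => by rw [hS p hp, mean_const (h.prime p).pos]).symm
  rw [e1, e2, ← mean_prod h f hf]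
  refine box_mean (h.pp_pos S) (fun _ _ _ _ h1 h2 => prod_congr rfl fun p hp =>
    (hf p).of_dvd (h.dvd_pp.2 hp) _ _ _ _ h1 h2) (fun m n => ?_) a b A B
  rw [abs_prod]
  exact prod_le_one (fun _ _ => abs_nonneg _) fun p _ => h1 p m n

/-- The density of a state. -/
noncomputable def dens (q : ℕ) (st : ℤ → ℤ → St) (s : St) : ℝ :=
  mean q fun m n => if st m n = s then 1 else 0

lemma dens_nonneg (q : ℕ) (st : ℤ → ℤ → St) (s : St) : 0 ≤ dens q st s :=
  div_nonneg (sum_nonneg fun _ _ => sum_nonneg fun _ _ => by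
    dsimp only; split_ifs <;> norm_num) (by positivity)

lemma sum_dens {q : ℕ} (hq : 0 < q) (st : ℤ → ℤ → St) : ∑ s, dens q st s = 1 := by
  have hq' : (0 : ℝ) < q := by exact_mod_cast hq
  simp only [dens, mean, ← sum_div]
  rw [sum_comm]
  simp only [sum_comm (s := (univ : Finset St))]
  simp
  field_simp

lemma mean_lin {q : ℕ} (hq : 0 < q) (f : ℤ → ℤ → ℝ) (u v : ℝ) :
    mean q (fun m n => u * f m n + v) = u * mean q f + v := by
  have hq' : (0 : ℝ) < q := by exact_mod_cast hq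
  simp only [mean, sum_add_distrib, ← mul_sum]
  simp
  field_simp

omit [DecidableEq ι] in
lemma card_small_le (h : PSys q p₀ L) (D : Finset (Finset ι)) {Z : ℝ} (hZ : 0 ≤ Z)
    (hD : ∀ d ∈ D, (pp q d : ℝ) ≤ Z) : (D.card : ℝ) ≤ Z := by
  classical
  have : D.card ≤ (Ioc 0 ⌊Z⌋₊).card := by
    refine card_le_card_of_injOn (pp q) (fun d hd => ?_) fun d _ e _ hde => ?_
    · exact mem_coe.2 (mem_Ioc.2 ⟨h.pp_pos d, Nat.le_floor (hD d hd)⟩)
    · ext p; rw [← h.dvd_pp, ← h.dvd_pp, hde]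
  simp only [Nat.card_Ioc, tsub_zero] at this
  exact le_trans (by exact_mod_cast this) (Nat.floor_le hZ)

omit [DecidableEq ι] in
lemma pow_card_le_pp (h : PSys q p₀ L) {k : ℕ} (hk : k ≤ p₀) (S : Finset ι) :
    k ^ S.card ≤ pp q S := by
  rw [← prod_const]
  exact prod_le_prod' fun p _ => hk.trans (h.big p).le

theorem selberg (h : PSys q p₀ L) (h2 : 2 ≤ p₀) (st : ι → ℤ → ℤ → St)
    (hst : ∀ p, Per (q p) (st p)) (hg : ∀ p, 1 / 2 ≤ dens (q p) (st p) none) {Z : ℝ} (hZ : 1 ≤ Z)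
    (hs : 4 * ∑ p, (1 - dens (q p) (st p) none) * log (q p) ≤ log Z) (σ : ι → St)
    (a b : ℤ) (A B : ℕ) :
    box a b A B (fun m n => if ∀ p, st p m n = σ p then 1 else 0) ≤
      2 * A * B * ∏ p, dens (q p) (st p) (σ p) +
        2 * pp q (univ.filter fun p => σ p ≠ none) * Z ^ 6 * (A + B) := by
  set D := univ.filter fun p => σ p ≠ none with hD
  set r : ι → ℝ := fun p => dens (q p) (st p) none with hr
  have hr1 : ∀ p, r p ≤ 1 := fun p => by
    rw [← sum_dens (h.prime p).pos (st p)]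
    exact single_le_sum (fun s _ => dens_nonneg _ _ s) (mem_univ none)
  have hr0 : ∀ p, 0 < r p := fun p => by linarith [hg p]
  set DD := (Dᶜ).powerset.filter fun d => ((∏ p ∈ d, q p : ℕ) : ℝ) ≤ Z with hDD
  set G := ∑ d ∈ DD, ∏ p ∈ d, (1 - r p) / r p with hG
  have hh : ∀ p, 0 ≤ (1 - r p) / r p := fun p => div_nonneg (by linarith [hr1 p]) (hr0 p).le
  have hG1 : 1 ≤ G := by
    have := single_le_sum (s := DD) (f := fun d => ∏ p ∈ d, (1 - r p) / r p)
      (fun d _ => prod_nonneg fun p _ => hh p) (a := ∅) (by simpa [hDD] using hZ)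
    rwa [prod_empty] at this
  have hG2 : 1 ≤ 2 * G * ∏ p ∈ Dᶜ, r p := by
    have h1 := prod_le_two_mul_small Dᶜ q (fun p _ => (h.prime p).pos) (fun p => (1 - r p) / r p)
      (fun p _ => hh p) Z (by linarith) (by
        refine le_trans ?_ hs
        rw [show (4 : ℝ) = 2 * 2 by norm_num, mul_assoc, mul_sum univ]
        refine mul_le_mul_of_nonneg_left ((sum_le_sum fun p _ => ?_).trans
          (sum_le_sum_of_subset_of_nonneg (subset_univ _) fun p _ _ => ?_)) (by norm_num)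
        · rw [← mul_assoc]
          refine mul_le_mul_of_nonneg_right ?_ (log_natCast_nonneg _)
          rw [div_le_iff₀ (hr0 p)]
          nlinarith [hg p, hr1 p]
        · exact mul_nonneg (by norm_num)
            (mul_nonneg (by linarith [hr1 p]) (log_natCast_nonneg _)))
    have h3 : (∏ p ∈ Dᶜ, (1 + (1 - r p) / r p)) * ∏ p ∈ Dᶜ, r p = 1 := by
      rw [← prod_mul_distrib]
      exact prod_eq_one fun p _ => by have := (hr0 p).ne'; field_simp; ring
    rw [← h3]
    exact mul_le_mul_of_nonneg_right h1 (prod_nonneg fun p _ => (hr0 p).le)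
  let ind : ι → ℤ → ℤ → ℝ := fun p m n => if st p m n = σ p then 1 else 0
  let φ : ι → ℤ → ℤ → ℝ := fun p m n => (if st p m n = none then 1 else 0) - r p
  let f : Finset ι → Finset ι → ι → ℤ → ℤ → ℝ := fun d e p m n =>
    (if p ∈ D then ind p m n else 1) * (if p ∈ d then φ p m n else 1) *
      (if p ∈ e then φ p m n else 1)
  let c : Finset ι → ℝ := fun d => ∏ p ∈ d, (r p)⁻¹
  have hc0 : ∀ d, 0 ≤ c d := fun d => prod_nonneg fun p _ => (inv_pos.2 (hr0 p)).le
  have hpt : ∀ m n, (if ∀ p, st p m n = σ p then (1 : ℝ) else 0) * G ^ 2 ≤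
      ∑ d ∈ DD, ∑ e ∈ DD, c d * c e * ∏ p, f d e p m n := by
    intro m n
    have e1 : ∑ d ∈ DD, ∑ e ∈ DD, c d * c e * ∏ p, f d e p m n =
        (∏ p ∈ D, ind p m n) * (∑ d ∈ DD, c d * ∏ p ∈ d, φ p m n) ^ 2 := by
      rw [sq, sum_mul_sum, mul_sum]
      refine sum_congr rfl fun d _ => ?_
      rw [mul_sum]
      refine sum_congr rfl fun e _ => ?_
      simp only [f, prod_mul_distrib, prod_ite_mem, univ_inter]
      ring
    rw [e1]
    split_ifs with hσ
    · have e2 : ∏ p ∈ D, ind p m n = 1 := prod_eq_one fun p _ => if_pos (hσ p)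
      have e3 : ∑ d ∈ DD, c d * ∏ p ∈ d, φ p m n = G := by
        refine sum_congr rfl fun d hd => ?_
        rw [← prod_mul_distrib]
        refine prod_congr rfl fun p hp => ?_
        have : σ p = none := by
          simpa [hD] using mem_powerset.1 (mem_filter.1 hd).1 hp
        simp only [φ, hσ p, this, if_true]
        ring
      rw [e2, e3]
    · rw [zero_mul]
      exact mul_nonneg (prod_nonneg fun p _ => by simp only [ind]; split_ifs <;> norm_num)
        (sq_nonneg _)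
  have hφ : ∀ p m n, |φ p m n| ≤ 1 := fun p m n => by
    simp only [φ]; rw [abs_le]; constructor <;> split_ifs <;> linarith [hr0 p, hr1 p]
  have hmφ : ∀ p, mean (q p) (φ p) = 0 := fun p => by
    have := mean_lin (h.prime p).pos (fun m n => if st p m n = none then 1 else 0) 1 (-r p)
    simp only [one_mul, ← sub_eq_add_neg] at this
    exact this.trans (sub_self _)
  have hmφ2 : ∀ p, mean (q p) (fun m n => φ p m n * φ p m n) = r p * (1 - r p) := fun p => by
    have := mean_lin (h.prime p).pos (fun m n => if st p m n = none then 1 else 0)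
      (1 - 2 * r p) (r p ^ 2)
    rw [show (1 - 2 * r p) * mean (q p) (fun m n => if st p m n = none then 1 else 0) + r p ^ 2 =
      r p * (1 - r p) from by change (1 - 2 * r p) * r p + _ = _; ring] at this
    rw [← this]
    congr 1
    funext m n
    simp only [φ]; split_ifs <;> ring
  have hpair : ∀ d ∈ DD, ∀ e ∈ DD, c d * c e * box a b A B (fun m n => ∏ p, f d e p m n) ≤
      (if d = e then A * B * (∏ p ∈ D, dens (q p) (st p) (σ p)) * ∏ p ∈ d, (1 - r p) / r p
        else 0) + 2 * pp q D * Z ^ 4 * (A + B) := by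
    intro d hd e he
    rw [mem_filter, mem_powerset] at hd he
    have h3 := box_prod h (f d e) (fun p _ _ _ _ h1 h2 => by
        simp only [f, ind, φ, hst p _ _ _ _ h1 h2])
      (fun p m n => by
        simp only [f, abs_mul]
        refine mul_le_one₀ (mul_le_one₀ ?_ (abs_nonneg _) ?_) (abs_nonneg _) ?_
        · simp only [ind]; split_ifs <;> simp
        · split_ifs; exacts [hφ _ _ _, by simp]
        · split_ifs; exacts [hφ _ _ _, by simp])
      (D ∪ d ∪ e) (fun p hp => by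
        simp only [mem_union, not_or] at hp
        funext m n
        simp [f, hp.1.1, hp.1.2, hp.2]) a b A B
    have h4 : c d * c e * (A * B * ∏ p, mean (q p) (f d e p)) =
        if d = e then A * B * (∏ p ∈ D, dens (q p) (st p) (σ p)) * ∏ p ∈ d, (1 - r p) / r p
        else 0 := by
      split_ifs with hde
      · subst hde
        have : ∏ p, mean (q p) (f d d p) = ∏ p, (if p ∈ D then dens (q p) (st p) (σ p) else 1) *
            (if p ∈ d then r p * (1 - r p) else 1) := by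
          refine prod_congr rfl fun p _ => ?_
          by_cases h5 : p ∈ D <;> by_cases h6 : p ∈ d
          · exact absurd h5 (mem_compl.1 (hd.1 h6))
          · simp only [f, h5, h6, if_true, if_false, mul_one]; rfl
          · simp only [f, h5, h6, if_true, if_false, one_mul, hmφ2]
          · simp only [f, h5, h6, if_false, mul_one, mean_const (h.prime p).pos]
        rw [this]
        simp only [prod_mul_distrib, prod_ite_mem, univ_inter, c, prod_div_distrib,
          prod_inv_distrib]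
        have : ∏ p ∈ d, r p ≠ 0 := prod_ne_zero_iff.2 fun p _ => (hr0 p).ne'
        field_simp
      · obtain ⟨p, hp⟩ : ∃ p, ¬(p ∈ d ↔ p ∈ e) := by
          by_contra hc
          push Not at hc
          exact hde (Finset.ext hc)
        rw [prod_eq_zero (mem_univ p), mul_zero, mul_zero]
        by_cases h6 : p ∈ d
        · have h7 : p ∉ e := fun h => hp ⟨fun _ => h, fun _ => h6⟩
          simp only [f, mem_compl.1 (hd.1 h6), h6, h7, if_true, if_false, one_mul, mul_one, hmφ]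
        · have h7 : p ∈ e := by
            by_contra h; exact hp ⟨fun h' => absurd h' h6, fun h' => absurd h' h⟩
          simp only [f, mem_compl.1 (he.1 h7), h6, h7, if_true, if_false, one_mul, hmφ]
    have hc : ∀ d, ((∏ p ∈ d, q p : ℕ) : ℝ) ≤ Z → c d ≤ Z := by
      intro d hd
      refine le_trans ?_ hd
      push_cast
      refine prod_le_prod (fun p _ => (inv_pos.2 (hr0 p)).le) fun p _ => ?_
      have : (2 : ℝ) ≤ q p := by exact_mod_cast (h.prime p).two_le
      rw [inv_le_comm₀ (hr0 p) (by linarith)]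
      exact le_trans (inv_anti₀ two_pos this) (by simpa using hg p)
    have h5 : (pp q (D ∪ d ∪ e) : ℝ) ≤ pp q D * Z * Z := by
      have un : ∀ S T : Finset ι, pp q (S ∪ T) ≤ pp q S * pp q T := fun S T => by
        rw [pp, pp, pp, ← prod_union_inter]
        exact Nat.le_mul_of_pos_right _ (h.pp_pos _)
      have : pp q (D ∪ d ∪ e) ≤ pp q D * pp q d * pp q e :=
        (un _ _).trans (Nat.mul_le_mul_right _ (un _ _))
      calc (pp q (D ∪ d ∪ e) : ℝ) ≤ pp q D * pp q d * pp q e := by exact_mod_cast this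
        _ ≤ _ := by gcongr; exacts [hd.2, he.2]
    rw [← h4, ← sub_le_iff_le_add', ← mul_sub]
    calc _ ≤ c d * c e * (2 * pp q (D ∪ d ∪ e) * (A + B)) :=
          mul_le_mul_of_nonneg_left (le_abs_self _ |>.trans h3) (mul_nonneg (hc0 d) (hc0 e))
      _ ≤ Z * Z * (2 * (pp q D * Z * Z) * (A + B)) := by
          gcongr; exacts [hc0 e, hc d hd.2, hc e he.2]
      _ = _ := by ring
  have hcard : (DD.card : ℝ) ≤ Z := card_small_le h DD (by linarith) fun d hd => (mem_filter.1 hd).2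
  set X := box a b A B (fun m n => if ∀ p, st p m n = σ p then 1 else 0)
  set W := (A : ℝ) * B * ∏ p ∈ D, dens (q p) (st p) (σ p) with hW
  have hW0 : 0 ≤ W := mul_nonneg (by positivity) (prod_nonneg fun _ _ => dens_nonneg _ _ _)
  set Er := 2 * pp q D * Z ^ 6 * ((A : ℝ) + B) with hEr
  have hEr0 : 0 ≤ Er := by positivity
  have hmain : X * G ^ 2 ≤ W * G + Er := by
    calc X * G ^ 2 = box a b A B
          (fun m n => (if ∀ p, st p m n = σ p then (1 : ℝ) else 0) * G ^ 2) := by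
          simp only [X, box, sum_mul]
      _ ≤ box a b A B (fun m n => ∑ d ∈ DD, ∑ e ∈ DD, c d * c e * ∏ p, f d e p m n) :=
          sum_le_sum fun i _ => sum_le_sum fun j _ => hpt _ _
      _ = ∑ d ∈ DD, ∑ e ∈ DD, c d * c e * box a b A B (fun m n => ∏ p, f d e p m n) := by
          simp only [box_sum, box_mul]
      _ ≤ _ := sum_le_sum fun d hd => sum_le_sum fun e he => hpair d hd e he
      _ = W * G + (DD.card : ℝ) ^ 2 * (2 * pp q D * Z ^ 4 * (A + B)) := by
          simp only [sum_add_distrib, sum_ite_eq, sum_const, nsmul_eq_mul]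
          rw [hG, mul_sum]
          congr 1
          · exact sum_congr rfl fun d hd => if_pos hd
          · ring
      _ ≤ W * G + Z ^ 2 * (2 * pp q D * Z ^ 4 * (A + B)) := by gcongr
      _ = _ := by rw [hEr]; ring
  have e : 2 * A * B * ∏ p, dens (q p) (st p) (σ p) = W * (2 * ∏ p ∈ Dᶜ, r p) := by
    rw [← prod_mul_prod_compl D, hW]
    have : ∏ p ∈ Dᶜ, dens (q p) (st p) (σ p) = ∏ p ∈ Dᶜ, r p :=
      prod_congr rfl fun p hp => by
        have : σ p = none := by simpa [hD] using hp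
        rw [this]
    rw [this]; ring
  rw [e]
  have hG0 : 0 < G ^ 2 := by positivity
  refine le_of_mul_le_mul_right (hmain.trans ?_) hG0
  have h6 : W * G ≤ W * G * (2 * G * ∏ p ∈ Dᶜ, r p) :=
    le_mul_of_one_le_right (by positivity) hG2
  have h7 : Er ≤ Er * G ^ 2 := le_mul_of_one_le_right hEr0 (one_le_pow₀ hG1)
  nlinarith

end Pool.Agent.Lib.MP_788af2_nt
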