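import Pool.Agent.Lib.MP_788af2_nt.Means
import Pool.Agent.Lib.MP_788af2_nt.Model
import Pool.Agent.Lib.MP_788af2_nt.Sieve

/-!
The average of the majorant over a box, for the primes up to a level `y`.
-/

namespace Pool.Agent.Lib.MP_788af2_nt

open Finset Real
open scoped NumberTheorySymbols

open Classical in
/-- The hypotheses on a two-parameter family of curves with full rational 2-torsion. -/
structure Fam (p₀ : ℕ) (K c₀ : ℝ) (e : ℤ → ℤ → Fin 3 → ℤ) (st : ℕ → ℤ → ℤ → St)
    (bad : ℕ → ℤ → ℤ → Prop) (μ : Option (Fin 3 × Bool) → ℝ) : Prop where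
  one_le : 1 ≤ K
  big : 104 * K ≤ p₀
  cpos : 0 < c₀
  per : ∀ p, Per p (st p)
  perb : ∀ p, Per (p ^ 2) (bad p)
  badle : ∀ p, p.Prime → p₀ < p →
    mean (p ^ 2) (fun m n => if bad p m n then 1 else 0) ≤ K / p ^ 2
  valid : ∀ p m n, p.Prime → p₀ < p → ¬bad p m n →
    Valid (e m n) p (st p m n) ∧ ((p : ℤ) ∣ dsc (e m n) → st p m n ≠ none)
  le : ∀ (p : ℕ) s, p.Prime → p₀ < p → p * dens p (st p) (some s) ≤ K
  hmean : ∀ s, HasMean p₀ (fun p => p * dens p (st p) (some s)) (μ s)
  osc1 : ∀ i, Osc p₀ fun p => p * dens p (st p) (some (some (i, false))) +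
    p * dens p (st p) (some (some (i, true)))
  osc2 : ∀ i, Osc p₀ fun p => p * dens p (st p) (some (some (i, false))) -
    p * dens p (st p) (some (some (i, true)))
  drift : ∀ i, 7 * μ (some (i, false)) ≤ 6 * Cc μ i
  pos : ∀ i, c₀ ≤ Cc μ i

variable {p₀ : ℕ} {K c₀ : ℝ} {e : ℤ → ℤ → Fin 3 → ℤ} {st : ℕ → ℤ → ℤ → St}
  {bad : ℕ → ℤ → ℤ → Prop} {μ : Option (Fin 3 × Bool) → ℝ}

lemma psys (p₀ y : ℕ) : PSys (Subtype.val : PP p₀ y → ℕ) p₀ (LL y) where
  prime p := (mem_PP.1 p.2).1
  inj := Subtype.val_injective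
  big p := (mem_PP.1 p.2).2.1
  sum_le := by
    rw [sum_coe_sort (PP p₀ y) fun p => (p : ℝ)⁻¹]
    exact sum_le_sum_of_subset_of_nonneg (filter_subset _ _) fun _ _ _ => by positivity
  log_le := by
    rw [sum_coe_sort (PP p₀ y) fun p => log p / p]
    exact (sum_le_sum_of_subset_of_nonneg (filter_subset _ _) fun p _ _ =>
      div_nonneg (log_natCast_nonneg p) (by positivity)).trans
        ((sum_log_div_le y).trans (log_le_exp_LL' y))
  nonneg := LL_nonneg y

lemma Fam.none_ge (H : Fam p₀ K c₀ e st bad μ) {p : ℕ} (hp : p.Prime) (h : p₀ < p) :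
    1 - dens p (st p) none = ∑ s, dens p (st p) (some s) ∧
    1 - dens p (st p) none ≤ 7 * K / p ∧ 1 / 2 ≤ dens p (st p) none := by
  have h0 : (0 : ℝ) < p := by exact_mod_cast hp.pos
  have h1 := sum_dens hp.pos (st p)
  rw [Fintype.sum_option] at h1
  have h2 : ∑ s, dens p (st p) (some s) ≤ 7 * K / p := by
    refine (sum_le_card_nsmul _ _ (K / p) fun s _ => ?_).trans (le_of_eq ?_)
    · rw [le_div_iff₀' h0]; exact H.le p s hp h
    · simp; ring
  have h3 : 7 * K / p ≤ 1 / 2 := by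
    have : (p₀ : ℝ) < p := by exact_mod_cast h
    rw [div_le_iff₀ h0]; linarith [H.big, H.one_le]
  exact ⟨by linarith, by linarith, by linarith⟩

/-- The normalised weights. -/
noncomputable def hwt (st : ℕ → ℤ → ℤ → St) (s : Option (Fin 3 × Bool)) (p : ℕ) : ℝ :=
  dens p (st p) (some s) / dens p (st p) none

lemma Fam.hwt_near (H : Fam p₀ K c₀ e st bad μ) (s : Option (Fin 3 × Bool)) {p : ℕ}
    (hp : p.Prime) (h : p₀ < p) : 0 ≤ hwt st s p ∧ hwt st s p ≤ 2 * K / p ∧
      |p * hwt st s p - p * dens p (st p) (some s)| ≤ 14 * K ^ 2 / p := by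
  obtain ⟨h1, h2, h3⟩ := H.none_ge hp h
  have h0 : (0 : ℝ) < p := by exact_mod_cast hp.pos
  have h4 := H.le p s hp h
  have h5 := dens_nonneg p (st p) (some s)
  have h6 : 0 ≤ 1 - dens p (st p) none := h1 ▸ sum_nonneg fun s _ => dens_nonneg _ _ _
  have hK := H.one_le
  simp only [hwt]
  set d := dens p (st p) (some s)
  set r := dens p (st p) none
  have hr : 0 < r := by linarith
  refine ⟨by positivity, ?_, ?_⟩
  · rw [div_le_div_iff₀ hr h0]; nlinarith
  · rw [show p * (d / r) - p * d = (p * d) * (1 - r) / r by field_simp,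
      abs_of_nonneg (by positivity), div_le_iff₀ hr]
    calc _ ≤ K * (7 * K / p) := by gcongr
      _ = 14 * K ^ 2 / p * (1 / 2) := by ring
      _ ≤ _ := by gcongr

lemma Fam.whyp (H : Fam p₀ K c₀ e st bad μ) : ∃ C₀ C₁, 0 ≤ C₁ ∧ ∀ y,
    WHyp (Subtype.val : PP p₀ y → ℕ) (LL y) (2 * K) C₀ C₁ c₀ (hwt st) μ := by
  choose C hC using fun s => (H.hmean s).near fun p hp h => (H.hwt_near s hp h).2.2
  have n1 : ∀ (i : Fin 3) (ε : ℝ), |ε| = 1 → ∀ p : ℕ, p.Prime → p₀ < p →
      |p * (hwt st (some (i, false)) p + ε * hwt st (some (i, true)) p) -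
        (p * dens p (st p) (some (some (i, false))) +
          ε * (p * dens p (st p) (some (some (i, true)))))| ≤ 28 * K ^ 2 / p := by
    intro i ε hε p hp h
    have h1 := (H.hwt_near (some (i, false)) hp h).2.2
    have h2 := (H.hwt_near (some (i, true)) hp h).2.2
    rw [← one_mul |_|, ← hε, ← abs_mul] at h2
    refine le_trans (le_of_eq ?_) ((abs_add_le _ _).trans ((add_le_add h1 h2).trans
      (le_of_eq (by ring))))
    congr 1; ring
  choose C1 hC1 hC1' using fun i => (H.osc1 i).near (K := 28 * K ^ 2)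
    (g := fun p => p * (hwt st (some (i, false)) p + hwt st (some (i, true)) p))
    fun p hp h => by simpa using n1 i 1 (by simp) p hp h
  choose C2 hC2 hC2' using fun i => (H.osc2 i).near (K := 28 * K ^ 2)
    (g := fun p => p * (hwt st (some (i, false)) p - hwt st (some (i, true)) p))
    fun p hp h => by simpa [← sub_eq_add_neg] using n1 i (-1) (by simp) p hp h
  have key : ∀ y (f g : ℕ → ℝ), ∑ p : PP p₀ y, f p * g p = ∑ p ∈ PP p₀ y, p * f p / p * g p := by
    intro y f g
    rw [sum_coe_sort (PP p₀ y) fun p => f p * g p]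
    refine sum_congr rfl fun p hp => ?_
    have : (p : ℝ) ≠ 0 := by exact_mod_cast (mem_PP.1 hp).1.ne_zero
    field_simp
  have hs : ∀ i, C1 i + C2 i ≤ ∑ i, (C1 i + C2 i) := fun i =>
    single_le_sum (f := fun i => C1 i + C2 i) (fun i _ => add_nonneg (hC1 i) (hC2 i)) (mem_univ i)
  refine ⟨∑ s, |C s|, ∑ i, (C1 i + C2 i), sum_nonneg fun i _ => add_nonneg (hC1 i) (hC2 i),
    fun y => ⟨fun s p => ?_, fun s p => ?_, fun s => ?_, fun i κ l a h1 h2 h3 h4 h5 => ?_,
      fun i κ l a h1 h2 h3 h4 h5 => ?_, H.drift, H.pos⟩⟩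
  · exact (H.hwt_near s (mem_PP.1 p.2).1 (mem_PP.1 p.2).2.1).1
  · exact (H.hwt_near s (mem_PP.1 p.2).1 (mem_PP.1 p.2).2.1).2.1
  · have := key y (hwt st s) fun _ => 1
    simp only [mul_one] at this
    rw [this]
    exact (hC s y).trans ((le_abs_self _).trans
      (single_le_sum (f := fun s => |C s|) (fun _ _ => abs_nonneg _) (mem_univ s)))
  · rw [key y (fun p => hwt st (some (i, false)) p + hwt st (some (i, true)) p)
      fun p => (J((p : ℤ) | l * a) : ℝ) * κ p]
    refine (hC1' i y κ l a h1 h2 h3 h4 h5).trans (mul_le_mul_of_nonneg_right ?_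
      (zero_le_one.trans (one_le_loglog _)))
    linarith [hs i, hC2 i]
  · rw [key y (fun p => hwt st (some (i, false)) p - hwt st (some (i, true)) p)
      fun p => (J((p : ℤ) | l * a) : ℝ) * κ p]
    refine (hC2' i y κ l a h1 h2 h3 h4 h5).trans (mul_le_mul_of_nonneg_right ?_
      (zero_le_one.trans (one_le_loglog _)))
    linarith [hs i, hC1 i]

lemma Fam.main_term (H : Fam p₀ K c₀ e st bad μ) : ∃ C, ∀ y,
    ∑ σ : PP p₀ y → St, (∏ p : PP p₀ y, dens p (st p) (σ p)) * MM Subtype.val σ ≤ C := by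
  obtain ⟨C₀, C₁, hC₁, hW⟩ := H.whyp
  obtain ⟨C, hC⟩ := model_bound (K := 2 * K) (C₀ := C₀) (by linarith [H.one_le]) hC₁ H.cpos
  refine ⟨|C| * exp (2 * |(14 * K) ^ 2|), fun y => ?_⟩
  have h1 := hC _ _ p₀ _ _ μ (psys p₀ y) (by linarith [H.big]) (hW y)
  have hr := fun p : PP p₀ y => H.none_ge (mem_PP.1 p.2).1 (mem_PP.1 p.2).2.1
  have hr0 : ∀ p : PP p₀ y, 0 < dens p (st p) none := fun p => by linarith [(hr p).2.2]
  have h2 : ∀ σ : PP p₀ y → St, ∏ p : PP p₀ y, dens p (st p) (σ p) =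
      (∏ p : PP p₀ y, dens p (st p) none) * wt Subtype.val (hwt st) σ := by
    intro σ
    rw [wt, ← prod_mul_distrib]
    refine prod_congr rfl fun p _ => ?_
    have := (hr0 p).ne'
    rcases σ p with _ | s
    · simp
    · simp only [Option.elim, hwt]; field_simp
  rw [sum_congr rfl fun σ _ => by rw [h2 σ, mul_assoc], ← mul_sum]
  have hx := fun s (p : PP p₀ y) => H.hwt_near s (mem_PP.1 p.2).1 (mem_PP.1 p.2).2.1
  have h3 := exp_le_prod_one_add univ (fun p : PP p₀ y => ∑ s, hwt st s p)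
    fun p _ => sum_nonneg fun s _ => (hx s p).1
  have h4 : (∏ p : PP p₀ y, dens p (st p) none) *
      ∏ p : PP p₀ y, (1 + ∑ s, hwt st s p) = 1 := by
    rw [← prod_mul_distrib]
    refine prod_eq_one fun p _ => ?_
    have := (hr0 p).ne'
    simp only [hwt, ← sum_div, ← (hr p).1]
    field_simp; ring
  have h5 : ∑ p : PP p₀ y, (∑ s, hwt st s p) ^ 2 ≤ 2 * |(14 * K) ^ 2| := by
    refine le_trans ?_ (sum_PP_small p₀ y (fun p => (14 * K) ^ 2 / p) (K := (14 * K) ^ 2)
      fun p _ _ => (abs_of_nonneg (by positivity)).le)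
    rw [← sum_coe_sort (PP p₀ y)]
    refine sum_le_sum fun p _ => le_trans ?_ (le_abs_self _)
    have : ∑ s, hwt st s p ≤ 14 * K / p := by
      refine (sum_le_card_nsmul _ _ _ fun s _ => (hx s p).2.1).trans (le_of_eq ?_)
      simp; ring
    calc _ ≤ (14 * K / p) ^ 2 := pow_le_pow_left₀ (sum_nonneg fun s _ => (hx s p).1) this 2
      _ = _ := by ring
  have h6 : 0 ≤ ∏ p : PP p₀ y, dens p (st p) none := prod_nonneg fun p _ => (hr0 p).le
  rw [sum_comm] at h1
  have h7 : (∏ p : PP p₀ y, dens p (st p) none) * exp (∑ p : PP p₀ y, ∑ s, hwt st s p) ≤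
      exp (2 * |(14 * K) ^ 2|) := by
    have h8 := mul_le_mul_of_nonneg_left h3 h6
    rw [h4, exp_sub, ← mul_div_assoc, div_le_one (exp_pos _)] at h8
    exact h8.trans (exp_le_exp.2 h5)
  calc _ ≤ (∏ p : PP p₀ y, dens p (st p) none) * (|C| * exp (∑ p : PP p₀ y, ∑ s, hwt st s p)) :=
        mul_le_mul_of_nonneg_left (h1.trans
          (mul_le_mul_of_nonneg_right (le_abs_self _) (exp_pos _).le)) h6
    _ = |C| * ((∏ p : PP p₀ y, dens p (st p) none) * exp (∑ p : PP p₀ y, ∑ s, hwt st s p)) := by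
        ring
    _ ≤ _ := by gcongr

/-- The product of the primes whose state is not `none`. -/
def DP {ι : Type} [Fintype ι] (q : ι → ℕ) (σ : ι → St) : ℕ :=
  pp q (univ.filter fun p => σ p ≠ none)

lemma card_cfg_le {ι : Type} [Fintype ι] [DecidableEq ι] {q : ι → ℕ} {L : ℝ} (h : PSys q p₀ L)
    (h7 : 7 ≤ p₀) {Z : ℝ} (hZ : 0 ≤ Z) :
    ((univ.filter fun σ : ι → St => (DP q σ : ℝ) ≤ Z).card : ℝ) ≤ Z ^ 2 := by
  set DD := univ.filter fun d : Finset ι => (pp q d : ℝ) ≤ Z with hDD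
  have h1 := card_small_le h DD hZ fun d hd => (mem_filter.1 hd).2
  rw [card_eq_sum_card_fiberwise (f := fun σ : ι → St => univ.filter fun p => σ p ≠ none)
    (t := DD) (fun σ hσ => by simpa [hDD, DP] using hσ)]
  push_cast
  refine (sum_le_card_nsmul _ _ Z fun d hd => ?_).trans (by rw [nsmul_eq_mul, sq]; gcongr)
  refine le_trans ?_ (mem_filter.1 hd).2
  have h2 := pow_card_le_pp h h7 d
  have h3 : (Fintype.piFinset fun p => if p ∈ d then univ.erase (none : St) else {none}).card =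
      7 ^ d.card := by
    rw [Fintype.card_piFinset]
    simp only [apply_ite card, card_singleton, prod_ite_mem, univ_inter, prod_const]
    rfl
  rw [← h3] at h2
  refine Nat.cast_le.2 (le_trans (card_le_card fun σ hσ => ?_) h2)
  rw [Fintype.mem_piFinset]
  intro p
  rw [← (mem_filter.1 hσ).2]
  by_cases hp : σ p = none <;> simp [hp]

theorem Fam.level (H : Fam p₀ K c₀ e st bad μ) : ∃ C, 0 ≤ C ∧ ∀ (y : ℕ) (Z : ℝ), 1 ≤ Z →
    28 * K * (log y + log 4) ≤ log Z → ∀ (a b : ℤ) (A B : ℕ),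
      box a b A B (fun m n => if (DP Subtype.val (fun p : PP p₀ y => st p m n) : ℝ) ≤ Z then
        MM Subtype.val (fun p : PP p₀ y => st p m n) else 0) ≤
      C * A * B + 16 * Z ^ 10 * (A + B) := by
  obtain ⟨C, hC⟩ := H.main_term
  have hK := H.one_le
  have h104 : 104 ≤ p₀ := by
    have : (104 : ℝ) ≤ p₀ := by linarith [H.big]
    exact_mod_cast this
  refine ⟨2 * |C|, by positivity, fun y Z hZ hs a b A B => ?_⟩
  have hr := fun p : PP p₀ y => H.none_ge (mem_PP.1 p.2).1 (mem_PP.1 p.2).2.1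
  have hsel := selberg (psys p₀ y) (by omega) (fun p => st p) (fun p => H.per p)
    (fun p => (hr p).2.2) hZ (by
      refine le_trans ?_ hs
      calc _ ≤ 4 * ∑ p : PP p₀ y, 7 * K * (log p / p) := by
            refine mul_le_mul_of_nonneg_left (sum_le_sum fun p _ => ?_) (by norm_num)
            refine (mul_le_mul_of_nonneg_right (hr p).2.1 (log_natCast_nonneg _)).trans
              (le_of_eq (by ring))
        _ = 28 * K * ∑ p ∈ PP p₀ y, log p / p := by
            rw [← mul_sum, sum_coe_sort (PP p₀ y) fun p => log p / p]; ring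
        _ ≤ _ := by
            refine mul_le_mul_of_nonneg_left (le_trans ?_ (sum_log_div_le y)) (by positivity)
            exact sum_le_sum_of_subset_of_nonneg (filter_subset _ _) fun p _ _ =>
              div_nonneg (log_natCast_nonneg p) (by positivity))
  set S := univ.filter fun σ : PP p₀ y → St => (DP Subtype.val σ : ℝ) ≤ Z with hS
  have h1 : (fun m n => if (DP Subtype.val (fun p : PP p₀ y => st p m n) : ℝ) ≤ Z then
        MM Subtype.val (fun p : PP p₀ y => st p m n) else 0) = fun m n => ∑ σ ∈ S,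
        MM Subtype.val σ * if ∀ p : PP p₀ y, st p m n = σ p then 1 else 0 := by
    funext m n
    simp only [← funext_iff (f := fun p : PP p₀ y => st p m n), mul_ite, mul_one, mul_zero,
      sum_ite_eq, hS, mem_filter, mem_univ, true_and]
  have hM : ∀ σ : PP p₀ y → St, 0 ≤ MM Subtype.val σ := fun σ =>
    zero_le_one.trans (MM_terms _ σ).1
  rw [h1, box_sum]
  simp only [box_mul]
  calc _ ≤ ∑ σ ∈ S, (2 * A * B * ((∏ p : PP p₀ y, dens p (st p) (σ p)) * MM Subtype.val σ) +
        16 * Z ^ 8 * (A + B)) := by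
        refine sum_le_sum fun σ hσ => (mul_le_mul_of_nonneg_left (hsel σ a b A B) (hM σ)).trans ?_
        have h2 : (DP Subtype.val σ : ℝ) ≤ Z := (mem_filter.1 hσ).2
        have h3 : MM Subtype.val σ ≤ 8 * Z := by
          refine (MM_le _ σ).trans (mul_le_mul_of_nonneg_left (le_trans ?_ h2) (by norm_num))
          exact_mod_cast pow_card_le_pp (psys p₀ y) (by omega : 4 ≤ p₀) _
        rw [mul_add]
        refine add_le_add (le_of_eq (by ring)) ?_
        calc _ ≤ 8 * Z * (2 * Z * Z ^ 6 * (A + B)) := by gcongr; exact h2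
          _ = _ := by ring
    _ ≤ 2 * A * B * |C| + Z ^ 2 * (16 * Z ^ 8 * (A + B)) := by
        rw [sum_add_distrib, ← mul_sum, sum_const, nsmul_eq_mul]
        gcongr
        · refine le_trans ?_ ((hC y).trans (le_abs_self _))
          exact sum_le_sum_of_subset_of_nonneg (subset_univ _) fun σ _ _ =>
            mul_nonneg (prod_nonneg fun _ _ => dens_nonneg _ _ _) (hM σ)
        · exact card_cfg_le (psys p₀ y) (by omega) (by linarith)
    _ = _ := by ring

end Pool.Agent.Lib.MP_788af2_nt
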