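import Pool.Agent.Lib.MP_788af2_nt.FamAux

/-!
Local data of the family with torsion label 22.
-/

namespace Pool.Agent.Lib.MP_788af2_nt

open Finset

/-- First root difference. -/
abbrev M22 (m n : ℤ) : ℤ := m

/-- Second root difference. -/
abbrev N22 (m n : ℤ) : ℤ := n

lemma form22_0 : Form 1000000 (fun m n => m - n) (fun m n => M22 m n - 0) (1 / 2) :=
  Form.bal (by norm_num) (fun _ _ _ _ _ h1 h2 => by beta_reduce; gcongr) (u := -1)
    (v := 1) (by norm_num) (by norm_num) (by norm_num) (by norm_num) (fun m => m)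
    (fun m n => by ring) fun _ m n hp _ hF => jac_of' hp _ (0) hF (by ring)

lemma form22_1 : Form 1000000 (fun m n => n) (fun m n => N22 m n - M22 m n) (1 / 2) :=
  Form.bal (by norm_num) (fun _ _ _ _ _ h1 h2 => by beta_reduce; gcongr) (u := 1)
    (v := -1) (by norm_num) (by norm_num) (by norm_num) (by norm_num) (fun m => 0)
    (fun m n => by ring) fun _ m n hp _ hF => jac_of' hp _ (1) hF (by ring)

lemma form22_2 : Form 1000000 (fun m n => m) (fun m n => 0 - N22 m n) (1 / 2) :=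
  (Form.bal (F := fun m n => n) (G := fun m n => 0 - N22 n m) (by norm_num)
    (fun _ _ _ _ _ h1 h2 => by beta_reduce; gcongr) (u := 1) (v := -1) (by norm_num)
    (by norm_num) (by norm_num) (by norm_num) (fun m => 0) (fun m n => by ring)
    fun _ m n hp _ hF => jac_of' hp _ (0) hF (by ring)).swap

lemma cop22_01 {p : ℕ} {m n : ℤ} (hp : p.Prime) (h0 : 1000000 < p)
    (h1 : (p : ℤ) ∣ m - n) (h2 : (p : ℤ) ∣ n) : (p : ℤ) ∣ m ∧ (p : ℤ) ∣ n :=
  cert hp h0 h1 h2 1 1 1 (1) (1) (0) (1) (by norm_num) (by ring) (by ring)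

lemma cop22_02 {p : ℕ} {m n : ℤ} (hp : p.Prime) (h0 : 1000000 < p)
    (h1 : (p : ℤ) ∣ m - n) (h2 : (p : ℤ) ∣ m) : (p : ℤ) ∣ m ∧ (p : ℤ) ∣ n :=
  cert hp h0 h1 h2 1 1 1 (0) (1) (-1) (1) (by norm_num) (by ring) (by ring)

lemma cop22_12 {p : ℕ} {m n : ℤ} (hp : p.Prime) (h0 : 1000000 < p)
    (h1 : (p : ℤ) ∣ n) (h2 : (p : ℤ) ∣ m) : (p : ℤ) ∣ m ∧ (p : ℤ) ∣ n :=
  cert hp h0 h1 h2 1 1 1 (0) (1) (1) (0) (by norm_num) (by ring) (by ring)

lemma fam22 : ∃ p₀ K c₀ st bad μ,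
    Fam p₀ K c₀ (fun m n => ![0, M22 m n, N22 m n]) st bad μ := by
  have H : Forms (κ := Fin 3) 1000000 (fun m n => ![0, M22 m n, N22 m n])
      ![fun m n => m - n, fun m n => n, fun m n => m]
      ![0, 1, 2] ![1, 1, 1] ![1, 1, -1]
      ![1 / 2, 1 / 2, 1 / 2] := by
    refine ⟨by simp, fun k => ?_, fun m n i => ?_, by decide, by decide,
      fun p j k m n hp h0 hjk h1 h2 => ?_, fun i => ?_, fun i => ?_⟩
    · fin_cases k
      exacts [form22_0, form22_1, form22_2]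
    · rw [prod_filter, Fin.prod_univ_three]
      fin_cases i <;> simp <;> ring
    · fin_cases j <;> fin_cases k
      exacts [absurd rfl hjk, cop22_01 hp h0 h1 h2, cop22_02 hp h0 h1 h2, cop22_01 hp h0 h2 h1,
        absurd rfl hjk, cop22_12 hp h0 h1 h2, cop22_02 hp h0 h2 h1, cop22_12 hp h0 h2 h1, absurd
        rfl hjk]
    · rw [sum_filter, sum_filter, Fin.sum_univ_three, Fin.sum_univ_three]
      fin_cases i <;> simp [Nat.odd_iff] <;> norm_num
    · rw [sum_filter, Fin.sum_univ_three]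
      fin_cases i <;> simp [Nat.odd_iff] <;> norm_num
  exact ⟨_, _, _, H.fam⟩

lemma aux22 : (∀ m n, IsCoprime m n → ∃ U W, U * M22 m n + W * N22 m n = (1 : ℕ)) ∧
    (∀ T m n : ℤ, 1 ≤ T → |M22 m n| ≤ T ^ 1 → |N22 m n| ≤ T ^ 1 →
      |m| ≤ (2 : ℕ) * T ∧ |n| ≤ ((2 : ℕ) * T) ^ 1) ∧
    ∀ T m n : ℤ, 1 ≤ T → |m| ≤ T → |n| ≤ T ^ 1 →
      |M22 m n| ≤ (2 : ℕ) * T ^ 1 ∧ |N22 m n| ≤ (2 : ℕ) * T ^ 1 :=
  p1_aux 0 [0, 1] [1, 0]
    [1] [0]
    [0] [1]
    (by norm_num) (by norm_num) 1 (by norm_num)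
    (fun m n => by simp only [hf, List.length]; ring)
    (fun m n => by simp only [hf, List.length]; ring)
    (by decide) (by decide) (by decide) (by decide) (by decide) (by decide) (by norm_num)
    (fun m n => by simp only [hf, List.length]; ring)
    (fun m n => by simp only [hf, List.length]; ring)

end Pool.Agent.Lib.MP_788af2_nt
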