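import Pool.Agent.Lib.MP_788af2_nt.Curve

/-!
The Mordell-Weil theorem over the rationals from weak Mordell-Weil, and rank lemmas.
-/

namespace Pool.Agent.Lib.MP_788af2_nt

open WeierstrassCurve WeierstrassCurve.Affine Height

section

variable {a b c : ℚ}

lemma addSub_eval (a b c : ℚ) (s t u : ℚ) :
    (fun i => MvPolynomial.eval ![s, t, u] (addSubMap (cv a b c) i)) =
      ![s ^ 2 - 2 * b * s * u - 4 * c * t * u - (4 * a * c - b ^ 2) * u ^ 2,
        2 * t * s + 4 * a * s * u + 2 * b * t * u + 4 * c * u ^ 2, t ^ 2 - 4 * s * u] := by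
  ext i
  fin_cases i <;> simp [addSubMap, b₂, b₄, b₆, b₈]

lemma addSub_spec [(cv a b c).IsElliptic] (P Q : (cv a b c).Point) :
    ∃ k : ℚ, k ≠ 0 ∧
      (fun i => MvPolynomial.eval (P.sym2x Q) (addSubMap (cv a b c) i)) =
        k • (P + Q).sym2x (P - Q) := by
  have key : ∀ (P : (cv a b c).Point), ∃ k : ℚ, k ≠ 0 ∧
      (fun i => MvPolynomial.eval (P.sym2x P) (addSubMap (cv a b c) i)) =
        k • (P + P).sym2x 0 := by
    intro P
    rcases P with _ | ⟨x, y, h⟩
    · rw [← Point.zero_def]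
      refine ⟨1, one_ne_zero, ?_⟩
      rw [add_zero, Point.sym2x_zero_zero, addSub_eval]; simp
    · have h1 := ((nonsing_iff ..).1 h).1
      have hne := addSubMap_ne_zero (cv a b c)
        (Point.sym2x_ne_zero (Point.some x y h) (Point.some x y h))
      rw [Point.sym2x_some_some, addSub_eval] at hne ⊢
      by_cases hy : y = 0
      · subst hy
        rw [Point.add_of_Y_eq rfl (by simp [negY]), Point.sym2x_zero_zero]
        have e2 : 2 * (x + x) * (x * x) + 4 * a * (x * x) * 1 + 2 * b * (x + x) * 1 +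
            4 * c * 1 ^ 2 = 0 := by linear_combination (-4) * h1
        have e3 : (x + x) ^ 2 - 4 * (x * x) * 1 = 0 := by ring
        rw [e2, e3] at hne ⊢
        refine ⟨_, ?_, by ext i; fin_cases i <;> simp; rfl⟩
        intro h0
        apply hne
        ext i; fin_cases i <;> simp
        simpa using h0
      · have hne' : y ≠ (cv a b c).negY x y := by
          simp only [negY, zero_mul, sub_zero]
          intro h; apply hy; linarith
        rw [Point.add_self_of_Y_ne hne', Point.sym2x_some_zero, slope_of_Y_ne rfl hne']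
        refine ⟨4 * y ^ 2, by positivity, ?_⟩
        ext i
        fin_cases i
        · simp only [negY, addX, zero_mul, sub_zero, add_zero]
          simp
          have : y + y = 2 * y := by ring
          rw [this]
          field_simp
          linear_combination 4 * (4 * a + 8 * x) * h1
        · simp
          linear_combination (-4) * h1
        · simp
          ring
  rcases P with _ | ⟨x₁, y₁, h₁⟩
  · rw [← Point.zero_def, zero_add, zero_sub, Point.sym2x_neg_right]
    rcases Q with _ | ⟨x₂, y₂, h₂⟩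
    · rw [← Point.zero_def]
      simpa using key 0
    · refine ⟨1, one_ne_zero, ?_⟩
      rw [Point.sym2x_zero_some, addSub_eval, Point.sym2x_some_some]
      ext i; fin_cases i <;> simp <;> ring
  rcases Q with _ | ⟨x₂, y₂, h₂⟩
  · rw [← Point.zero_def, add_zero, sub_zero]
    refine ⟨1, one_ne_zero, ?_⟩
    rw [Point.sym2x_some_zero, addSub_eval, Point.sym2x_some_some]
    ext i; fin_cases i <;> simp <;> ring
  by_cases hx : x₁ = x₂
  · rcases (Point.X_eq_iff (h₁ := h₁) (h₂ := h₂)).1 hx with h | h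
    · rw [← h, sub_self]; exact key _
    · have h' : Point.some x₂ y₂ h₂ = -Point.some x₁ y₁ h₁ := by rw [h, neg_neg]
      rw [h', add_neg_cancel, sub_neg_eq_add, Point.sym2x_neg_right, Point.sym2x_comm 0]
      exact key _
  · have q1 := ((nonsing_iff ..).1 h₁).1
    have q2 := ((nonsing_iff ..).1 h₂).1
    have hx' : x₁ - x₂ ≠ 0 := sub_ne_zero.2 hx
    rw [sub_eq_add_neg, Point.neg_some, Point.add_of_X_ne hx, Point.add_of_X_ne hx,
      Point.sym2x_some_some, Point.sym2x_some_some, addSub_eval, slope_of_X_ne hx,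
      slope_of_X_ne hx]
    refine ⟨(x₁ - x₂) ^ 2, by positivity, ?_⟩
    ext i
    fin_cases i
    · simp [negY, addX]
      linear_combination (norm := (field_simp; ring1))
        ((-4 * a * x₁ * x₂ + a * x₁ ^ 2 + 2 * a * x₂ ^ 2 - b * x₁ - c - 2 * x₁ * x₂ ^ 2 - 2 * x₁ ^ 2 * x₂ + x₁ ^ 3 + 2 * x₂ ^ 3 - y₁ ^ 2 + 2 * y₂ ^ 2) / (x₁ - x₂) ^ 2) * q1 +
        ((-4 * a * x₁ * x₂ + 4 * a * x₁ ^ 2 + a * x₂ ^ 2 + 2 * b * x₁ - b * x₂ + c - 2 * x₁ * x₂ ^ 2 - 2 * x₁ ^ 2 * x₂ + 4 * x₁ ^ 3 + x₂ ^ 3 - y₂ ^ 2) / (x₁ - x₂) ^ 2) * q2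
    · simp [negY, addX]
      field_simp
      linear_combination (-2) * q1 - 2 * q2
    · simp
      ring

lemma fg_of_finiteIndex (hΔ : (cv a b c).Δ ≠ 0)
    (H : (nsmulAddMonoidHom (α := (cv a b c).Point) 2).range.FiniteIndex) :
    AddGroup.FG (cv a b c).Point := by
  have : (cv a b c).IsElliptic := ⟨Ne.isUnit hΔ⟩
  obtain ⟨C₁, hC₁⟩ := abs_logHeight_addSubMap_sub_two_mul_logHeight_le (cv a b c)
  obtain ⟨C₂, hC₂⟩ := abs_logHeight_sym2_sub_le ℚ
  let h : (cv a b c).Point → ℝ := fun P => logHeight P.xRep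
  have hs : ∀ P Q : (cv a b c).Point, |logHeight (P.sym2x Q) - (h P + h Q)| ≤ C₂ := by
    intro P Q
    have e : ∀ P : (cv a b c).Point, ![P.xRep 0, P.xRep 1] = P.xRep := by
      intro P; ext i; fin_cases i <;> rfl
    have := hC₂ (a := P.xRep 0) (b := P.xRep 1) (c := Q.xRep 0) (d := Q.xRep 1)
      (by rw [e]; exact P.xRep_ne_zero) (by rw [e]; exact Q.xRep_ne_zero)
    rw [e, e] at this
    exact this
  have : Northcott h := ⟨fun B => by
    have hf := Northcott.finite_le (h := logHeight₁ (K := ℚ)) B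
    have : {P : (cv a b c).Point | h P ≤ B} ⊆ {0} ∪ ⋃ x ∈ {x : ℚ | logHeight₁ x ≤ B},
        {P : (cv a b c).Point | P.xRep = ![x, 1]} := by
      intro P hP
      rcases P with _ | ⟨x, y, hx⟩
      · left; rfl
      · right
        simp only [Set.mem_iUnion, Set.mem_ofPred_eq]
        refine ⟨x, ?_, rfl⟩
        rw [logHeight₁_eq_logHeight]
        exact hP
    refine Set.Finite.subset (Set.Finite.union (Set.finite_singleton _) (hf.biUnion ?_)) this
    intro x _
    by_cases hex : ∃ P : (cv a b c).Point, P.xRep = ![x, 1]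
    · obtain ⟨P, hP⟩ := hex
      refine Set.Finite.subset (Set.toFinite {P, -P}) ?_
      intro Q hQ
      exact Point.eq_or_eq_neg_of_xRep_eq_xRep (hQ.trans hP.symm)
    · convert Set.finite_empty
      ext P; simp only [Set.mem_ofPred_eq, Set.mem_empty_iff_false, iff_false]
      exact fun hP => hex ⟨P, hP⟩⟩
  refine AddCommGroup.fg_of_descent' (h := h) (C := C₁ + 3 * C₂) H
    (fun P => logHeight_nonneg _) ?_
  intro P Q
  obtain ⟨k, hk, e⟩ := addSub_spec P Q
  have h1 := hC₁ (P.sym2x Q)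
  rw [e, logHeight_smul_eq_logHeight _ hk] at h1
  have h2 := hs P Q
  have h3 := hs (P + Q) (P - Q)
  rw [abs_le] at h1 h2 h3 ⊢
  constructor <;> linarith [h1.1, h1.2, h2.1, h2.2, h3.1, h3.2]

end

/-! ### Rank lemmas -/

lemma rank_le_of_hom {G H : Type} [AddCommGroup G] [AddCommGroup H] (f : G →+ H)
    (hf : ∀ P, f P = 0 → 2 • P = 0) : Module.rank ℤ G ≤ Module.rank ℤ H := by
  have h1 := LinearMap.rank_range_add_rank_ker f.toIntLinearMap
  have h2 : Module.rank ℤ (LinearMap.ker f.toIntLinearMap) = 0 := by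
    rw [rank_eq_zero_iff]
    intro x
    refine ⟨2, two_ne_zero, ?_⟩
    ext
    have := hf x.1 x.2
    rw [two_nsmul] at this
    rw [two_smul]
    exact this
  rw [← h1, h2, add_zero]
  exact Submodule.rank_le _

lemma rank_le_of_inj {G H : Type} [AddCommGroup G] [AddCommGroup H] (f : G →+ H)
    (hf : Function.Injective f) : Module.rank ℤ G ≤ Module.rank ℤ H :=
  rank_le_of_hom f fun P hP => by
    rw [(injective_iff_map_eq_zero f).1 hf P hP, smul_zero]

/-- If the kernel of `Φ` lies in `2 G` and `G` is finitely generated, the rank `r` of `G`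
satisfies `2 ^ r ≤ |Φ(G)|`. -/
lemma two_pow_rank_le {G H : Type} [AddCommGroup G] [AddCommGroup H] [Finite H] (Φ : G →+ H)
    (hG : AddGroup.FG G) (hk : ∀ P, Φ P = 0 → ∃ Q, P = 2 • Q) :
    ∃ r : ℕ, Module.rank ℤ G = r ∧ 2 ^ r ≤ Nat.card Φ.range := by
  have : Module.Finite ℤ G := Module.Finite.iff_addGroup_fg.2 hG
  let T := Submodule.torsion ℤ G
  have : Module.Finite ℤ (G ⧸ T) := inferInstance
  have : Module.IsTorsionFree ℤ (G ⧸ T) := inferInstance
  have : Module.Free ℤ (G ⧸ T) := inferInstance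
  let bs := Module.Free.chooseBasis ℤ (G ⧸ T)
  set ι := Module.Free.ChooseBasisIndex ℤ (G ⧸ T)
  refine ⟨Fintype.card ι, ?_, ?_⟩
  · rw [← rank_quotient_eq_of_le_torsion (M' := T) le_rfl, rank_eq_card_basis bs]
  · let ψ : G →+ (ι → ZMod 2) :=
      { toFun := fun P i => ((bs.repr (T.mkQ P) i : ℤ) : ZMod 2)
        map_zero' := by ext i; simp
        map_add' := by intro P Q; ext i; simp }
    have hsurj : Function.Surjective ψ := by
      intro v
      obtain ⟨P, hP⟩ := T.mkQ_surjective (bs.equivFun.symm fun i => ((v i).val : ℤ))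
      refine ⟨P, ?_⟩
      ext i
      show ((bs.repr (T.mkQ P) i : ℤ) : ZMod 2) = v i
      rw [hP, ← Module.Basis.equivFun_apply, LinearEquiv.apply_symm_apply]
      simp
    have hker : Φ.ker ≤ ψ.ker := by
      intro P hP
      obtain ⟨Q, rfl⟩ := hk P hP
      rw [AddMonoidHom.mem_ker, map_nsmul]
      ext i
      simp only [Pi.smul_apply, Pi.zero_apply]
      exact (by decide : ∀ z : ZMod 2, 2 • z = 0) _
    have h1 : Nat.card Φ.range = Φ.ker.index := (AddSubgroup.index_ker Φ).symm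
    have h2 : ψ.ker.index = 2 ^ Fintype.card ι := by
      rw [AddSubgroup.index_ker, AddMonoidHom.range_eq_top.2 hsurj]
      simp
    rw [h1, ← h2]
    apply Nat.le_of_dvd
    · rw [← h1]; exact Nat.card_pos
    · exact AddSubgroup.index_dvd_of_le hker

lemma finiteIndex_two {G H : Type} [AddCommGroup G] [AddCommGroup H] [Finite H] (Φ : G →+ H)
    (hk : ∀ P, Φ P = 0 → ∃ Q, P = 2 • Q) :
    (nsmulAddMonoidHom (α := G) 2).range.FiniteIndex := by
  have : Φ.ker.FiniteIndex := AddSubgroup.finiteIndex_ker Φ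
  refine AddSubgroup.finiteIndex_of_le (H := Φ.ker) ?_
  intro P hP
  obtain ⟨Q, rfl⟩ := hk P hP
  exact ⟨Q, rfl⟩

/-- `|Φ(G)| ≤ |F| * |Φ(ker Ψ)|`. -/
lemma card_range_le {G H F : Type} [AddCommGroup G] [AddCommGroup H] [AddCommGroup F] [Finite H]
    [Finite F] (Φ : G →+ H) (Ψ : G →+ F) :
    Nat.card Φ.range ≤ Nat.card F * Nat.card (Ψ.ker.map Φ) := by
  have h1 := AddSubgroup.relIndex_mul_index (H := Φ.ker ⊓ Ψ.ker) (K := Ψ.ker) inf_le_right
  rw [AddSubgroup.inf_relIndex_right, AddSubgroup.relIndex_ker, AddSubgroup.index_ker] at h1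
  have h2 : Nat.card Ψ.range ≤ Nat.card F := Nat.card_le_card_of_injective _ Subtype.val_injective
  have h3 : Φ.ker.index ≤ (Φ.ker ⊓ Ψ.ker).index := by
    apply Nat.le_of_dvd
    · rw [← h1]; exact Nat.mul_pos Nat.card_pos Nat.card_pos
    · exact AddSubgroup.index_dvd_of_le inf_le_left
  rw [← AddSubgroup.index_ker Φ]
  calc Φ.ker.index ≤ _ := h3
    _ = _ := h1.symm
    _ ≤ _ := by rw [mul_comm]; exact Nat.mul_le_mul_right _ h2

end Pool.Agent.Lib.MP_788af2_nt
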