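import Pool.Agent.Lib.MP_788af2_nt.Bilinear

/-!
Mean values and oscillation of weights along primes.
-/

namespace Pool.Agent.Lib.MP_788af2_nt

open Finset Real
open scoped NumberTheorySymbols

/-- The primes in `(p₀, y]`. -/
def PP (p₀ y : ℕ) : Finset ℕ := (Nat.primesLE y).filter (p₀ < ·)

lemma mem_PP {p₀ y p : ℕ} : p ∈ PP p₀ y ↔ p.Prime ∧ p₀ < p ∧ p ≤ y := by
  simp only [PP, mem_filter, Nat.mem_primesLE]; tauto

lemma sum_PP_diff (p₀ y : ℕ) (f : ℕ → ℝ) (hf : ∀ p, |f p| ≤ 1) :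
    |∑ p ∈ PP p₀ y, f p / p - ∑ p ∈ Nat.primesLE y, f p / p| ≤ p₀ := by
  rw [← sum_filter_add_sum_filter_not (Nat.primesLE y) (p₀ < ·), PP, sub_add_cancel_left, abs_neg]
  refine (abs_sum_le_sum_abs _ _).trans ((sum_le_card_nsmul _ _ 1 fun p hp => ?_).trans ?_)
  · have h1 : (1 : ℝ) ≤ p := by
      exact_mod_cast (Nat.mem_primesLE.1 (mem_filter.1 hp).1).2.one_le
    rw [abs_div, Nat.abs_cast, div_le_one (by linarith)]
    linarith [hf p]
  · rw [nsmul_eq_mul, mul_one]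
    have : ((Nat.primesLE y).filter fun p => ¬p₀ < p).card ≤ (Ioc 0 p₀).card :=
      card_le_card fun p hp => by
        rw [mem_filter] at hp
        exact mem_Ioc.2 ⟨(Nat.mem_primesLE.1 hp.1).2.pos, not_lt.1 hp.2⟩
    simpa using this

lemma sum_PP_small (p₀ y : ℕ) (g : ℕ → ℝ) {K : ℝ}
    (hg : ∀ p, p.Prime → p₀ < p → |g p| ≤ K / p) : ∑ p ∈ PP p₀ y, |g p / p| ≤ 2 * |K| := by
  calc _ ≤ ∑ p ∈ PP p₀ y, |K| * ((p : ℝ) ^ 2)⁻¹ := sum_le_sum fun p hp => by
        obtain ⟨h1, h2, _⟩ := mem_PP.1 hp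
        have h3 : (0 : ℝ) < p := by exact_mod_cast h1.pos
        rw [abs_div, Nat.abs_cast, div_le_iff₀ h3]
        refine (hg p h1 h2).trans ((div_le_div_of_nonneg_right (le_abs_self K) h3.le).trans
          (le_of_eq (by field_simp)))
    _ ≤ |K| * (2 / (((0 : ℕ) : ℝ) + 1)) := by
        rw [← mul_sum]
        exact mul_le_mul_of_nonneg_left
          (sum_inv_sq_le _ 0 fun p hp => (mem_PP.1 hp).1.pos) (abs_nonneg _)
    _ = _ := by simp [mul_comm]

/-- `f` has logarithmic mean `A` along primes, with bounded error. -/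
def HasMean (p₀ : ℕ) (f : ℕ → ℝ) (A : ℝ) : Prop :=
  ∃ C, ∀ y, |∑ p ∈ PP p₀ y, f p / p - A * LL y| ≤ C

/-- `f` does not correlate positively with twisted Jacobi symbols. -/
def Osc (p₀ : ℕ) (f : ℕ → ℝ) : Prop :=
  ∃ C, 0 ≤ C ∧ ∀ (y : ℕ) (κ : ℕ → ℝ) (l a : ℕ), IsCh24 κ → l.Prime → 3 < l → 0 < a → ¬l ∣ a →
    ∑ p ∈ PP p₀ y, f p / p * ((J((p : ℤ) | l * a) : ℝ) * κ p) ≤
      C * (1 + log (2 + log (l * a : ℕ)))

variable {p₀ : ℕ} {f g : ℕ → ℝ} {A B : ℝ}

lemma HasMean.one : HasMean p₀ (fun _ => 1) 1 :=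
  ⟨p₀, fun y => by simpa [LL] using sum_PP_diff p₀ y (fun _ => 1) (by simp)⟩

lemma HasMean.add (h : HasMean p₀ f A) (h' : HasMean p₀ g B) :
    HasMean p₀ (fun p => f p + g p) (A + B) := by
  obtain ⟨C, hC⟩ := h
  obtain ⟨C', hC'⟩ := h'
  refine ⟨C + C', fun y => ?_⟩
  simp only [add_div, sum_add_distrib]
  have h1 := abs_le.1 (hC y)
  have h2 := abs_le.1 (hC' y)
  rw [abs_le]; constructor <;> linarith

lemma HasMean.smul (h : HasMean p₀ f A) (c : ℝ) : HasMean p₀ (fun p => c * f p) (c * A) := by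
  obtain ⟨C, hC⟩ := h
  refine ⟨|c| * C, fun y => ?_⟩
  simp only [mul_div_assoc, ← mul_sum]
  rw [mul_assoc, ← mul_sub, abs_mul]
  exact mul_le_mul_of_nonneg_left (hC y) (abs_nonneg _)

lemma HasMean.near (h : HasMean p₀ f A) {K : ℝ}
    (hg : ∀ p, p.Prime → p₀ < p → |g p - f p| ≤ K / p) : HasMean p₀ g A := by
  obtain ⟨C, hC⟩ := h
  refine ⟨C + 2 * |K|, fun y => ?_⟩
  have h1 := abs_le.1 ((abs_sum_le_sum_abs _ _).trans (sum_PP_small p₀ y _ hg))
  simp only [sub_div, sum_sub_distrib] at h1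
  have h2 := abs_le.1 (hC y)
  rw [abs_le]; constructor <;> linarith

lemma HasMean.sum {κ : Type} (S : Finset κ) {f : κ → ℕ → ℝ} {A : κ → ℝ}
    (h : ∀ k, HasMean p₀ (f k) (A k)) : HasMean p₀ (fun p => ∑ k ∈ S, f k p) (∑ k ∈ S, A k) := by
  classical
  induction S using Finset.induction_on with
  | empty => exact ⟨0, by simp⟩
  | insert a S ha ih => simpa only [sum_insert ha] using (h a).add ih

lemma one_le_loglog (n : ℕ) : 1 ≤ 1 + log (2 + log n) := by
  have : 0 ≤ log (2 + log (n : ℝ)) := log_nonneg (by linarith [log_natCast_nonneg n])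
  linarith

lemma Osc.add (h : Osc p₀ f) (h' : Osc p₀ g) : Osc p₀ fun p => f p + g p := by
  obtain ⟨C, hC0, hC⟩ := h
  obtain ⟨C', hC0', hC'⟩ := h'
  refine ⟨C + C', by positivity, fun y κ l a h1 h2 h3 h4 h5 => ?_⟩
  simp only [add_div, add_mul, sum_add_distrib]
  exact add_le_add (hC y κ l a h1 h2 h3 h4 h5) (hC' y κ l a h1 h2 h3 h4 h5)

lemma Osc.smul (h : Osc p₀ f) {c : ℝ} (hc : 0 ≤ c) : Osc p₀ fun p => c * f p := by
  obtain ⟨C, hC0, hC⟩ := h
  refine ⟨c * C, by positivity, fun y κ l a h1 h2 h3 h4 h5 => ?_⟩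
  simp only [mul_div_assoc, mul_assoc c, ← mul_sum]
  exact mul_le_mul_of_nonneg_left (hC y κ l a h1 h2 h3 h4 h5) hc

lemma abs_jac_mul_le {κ : ℕ → ℝ} (h : IsCh24 κ) (p n : ℕ) :
    |(J((p : ℤ) | n) : ℝ) * κ p| ≤ 1 := ((isCh_jac n).mul h.1).abs_le p

lemma Osc.near (h : Osc p₀ f) {K : ℝ}
    (hg : ∀ p, p.Prime → p₀ < p → |g p - f p| ≤ K / p) : Osc p₀ g := by
  obtain ⟨C, hC0, hC⟩ := h
  refine ⟨C + 2 * |K|, by positivity, fun y κ l a h1 h2 h3 h4 h5 => ?_⟩
  have h6 : ∑ p ∈ PP p₀ y, (g p - f p) / p * ((J((p : ℤ) | l * a) : ℝ) * κ p) ≤ 2 * |K| := by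
    refine le_trans (sum_le_sum fun p _ => (le_abs_self _).trans ?_) (sum_PP_small p₀ y _ hg)
    rw [abs_mul]
    exact mul_le_of_le_one_right (abs_nonneg _) (abs_jac_mul_le h1 _ _)
  simp only [sub_div, sub_mul, sum_sub_distrib] at h6
  have h7 := hC y κ l a h1 h2 h3 h4 h5
  have h8 := le_mul_of_one_le_right (by positivity : 0 ≤ 2 * |K|) (one_le_loglog (l * a))
  linarith

lemma Osc.zero : Osc p₀ fun _ => 0 := ⟨0, le_rfl, by simp⟩

lemma Osc.sum {κ : Type} (S : Finset κ) {f : κ → ℕ → ℝ}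
    (h : ∀ k, Osc p₀ (f k)) : Osc p₀ fun p => ∑ k ∈ S, f k p := by
  classical
  induction S using Finset.induction_on with
  | empty => simpa using Osc.zero
  | insert a S ha ih => simpa only [sum_insert ha] using (h a).add ih

lemma Osc.ch (h : IsCh24 f) : Osc p₀ f := by
  refine ⟨p₀ + 200, by positivity, fun y κ l a h1 h2 h3 h4 h5 => ?_⟩
  have h6 := char_upper ((isCh_jac (l * a)).mul (h.mul h1).1)
    (jac_twist_interval (h.mul h1) h2 h3 h4 h5) y
  have h7 := abs_le.1 (sum_PP_diff p₀ y _ (abs_jac_mul_le (h.mul h1) · (l * a)))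
  have h8 : ∑ p ∈ PP p₀ y, f p / p * ((J((p : ℤ) | l * a) : ℝ) * κ p) =
      ∑ p ∈ PP p₀ y, (J((p : ℤ) | l * a) : ℝ) * (f p * κ p) / p :=
    sum_congr rfl fun p _ => by ring
  set N := l * a with hN
  have hN0 : (0 : ℝ) < N := by exact_mod_cast Nat.mul_pos h2.pos h4
  have hl := log_natCast_nonneg N
  have h9 : log ((2 * (24 * N) : ℕ) : ℝ) ≤ 47 + log N := by
    push_cast
    rw [← mul_assoc, log_mul (by norm_num) hN0.ne']
    linarith [log_le_sub_one_of_pos (by norm_num : (0 : ℝ) < 2 * 24)]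
  have h10 : 34 * exp 8 * (2 + log ((2 * (24 * N) : ℕ) : ℝ)) ≤ exp 200 * (2 + log N) := by
    have : (850 : ℝ) ≤ exp 192 := by
      have := add_one_le_exp (96 : ℝ)
      rw [show (192 : ℝ) = 96 + 96 by norm_num, exp_add]; nlinarith
    rw [show (200 : ℝ) = 192 + 8 by norm_num, exp_add]
    have h0 := exp_pos 8
    calc _ ≤ 34 * exp 8 * (25 * (2 + log N)) := by gcongr; linarith
      _ = 850 * exp 8 * (2 + log N) := by ring
      _ ≤ _ := by gcongr
  have h11 := (le_log_iff_exp_le (by positivity)).2 (h6.trans h10)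
  rw [log_mul (by positivity) (by positivity), log_exp] at h11
  have h12 := one_le_loglog N
  rw [h8]
  nlinarith [(Nat.cast_nonneg p₀ : (0 : ℝ) ≤ p₀)]

/-- The table of a real character modulo 24. -/
def tb (a b c : ℝ) (r : ℕ) : ℝ :=
  if r = 1 then 1 else if r = 5 then a else if r = 7 then b else if r = 11 then a * b else
  if r = 13 then c else if r = 17 then a * c else if r = 19 then b * c else
  if r = 23 then a * b * c else 0

lemma tb_sum {a b c : ℝ} (ha : a = 1 ∨ a = -1) (hb : b = 1 ∨ b = -1) (hc : c = 1 ∨ c = -1)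
    (h : ¬(a = 1 ∧ b = 1 ∧ c = 1)) :
    65 / 100 ≤ ∑ n ∈ range 121, tb a b c (n % 24) / n := by
  rcases ha with rfl | rfl <;> rcases hb with rfl | rfl <;> rcases hc with rfl | rfl
  · simp at h
  all_goals
    simp only [sum_range_succ, tb]
    norm_num

lemma HasMean.ch (h : IsCh24 f) (h3 : 3 ≤ p₀) {n₀ : ℕ} (hc : n₀.Coprime 24) (h0 : f n₀ = -1) :
    HasMean p₀ f 0 := by
  let χ : ℕ → ℝ := fun n => if n.Coprime 24 then f n else 0
  have hper : ∀ n, χ (n + 24) = χ n := fun n => by simp [χ, h.2]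
  have hch : IsCh χ := by
    refine ⟨by simp [χ, h.1.1], fun m n => ?_, fun n => ?_⟩
    · simp only [χ, Nat.coprime_mul_iff_left, h.1.2.1]
      split_ifs with h1 h2 h3 <;> first | rfl | tauto | simp
    · simp only [χ]; split_ifs
      exacts [h.1.2.2 n, Or.inl rfl]
  have hQ := abs_sum_Ioc_le hch.abs_le (by norm_num) hper
    (sum_range_eq_zero hch.2.1 (by norm_num) hper hc (by simp only [χ, if_pos hc, h0]))
  have hm : ∀ u v w, (u * v) % 24 = w → χ w = χ u * χ v := fun u v w huv => by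
    rw [← huv, periodic_mod hper, hch.2.1]
  have hs : ∀ u, (u * u) % 24 = 1 → χ u = 1 ∨ χ u = -1 := fun u hu => by
    have := hm u u 1 hu
    rw [hch.1] at this
    exact mul_self_eq_one_iff.1 this.symm
  have htb : ∀ n, χ n = tb (χ 5) (χ 7) (χ 13) (n % 24) := by
    intro n
    rw [← periodic_mod hper]
    have h1 := Nat.mod_lt n (by norm_num : 0 < 24)
    generalize n % 24 = r at h1
    have e11 := hm 5 7 11 rfl
    have e17 := hm 5 13 17 rfl
    have e19 := hm 7 13 19 rfl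
    have e23 := hm 11 13 23 rfl
    rw [e11] at e23
    interval_cases r <;> simp only [tb] <;> norm_num <;>
      first | exact hch.1 | assumption | (simp only [χ]; norm_num)
  have hne : ¬(χ 5 = 1 ∧ χ 7 = 1 ∧ χ 13 = 1) := by
    rintro ⟨e1, e2, e3⟩
    have := htb n₀
    rw [e1, e2, e3] at this
    simp only [χ, if_pos hc, h0, tb] at this
    split_ifs at this <;> norm_num at this
  have hN : ∀ N, 120 ≤ N → (1 / 4 : ℝ) ≤ ∑ n ∈ Ioc 0 N, χ n / n := by
    intro N hN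
    rw [← sum_Ioc_consecutive _ (Nat.zero_le 120) hN]
    have h1 := tb_sum (hs 5 rfl) (hs 7 rfl) (hs 13 rfl) hne
    have h2 := abs_le.1 (tail_le hQ 120 N)
    have h4 : ∑ n ∈ range 121, tb (χ 5) (χ 7) (χ 13) (n % 24) / n = ∑ n ∈ Ioc 0 120, χ n / n := by
      rw [range_eq_Ico, sum_eq_sum_Ico_succ_bot (by norm_num)]
      simp only [← htb, Nat.cast_zero, div_zero, zero_add]
      rfl
    norm_num at h2
    linarith
  refine ⟨p₀ + (34 * exp 8 * (2 + log (48 : ℕ)) + 34 * exp 8 * ((1 + (48 : ℕ)) / (1 / 4))),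
    fun y => ?_⟩
  have h1 := char_upper hch hQ y
  have h2 := char_lower hch hQ (by norm_num) hN y
  have h4 := abs_le.1 (sum_PP_diff p₀ y χ hch.abs_le)
  have h5 : ∑ p ∈ PP p₀ y, f p / p = ∑ p ∈ PP p₀ y, χ p / p := by
    refine sum_congr rfl fun p hp => ?_
    obtain ⟨e1, e2, _⟩ := mem_PP.1 hp
    have : p.Coprime 24 := by
      rw [e1.coprime_iff_not_dvd, show 24 = 2 ^ 3 * 3 by norm_num, e1.dvd_mul]
      rintro (h | h)
      · have := Nat.le_of_dvd two_pos (e1.dvd_of_dvd_pow h); omega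
      · have := Nat.le_of_dvd three_pos h; omega
    simp only [χ, if_pos this]
  have h6 := add_one_le_exp (∑ p ∈ Nat.primesLE y, χ p / p)
  have h7 := add_one_le_exp (-∑ p ∈ Nat.primesLE y, χ p / p)
  have h8 := exp_pos (∑ p ∈ Nat.primesLE y, χ p / p)
  have h9 := exp_pos (-∑ p ∈ Nat.primesLE y, χ p / p)
  rw [h5, zero_mul, sub_zero, abs_le]
  constructor <;> linarith

/-- The character `n ↦ (d / n)` restricted to odd `n`. -/
noncomputable def jc (d : ℤ) (n : ℕ) : ℝ := if Odd n then (J(d | n) : ℝ) else 0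

lemma jc_prime (d : ℤ) {p : ℕ} (hp : p.Prime) (h : 2 < p) : jc d p = J(d | p) :=
  if_pos (hp.odd_of_ne_two h.ne')

lemma isCh24_jc {d : ℤ} (hd : d.natAbs ∣ 6) : IsCh24 (jc d) := by
  refine ⟨⟨by simp [jc], fun m n => ?_, fun n => ?_⟩, fun n => ?_⟩
  · simp only [jc, Nat.odd_mul]
    by_cases h1 : Odd m <;> by_cases h2 : Odd n <;> simp only [h1, h2, if_true, if_false,
      and_self, and_false, false_and, mul_zero, zero_mul]
    rw [jacobiSym.mul_right' d h1.pos.ne' h2.pos.ne']; push_cast; rfl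
  · simp only [jc]; split_ifs
    · rcases jacobiSym.trichotomy d n with h | h | h <;> simp [h]
    · simp
  · have : Odd (n + 24) ↔ Odd n := by simp only [Nat.odd_iff]; omega
    simp only [jc, this]
    split_ifs with h
    · rw [jacobiSym.mod_right d (this.2 h), jacobiSym.mod_right d h]
      obtain ⟨k, hk⟩ := hd
      rw [show 24 = 4 * d.natAbs * k by rw [mul_assoc, ← hk]; norm_num, Nat.add_mul_mod_self_left]
    · rfl

end Pool.Agent.Lib.MP_788af2_nt
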