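import Pool.Agent.Lib.MP_788af2_nt.Torsion
import Pool.Agent.Lib.MP_788af2_nt.Descent

/-!
Short Weierstrass models attached to a pair of root differences.
-/

namespace Pool.Agent.Lib.MP_788af2_nt

/-- The coefficient of `x ^ 2`. -/
def aa (cy : Bool) (x y : ℚ) : ℚ := if cy then (x + y) / 2 else -(x + y)

/-- The coefficient of `x`. -/
def bb (cy : Bool) (x y : ℚ) : ℚ := if cy then (x - y) ^ 2 / 16 else x * y

/-- The coefficient `A` of the short model. -/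
def AA (cy : Bool) (x y : ℚ) : ℚ := bb cy x y - aa cy x y ^ 2 / 3

/-- The coefficient `B` of the short model. -/
def BB (cy : Bool) (x y : ℚ) : ℚ := 2 * aa cy x y ^ 3 / 27 - aa cy x y * bb cy x y / 3

/-- Minimality of a short model. -/
def Mn (A B : ℤ) : Prop := ∀ p : ℕ, p.Prime → ¬((p : ℤ) ^ 4 ∣ A ∧ (p : ℤ) ^ 6 ∣ B)

variable {cy : Bool} {x y : ℚ}

lemma AA_smul (k : ℚ) : AA cy (k * x) (k * y) = k ^ 2 * AA cy x y := by
  cases cy <;> simp [AA, aa, bb] <;> ring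

lemma BB_smul (k : ℚ) : BB cy (k * x) (k * y) = k ^ 3 * BB cy x y := by
  cases cy <;> simp [BB, aa, bb] <;> ring

lemma bb_ne (h : x * y * (x - y) ≠ 0) : bb cy x y ≠ 0 ∧ aa cy x y ^ 2 - 4 * bb cy x y ≠ 0 := by
  have h1 := left_ne_zero_of_mul h
  have h2 := right_ne_zero_of_mul h
  cases cy
  · refine ⟨h1, ?_⟩
    convert pow_ne_zero 2 h2 using 1
    simp [aa, bb]; ring
  · refine ⟨by simp only [bb, if_true]; positivity, ?_⟩
    convert h1 using 1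
    simp [aa, bb]; ring

lemma disc_AB : 4 * AA cy x y ^ 3 + 27 * BB cy x y ^ 2 = 0 ↔ x * y * (x - y) = 0 := by
  have : 4 * AA cy x y ^ 3 + 27 * BB cy x y ^ 2 =
      -(bb cy x y ^ 2 * (aa cy x y ^ 2 - 4 * bb cy x y)) := by simp only [AA, BB]; ring
  rw [this, neg_eq_zero]
  refine ⟨fun h => by_contra fun h1 => mul_ne_zero (pow_ne_zero 2 (bb_ne h1).1) (bb_ne h1).2 h,
    fun h => ?_⟩
  cases cy
  · simp only [aa, bb, Bool.false_eq_true, if_false]; linear_combination x * y * (x - y) * h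
  · simp only [aa, bb, if_true]; linear_combination (x - y) ^ 3 / 256 * h

lemma AB_zero (h1 : AA cy x y = 0) (h2 : BB cy x y = 0) : x = 0 ∧ y = 0 := by
  simp only [AA, BB] at h1 h2
  have ha : aa cy x y = 0 := pow_eq_zero_iff (n := 3) (by norm_num) |>.1 (by
    linear_combination -27 * h2 - 9 * aa cy x y * h1)
  rw [ha] at h1
  cases cy <;> simp only [aa, bb, Bool.false_eq_true, if_false, if_true] at ha h1 <;>
    constructor <;> nlinarith [sq_nonneg x, sq_nonneg y]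

lemma rank_AB {A B u : ℚ} {M N : ℤ} (hu : u ≠ 0) (hA : A = u ^ 4 * AA cy M N)
    (hB : B = u ^ 6 * BB cy M N) (hd : (M : ℚ) * N * (M - N) ≠ 0) :
    Module.rank ℤ (cv 0 A B).Point ≤ Module.rank ℤ (cvE ![0, M, N]).Point := by
  obtain ⟨f, hf⟩ := exists_change (a := 0) (b := A) (c := B) (u := u⁻¹)
    (r := u ^ 2 * aa cy M N / 3) (a' := aa cy M N) (b' := bb cy M N) (c' := 0) (inv_ne_zero hu)
    (by field_simp; ring) (by rw [hA, AA]; field_simp; ring)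
    (by rw [hA, hB, AA, BB]; field_simp; ring)
  refine (rank_le_of_inj f hf).trans ?_
  cases cy
  · refine (exists_change (u := 1) (r := 0) one_ne_zero ?_ ?_ ?_).elim rank_le_of_inj <;>
      simp [aa, bb]
  · obtain ⟨g, hg⟩ := exists_isog (bb_ne (cy := true) hd).1 (bb_ne (cy := true) hd).2
    refine (rank_le_of_hom g hg).trans ?_
    refine (exists_change (u := 1) (r := 0) one_ne_zero ?_ ?_ ?_).elim rank_le_of_inj <;>
      simp [aa, bb] <;> ring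

lemma has_AB {A B u : ℚ} {a b : ℕ} (hu : u ≠ 0) (hA : A = u ^ 4 * AA cy x y)
    (hB : B = u ^ 6 * BB cy x y) (h : Has a b (cv (aa cy x y) (bb cy x y) 0).Point) :
    Has a b (cv 0 A B).Point :=
  (exists_change (u := u) (r := -aa cy x y / 3) hu (by ring) (by rw [hA, AA]; ring)
    (by rw [hB, BB]; ring)).elim h.map

lemma int_of_monic {r : ℚ} (c₂ c₁ c₀ : ℤ) (h : r ^ 3 + c₂ * r ^ 2 + c₁ * r + c₀ = 0) :
    ∃ z : ℤ, r = z := by
  have h1 : (r.num ^ 3 : ℚ) = r.den * -(c₂ * r.num ^ 2 + c₁ * r.num * r.den + c₀ * r.den ^ 2) := by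
    rw [← Rat.mul_den_eq_num]; linear_combination (r.den : ℚ) ^ 3 * h
  have h2 : (r.den : ℤ) ∣ r.num ^ 3 :=
    ⟨-(c₂ * r.num ^ 2 + c₁ * r.num * r.den + c₀ * r.den ^ 2), by exact_mod_cast h1⟩
  have h3 : IsCoprime r.num (r.den : ℤ) := Int.isCoprime_iff_gcd_eq_one.2 r.reduced
  have h4 := Int.isUnit_iff_natAbs_eq.1 (h3.pow_left.isUnit_of_dvd' h2 dvd_rfl)
  exact ⟨r.num, ((Rat.den_eq_one_iff r).1 (by simpa using h4)).symm⟩

lemma int_AB {A B : ℤ} (hA : A = AA cy x y) (hB : B = BB cy x y) :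
    (∃ z : ℤ, x = z) ∧ ∃ z : ℤ, y = z := by
  obtain ⟨r, hr⟩ := int_of_monic (r := aa cy x y / 3) 0 A B (by
    rw [hA, hB, AA, BB]; push_cast; ring)
  have hb : bb cy x y = A + 3 * r ^ 2 := by rw [hA, AA, ← hr]; ring
  cases cy <;> simp only [aa, bb, Bool.false_eq_true, if_false, if_true] at hr hb
  · exact ⟨int_of_monic (3 * r) (A + 3 * r ^ 2) 0 (by
      push_cast; linear_combination -3 * x ^ 2 * hr - x * hb),
      int_of_monic (3 * r) (A + 3 * r ^ 2) 0 (by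
      push_cast; linear_combination -3 * y ^ 2 * hr - y * hb)⟩
  · exact ⟨int_of_monic (-6 * r) (-3 * r ^ 2 - 4 * A) 0 (by
      push_cast; linear_combination (x * (9 * x - 3 * y - 18 * r) / 2) * hr + 4 * x * hb),
      int_of_monic (-6 * r) (-3 * r ^ 2 - 4 * A) 0 (by
      push_cast; linear_combination (y * (9 * y - 3 * x - 18 * r) / 2) * hr + 4 * y * hb)⟩

lemma size_AB {Y : ℚ} (hY : 0 ≤ Y) (hA : |AA cy x y| ≤ Y ^ 2) (hB : |BB cy x y| ≤ Y ^ 3) :
    |x| ≤ 14 * Y ∧ |y| ≤ 14 * Y := by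
  set r := aa cy x y / 3 with hr
  have h1 : r ^ 3 = -(AA cy x y * r) - BB cy x y := by rw [AA, BB, hr]; ring
  have h2 : |r| ≤ 2 * Y := by
    by_contra hc
    push Not at hc
    have h3 : |r| ^ 3 ≤ Y ^ 2 * |r| + Y ^ 3 := by
      rw [← abs_pow, h1]
      refine (abs_sub _ _).trans ?_
      rw [abs_neg, abs_mul]; gcongr
    have h4 : (2 * Y) ^ 2 * |r| ≤ |r| ^ 2 * |r| := by gcongr
    have h5 : Y ^ 2 * (2 * Y) ≤ Y ^ 2 * |r| := by gcongr
    have h6 : 0 < |r| ^ 3 := pow_pos (by linarith) 3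
    nlinarith
  have h3 : r ^ 2 ≤ (2 * Y) ^ 2 := by rw [← sq_abs]; gcongr
  have hb : bb cy x y = AA cy x y + 3 * r ^ 2 := by rw [AA, hr]; ring
  have h4 := abs_le.1 hA
  have h5 : x ^ 2 + y ^ 2 ≤ (14 * Y) ^ 2 := by
    have h6 : aa cy x y ^ 2 = 9 * r ^ 2 := by rw [hr]; ring
    cases cy <;> simp only [aa, bb, Bool.false_eq_true, if_false, if_true] at h6 hb <;>
      nlinarith [sq_nonneg r, sq_nonneg Y]
  exact ⟨abs_le_of_sq_le_sq' (by nlinarith [sq_nonneg y]) (by positivity) |> abs_le.2,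
    abs_le_of_sq_le_sq' (by nlinarith [sq_nonneg x]) (by positivity) |> abs_le.2⟩

lemma growth_AB {Y : ℚ} (hx : |x| ≤ Y) (hy : |y| ≤ Y) :
    |AA cy x y| ≤ 3 * Y ^ 2 ∧ |BB cy x y| ≤ 2 * Y ^ 3 := by
  have hY := (abs_nonneg x).trans hx
  have h1 := abs_le.1 hx
  have h2 := abs_le.1 hy
  have ha : |aa cy x y| ≤ 2 * Y := by
    cases cy <;> simp only [aa, Bool.false_eq_true, if_false, if_true] <;> rw [abs_le] <;>
      constructor <;> linarith
  have hb : |bb cy x y| ≤ Y ^ 2 := by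
    cases cy <;> simp only [bb, Bool.false_eq_true, if_false, if_true]
    · rw [abs_mul, sq]; gcongr
    · rw [abs_of_nonneg (by positivity)]; nlinarith
  constructor
  · refine (abs_sub _ _).trans ?_
    have : |aa cy x y| ^ 2 ≤ (2 * Y) ^ 2 := by gcongr
    rw [abs_div, abs_pow, abs_of_pos (three_pos (α := ℚ))]; nlinarith
  · refine (abs_sub _ _).trans ?_
    have h3 : |aa cy x y| ^ 3 ≤ (2 * Y) ^ 3 := by gcongr
    have h4 : |aa cy x y| * |bb cy x y| ≤ 2 * Y * Y ^ 2 := by gcongr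
    have h5 : 0 ≤ Y ^ 3 := by positivity
    rw [abs_div, abs_div, abs_mul, abs_mul, abs_pow]
    norm_num; nlinarith

lemma scaled_int (M N : ℤ) :
    ∃ P Q : ℤ, (P : ℚ) = 12 ^ 4 * AA cy M N ∧ (Q : ℚ) = 12 ^ 6 * BB cy M N := by
  cases cy
  · exact ⟨6912 * (3 * M * N - (M + N) ^ 2), 110592 * (9 * (M + N) * M * N - 2 * (M + N) ^ 3),
      by simp [AA, aa, bb]; ring, by simp [BB, aa, bb]; ring⟩
  · exact ⟨432 * (3 * (M - N) ^ 2 - 4 * (M + N) ^ 2),
      3456 * (8 * (M + N) ^ 3 - 9 * (M + N) * (M - N) ^ 2),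
      by simp [AA, aa, bb]; ring, by simp [BB, aa, bb]; ring⟩

lemma exists_min (P Q : ℤ) (h : P ≠ 0 ∨ Q ≠ 0) : ∃ v A B : ℤ, v ≠ 0 ∧ P = v ^ 4 * A ∧
    Q = v ^ 6 * B ∧ Mn A B := by
  induction hn : P.natAbs + Q.natAbs using Nat.strong_induction_on generalizing P Q with
  | _ n ih =>
  by_cases hm : Mn P Q
  · exact ⟨1, P, Q, one_ne_zero, by ring, by ring, hm⟩
  simp only [Mn, not_forall, not_not] at hm
  obtain ⟨p, hp, ⟨A, rfl⟩, ⟨B, rfl⟩⟩ := hm
  have h1 : A ≠ 0 ∨ B ≠ 0 := h.imp right_ne_zero_of_mul right_ne_zero_of_mul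
  obtain ⟨v, A', B', hv, rfl, rfl, hm⟩ := ih _ (by
    rw [← hn, Int.natAbs_mul, Int.natAbs_mul, Int.natAbs_pow, Int.natAbs_pow, Int.natAbs_natCast]
    have h2 : 1 < p ^ 4 := Nat.one_lt_pow (by norm_num) hp.one_lt
    have h3 : 1 < p ^ 6 := Nat.one_lt_pow (by norm_num) hp.one_lt
    have h4 := Nat.le_mul_of_pos_left A.natAbs (zero_lt_one.trans h2)
    have h5 := Nat.le_mul_of_pos_left B.natAbs (zero_lt_one.trans h3)
    rcases h1 with h1 | h1
    · exact add_lt_add_of_lt_of_le (lt_mul_of_one_lt_left (Int.natAbs_pos.2 h1) h2) h5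
    · exact add_lt_add_of_le_of_lt h4 (lt_mul_of_one_lt_left (Int.natAbs_pos.2 h1) h3)) A B h1 rfl
  exact ⟨p * v, A', B', mul_ne_zero (by exact_mod_cast hp.ne_zero) hv, by ring, by ring, hm⟩

lemma twist_min {A B P Q : ℤ} {u : ℚ} (hm : Mn A B) (hA : A = u ^ 4 * P) (hB : B = u ^ 6 * Q) :
    ∃ v : ℕ, 0 < v ∧ u ^ 2 * v ^ 2 = 1 := by
  have hc : IsCoprime u.num (u.den : ℤ) := Int.isCoprime_iff_gcd_eq_one.2 u.reduced
  have h1 : u.num ^ 4 ∣ A := (hc.pow (n := 4)).dvd_of_dvd_mul_left ⟨P, by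
    have : (u.den : ℚ) ^ 4 * A = u.num ^ 4 * P := by rw [← Rat.mul_den_eq_num, hA]; ring
    exact_mod_cast this⟩
  have h2 : u.num ^ 6 ∣ B := (hc.pow (n := 6)).dvd_of_dvd_mul_left ⟨Q, by
    have : (u.den : ℚ) ^ 6 * B = u.num ^ 6 * Q := by rw [← Rat.mul_den_eq_num, hB]; ring
    exact_mod_cast this⟩
  have h3 : u.num.natAbs = 1 := by
    by_contra hc
    obtain ⟨p, hp, h⟩ := Nat.exists_prime_and_dvd hc
    have h4 := Int.natCast_dvd.2 h
    exact hm p hp ⟨(pow_dvd_pow_of_dvd h4 4).trans h1, (pow_dvd_pow_of_dvd h4 6).trans h2⟩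
  refine ⟨u.den, u.den_pos, ?_⟩
  rw [← mul_pow, Rat.mul_den_eq_num]
  rcases Int.natAbs_eq_iff.1 h3 with h | h <;> simp [h]

lemma rank_fin {e : Fin 3 → ℤ} (he : dsc e ≠ 0) : ∃ r : ℕ, Module.rank ℤ (cvE e).Point = r :=
  (rank_bound (ι := Empty) (q := Empty.elim) (σ := Empty.elim) (B := (dsc e).natAbs.primeFactors)
    he (fun p => p.elim) (fun p => p.elim) (fun _ => Nat.prime_of_mem_primeFactors)
    (fun l hl h => Or.inl (Nat.mem_primeFactors.2
      ⟨hl, Int.natCast_dvd.1 h, Int.natAbs_ne_zero.2 he⟩)) fun p => p.elim).imp fun _ h => h.1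

end Pool.Agent.Lib.MP_788af2_nt
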