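import Pool.Agent.Lib.MP_788af2_nt.Bilinear

/-!
Character sums over assignments of primes to finitely many variables.
-/

namespace Pool.Agent.Lib.MP_788af2_nt

open Finset Real
open scoped NumberTheorySymbols

variable {ι : Type} [Fintype ι] [DecidableEq ι] {V : Type} [Fintype V] [DecidableEq V]

/-- The value of the variable `v`. -/
def DV (q : ι → ℕ) (τ : ι → Option V) (v : V) : ℕ := pp q (univ.filter fun p => τ p = some v)

/-- The weight of an assignment. -/
def wt (q : ι → ℕ) (w : V → ℕ → ℝ) (τ : ι → Option V) : ℝ :=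
  ∏ p, (τ p).elim 1 fun v => w v (q p)

/-- The link relation extended to optional variables. -/
def lk (Φ : V → V → Bool) : Option V → Option V → Bool
  | some v, some v' => Φ v v'
  | _, _ => false

/-- One factor of the sign. -/
def tm (q : ι → ℕ) (Φ : V → V → Bool) (p p' : ι) (x x' : Option V) : ℝ :=
  if lk Φ x x' then (J((q p : ℤ) | q p') : ℝ) else 1

omit [Fintype ι] [DecidableEq ι] [Fintype V] [DecidableEq V] in
@[simp] lemma tm_nl (q : ι → ℕ) (Φ : V → V → Bool) (p p' : ι) (x' : Option V) :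
    tm q Φ p p' none x' = 1 := by simp [tm, lk]

omit [Fintype ι] [DecidableEq ι] [Fintype V] [DecidableEq V] in
@[simp] lemma tm_nr (q : ι → ℕ) (Φ : V → V → Bool) (p p' : ι) (x : Option V) :
    tm q Φ p p' x none = 1 := by rcases x with _ | x <;> simp [tm, lk]

omit [Fintype ι] [DecidableEq ι] [Fintype V] [DecidableEq V] in
lemma tm_ss (q : ι → ℕ) (Φ : V → V → Bool) (p p' : ι) (v v' : V) :
    tm q Φ p p' (some v) (some v') = if Φ v v' then (J((q p : ℤ) | q p') : ℝ) else 1 := rfl

/-- The sign of an assignment. -/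
def sg (q : ι → ℕ) (Φ : V → V → Bool) (τ : ι → Option V) : ℝ :=
  ∏ p, ∏ p', tm q Φ p p' (τ p) (τ p')

open Classical in
/-- The character sum restricted by size conditions on the variables. -/
noncomputable def SS (q : ι → ℕ) (Φ : V → V → Bool) (w : V → ℕ → ℝ) (c : V → ℕ → Prop) : ℝ :=
  ∑ τ : ι → Option V, if ∀ v, c v (DV q τ v) then wt q w τ * sg q Φ τ else 0

/-- Assignments avoiding `O`. -/
def outer (O : Finset V) : Finset (ι → Option V) := Fintype.piFinset fun _ => insertNone Oᶜ

/-- Assignments with values in `O` supported where `τ'` is undefined. -/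
def inner (O : Finset V) (τ' : ι → Option V) : Finset (ι → Option V) :=
  Fintype.piFinset fun p => if τ' p = none then insertNone O else {none}

/-- Merging two assignments. -/
def mg (τ' δ : ι → Option V) : ι → Option V := fun p => (τ' p).or (δ p)

lemma mem_outer {O : Finset V} {τ' : ι → Option V} :
    τ' ∈ outer O ↔ ∀ p v, τ' p = some v → v ∉ O := by
  simp [outer, mem_insertNone]

omit [Fintype V] in
lemma mem_inner {O : Finset V} {τ' δ : ι → Option V} :
    δ ∈ inner O τ' ↔ ∀ p v, δ p = some v → τ' p = none ∧ v ∈ O := by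
  simp only [inner, Fintype.mem_piFinset]
  refine forall_congr' fun p => ?_
  split_ifs with h
  · simp [h, mem_insertNone]
  · rcases δ p with _ | v <;> simp [h]

lemma sum_fiber (O : Finset V) (F : (ι → Option V) → ℝ) :
    ∑ τ, F τ = ∑ τ' ∈ outer O, ∑ δ ∈ inner O τ', F (mg τ' δ) := by
  rw [sum_sigma']
  symm
  refine sum_bij' (fun x _ => mg x.1 x.2)
    (fun τ _ => ⟨fun p => (τ p).filter (· ∉ O), fun p => (τ p).filter (· ∈ O)⟩)
    (fun _ _ => mem_univ _) ?_ ?_ ?_ fun _ _ => rfl
  · intro τ _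
    simp only [mem_sigma, mem_outer, mem_inner]
    constructor
    · intro p v h
      simpa using (Option.filter_eq_some_iff.1 h).2
    · intro p v h
      obtain ⟨h1, h2⟩ := Option.filter_eq_some_iff.1 h
      simp only [decide_eq_true_eq] at h2
      simp [h1, h2]
  · rintro ⟨τ', δ⟩ h
    simp only [mem_sigma, mem_outer, mem_inner] at h
    obtain ⟨h1, h2⟩ := h
    simp only [Sigma.mk.injEq, heq_eq_eq]
    constructor
    · funext p
      specialize h1 p; specialize h2 p
      unfold mg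
      rcases h3 : τ' p with _ | v <;> rcases h4 : δ p with _ | v' <;> simp_all
    · funext p
      specialize h1 p; specialize h2 p
      unfold mg
      rcases h3 : τ' p with _ | v <;> rcases h4 : δ p with _ | v' <;> simp_all
  · intro τ _
    funext p
    unfold mg
    rcases h3 : τ p with _ | v
    · simp [h3]
    · by_cases hv : v ∈ O <;> simp [h3, hv]

section

variable {q : ι → ℕ} {Φ : V → V → Bool} {w : V → ℕ → ℝ} {O : Finset V} {τ' δ : ι → Option V}

lemma DV_mg_out (h2 : δ ∈ inner O τ') {v : V} (hv : v ∉ O) : DV q (mg τ' δ) v = DV q τ' v := by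
  rw [mem_inner] at h2
  unfold DV
  congr 1
  refine filter_congr fun p _ => ?_
  specialize h2 p
  unfold mg
  rcases h3 : τ' p with _ | v <;> rcases h4 : δ p with _ | v' <;> simp_all
  rintro rfl; exact hv h2

lemma DV_mg_in (h1 : τ' ∈ outer O) (h2 : δ ∈ inner O τ') {v : V} (hv : v ∈ O) :
    DV q (mg τ' δ) v = DV q δ v := by
  rw [mem_inner] at h2
  rw [mem_outer] at h1
  unfold DV
  congr 1
  refine filter_congr fun p _ => ?_
  specialize h2 p
  specialize h1 p
  unfold mg
  rcases h3 : τ' p with _ | v <;> rcases h4 : δ p with _ | v' <;> simp_all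
  rintro rfl; exact h1 hv

lemma wt_mg (h2 : δ ∈ inner O τ') : wt q w (mg τ' δ) = wt q w τ' * wt q w δ := by
  rw [mem_inner] at h2
  unfold wt
  rw [← prod_mul_distrib]
  refine prod_congr rfl fun p _ => ?_
  specialize h2 p
  unfold mg
  rcases h3 : τ' p with _ | v <;> rcases h4 : δ p with _ | v' <;> simp_all

/-- The character induced on a new prime by an assignment. -/
def ps (q : ι → ℕ) (Φ : V → V → Bool) (τ' : ι → Option V) (x : Option V) (p : ι) : ℝ :=
  ∏ p', tm q Φ p p' x (τ' p') * tm q Φ p' p (τ' p') x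

omit [DecidableEq ι] [Fintype V] [DecidableEq V] in
lemma ps_none (p : ι) : ps q Φ τ' none p = 1 := by
  refine prod_eq_one fun p' _ => ?_
  simp

lemma sg_mg (h2 : δ ∈ inner O τ') :
    sg q Φ (mg τ' δ) = sg q Φ τ' * sg q Φ δ * ∏ p, ps q Φ τ' (δ p) p := by
  rw [mem_inner] at h2
  unfold sg ps
  simp only [prod_mul_distrib]
  rw [prod_comm (f := fun p p' => tm q Φ p' p (τ' p') (δ p))]
  simp only [← prod_mul_distrib]
  refine prod_congr rfl fun p _ => prod_congr rfl fun p' _ => ?_
  have h3 := h2 p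
  have h4 := h2 p'
  unfold mg
  rcases h5 : τ' p with _ | v <;> rcases h6 : δ p with _ | v' <;>
    rcases h7 : τ' p' with _ | v'' <;> rcases h8 : δ p' with _ | v''' <;> simp_all

omit [Fintype ι] [DecidableEq ι] [Fintype V] [DecidableEq V] in
lemma abs_tm_le (p p' : ι) (x x' : Option V) : |tm q Φ p p' x x'| ≤ 1 := by
  unfold tm; split_ifs
  · exact abs_jac_le _ _
  · simp

omit [DecidableEq ι] [Fintype V] [DecidableEq V] in
lemma abs_sg_le (τ : ι → Option V) : |sg q Φ τ| ≤ 1 := by
  unfold sg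
  rw [abs_prod]
  refine prod_le_one (fun _ _ => abs_nonneg _) fun p _ => ?_
  rw [abs_prod]
  exact prod_le_one (fun _ _ => abs_nonneg _) fun p' _ => abs_tm_le _ _ _ _

omit [DecidableEq ι] [Fintype V] [DecidableEq V] in
lemma abs_ps_le (x : Option V) (p : ι) : |ps q Φ τ' x p| ≤ 1 := by
  unfold ps
  rw [abs_prod]
  refine prod_le_one (fun _ _ => abs_nonneg _) fun p' _ => ?_
  rw [abs_mul]
  exact mul_le_one₀ (abs_tm_le _ _ _ _) (abs_nonneg _) (abs_tm_le _ _ _ _)

end

variable {q : ι → ℕ} {p₀ : ℕ} {L : ℝ} {Φ : V → V → Bool} {w : V → ℕ → ℝ}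

omit [DecidableEq V] in
lemma sum_abs_wt_eq (T : ι → Finset (Option V)) (g : ι → Option V → ℝ) :
    ∑ τ ∈ Fintype.piFinset T, ∏ p, g p (τ p) = ∏ p, ∑ x ∈ T p, g p x :=
  (prod_univ_sum T g).symm

lemma sum_abs_wt_le (h : PSys q p₀ L) {K : ℝ} (hK : 0 ≤ K) (hw : ∀ v p, |w v (q p)| ≤ K / q p)
    (O : Finset V) : ∑ τ ∈ outer O, |wt q w τ| ≤ exp (K * Fintype.card V * L) := by
  simp only [wt, abs_prod, outer]
  rw [sum_abs_wt_eq (fun _ => insertNone Oᶜ) fun p x => |x.elim 1 fun v => w v (q p)|]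
  simp only [sum_insertNone, Option.elim, abs_one]
  refine (prod_one_add_le_exp _ _ fun p _ => ?_).trans (exp_le_exp.2 ?_)
  · have : 0 ≤ ∑ v ∈ Oᶜ, |w v (q p)| := sum_nonneg fun _ _ => abs_nonneg _
    linarith
  · calc ∑ p, ∑ v ∈ Oᶜ, |w v (q p)| ≤ ∑ p, K * Fintype.card V * (q p : ℝ)⁻¹ := by
          refine sum_le_sum fun p _ => ?_
          calc _ ≤ ∑ v, |w v (q p)| := sum_le_sum_of_subset_of_nonneg (subset_univ _)
                fun _ _ _ => abs_nonneg _
            _ ≤ ∑ _v : V, K / q p := sum_le_sum fun v _ => hw v p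
            _ = _ := by simp; ring
      _ ≤ _ := by
          rw [← mul_sum]
          exact mul_le_mul_of_nonneg_left h.sum_le (by positivity)

omit [Fintype ι] in
lemma jac_pp (h : ∀ p, (q p).Prime) (S T : Finset ι) :
    (J((pp q S : ℤ) | pp q T) : ℝ) = ∏ p ∈ S, ∏ p' ∈ T, (J((q p : ℤ) | q p') : ℝ) := by
  have right : ∀ (m : ℤ) (T : Finset ι),
      (J(m | pp q T) : ℝ) = ∏ p' ∈ T, (J(m | q p') : ℝ) := by
    intro m T
    induction T using Finset.induction_on with
    | empty => simp [pp]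
    | insert a T ha ih =>
      rw [prod_insert ha, pp, prod_insert ha, jacobiSym.mul_right' _ (h a).ne_zero
        (prod_pos fun p _ => (h p).pos).ne', Int.cast_mul, ← ih]; rfl
  induction S using Finset.induction_on with
  | empty => simp [pp]
  | insert a S ha ih =>
    rw [prod_insert ha, ← ih, pp, prod_insert ha, Nat.cast_mul, jacobiSym.mul_left, Int.cast_mul,
      right]; rfl

/-- Two linked large variables. -/
theorem SS_bilinear (h : PSys q p₀ L) (h3 : 3 ≤ p₀) {K N : ℝ} (hK : 1 ≤ K) (hN : 0 ≤ N)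
    (hw : ∀ v p, |w v (q p)| ≤ K / q p) (hirr : ∀ v, Φ v v = false) {v₁ v₂ : V}
    (h12 : Φ v₁ v₂ = true) (h21 : Φ v₂ v₁ = false) (c : V → ℕ → Prop)
    (hc1 : ∀ D, c v₁ D → exp ((105 * K ^ 2 + 24 * N + 16) * L) < D)
    (hc2 : ∀ D, c v₂ D → exp ((105 * K ^ 2 + 24 * N + 16) * L) < D) :
    |SS q Φ w c| ≤ (8 * K + 27) * exp ((K * Fintype.card V - N) * L) := by
  classical
  have hne : v₁ ≠ v₂ := by rintro rfl; rw [hirr] at h12; exact Bool.false_ne_true h12
  unfold SS
  rw [sum_fiber {v₁, v₂}]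
  have key : ∀ τ' ∈ outer (ι := ι) {v₁, v₂}, |∑ δ ∈ inner {v₁, v₂} τ',
      if ∀ v, c v (DV q (mg τ' δ) v) then wt q w (mg τ' δ) * sg q Φ (mg τ' δ) else 0| ≤
      |wt q w τ'| * ((8 * K + 27) * exp (-N * L)) := by
    intro τ' hτ'
    by_cases hout : ∀ v, v ∉ ({v₁, v₂} : Finset V) → c v (DV q τ' v)
    swap
    · rw [sum_eq_zero, abs_zero]
      · positivity
      · intro δ hδ
        rw [if_neg]
        intro hc
        exact hout fun v hv => by rw [← DV_mg_out hδ hv]; exact hc v
    let a : V → Finset ι → ℝ := fun v S => if (∀ p ∈ S, τ' p = none) ∧ c v (pp q S) then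
      ∏ p ∈ S, w v (q p) * ps q Φ τ' (some v) p else 0
    have ha : ∀ v S, |a v S| ≤ ∏ p ∈ S, K / q p := by
      intro v S
      simp only [a]
      split_ifs
      · rw [abs_prod]
        refine prod_le_prod (fun _ _ => abs_nonneg _) fun p _ => ?_
        rw [abs_mul]
        exact (mul_le_of_le_one_right (abs_nonneg _) (abs_ps_le _ _)).trans (hw v p)
      · rw [abs_zero]; positivity
    have hbil := bilinear_bound h h3 hK hN (a v₁) (a v₂) (ha v₁) (ha v₂)
      (fun S hS => hc1 _ (by by_contra hc; exact hS (if_neg fun h => hc h.2)))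
      (fun S hS => hc2 _ (by by_contra hc; exact hS (if_neg fun h => hc h.2)))
    have e : ∑ δ ∈ inner {v₁, v₂} τ',
        (if ∀ v, c v (DV q (mg τ' δ) v) then wt q w (mg τ' δ) * sg q Φ (mg τ' δ) else 0) =
        wt q w τ' * sg q Φ τ' *
          ∑ S, ∑ T, a v₁ S * a v₂ T * (J((pp q S : ℤ) | pp q T) : ℝ) := by
      rw [← sum_product', mul_sum]
      refine sum_of_injOn (fun δ => (univ.filter fun p => δ p = some v₁,
        univ.filter fun p => δ p = some v₂)) ?_ (fun _ _ => by simp) ?_ ?_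
      · intro δ hδ δ' hδ' hh
        simp only [Prod.mk.injEq, Finset.ext_iff, mem_filter, mem_univ, true_and] at hh
        rw [mem_coe, mem_inner] at hδ hδ'
        funext p
        have h1 := hh.1 p
        have h2 := hh.2 p
        specialize hδ p
        specialize hδ' p
        rcases h5 : δ p with _ | v <;> rcases h6 : δ' p with _ | v' <;> simp_all <;> grind
      · rintro ⟨S, T⟩ _ hST
        by_contra hne0
        apply hST
        have h1 : a v₁ S ≠ 0 := fun h => hne0 (by simp [h])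
        have h2 : a v₂ T ≠ 0 := fun h => hne0 (by simp [h])
        have h4 : (J((pp q S : ℤ) | pp q T) : ℝ) ≠ 0 := fun h => hne0 (by simp [h])
        have h5 : ∀ p ∈ S, τ' p = none := by
          by_contra hc; exact h1 (if_neg fun h => hc h.1)
        have h6 : ∀ p ∈ T, τ' p = none := by
          by_contra hc; exact h2 (if_neg fun h => hc h.1)
        have h7 : ∀ p ∈ S, p ∉ T := by
          intro p hp hp'
          apply h4
          rw [jac_pp h.prime]
          refine prod_eq_zero hp (prod_eq_zero hp' ?_)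
          rw [jacobiSym.mod_left, Int.emod_self, jacobiSym.zero_left (h.prime p).one_lt]; simp
        refine ⟨fun p => if p ∈ S then some v₁ else if p ∈ T then some v₂ else none, ?_, ?_⟩
        · rw [mem_coe, mem_inner]
          intro p v hv
          split_ifs at hv with hp hp'
          · simp only [Option.some.injEq] at hv; simp [← hv, h5 p hp]
          · simp only [Option.some.injEq] at hv; simp [← hv, h6 p hp']
        · simp only [Prod.mk.injEq, Finset.ext_iff, mem_filter, mem_univ, true_and]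
          constructor
          · intro p; split_ifs <;> simp_all [hne.symm]
          · intro p; split_ifs <;> simp_all
      · intro δ hδ
        have hδ' := mem_inner.1 hδ
        have hv : ∀ p, δ p = none ∨ δ p = some v₁ ∨ δ p = some v₂ := by
          intro p
          rcases h5 : δ p with _ | v
          · simp
          · simpa using (hδ' p v h5).2
        have hcond : (∀ v, c v (DV q (mg τ' δ) v)) ↔ c v₁ (DV q δ v₁) ∧ c v₂ (DV q δ v₂) := by
          constructor
          · intro hc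
            exact ⟨by rw [← DV_mg_in hτ' hδ (by simp)]; exact hc _,
              by rw [← DV_mg_in hτ' hδ (by simp)]; exact hc _⟩
          · intro hc v
            by_cases hv : v ∈ ({v₁, v₂} : Finset V)
            · rw [DV_mg_in hτ' hδ hv]
              simp only [mem_insert, mem_singleton] at hv
              rcases hv with rfl | rfl
              · exact hc.1
              · exact hc.2
            · rw [DV_mg_out hδ hv]; exact hout v hv
        have hs : ∀ v, ∀ p ∈ univ.filter fun p => δ p = some v, τ' p = none :=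
          fun v p hp => (hδ' p v (mem_filter.1 hp).2).1
        simp only [hcond]
        simp only [a, DV, and_iff_right (hs _)]
        by_cases hc1 : c v₁ (pp q (univ.filter fun p => δ p = some v₁))
        swap
        · simp [hc1]
        by_cases hc2 : c v₂ (pp q (univ.filter fun p => δ p = some v₂))
        swap
        · simp [hc2]
        simp only [hc1, hc2, and_self, if_true]
        rw [wt_mg hδ, sg_mg hδ, jac_pp h.prime]
        have e1 : wt q w δ * ∏ p, ps q Φ τ' (δ p) p =
            (∏ p with δ p = some v₁, w v₁ (q p) * ps q Φ τ' (some v₁) p) *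
              ∏ p with δ p = some v₂, w v₂ (q p) * ps q Φ τ' (some v₂) p := by
          rw [wt, prod_filter, prod_filter, ← prod_mul_distrib, ← prod_mul_distrib]
          refine prod_congr rfl fun p _ => ?_
          rcases hv p with h5 | h5 | h5 <;> simp [h5, ps_none, hne, hne.symm]
        have e2 : sg q Φ δ = ∏ p with δ p = some v₁, ∏ p' with δ p' = some v₂,
            (J((q p : ℤ) | q p') : ℝ) := by
          rw [sg, prod_filter]
          refine prod_congr rfl fun p _ => ?_
          rw [prod_filter]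
          split_ifs with h5
          · refine prod_congr rfl fun p' _ => ?_
            rcases hv p' with h6 | h6 | h6 <;> simp [h5, h6, tm_ss, hne, hirr, h12]
          · refine prod_eq_one fun p' _ => ?_
            rcases hv p with h5 | h5 | h5 <;> rcases hv p' with h6 | h6 | h6 <;>
              simp_all [tm_ss]
        rw [← e1, ← e2]; ring
    rw [e, abs_mul, abs_mul]
    calc _ ≤ |wt q w τ'| * 1 * ((8 * K + 27) * exp (-N * L)) := by
          gcongr
          exact abs_sg_le _
      _ = _ := by ring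
  refine (abs_sum_le_sum_abs _ _).trans ((sum_le_sum key).trans ?_)
  rw [← sum_mul]
  calc _ ≤ exp (K * Fintype.card V * L) * ((8 * K + 27) * exp (-N * L)) := by
        gcongr
        exact sum_abs_wt_le h (by linarith) hw _
    _ = _ := by rw [sub_mul, sub_eq_add_neg, exp_add, neg_mul]; ring

omit [DecidableEq ι] in
lemma pp_le_prod_DV (h : PSys q p₀ L) (τ : ι → Option V) (S : Finset ι) (W : Finset V)
    (hS : ∀ p ∈ S, ∃ v ∈ W, τ p = some v) : pp q S ≤ ∏ v ∈ W, DV q τ v := by
  classical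
  have h1 : pp q S = ∏ v ∈ W, ∏ p ∈ S with τ p = some v, q p := by
    rw [pp, ← prod_fiberwise_of_maps_to (t := W.image some) (g := τ)
      (fun p hp => by obtain ⟨v, hv, h⟩ := hS p hp; exact mem_image.2 ⟨v, hv, h.symm⟩),
      prod_image fun _ _ _ _ h => Option.some_injective _ h]
  rw [h1]
  refine prod_le_prod' fun v _ => ?_
  exact prod_le_prod_of_subset_of_one_le' (filter_subset_filter _ (subset_univ _))
    fun p _ _ => (h.prime p).pos

/-- The induced character is a twisted Jacobi symbol with small conductor. -/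
lemma ps_eq (h : PSys q p₀ L) (h3 : 3 ≤ p₀) (τ' : ι → Option V) (v : V) {Λ : ℝ} (hΛ : 1 ≤ Λ)
    (h1 : ∃ v', Φ v v' ≠ Φ v' v ∧ 1 < DV q τ' v')
    (h2 : ∀ v', Φ v v' ≠ Φ v' v → (DV q τ' v' : ℝ) ≤ Λ) :
    ∃ (κ : ℕ → ℝ) (l a : ℕ), IsCh24 κ ∧ l.Prime ∧ 3 < l ∧ 0 < a ∧ ¬l ∣ a ∧
      ((l * a : ℕ) : ℝ) ≤ Λ ^ Fintype.card V ∧
      ∀ p, τ' p = none → ps q Φ τ' (some v) p = (J((q p : ℤ) | l * a) : ℝ) * κ (q p) := by
  set S := univ.filter fun p' => lk Φ (some v) (τ' p') ≠ lk Φ (τ' p') (some v) with hS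
  obtain ⟨v', hv', hD⟩ := h1
  obtain ⟨p₁, hp₁⟩ : (univ.filter fun p => τ' p = some v').Nonempty := by
    rw [nonempty_iff_ne_empty]
    intro h0
    rw [DV, h0] at hD
    simp [pp] at hD
  have hp₁S : p₁ ∈ S := by
    rw [hS, mem_filter, (mem_filter.1 hp₁).2]
    exact ⟨mem_univ _, hv'⟩
  have e : q p₁ * pp q (S.erase p₁) = pp q S := mul_prod_erase S _ hp₁S
  refine ⟨fun n => ∏ p' ∈ univ.filter fun p' => lk Φ (τ' p') (some v), th (q p') n,
    q p₁, pp q (S.erase p₁), IsCh24.prod _ _ fun _ => isCh24_th _, h.prime _,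
    lt_of_le_of_lt h3 (h.big _), h.pp_pos _, by rw [h.dvd_pp]; simp, ?_, ?_⟩
  · rw [e]
    have h4 := pp_le_prod_DV h τ' S (univ.filter fun v' => Φ v v' ≠ Φ v' v) (by
      intro p hp
      have := (mem_filter.1 hp).2
      rcases h5 : τ' p with _ | v''
      · simp [h5, lk] at this
      · exact ⟨v'', mem_filter.2 ⟨mem_univ _, by simpa [h5, lk] using this⟩, rfl⟩)
    calc (pp q S : ℝ) ≤ ∏ v' with Φ v v' ≠ Φ v' v, (DV q τ' v' : ℝ) := by exact_mod_cast h4
      _ ≤ ∏ v' with Φ v v' ≠ Φ v' v, Λ :=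
          prod_le_prod (fun _ _ => by positivity) fun v' hv' => h2 v' (mem_filter.1 hv').2
      _ ≤ Λ ^ Fintype.card V := by
          rw [prod_const]
          exact pow_le_pow_right₀ hΛ (card_le_univ _)
  · intro p hp
    have e2 := jac_pp h.prime {p} S
    rw [prod_singleton, pp, prod_singleton] at e2
    beta_reduce
    rw [e, e2, hS, prod_filter, prod_filter, ← prod_mul_distrib, ps]
    refine prod_congr rfl fun p' _ => ?_
    rcases h5 : τ' p' with _ | v''
    · simp [lk]
    · have hne : p ≠ p' := by rintro rfl; rw [hp] at h5; exact absurd h5 (by simp)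
      have hsq : (J((q p : ℤ) | q p') : ℝ) * (J((q p : ℤ) | q p') : ℝ) = 1 := by
        have : (q p : ℤ).gcd (q p') = 1 := by
          simpa using (Nat.coprime_primes (h.prime p) (h.prime p')).2 fun h0 => hne (h.inj h0)
        rcases jacobiSym.eq_one_or_neg_one this with h | h <;> simp [h]
      rw [tm_ss, tm_ss, recip (h.odd h3 p) (h.odd h3 p')]
      simp only [lk]
      by_cases ha : Φ v v'' = true <;> by_cases hb : Φ v'' v = true <;> simp [ha, hb]
      rw [← mul_assoc, hsq, one_mul]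

/-- Oscillating variables. -/
theorem SS_osc (h : PSys q p₀ L) (h3 : 3 ≤ p₀) {K C₁ Λ Ls : ℝ} (hK : 0 ≤ K)
    (hp₀ : K * Fintype.card V ≤ p₀) (hC₁ : 0 ≤ C₁) (hΛ : 1 ≤ Λ)
    (hLs : ∑ p with (q p : ℝ) ≤ Λ, (q p : ℝ)⁻¹ ≤ Ls)
    (hw : ∀ v p, |w v (q p)| ≤ K / q p) (O U : Finset V)
    (hO : ∀ v ∈ O, ∀ v' ∈ O, Φ v v' = false)
    (hosc : ∀ v ∈ O, ∀ (κ : ℕ → ℝ) (l a : ℕ), IsCh24 κ → l.Prime → 3 < l → 0 < a → ¬l ∣ a →
      ∑ p, w v (q p) * ((J((q p : ℤ) | l * a) : ℝ) * κ (q p)) ≤
        C₁ * (1 + log (2 + log (l * a : ℕ))))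
    (c : V → ℕ → Prop) (hcO : ∀ v ∈ O, ∀ D, c v D) (hcU : ∀ v, v ∉ U → v ∉ O → ∀ D, c v D → (D : ℝ) ≤ Λ)
    (hc1 : ∀ v ∈ O, ∃ v', Φ v v' ≠ Φ v' v ∧ ∀ D, c v' D → 1 < D)
    (hc2 : ∀ v ∈ O, ∀ v', Φ v v' ≠ Φ v' v → ∀ D, c v' D → (D : ℝ) ≤ Λ) :
    |SS q Φ w c| ≤
      exp (Fintype.card V * (C₁ * (1 + log (2 + Fintype.card V * log Λ))) +
        3 * (K * Fintype.card V) * Ls + 4 * (K * Fintype.card V) ^ 2) *
        exp (∑ p, ∑ v ∈ U \ O, |w v (q p)|) := by
  classical
  set n : ℝ := (Fintype.card V : ℝ) with hn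
  set K' := K * n with hK'
  have hK'0 : 0 ≤ K' := by positivity
  have hq0 : ∀ p, (0 : ℝ) < q p := fun p => by exact_mod_cast (h.prime p).pos
  have hK'p : ∀ p, K' / q p ≤ 1 := fun p => by
    rw [div_le_one (hq0 p)]
    exact hp₀.trans (by exact_mod_cast (h.big p).le)
  have hsum : ∀ (W : Finset V) p, ∑ v ∈ W, |w v (q p)| ≤ K' / q p := by
    intro W p
    calc _ ≤ ∑ v, |w v (q p)| := sum_le_sum_of_subset_of_nonneg (subset_univ _)
          fun _ _ _ => abs_nonneg _
      _ ≤ ∑ _v : V, K / q p := sum_le_sum fun v _ => hw v p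
      _ = _ := by simp [hK', hn]; ring
  set E := exp (n * (C₁ * (1 + log (2 + n * log Λ)))) with hE
  let g : ι → Option V → ℝ := fun p x => x.elim 1 fun v =>
    if v ∈ U ∨ (q p : ℝ) ≤ Λ then |w v (q p)| * exp (K' / q p) else 0
  have hg0 : ∀ p x, 0 ≤ g p x := by
    rintro p (_ | v)
    · exact zero_le_one
    · simp only [g, Option.elim]; split_ifs <;> positivity
  unfold SS
  rw [sum_fiber O]
  have key : ∀ τ' ∈ outer (ι := ι) O, |∑ δ ∈ inner O τ',
      if ∀ v, c v (DV q (mg τ' δ) v) then wt q w (mg τ' δ) * sg q Φ (mg τ' δ) else 0| ≤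
      E * ∏ p, g p (τ' p) := by
    intro τ' hτ'
    have hτ := mem_outer.1 hτ'
    by_cases hout : ∀ v, v ∉ O → c v (DV q τ' v)
    swap
    · rw [sum_eq_zero, abs_zero]
      · exact mul_nonneg (exp_pos _).le (prod_nonneg fun p _ => hg0 _ _)
      · intro δ hδ
        rw [if_neg]
        intro hc
        exact hout fun v hv => by rw [← DV_mg_out hδ hv]; exact hc v
    have hlink : ∀ v ∈ O, ∀ v', Φ v v' ≠ Φ v' v → v' ∉ O := fun v hv v' hne hv' =>
      hne (by rw [hO v hv v' hv', hO v' hv' v hv])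
    have hex : ∀ v, v ∈ O → ∃ ψ : ι → ℝ, (∀ p, |ψ p| ≤ 1) ∧
        (∀ p, τ' p = none → ps q Φ τ' (some v) p = ψ p) ∧
        ∑ p, w v (q p) * ψ p ≤ C₁ * (1 + log (2 + n * log Λ)) := by
      intro v hv
      obtain ⟨v', h1, h2⟩ := hc1 v hv
      obtain ⟨κ, l, a, hκ, hl, hl3, ha, hla, hle, hps⟩ := ps_eq h h3 τ' v hΛ
        ⟨v', h1, h2 _ (hout v' (hlink v hv v' h1))⟩
        fun v' h1 => hc2 v hv v' h1 _ (hout v' (hlink v hv v' h1))
      refine ⟨fun p => (J((q p : ℤ) | l * a) : ℝ) * κ (q p), fun p => ?_, hps,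
        (hosc v hv κ l a hκ hl hl3 ha hla).trans ?_⟩
      · rw [abs_mul]; exact mul_le_one₀ (abs_jac_le _ _) (abs_nonneg _) (hκ.1.abs_le _)
      · have h4 : log (l * a : ℕ) ≤ n * log Λ := by
          rw [hn, ← log_pow]
          exact log_le_log (by exact_mod_cast Nat.mul_pos hl.pos ha) hle
        have h5 : 0 ≤ log (l * a : ℕ) := log_natCast_nonneg _
        gcongr
    choose! ψ hψ1 hψ2 hψ3 using hex
    set x : ι → ℝ := fun p => ∑ v ∈ O, w v (q p) * ψ v p with hx
    have hx1 : ∀ p, |x p| ≤ K' / q p := by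
      intro p
      refine (abs_sum_le_sum_abs _ _).trans (le_trans (sum_le_sum fun v hv => ?_) (hsum O p))
      rw [abs_mul]
      exact mul_le_of_le_one_right (abs_nonneg _) (hψ1 v hv p)
    have hx2 : ∑ p, x p ≤ n * (C₁ * (1 + log (2 + n * log Λ))) := by
      rw [hx, sum_comm]
      refine (sum_le_sum hψ3).trans ?_
      rw [sum_const, nsmul_eq_mul]
      have h4 : 0 ≤ log Λ := log_nonneg hΛ
      have h5 : 0 ≤ log (2 + n * log Λ) := log_nonneg (by
        have : 0 ≤ n * log Λ := by positivity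
        linarith)
      gcongr
      rw [hn]; exact_mod_cast card_le_univ O
    have e : ∑ δ ∈ inner O τ',
        (if ∀ v, c v (DV q (mg τ' δ) v) then wt q w (mg τ' δ) * sg q Φ (mg τ' δ) else 0) =
        wt q w τ' * sg q Φ τ' * ∏ p, if τ' p = none then 1 + x p else 1 := by
      have e1 : ∏ p, (if τ' p = none then 1 + x p else 1) = ∑ δ ∈ inner O τ',
          ∏ p, (δ p).elim 1 fun v => w v (q p) * ps q Φ τ' (some v) p := by
        rw [inner, sum_abs_wt_eq _ fun p y => y.elim 1 fun v => w v (q p) * ps q Φ τ' (some v) p]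
        refine prod_congr rfl fun p _ => ?_
        split_ifs with hp
        · rw [sum_insertNone]
          simp only [Option.elim, hx]
          congr 1
          exact sum_congr rfl fun v hv => by rw [hψ2 v hv p hp]
        · simp
      rw [e1, mul_sum]
      refine sum_congr rfl fun δ hδ => ?_
      have hδ' := mem_inner.1 hδ
      rw [if_pos, wt_mg hδ, sg_mg hδ]
      · have e2 : sg q Φ δ = 1 := by
          refine prod_eq_one fun p _ => prod_eq_one fun p' _ => ?_
          rcases h5 : δ p with _ | v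
          · simp
          rcases h6 : δ p' with _ | v'
          · simp
          rw [tm_ss, hO v (hδ' p v h5).2 v' (hδ' p' v' h6).2]; simp
        have e3 : wt q w δ * ∏ p, ps q Φ τ' (δ p) p =
            ∏ p, (δ p).elim 1 fun v => w v (q p) * ps q Φ τ' (some v) p := by
          rw [wt, ← prod_mul_distrib]
          refine prod_congr rfl fun p _ => ?_
          rcases δ p with _ | v <;> simp [ps_none]
        rw [e2, ← e3]; ring
      · intro v
        by_cases hv : v ∈ O
        · exact hcO v hv _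
        · rw [DV_mg_out hδ hv]; exact hout v hv
    rw [e, abs_mul, abs_mul]
    calc _ ≤ |wt q w τ'| * 1 * |∏ p, if τ' p = none then 1 + x p else 1| := by
          gcongr; exact abs_sg_le _
      _ = ∏ p, |(τ' p).elim 1 fun v => w v (q p)| * |if τ' p = none then 1 + x p else 1| := by
          rw [mul_one, wt, abs_prod, abs_prod, prod_mul_distrib]
      _ ≤ ∏ p, exp (x p) * g p (τ' p) := by
          refine prod_le_prod (fun p _ => by positivity) fun p _ => ?_
          have h4 := abs_le.1 (hx1 p)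
          rcases h5 : τ' p with _ | v
          · simp only [Option.elim, abs_one, if_true, one_mul, g, mul_one]
            rw [abs_of_nonneg (by linarith [hK'p p])]
            linarith [add_one_le_exp (x p)]
          · have h6 : v ∈ U ∨ (q p : ℝ) ≤ Λ := by
              by_cases hv : v ∈ U
              · exact Or.inl hv
              · right
                refine le_trans ?_ (hcU v hv (hτ p v h5) _ (hout v (hτ p v h5)))
                exact_mod_cast Nat.le_of_dvd (h.pp_pos _) (h.dvd_pp.2 (by simp [h5]))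
            simp only [Option.elim, g, if_pos h6, reduceCtorEq, if_false, abs_one, mul_one]
            rw [mul_left_comm, ← exp_add]
            exact le_mul_of_one_le_right (abs_nonneg _) (one_le_exp (by linarith))
      _ ≤ _ := by
          rw [prod_mul_distrib, ← exp_sum]
          exact mul_le_mul_of_nonneg_right (exp_le_exp.2 hx2) (prod_nonneg fun p _ => hg0 _ _)
  refine (abs_sum_le_sum_abs _ _).trans ((sum_le_sum key).trans ?_)
  rw [← mul_sum, outer, sum_abs_wt_eq _ g, add_assoc, exp_add, mul_assoc, ← exp_add]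
  refine mul_le_mul_of_nonneg_left ?_ (exp_pos _).le
  simp only [sum_insertNone]
  refine (prod_one_add_le_exp _ _ fun p _ => ?_).trans (exp_le_exp.2 ?_)
  · have : 0 ≤ ∑ v ∈ Oᶜ, g p (some v) := sum_nonneg fun _ _ => hg0 _ _
    linarith
  have hp : ∀ p, ∑ v ∈ Oᶜ, g p (some v) ≤ (if (q p : ℝ) ≤ Λ then 3 * K' * (q p : ℝ)⁻¹ else 0) +
      2 * K' ^ 2 * ((q p : ℝ) ^ 2)⁻¹ + ∑ v ∈ U \ O, |w v (q p)| := by
    intro p
    have ht0 : 0 ≤ K' / q p := div_nonneg hK'0 (hq0 p).le
    have hexp : exp (K' / q p) ≤ 1 + 2 * (K' / q p) := by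
      have := Real.abs_exp_sub_one_le (x := K' / q p) (by rw [abs_of_nonneg ht0]; exact hK'p p)
      rw [abs_of_nonneg ht0] at this
      linarith [(abs_le.1 this).2]
    have h1 := hsum (U \ O) p
    have h2 : 0 ≤ ∑ v ∈ U \ O, |w v (q p)| := sum_nonneg fun _ _ => abs_nonneg _
    simp only [g, Option.elim]
    split_ifs with hq
    · simp only [hq, or_true, if_true, ← sum_mul]
      have h4 := hsum Oᶜ p
      have : (∑ v ∈ Oᶜ, |w v (q p)|) * exp (K' / q p) ≤ K' / q p * 3 :=
        mul_le_mul h4 (by linarith [hK'p p]) (exp_pos _).le ht0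
      have h5 : 0 ≤ 2 * K' ^ 2 * ((q p : ℝ) ^ 2)⁻¹ := by positivity
      have h6 : K' / q p * 3 = 3 * K' * (q p : ℝ)⁻¹ := by ring
      linarith
    · simp only [hq, or_false, ← sum_filter, ← sum_mul]
      have : Oᶜ.filter (· ∈ U) = U \ O := by ext; simp [and_comm]
      rw [this]
      have h4 : 2 * K' ^ 2 * ((q p : ℝ) ^ 2)⁻¹ = 2 * (K' / q p) * (K' / q p) := by
        field_simp
      rw [h4]
      nlinarith
  refine (sum_le_sum fun p _ => hp p).trans ?_
  rw [sum_add_distrib, sum_add_distrib, ← sum_filter, ← mul_sum, ← mul_sum]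
  have h1 : ∑ p, ((q p : ℝ) ^ 2)⁻¹ ≤ 2 := by
    rw [← sum_image (s := univ) (g := q) (f := fun m : ℕ => ((m : ℝ) ^ 2)⁻¹)
      fun _ _ _ _ h0 => h.inj h0]
    simpa using sum_inv_sq_le (univ.image q) 0 fun m hm => by
      obtain ⟨p, -, rfl⟩ := mem_image.1 hm
      exact (h.prime p).pos
  have h2 := mul_le_mul_of_nonneg_left hLs (show 0 ≤ 3 * K' by positivity)
  have h4 := mul_le_mul_of_nonneg_left h1 (show 0 ≤ 2 * K' ^ 2 by positivity)
  linarith

end Pool.Agent.Lib.MP_788af2_nt
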