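import Mathlib

/-!
Elementary estimates for sums over primes.
-/

namespace Pool.Agent.Lib.MP_788af2_nt

open Finset Real

/-- The sum of the reciprocals of the primes up to `y`. -/
noncomputable def LL (y : ℕ) : ℝ := ∑ p ∈ Nat.primesLE y, (p : ℝ)⁻¹

lemma LL_nonneg (y : ℕ) : 0 ≤ LL y := sum_nonneg fun _ _ => by positivity

lemma sum_log_div_le (y : ℕ) : ∑ p ∈ Nat.primesLE y, log p / p ≤ log y + log 4 := by
  rcases Nat.eq_zero_or_pos y with rfl | hy
  · have : Nat.primesLE 0 = ∅ := by decide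
    simp only [this, sum_empty, CharP.cast_eq_zero, log_zero, zero_add]
    positivity
  have hy' : (0 : ℝ) < y := by exact_mod_cast hy
  have h1 : ∑ n ∈ Ioc 0 y, ∑ p ∈ Nat.primesLE y with p ∣ n, log p ≤ y * log y := by
    calc ∑ n ∈ Ioc 0 y, ∑ p ∈ Nat.primesLE y with p ∣ n, log p ≤ ∑ n ∈ Ioc 0 y, log y := by
          refine sum_le_sum fun n hn => ?_
          rw [mem_Ioc] at hn
          have : (Nat.primesLE y).filter (· ∣ n) = n.primeFactors := by
            ext p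
            simp only [mem_filter, Nat.mem_primesLE, Nat.mem_primeFactors]
            constructor
            · rintro ⟨⟨_, h2⟩, h3⟩; exact ⟨h2, h3, hn.1.ne'⟩
            · rintro ⟨h1, h2, -⟩; exact ⟨⟨(Nat.le_of_dvd hn.1 h2).trans hn.2, h1⟩, h2⟩
          rw [this, ← log_prod (fun p hp => by
            exact_mod_cast (Nat.prime_of_mem_primeFactors hp).ne_zero), ← Nat.cast_prod]
          apply log_le_log
          · exact_mod_cast prod_pos fun p hp => (Nat.prime_of_mem_primeFactors hp).pos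
          · exact_mod_cast (Nat.le_of_dvd hn.1 (Nat.prod_primeFactors_dvd n)).trans hn.2
      _ = y * log y := by simp
  have h2 : ∑ n ∈ Ioc 0 y, ∑ p ∈ Nat.primesLE y with p ∣ n, log p =
      ∑ p ∈ Nat.primesLE y, ((y / p : ℕ) : ℝ) * log p := by
    simp_rw [sum_filter]
    rw [sum_comm]
    refine sum_congr rfl fun p _ => ?_
    rw [← sum_filter, sum_const, Nat.Ioc_filter_dvd_card_eq_div, nsmul_eq_mul]
  have h3 : ∑ p ∈ Nat.primesLE y, (y * (log p / p) - log p) ≤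
      ∑ p ∈ Nat.primesLE y, ((y / p : ℕ) : ℝ) * log p := by
    refine sum_le_sum fun p hp => ?_
    have hp0 : (0 : ℝ) < p := by exact_mod_cast (Nat.mem_primesLE.1 hp).2.pos
    have hl : 0 ≤ log (p : ℝ) := log_natCast_nonneg p
    have : (y : ℝ) / p - 1 ≤ ((y / p : ℕ) : ℝ) := by
      have := Nat.lt_floor_add_one ((y : ℝ) / p)
      rw [Nat.floor_div_eq_div] at this
      linarith
    calc y * (log p / p) - log p = ((y : ℝ) / p - 1) * log p := by ring
      _ ≤ _ := mul_le_mul_of_nonneg_right this hl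
  have h4 := Chebyshev.theta_le_log4_mul_x hy'.le
  rw [Chebyshev.theta_eq_sum_primesLE_log] at h4
  rw [sum_sub_distrib, ← mul_sum] at h3
  have : y * ∑ p ∈ Nat.primesLE y, log p / p ≤ y * (log y + log 4) := by linarith
  exact le_of_mul_le_mul_left this hy'

lemma sum_inv_sq_le (s : Finset ℕ) (k : ℕ) (hs : ∀ n ∈ s, k < n) :
    ∑ n ∈ s, ((n : ℝ) ^ 2)⁻¹ ≤ 2 / (k + 1) := by
  refine le_trans (sum_le_sum_of_subset_of_nonneg (t := Ioo k (s.sup id + 1)) ?_
    fun _ _ _ => by positivity) (sum_Ioo_inv_sq_le k _)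
  intro n hn
  rw [mem_Ioo]
  exact ⟨hs n hn, Nat.lt_succ_of_le (le_sup (f := id) hn)⟩

lemma harm_le_prod (y : ℕ) :
    ∑ n ∈ Ioc 0 y, (n : ℝ)⁻¹ ≤ 2 * ∏ p ∈ Nat.primesLE y, (1 + (p : ℝ)⁻¹) := by
  classical
  have hex : ∀ n : ℕ, ∃ x : ℕ × Finset ℕ, n ∈ Ioc 0 y →
      x ∈ Ioc 0 y ×ˢ (Nat.primesLE y).powerset ∧ x.1 ^ 2 * ∏ p ∈ x.2, p = n := by
    intro n
    by_cases hn : n ∈ Ioc 0 y
    · rw [mem_Ioc] at hn
      obtain ⟨a, b, ha, hb, hab, hsq⟩ := Nat.sq_mul_squarefree_of_pos hn.1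
      refine ⟨(b, a.primeFactors), fun _ => ⟨?_, ?_⟩⟩
      · simp only [mem_product, mem_Ioc, mem_powerset]
        refine ⟨⟨hb, ?_⟩, fun p hp => ?_⟩
        · nlinarith [hn.2]
        · rw [Nat.mem_primesLE]
          refine ⟨?_, Nat.prime_of_mem_primeFactors hp⟩
          have := Nat.le_of_mem_primeFactors hp
          have h2 : a ≤ n := Nat.le_of_dvd hn.1 (Dvd.intro_left _ hab)
          omega
      · simp [Nat.prod_primeFactors_of_squarefree hsq, hab]
    · exact ⟨(0, ∅), fun h => absurd h hn⟩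
  choose g hg using hex
  let f : ℕ × Finset ℕ → ℝ := fun x => ((x.1 : ℝ) ^ 2)⁻¹ * ∏ p ∈ x.2, (p : ℝ)⁻¹
  have hf : ∀ n ∈ Ioc 0 y, (n : ℝ)⁻¹ = f (g n) := by
    intro n hn
    conv_lhs => rw [← (hg n hn).2]
    simp [f, mul_comm]
  have hinj : Set.InjOn g (Ioc 0 y : Finset ℕ) := by
    intro m hm n hn h
    rw [← (hg m hm).2, ← (hg n hn).2, h]
  calc ∑ n ∈ Ioc 0 y, (n : ℝ)⁻¹ = ∑ x ∈ (Ioc 0 y).image g, f x := by
        rw [sum_image hinj]; exact sum_congr rfl hf
    _ ≤ ∑ x ∈ Ioc 0 y ×ˢ (Nat.primesLE y).powerset, f x := by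
        refine sum_le_sum_of_subset_of_nonneg ?_ fun _ _ _ => by positivity
        intro x hx
        obtain ⟨n, hn, rfl⟩ := mem_image.1 hx
        exact (hg n hn).1
    _ = (∑ b ∈ Ioc 0 y, ((b : ℝ) ^ 2)⁻¹) * ∏ p ∈ Nat.primesLE y, (1 + (p : ℝ)⁻¹) := by
        rw [prod_one_add, sum_mul_sum, sum_product]
    _ ≤ _ := by
        refine mul_le_mul_of_nonneg_right ?_ (by positivity)
        simpa using sum_inv_sq_le (Ioc 0 y) 0 fun n hn => (mem_Ioc.1 hn).1

lemma prod_one_add_le_exp {ι : Type*} (s : Finset ι) (f : ι → ℝ) (hf : ∀ i ∈ s, -1 ≤ f i) :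
    ∏ i ∈ s, (1 + f i) ≤ exp (∑ i ∈ s, f i) := by
  rw [exp_sum]
  exact prod_le_prod (fun i hi => by linarith [hf i hi]) fun i _ => by
    linarith [add_one_le_exp (f i)]

lemma exp_le_one_add {x : ℝ} (hx : 0 ≤ x) : exp (x - x ^ 2) ≤ 1 + x := by
  have h1 : 0 < 1 + x := by linarith
  rw [← le_log_iff_exp_le h1]
  have := one_sub_inv_le_log_of_pos h1
  refine le_trans ?_ this
  rw [sub_le_sub_iff, ← sub_nonneg]
  have : 1 + x ^ 2 - (x + (1 + x)⁻¹) = x ^ 3 / (1 + x) := by field_simp; ring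
  rw [this]; positivity

lemma exp_le_prod_one_add {ι : Type*} (s : Finset ι) (f : ι → ℝ) (hf : ∀ i ∈ s, 0 ≤ f i) :
    exp (∑ i ∈ s, f i - ∑ i ∈ s, f i ^ 2) ≤ ∏ i ∈ s, (1 + f i) := by
  rw [← sum_sub_distrib, exp_sum]
  exact prod_le_prod (fun i _ => by positivity) fun i hi => exp_le_one_add (hf i hi)

lemma harm_le_log (y : ℕ) : ∑ n ∈ Ioc 0 y, (n : ℝ)⁻¹ ≤ 1 + log y := by
  have := harmonic_le_one_add_log y
  rw [harmonic_eq_sum_Icc] at this
  push_cast at this
  exact this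

lemma log_le_exp_LL (y : ℕ) : log (y + 1) ≤ 2 * exp (LL y) := by
  have h1 := log_add_one_le_harmonic y
  rw [harmonic_eq_sum_Icc] at h1
  push_cast at h1
  refine h1.trans ((harm_le_prod y).trans ?_)
  have := prod_one_add_le_exp (Nat.primesLE y) (fun p => (p : ℝ)⁻¹) fun p _ => by
    have : (0 : ℝ) ≤ (p : ℝ)⁻¹ := by positivity
    linarith
  unfold LL
  linarith

lemma log_le_exp_LL' (y : ℕ) : log y + log 4 ≤ 4 * exp (LL y) := by
  have h1 := log_le_exp_LL y
  have h2 : log y ≤ log (y + 1) := by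
    rcases Nat.eq_zero_or_pos y with rfl | hy
    · simp
    · exact log_le_log (by exact_mod_cast hy) (by linarith)
  have h3 : 1 ≤ exp (LL y) := one_le_exp (LL_nonneg y)
  have h4 : log 4 ≤ 2 := by
    have : log 4 = 2 * log 2 := by rw [← log_rpow (by norm_num)]; norm_num
    linarith [log_two_lt_d9]
  linarith

/-- `LL` grows more slowly than any multiple of the logarithm. -/
lemma LL_le_delta {δ : ℝ} (hδ : 0 < δ) : ∃ C, ∀ (x : ℝ) (z : ℕ), 0 ≤ x → (z : ℝ) ≤ exp x →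
    LL z ≤ δ * x + C := by
  obtain ⟨k, hk⟩ := exists_nat_gt (exp (1 / δ))
  refine ⟨k + 1 + δ * log 4, fun x z hx hz => ?_⟩
  have h1 : LL z ≤ ∑ p ∈ Nat.primesLE z, (δ * (log p / p) + if p ≤ k then 1 else 0) := by
    refine sum_le_sum fun p hp => ?_
    have hp1 : (1 : ℝ) ≤ p := by exact_mod_cast (Nat.mem_primesLE.1 hp).2.one_le
    have hl : 0 ≤ log (p : ℝ) := log_natCast_nonneg p
    split_ifs with h
    · have : (p : ℝ)⁻¹ ≤ 1 := inv_le_one_of_one_le₀ hp1
      have : 0 ≤ δ * (log p / p) := by positivity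
      linarith
    · have h2 : 1 / δ ≤ log p := by
        rw [le_log_iff_exp_le (by linarith)]
        have : (k : ℝ) ≤ p := by exact_mod_cast (not_le.1 h).le
        linarith
      rw [div_le_iff₀ hδ] at h2
      rw [add_zero, ← mul_div_assoc, inv_eq_one_div]
      exact div_le_div_of_nonneg_right (by linarith) (by linarith)
  rw [sum_add_distrib, ← mul_sum, ← sum_filter, sum_const] at h1
  have h2 : (((Nat.primesLE z).filter (· ≤ k)).card : ℝ) ≤ k + 1 := by
    have : (Nat.primesLE z).filter (· ≤ k) ⊆ range (k + 1) := fun p hp =>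
      mem_range.2 (Nat.lt_succ_of_le (mem_filter.1 hp).2)
    exact_mod_cast (card_le_card this).trans (by simp)
  have h3 := sum_log_div_le z
  have h4 : log z ≤ x := by
    rcases Nat.eq_zero_or_pos z with rfl | hz0
    · simpa using hx
    · rwa [log_le_iff_le_exp (by exact_mod_cast hz0)]
  have h5 : δ * ∑ p ∈ Nat.primesLE z, log p / p ≤ δ * (x + log 4) :=
    mul_le_mul_of_nonneg_left (by linarith) hδ.le
  simp only [nsmul_eq_mul, mul_one] at h1
  linarith

/-- First moment of an additive function over subsets. -/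
lemma markov_subsets {ι : Type*} [DecidableEq ι] (P : Finset ι) (h l : ι → ℝ)
    (hh : ∀ p ∈ P, 0 ≤ h p) (hl : ∀ p ∈ P, 0 ≤ l p) :
    ∑ S ∈ P.powerset, (∏ p ∈ S, h p) * ∑ p ∈ S, l p ≤
      (∑ p ∈ P, h p * l p) * ∏ p ∈ P, (1 + h p) := by
  induction P using Finset.induction_on with
  | empty => simp
  | insert a P ha ih =>
    have hh' : ∀ p ∈ P, 0 ≤ h p := fun p hp => hh p (mem_insert_of_mem hp)
    have hl' : ∀ p ∈ P, 0 ≤ l p := fun p hp => hl p (mem_insert_of_mem hp)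
    have ha0 := hh a (mem_insert_self _ _)
    have hl0 := hl a (mem_insert_self _ _)
    specialize ih hh' hl'
    rw [sum_powerset_insert ha, sum_insert ha, prod_insert ha]
    have : ∑ S ∈ P.powerset, (∏ p ∈ insert a S, h p) * ∑ p ∈ insert a S, l p =
        h a * l a * ∏ p ∈ P, (1 + h p) +
          h a * ∑ S ∈ P.powerset, (∏ p ∈ S, h p) * ∑ p ∈ S, l p := by
      rw [prod_one_add, mul_sum, mul_sum, ← sum_add_distrib]
      refine sum_congr rfl fun S hS => ?_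
      have : a ∉ S := fun h => ha (mem_powerset.1 hS h)
      rw [prod_insert this, sum_insert this]; ring
    rw [this]
    have hP : 0 ≤ ∏ p ∈ P, (1 + h p) := prod_nonneg fun p hp => by linarith [hh' p hp]
    have h1 := mul_le_mul_of_nonneg_left ih ha0
    have h2 : 0 ≤ h a * l a * h a * ∏ p ∈ P, (1 + h p) := by positivity
    nlinarith

/-- At least half of the mass of the Euler product sits on small products. -/
lemma prod_le_two_mul_small {ι : Type*} [DecidableEq ι] (P : Finset ι) (q : ι → ℕ)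
    (hP : ∀ p ∈ P, 0 < q p) (h : ι → ℝ)
    (hh : ∀ p ∈ P, 0 ≤ h p) (Z : ℝ) (hZ : 0 < Z)
    (hs : 2 * ∑ p ∈ P, h p * log (q p) ≤ log Z) :
    ∏ p ∈ P, (1 + h p) ≤
      2 * ∑ S ∈ P.powerset with ((∏ p ∈ S, q p : ℕ) : ℝ) ≤ Z, ∏ p ∈ S, h p := by
  have h1 := markov_subsets P h (fun p => log (q p)) hh fun p _ => log_natCast_nonneg (q p)
  have hnn : ∀ S ∈ P.powerset, 0 ≤ ∏ p ∈ S, h p := fun S hS =>
    prod_nonneg fun p hp => hh p (mem_powerset.1 hS hp)
  have hE : 0 ≤ ∑ p ∈ P, h p * log (q p) :=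
    sum_nonneg fun p hp => mul_nonneg (hh p hp) (log_natCast_nonneg (q p))
  have h2 := sum_filter_add_sum_filter_not P.powerset (fun S => ((∏ p ∈ S, q p : ℕ) : ℝ) ≤ Z)
    fun S => ∏ p ∈ S, h p
  rw [← prod_one_add] at h2
  have h3 : log Z * ∑ S ∈ P.powerset with ¬((∏ p ∈ S, q p : ℕ) : ℝ) ≤ Z, ∏ p ∈ S, h p ≤
      ∑ S ∈ P.powerset, (∏ p ∈ S, h p) * ∑ p ∈ S, log (q p) := by
    rw [mul_sum]
    refine le_trans (sum_le_sum fun S hS => ?_) (sum_le_sum_of_subset_of_nonneg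
      (filter_subset (fun S => ¬((∏ p ∈ S, q p : ℕ) : ℝ) ≤ Z) _) fun S hS _ =>
        mul_nonneg (hnn S hS) (sum_nonneg fun p _ => log_natCast_nonneg (q p)))
    rw [mem_filter] at hS
    rw [mul_comm]
    refine mul_le_mul_of_nonneg_left ?_ (hnn S hS.1)
    rw [← log_prod (fun p hp => by exact_mod_cast (hP p (mem_powerset.1 hS.1 hp)).ne'),
      ← Nat.cast_prod]
    exact log_le_log hZ (not_le.1 hS.2).le
  have hPr : 0 ≤ ∏ p ∈ P, (1 + h p) := prod_nonneg fun p hp => by linarith [hh p hp]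
  have hA : 0 ≤ ∑ S ∈ P.powerset with ¬((∏ p ∈ S, q p : ℕ) : ℝ) ≤ Z, ∏ p ∈ S, h p :=
    sum_nonneg fun S hS => hnn S (mem_filter.1 hS).1
  rcases eq_or_lt_of_le hE with h0 | h0
  · have hz : ∀ p ∈ P, h p * log (q p) = 0 :=
      (sum_eq_zero_iff_of_nonneg fun p hp =>
        mul_nonneg (hh p hp) (log_natCast_nonneg (q p))).1 h0.symm
    have hZ1 : 1 ≤ Z := by
      rw [← h0] at hs
      by_contra hc
      have := log_neg hZ (not_le.1 hc)
      linarith
    have : ∑ S ∈ P.powerset with ¬((∏ p ∈ S, q p : ℕ) : ℝ) ≤ Z, ∏ p ∈ S, h p = 0 := by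
      refine sum_eq_zero fun S hS => ?_
      rw [mem_filter] at hS
      by_contra hne
      apply hS.2
      have : ∏ p ∈ S, q p = 1 := by
        refine prod_eq_one fun p hp => ?_
        have h1 := hz p (mem_powerset.1 hS.1 hp)
        have h2 : h p ≠ 0 := fun h0 => hne (prod_eq_zero hp h0)
        have h3 := (mul_eq_zero.1 h1).resolve_left h2
        have hp0 : (0 : ℝ) < q p := by exact_mod_cast hP p (mem_powerset.1 hS.1 hp)
        exact_mod_cast eq_one_of_pos_of_log_eq_zero hp0 h3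
      rw [this]; simpa using hZ1
    linarith
  · have h4 : 2 * (∑ p ∈ P, h p * log (q p)) *
        ∑ S ∈ P.powerset with ¬((∏ p ∈ S, q p : ℕ) : ℝ) ≤ Z, ∏ p ∈ S, h p ≤
        (∑ p ∈ P, h p * log (q p)) * ∏ p ∈ P, (1 + h p) :=
      (mul_le_mul_of_nonneg_right hs hA).trans (h3.trans h1)
    have h5 : 2 * ∑ S ∈ P.powerset with ¬((∏ p ∈ S, q p : ℕ) : ℝ) ≤ Z, ∏ p ∈ S, h p ≤
        ∏ p ∈ P, (1 + h p) := by
      apply le_of_mul_le_mul_left _ h0
      linarith
    linarith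

end Pool.Agent.Lib.MP_788af2_nt
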