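import Pool.Agent.Lib.MP_788af2_nt.MW

/-!
Torsion points on curves with a rational 2-torsion point.
-/

namespace Pool.Agent.Lib.MP_788af2_nt

open WeierstrassCurve WeierstrassCurve.Affine

/-- The group contains a copy of `ℤ/a × ℤ/b`. -/
def Has (a b : ℕ) (G : Type) [AddCommGroup G] : Prop :=
  ∃ f : ZMod a × ZMod b →+ G, Function.Injective f

section group

variable {G H : Type} [AddCommGroup G] [AddCommGroup H] {a b : ℕ}

lemma Has.map (h : Has a b G) (f : G →+ H) (hf : Function.Injective f) : Has a b H := by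
  obtain ⟨g, hg⟩ := h
  exact ⟨f.comp g, hf.comp hg⟩

lemma Has.exists (h : Has a b G) : ∃ P Q : G, ∀ i j : ℕ, i • P + j • Q = 0 ↔ a ∣ i ∧ b ∣ j := by
  obtain ⟨f, hf⟩ := h
  refine ⟨f (1, 0), f (0, 1), fun i j => ?_⟩
  rw [← map_nsmul, ← map_nsmul, ← map_add, map_eq_zero_iff f hf]
  simp [ZMod.natCast_eq_zero_iff]

lemma has_of (ha : 0 < a) (hb : 0 < b) (P Q : G) (hP : a • P = 0) (hQ : b • Q = 0)
    (h : ∀ i < a, ∀ j < b, i • P + j • Q = 0 → i = 0 ∧ j = 0) : Has a b G := by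
  have : NeZero a := ⟨ha.ne'⟩
  have : NeZero b := ⟨hb.ne'⟩
  refine ⟨(ZMod.lift a ⟨zmultiplesHom G P, by simpa using hP⟩).coprod
    (ZMod.lift b ⟨zmultiplesHom G Q, by simpa using hQ⟩), ?_⟩
  rw [injective_iff_map_eq_zero]
  rintro ⟨x, y⟩ hxy
  have hx : x = ((x.val : ℤ) : ZMod a) := by simp
  have hy : y = ((y.val : ℤ) : ZMod b) := by simp
  rw [AddMonoidHom.coprod_apply] at hxy
  dsimp only at hxy
  rw [hx, hy, ZMod.lift_coe, ZMod.lift_coe] at hxy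
  simp only [zmultiplesHom_apply, natCast_zsmul] at hxy
  obtain ⟨h1, h2⟩ := h _ (ZMod.val_lt x) _ (ZMod.val_lt y) hxy
  rw [ZMod.val_eq_zero] at h1 h2
  rw [h1, h2]; rfl

lemma has_one (hb : 0 < b) {Q : G} (hQ : addOrderOf Q = b) : Has 1 b G :=
  has_of one_pos hb 0 Q (by simp) (hQ ▸ addOrderOf_nsmul_eq_zero Q) fun i hi j hj h => by
    rw [smul_zero, zero_add, ← addOrderOf_dvd_iff_nsmul_eq_zero, hQ] at h
    exact ⟨by omega, Nat.eq_zero_of_dvd_of_lt h hj⟩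

lemma has_two {c : ℕ} (hc : 0 < c) {P Q : G} (hQ : addOrderOf Q = 2 * c) (hP : 2 • P = 0)
    (h0 : P ≠ 0) (h1 : P ≠ c • Q) : Has 2 (2 * c) G := by
  have h2 : (2 * c) • Q = 0 := hQ ▸ addOrderOf_nsmul_eq_zero Q
  refine has_of two_pos (by omega) P Q hP h2 fun i hi j hj h => ?_
  interval_cases i
  · rw [zero_smul, zero_add, ← addOrderOf_dvd_iff_nsmul_eq_zero, hQ] at h
    exact ⟨rfl, Nat.eq_zero_of_dvd_of_lt h hj⟩
  · exfalso
    rw [one_smul] at h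
    have h3 : (2 * j) • Q = 0 := by
      rw [mul_nsmul', ← neg_eq_iff_add_eq_zero.2 h, smul_neg, hP, neg_zero]
    rw [← addOrderOf_dvd_iff_nsmul_eq_zero, hQ, Nat.mul_dvd_mul_iff_left two_pos] at h3
    obtain ⟨k, rfl⟩ := h3
    have hk : k < 2 := by nlinarith
    interval_cases k
    · exact h0 (by simpa using h)
    · rw [two_mul, add_nsmul] at h2
      rw [mul_one, ← h2] at h
      exact h1 (add_right_cancel h)

lemma ord_two_pow {T Q : G} (hT : 2 • T = 0) (h0 : T ≠ 0) (k : ℕ) (h : 2 ^ k • Q = T) :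
    addOrderOf Q = 2 ^ (k + 1) :=
  addOrderOf_eq_prime_pow (by rwa [h]) (by rw [pow_succ', mul_nsmul', h, hT])

lemma ord_mul_three {Q R : G} {k : ℕ} (hQ : addOrderOf Q = 2 ^ k) (hR : 3 • R = 0) (h0 : R ≠ 0) :
    addOrderOf (Q + R) = 2 ^ k * 3 := by
  have : Fact (Nat.Prime 3) := ⟨Nat.prime_three⟩
  have h := addOrderOf_eq_prime hR h0
  rw [(AddCommute.all Q R).addOrderOf_add_eq_mul_addOrderOf_of_coprime, hQ, h]
  rw [hQ, h]
  exact Nat.Coprime.pow_left _ (by norm_num)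

end group

variable {a b c : ℚ}

lemma two_tors {x : ℚ} (h : (cv a b c).Nonsingular x 0) : 2 • Point.some x 0 h = 0 := by
  rw [two_nsmul]
  exact Point.add_of_Y_eq rfl (by simp [negY])

lemma of_two_tors {P : (cv a b c).Point} (h : 2 • P = 0) (h0 : P ≠ 0) :
    ∃ x h, P = Point.some x 0 h := by
  rcases P with _ | ⟨x, y, hP⟩
  · exact absurd rfl h0
  rw [two_nsmul, ← eq_neg_iff_add_eq_zero, Point.neg_some, Point.some.injEq] at h
  have : y = 0 := by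
    have := h.2
    simp only [negY, zero_mul, sub_zero] at this
    linarith
  subst this
  exact ⟨x, hP, rfl⟩

lemma neg_pt {x y : ℚ} (h : (cv a b c).Nonsingular x y) :
    ∃ h', -Point.some x y h = Point.some x (-y) h' := by
  have h' : (cv a b c).Nonsingular x (-y) := by
    rw [nonsing_iff] at h ⊢
    exact ⟨by rw [neg_sq]; exact h.1, h.2.imp id neg_ne_zero.2⟩
  exact ⟨h', by rw [Point.neg_some]; congr 1; simp [negY]⟩

lemma col_of_double {P : (cv a b c).Point} {x y : ℚ} {h : (cv a b c).Nonsingular x y}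
    (hP : 2 • P = Point.some x y h) : ∃ x₁ y₁ h₁ l n, P = Point.some x₁ y₁ h₁ ∧
      Col a b c x₁ y₁ x₁ y₁ x (-y) l n := by
  rcases P with _ | ⟨x₁, y₁, h₁⟩
  · exact absurd (hP.symm.trans (nsmul_zero 2)) (Point.some_ne_zero _)
  obtain ⟨h', e⟩ := neg_pt h
  obtain ⟨l, n, hc⟩ := col_of_sum_eq_zero h₁ h₁ h' (by rw [← e, ← two_nsmul, hP, add_neg_cancel])
  exact ⟨_, _, _, l, n, rfl, hc⟩

lemma double_of_col {x y x₁ y₁ l n : ℚ} (h : (cv a b c).Nonsingular x y)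
    (h₁ : (cv a b c).Nonsingular x₁ y₁) (hc : Col a b c x₁ y₁ x₁ y₁ x (-y) l n) :
    2 • Point.some x₁ y₁ h₁ = Point.some x y h := by
  obtain ⟨h', e⟩ := neg_pt h
  have := sum_eq_zero_of_col h₁ h₁ h' hc
  rwa [← e, add_neg_eq_zero, ← two_nsmul] at this

lemma up4 {Q : (cv a b 0).Point} {h : (cv a b 0).Nonsingular 0 0} (hQ : 2 • Q = Point.some 0 0 h) :
    ∃ t s h', Q = Point.some s (t * s) h' ∧ a = t ^ 2 - 2 * s ∧ b = s ^ 2 := by
  obtain ⟨x, y, h₁, l, n, rfl, e1, -, e3, e4, e5, -⟩ := col_of_double hQ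
  have hn : n = 0 := by linarith
  subst hn
  rw [add_zero] at e1
  subst e1
  exact ⟨l, x, h₁, rfl, by linear_combination -e4, by linear_combination e5⟩

lemma up8 {P : (cv a b 0).Point} {t s : ℚ} {h : (cv a b 0).Nonsingular s (t * s)}
    (hP : 2 • P = Point.some s (t * s) h) (hb : b = s ^ 2) (hs : s ≠ 0) :
    ∃ z w, w ≠ 0 ∧ s = z ^ 2 ∧ (z - w) ^ 2 = -2 * t * w := by
  obtain ⟨x, y, h₁, l, n, -, -, -, e3, -, e5, e6⟩ := col_of_double hP
  have hx : x ≠ 0 := by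
    rintro rfl
    have hn : n = 0 := by simpa using e6
    apply hs
    rw [hn, hb] at e5
    simpa using e5
  have hz : s = (n / x) ^ 2 := by field_simp; linear_combination -e6
  have hn : n ≠ 0 := by rintro rfl; simp [hs] at hz
  refine ⟨n / x, x ^ 2 / n, by positivity, hz, ?_⟩
  subst hb
  obtain ⟨z, rfl⟩ : ∃ z, n = z * x := ⟨n / x, by field_simp⟩
  have hz0 : z ≠ 0 := left_ne_zero_of_mul hn
  rw [mul_div_cancel_right₀ _ hx] at hz ⊢
  subst hz
  field_simp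
  apply mul_left_cancel₀ hz0
  linear_combination z * e5 - 2 * x * e3

lemma up3 {R : (cv a b 0).Point} (hR : 3 • R = 0) (h0 : R ≠ 0) (hb : b ≠ 0) :
    ∃ l w, w ≠ 0 ∧ a = l ^ 2 - 3 * w ^ 2 ∧ b = w ^ 3 * (3 * w + 2 * l) := by
  rcases R with _ | ⟨x, y, h⟩
  · exact absurd rfl h0
  obtain ⟨l, n, -, -, -, e4, e5, e6⟩ := col_of_sum_eq_zero h h h (by
    rw [← hR, three_nsmul, add_assoc])
  have hx : x ≠ 0 := by
    rintro rfl
    have hn : n = 0 := by simpa using e6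
    apply hb
    simpa [hn] using e5
  obtain ⟨w, rfl⟩ : ∃ w, n = w * x := ⟨n / x, by field_simp⟩
  have hw : x = w ^ 2 := by
    apply mul_left_cancel₀ (pow_ne_zero 2 hx)
    linear_combination -e6
  subst hw
  exact ⟨l, w, by rintro rfl; simp at hx, by linear_combination -e4, by linear_combination e5⟩

lemma up2 {P : (cv a b 0).Point} {h : (cv a b 0).Nonsingular 0 0} (hP : 2 • P = 0) (h0 : P ≠ 0)
    (h1 : P ≠ Point.some 0 0 h) : ∃ r, r ≠ 0 ∧ r ^ 2 + a * r + b = 0 := by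
  obtain ⟨x, hx, rfl⟩ := of_two_tors hP h0
  have h2 : x ≠ 0 := by rintro rfl; exact h1 rfl
  refine ⟨x, h2, mul_left_cancel₀ h2 ?_⟩
  linear_combination -((nonsing_iff ..).1 hx).1

lemma disc0 (hb : b ≠ 0) (hd : a ^ 2 - 4 * b ≠ 0) : (cv a b 0).Δ ≠ 0 := by
  rw [disc_cv]
  convert (by positivity : 16 * b ^ 2 * (a ^ 2 - 4 * b) ≠ 0) using 1
  ring

lemma low4 (hΔ : (cv a b 0).Δ ≠ 0) {t s : ℚ} (ha : a = t ^ 2 - 2 * s) (hb : b = s ^ 2) :
    ∃ h h', 2 • Point.some (W' := cv a b 0) s (t * s) h = Point.some 0 0 h' :=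
  ⟨nonsing_of_disc hΔ (by rw [ha, hb]; ring), nonsing_of_disc hΔ (by ring),
    double_of_col (l := t) (n := 0) _ _
      ⟨by ring, by ring, by ring, by rw [ha]; ring, by rw [hb]; ring, by ring⟩⟩

lemma low8 (hΔ : (cv a b 0).Δ ≠ 0) {t z w : ℚ} (ha : a = t ^ 2 - 2 * z ^ 2)
    (hb : b = (z ^ 2) ^ 2) (hw : (z - w) ^ 2 = -2 * t * w) (h) :
    ∃ P : (cv a b 0).Point, 2 • P = Point.some (z ^ 2) (t * z ^ 2) h :=
  ⟨Point.some (z * w) ((-t - w) * (z * w) + z ^ 2 * w) (nonsing_of_disc hΔ (by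
    rw [ha, hb]; linear_combination (z ^ 2 * w * (w - z)) * hw)),
    double_of_col (l := -t - w) (n := z ^ 2 * w) _ _
      ⟨by ring, by ring, by ring, by rw [ha]; linear_combination hw,
        by rw [hb]; linear_combination z ^ 2 * hw, by ring⟩⟩

lemma low3 (hΔ : (cv a b 0).Δ ≠ 0) {l w : ℚ} (ha : a = l ^ 2 - 3 * w ^ 2)
    (hb : b = w ^ 3 * (3 * w + 2 * l)) : ∃ R : (cv a b 0).Point, 3 • R = 0 ∧ R ≠ 0 := by
  have h : (cv a b 0).Nonsingular (w ^ 2) (l * w ^ 2 + w ^ 3) :=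
    nonsing_of_disc hΔ (by rw [ha, hb]; ring)
  refine ⟨Point.some _ _ h, ?_, Point.some_ne_zero _⟩
  rw [three_nsmul, ← add_assoc]
  exact sum_eq_zero_of_col (l := l) (n := w ^ 3) h h h
    ⟨rfl, rfl, rfl, by rw [ha]; ring, by rw [hb]; ring, by ring⟩

lemma low2 (hΔ : (cv a b 0).Δ ≠ 0) {r : ℚ} (h0 : r ≠ 0) (hr : r ^ 2 + a * r + b = 0) (h) :
    ∃ P : (cv a b 0).Point, 2 • P = 0 ∧ P ≠ 0 ∧ P ≠ Point.some 0 0 h :=
  ⟨Point.some r 0 (nonsing_of_disc hΔ (by linear_combination -r * hr)), two_tors _,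
    Point.some_ne_zero _, fun h => h0 (Point.some.inj h).1⟩

/-- Moving a 2-torsion point to the origin. -/
lemma move {A B : ℚ} {m k : ℕ} (hk : 0 < k) (h : Has m (2 * k) (cv 0 A B).Point) :
    ∃ (a b : ℚ) (P Q : (cv a b 0).Point) (h0 : (cv a b 0).Nonsingular 0 0),
      (∀ i j : ℕ, i • P + j • Q = 0 ↔ m ∣ i ∧ 2 * k ∣ j) ∧ k • Q = Point.some 0 0 h0 ∧
      A = b - a ^ 2 / 3 ∧ B = 2 * a ^ 3 / 27 - a * b / 3 := by
  obtain ⟨P, Q, hPQ⟩ := h.exists
  obtain ⟨r, hr, e⟩ := of_two_tors (P := k • Q)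
    (by simpa [mul_nsmul'] using (hPQ 0 (2 * k)).2 ⟨dvd_zero _, dvd_rfl⟩) (fun h => by
      have := Nat.le_of_dvd hk ((hPQ 0 k).1 (by simpa using h)).2
      omega)
  have h1 := ((nonsing_iff ..).1 hr).1
  obtain ⟨f, hf, hf'⟩ := exists_change' (a := 0) (b := A) (c := B) (u := 1) (r := r)
    (a' := 3 * r) (b' := A + 3 * r ^ 2) (c' := 0) one_ne_zero (by ring) (by ring)
    (by linear_combination h1)
  have h2 := hf' r 0 hr
  simp only [sub_self, mul_zero] at h2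
  refine ⟨_, _, f P, f Q, _, fun i j => ?_, by rw [← map_nsmul, e, h2], by ring,
    by linear_combination -h1⟩
  rw [← map_nsmul, ← map_nsmul, ← map_add, map_eq_zero_iff f hf, hPQ]

end Pool.Agent.Lib.MP_788af2_nt
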