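import Pool.Agent.Lib.MP_788af2_nt.Pattern

/-!
Summation over all size patterns.
-/

namespace Pool.Agent.Lib.MP_788af2_nt

open Finset Real
open scoped NumberTheorySymbols

variable {ι : Type} [Fintype ι] [DecidableEq ι] {V : Type} [Fintype V] [DecidableEq V]

lemma SS_split (q : ι → ℕ) (Φ : V → V → Bool) (w : V → ℕ → ℝ) (c : V → ℕ → Prop) (a : V)
    (P : ℕ → Prop) (hP : ∀ D, c a D ↔ ¬P D) :
    SS q Φ w c = SS q Φ w (Function.update c a fun _ => True) -
      SS q Φ w (Function.update c a P) := by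
  classical
  unfold SS
  rw [← sum_sub_distrib]
  refine sum_congr rfl fun τ _ => ?_
  have key : ∀ Q : ℕ → Prop, (∀ v, Function.update c a Q v (DV q τ v)) ↔
      Q (DV q τ a) ∧ ∀ v, v ≠ a → c v (DV q τ v) := by
    intro Q
    constructor
    · intro h
      exact ⟨by simpa using h a, fun v hv => by simpa [hv] using h v⟩
    · intro h v
      by_cases hv : v = a
      · subst hv; simpa using h.1
      · simpa [hv] using h.2 v hv
  have key2 := key (c a)
  rw [Function.update_eq_self] at key2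
  simp only [key, key2, hP]
  by_cases h1 : P (DV q τ a) <;> by_cases h2 : ∀ v, v ≠ a → c v (DV q τ v) <;> simp [h1, h2]

lemma SS_incl (q : ι → ℕ) (Φ : V → V → Bool) (w : V → ℕ → ℝ) (P : ℕ → Prop) (B : ℝ)
    (O : Finset V) : ∀ c : V → ℕ → Prop, (∀ v ∈ O, ∀ D, c v D ↔ ¬P D) →
      (∀ c' : V → ℕ → Prop, (∀ v, v ∉ O → c' v = c v) →
        (∀ v ∈ O, c' v = (fun _ => True) ∨ c' v = P) → |SS q Φ w c'| ≤ B) →
      |SS q Φ w c| ≤ 2 ^ O.card * B := by
  induction O using Finset.induction_on with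
  | empty => intro c _ h; simpa using h c (fun _ _ => rfl) (by simp)
  | insert a O ha ih =>
    intro c h1 h2
    have key : ∀ Q : ℕ → Prop, (Q = (fun _ => True) ∨ Q = P) →
        |SS q Φ w (Function.update c a Q)| ≤ 2 ^ O.card * B := by
      intro Q hQ
      refine ih _ (fun v hv D => ?_) fun c' h3 h4 => h2 c' (fun v hv => ?_) fun v hv => ?_
      · rw [Function.update_of_ne (by rintro rfl; exact ha hv)]
        exact h1 v (mem_insert_of_mem hv) D
      · rw [mem_insert, not_or] at hv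
        rw [h3 v hv.2, Function.update_of_ne hv.1]
      · rcases mem_insert.1 hv with rfl | hv
        · rw [h3 v ha, Function.update_self]; exact hQ
        · exact h4 v hv
    rw [SS_split q Φ w c a P (h1 a (mem_insert_self _ _)), card_insert_of_notMem ha, pow_succ]
    linarith [abs_sub (SS q Φ w (Function.update c a fun _ => True))
      (SS q Φ w (Function.update c a P)), key _ (Or.inl rfl), key _ (Or.inr rfl)]

lemma log_le_eps {b ε : ℝ} (hb : 0 ≤ b) (hε : 0 < ε) :
    ∃ C, ∀ L, 0 ≤ L → log (2 + b * L) ≤ ε * L + C := by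
  refine ⟨2 * (ε / (b + 1)) - log (ε / (b + 1)), fun L hL => ?_⟩
  have h1 : 0 < ε / (b + 1) := by positivity
  have h2 : 0 < 2 + b * L := by positivity
  have h3 := log_le_sub_one_of_pos (mul_pos h1 h2)
  rw [log_mul h1.ne' h2.ne'] at h3
  have h4 : ε / (b + 1) * (b * L) ≤ ε * L := by
    rw [div_mul_eq_mul_div, div_le_iff₀ (by positivity)]
    nlinarith [mul_nonneg hε.le hL]
  nlinarith

/-- The set of non-trivial variables. -/
def supp (τ : ι → Option V) : Finset V := univ.filter fun v => ∃ p, τ p = some v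

lemma one_lt_DV {q : ι → ℕ} (h : ∀ p, (q p).Prime) (τ : ι → Option V) (v : V) :
    1 < DV q τ v ↔ v ∈ supp τ := by
  simp only [supp, mem_filter, mem_univ, true_and]
  constructor
  · intro hD
    by_contra hc
    rw [DV, filter_eq_empty_iff.2 fun p _ hp => hc ⟨p, hp⟩] at hD
    simp [pp] at hD
  · rintro ⟨p, hp⟩
    exact (h p).one_lt.trans_le (Nat.le_of_dvd (prod_pos fun p _ => (h p).pos)
      (dvd_prod_of_mem _ (by simp [hp])))

/-- The total mass of a set of variables. -/
def mass (q : ι → ℕ) (w : V → ℕ → ℝ) (W : Finset V) : ℝ := ∑ p, ∑ v ∈ W, |w v (q p)|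

/-- The oscillation property of a weight. -/
def OscW (q : ι → ℕ) (f : ℕ → ℝ) (C₁ : ℝ) : Prop :=
  ∀ (κ : ℕ → ℝ) (l a : ℕ), IsCh24 κ → l.Prime → 3 < l → 0 < a → ¬l ∣ a →
    ∑ p, f (q p) * ((J((q p : ℤ) | l * a) : ℝ) * κ (q p)) ≤ C₁ * (1 + log (2 + log (l * a : ℕ)))

open Classical in
theorem total_bound (V : Type) [Fintype V] [DecidableEq V] {K C₁ δ : ℝ} (hK : 1 ≤ K)
    (hC₁ : 0 ≤ C₁) (hδ : 0 < δ) : ∃ C, ∀ (ι : Type) [Fintype ι] [DecidableEq ι] (q : ι → ℕ)
      (p₀ : ℕ) (L Tg : ℝ) (Φ : V → V → Bool) (w : V → ℕ → ℝ) (Adm : Finset V → Prop),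
      PSys q p₀ L → 3 ≤ p₀ → K * Fintype.card V ≤ p₀ → 0 ≤ Tg →
      (∀ v p, |w v (q p)| ≤ K / q p) → (∀ v, Φ v v = false) →
      (∀ A U : Finset V, U ⊆ A → Adm A → (∀ v ∈ U, ∀ v' ∈ U, Φ v v' = Φ v' v) →
        mass q w A ≤ Tg ∨ ∃ O ⊆ U, (∀ v ∈ O, ∀ v' ∈ O, Φ v v' = false) ∧
          (∀ v ∈ O, OscW q (w v) C₁ ∧ ∃ v' ∈ A, Φ v v' ≠ Φ v' v) ∧
          mass q w (U \ O) ≤ Tg - δ * L) →
      |∑ τ : ι → Option V, if Adm (supp τ) then wt q w τ * sg q Φ τ else 0| ≤ C * exp Tg := by
  set n : ℝ := (Fintype.card V : ℝ) with hn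
  have hn0 : 0 ≤ n := by positivity
  set A₀ := 105 * K ^ 2 + 24 * (K * n) + 16 with hA₀
  have hA₀0 : 0 < A₀ := by positivity
  obtain ⟨C₂, hC₂⟩ := LL_le_delta (δ := δ / 2 / ((3 * (K * n) + 1) * A₀)) (by positivity)
  obtain ⟨C₃, hC₃⟩ := log_le_eps (b := n * A₀) (ε := δ / 2 / (n * C₁ + 1)) (by positivity)
    (by positivity)
  set C₄ := 8 * K + 27 + exp (4 * (K * n) ^ 2) +
    2 ^ Fintype.card V * exp (n * C₁ * (1 + C₃) + 3 * (K * n) * C₂ + 4 * (K * n) ^ 2) with hC₄
  refine ⟨Fintype.card (Finset V × Finset V) * C₄, ?_⟩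
  intro ι _ _ q p₀ L Tg Φ w Adm h h3 hp₀ hTg hw hirr hcases
  have hL := h.nonneg
  set Λ := exp (A₀ * L) with hΛ
  have hΛ1 : 1 ≤ Λ := one_le_exp (by positivity)
  have hT1 : 1 ≤ exp Tg := one_le_exp hTg
  let c : Finset V × Finset V → V → ℕ → Prop := fun x v D => (1 < D ↔ v ∈ x.1) ∧ (Λ < D ↔ v ∈ x.2)
  have e : ∑ τ : ι → Option V, (if Adm (supp τ) then wt q w τ * sg q Φ τ else 0) =
      ∑ x : Finset V × Finset V, if Adm x.1 then SS q Φ w (c x) else 0 := by
    rw [← sum_fiberwise univ fun τ : ι → Option V =>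
      (supp τ, univ.filter fun v => Λ < DV q τ v)]
    refine sum_congr rfl fun x _ => ?_
    have hiff : ∀ τ : ι → Option V, (supp τ, univ.filter fun v => Λ < DV q τ v) = x ↔
        ∀ v, c x v (DV q τ v) := by
      intro τ
      simp only [c, Prod.ext_iff, Finset.ext_iff, one_lt_DV h.prime, mem_filter, mem_univ,
        true_and, forall_and]
    split_ifs with hx
    · rw [SS, sum_filter]
      refine sum_congr rfl fun τ _ => ?_
      by_cases h1 : ∀ v, c x v (DV q τ v)
      · have h2 := (hiff τ).2 h1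
        rw [if_pos h2, if_pos h1, if_pos (by rw [← h2] at hx; exact hx)]
      · rw [if_neg (fun h => h1 ((hiff τ).1 h)), if_neg h1]
    · refine sum_eq_zero fun τ hτ => if_neg ?_
      rw [← (mem_filter.1 hτ).2] at hx
      exact hx
  have hC₄1 : 8 * K + 27 ≤ C₄ := by
    rw [hC₄, add_assoc]; exact le_add_of_nonneg_right (by positivity)
  have key : ∀ x : Finset V × Finset V, |if Adm x.1 then SS q Φ w (c x) else 0| ≤ C₄ * exp Tg := by
    rintro ⟨A, U⟩
    have hC0 : 0 ≤ C₄ * exp Tg := by positivity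
    split_ifs with hA
    swap
    · simpa using hC0
    by_cases hU : U ⊆ A
    swap
    · rw [SS, sum_eq_zero, abs_zero]
      · exact hC0
      · intro τ _
        refine if_neg fun hc => hU fun v hv => ?_
        have h1 := (hc v).2.2 hv
        exact (hc v).1.1 (by exact_mod_cast hΛ1.trans_lt h1)
    by_cases hlink : ∀ v ∈ U, ∀ v' ∈ U, Φ v v' = Φ v' v
    swap
    · have : ∃ v₁ ∈ U, ∃ v₂ ∈ U, Φ v₁ v₂ = true ∧ Φ v₂ v₁ = false := by
        push Not at hlink
        obtain ⟨v, hv, v', hv', hne⟩ := hlink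
        by_cases h1 : Φ v v' = true
        · exact ⟨v, hv, v', hv', h1, by simpa [h1] using hne⟩
        · exact ⟨v', hv', v, hv, by simpa [h1] using hne, by simpa using h1⟩
      obtain ⟨v₁, hv₁, v₂, hv₂, h12, h21⟩ := this
      have := SS_bilinear h h3 hK (N := K * n) (by positivity) hw hirr h12 h21 (c (A, U))
        (fun D hD => hD.2.2 hv₁) (fun D hD => hD.2.2 hv₂)
      rw [← hn, sub_self, zero_mul, exp_zero, mul_one] at this
      nlinarith
    rcases hcases A U hU hA hlink with hm | ⟨O, hOU, hO, hosc, hm⟩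
    · have := SS_osc h h3 (K := K) (C₁ := 0) (Λ := 1) (Ls := 0) (by linarith) hp₀ le_rfl le_rfl
        (le_of_eq (sum_eq_zero fun p hp => by
          have h1 : (q p : ℝ) ≤ 1 := (mem_filter.1 hp).2
          have h2 : (1 : ℝ) < q p := by exact_mod_cast (h.prime p).one_lt
          linarith)) hw ∅ A (Φ := Φ) (by simp) (by simp) (c (A, U)) (by simp)
        (fun v hv _ D hD => by
          have := hD.1.not.2 hv
          exact_mod_cast not_lt.1 this) (by simp) (by simp)
      simp only [zero_mul, mul_zero, zero_add, sdiff_empty] at this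
      refine this.trans (mul_le_mul ?_ (exp_le_exp.2 hm) (exp_pos _).le (by positivity))
      rw [hC₄, add_comm (8 * K + 27), add_assoc]
      exact le_add_of_nonneg_right (by positivity)
    · have hLs : ∑ p with (q p : ℝ) ≤ Λ, (q p : ℝ)⁻¹ ≤
          δ / 2 / ((3 * (K * n) + 1) * A₀) * (A₀ * L) + C₂ := by
        refine le_trans ?_ (hC₂ (A₀ * L) ⌊Λ⌋₊ (by positivity) (Nat.floor_le (by linarith)))
        rw [← sum_image (g := q) (f := fun m : ℕ => (m : ℝ)⁻¹) fun _ _ _ _ h0 => h.inj h0]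
        refine sum_le_sum_of_subset_of_nonneg ?_ fun _ _ _ => by positivity
        intro m hm
        obtain ⟨p, hp, rfl⟩ := mem_image.1 hm
        exact Nat.mem_primesLE.2 ⟨Nat.le_floor (mem_filter.1 hp).2, h.prime p⟩
      have hB := SS_incl q Φ w (fun D => (D : ℝ) ≤ Λ)
        (exp (n * C₁ * (1 + C₃) + 3 * (K * n) * C₂ + 4 * (K * n) ^ 2) * exp Tg) O (c (A, U))
        (fun v hv D => by
          simp only [c, hOU hv, hU (hOU hv), iff_true, not_le, and_iff_right_iff_imp]
          intro h1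
          exact_mod_cast hΛ1.trans_lt h1) (by
        intro c' h1 h2
        have hnl : ∀ v ∈ O, ∀ v', Φ v v' ≠ Φ v' v → v' ∉ U := fun v hv v' hne hv' =>
          hne (hlink v (hOU hv) v' hv')
        have := SS_osc h h3 (K := K) (by linarith) hp₀ hC₁ hΛ1 hLs hw
          (O.filter fun v => ∀ D, c' v D) (U \ O) (Φ := Φ)
          (fun v hv v' hv' => hO v (mem_filter.1 hv).1 v' (mem_filter.1 hv').1)
          (fun v hv => (hosc v (mem_filter.1 hv).1).1) c' (fun v hv => (mem_filter.1 hv).2)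
          (fun v hv hv' D hD => by
            by_cases hvO : v ∈ O
            · rcases h2 v hvO with h4 | h4
              · exact absurd (mem_filter.2 ⟨hvO, by simp [h4]⟩) hv'
              · rw [h4] at hD; exact hD
            · rw [h1 v hvO] at hD
              exact not_lt.1 (hD.2.not.2 fun h => hv (mem_sdiff.2 ⟨h, hvO⟩)))
          (fun v hv => by
            obtain ⟨v', hv', hne⟩ := (hosc v (mem_filter.1 hv).1).2
            refine ⟨v', hne, fun D hD => ?_⟩
            rw [h1 v' fun h => hnl v (mem_filter.1 hv).1 v' hne (hOU h)] at hD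
            exact hD.1.2 hv')
          (fun v hv v' hne D hD => by
            rw [h1 v' fun h => hnl v (mem_filter.1 hv).1 v' hne (hOU h)] at hD
            exact not_lt.1 (hD.2.not.2 (hnl v (mem_filter.1 hv).1 v' hne)))
        refine this.trans ?_
        rw [← exp_add, ← exp_add, exp_le_exp, ← hn, hΛ, log_exp]
        have e1 : (U \ O) \ (O.filter fun v => ∀ D, c' v D) = U \ O := by
          ext v; simp only [mem_sdiff, mem_filter]; tauto
        rw [e1]
        have h4 := hC₃ L hL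
        rw [mul_assoc] at h4
        have h5 : n * C₁ * log (2 + n * (A₀ * L)) ≤ n * C₁ * (δ / 2 / (n * C₁ + 1) * L + C₃) :=
          mul_le_mul_of_nonneg_left h4 (by positivity)
        have h6 : n * C₁ * (δ / 2 / (n * C₁ + 1) * L) ≤ δ / 2 * L := by
          have : n * C₁ * (δ / 2 / (n * C₁ + 1) * L) = n * C₁ / (n * C₁ + 1) * (δ / 2 * L) := by
            field_simp
          rw [this]
          exact mul_le_of_le_one_left (by positivity) ((div_le_one (by positivity)).2 (by linarith))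
        have h7 : 3 * (K * n) * (δ / 2 / ((3 * (K * n) + 1) * A₀) * (A₀ * L)) ≤ δ / 2 * L := by
          have : 3 * (K * n) * (δ / 2 / ((3 * (K * n) + 1) * A₀) * (A₀ * L)) =
              3 * (K * n) / (3 * (K * n) + 1) * (δ / 2 * L) := by
            field_simp
          rw [this]
          exact mul_le_of_le_one_left (by positivity) ((div_le_one (by positivity)).2 (by linarith))
        unfold mass at hm
        nlinarith)
      refine hB.trans ?_
      rw [← mul_assoc]
      refine mul_le_mul_of_nonneg_right ?_ (exp_pos _).le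
      rw [hC₄]
      refine le_trans ?_ (le_add_of_nonneg_left (by positivity))
      gcongr
      · norm_num
      · exact card_le_univ O
  rw [e]
  refine (abs_sum_le_sum_abs _ _).trans ((sum_le_sum fun x _ => key x).trans (le_of_eq ?_))
  simp [mul_assoc]

end Pool.Agent.Lib.MP_788af2_nt
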